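import Mathlib
import Pool.Graph.R_seed8.H807R2.Dav1

/-!
# Project VB (helper544): prime k-tuples `f_i(n) + a_i` for almost all `a` in SHORT boxes. Statements with proofs.

Every `S_...` is a `Prop` which has to be proved. The docstring contains the complete proof.

Library facts (module `Pool.Graph.R_seed8.H807R2.Dav1`, namespace `Pool.Agent.H807R2.Dav`): `ee x = exp (2 π i x)`, `norm_ee`,
`ee_add`, `ee_int`; `dd x = ‖ee x - 1‖`, `dd_ge : 0 ≤ t → t ≤ 1 → 4 * min t (1 - t) ≤ dd t`, `dd_add_int`, `dd_neg`;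
`KK M x = 3 M / (1 + M dd x)`, `KK_nonneg`, `KK_le : KK M x ≤ 3 M`, `KK_le' : 0 < d → d ≤ dd x → KK M x ≤ 3 / d`;
`geo_bound : a ≤ b → (b : ℝ) - a ≤ M → ‖∑ m ∈ Ico a b, ee (m * x)‖ ≤ KK M x`;
`vino : 1 ≤ q → IsCoprime a q → |α - a / q| ≤ 1 / q ^ 2 → 0 ≤ M → ∀ y H, ∑ j ∈ range H, KK M (y + j * α) ≤
(H / q + 1) * (39 * M + 3 * q * (1 + Real.log q))`. Note that `KK M x` is nondecreasing in `M ≥ 0`.
-/

set_option autoImplicit false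

namespace Pool.Agent.H544.VB
open Finset
open Pool.Agent.H807R2.Dav

/-- coefficients of Vaughan's identity (a copy of `Pool.Agent.helper24_UT.alU`) -/
noncomputable def alU (U m : ℕ) : ℤ := ∑ b ∈ m.divisors.filter (fun b => b ≤ U), ArithmeticFunction.moebius b

/-- sums over the residue classes in a window, squared (a copy of `Pool.Agent.helper24_UT.NN`) -/
noncomputable def NN (a : ℤ → ℝ) (u : ℤ) (W q : ℕ) : ℝ :=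
  ∑ r ∈ range q, (∑ m ∈ (Ioc u (u + W)).filter (fun m => m % (q : ℤ) = (r : ℤ)), a m) ^ 2

/-- (V1) One dyadic block of the bilinear sums over a short interval.

PROOF. Let `S_m = ∑_{v ∈ I(m)} β v ee(m v θ)`, `I(m) = Ioc (u/m) ((u+L)/m)` (natural division), that is `v ∈ I(m)` iff
`u < m v ≤ u + L` (`Nat.div_lt_iff_lt_mul`, `Nat.le_div_iff_mul_le`). By Cauchy-Schwarz the left side is
`≤ A2 * ∑_{U<m≤2U} ‖S_m‖²`, and (expand the square, exchange the sums)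
`∑_m ‖S_m‖² = ∑_{v,v'} β v β v' ∑_{m ∈ J(v,v')} ee(m (v - v') θ)`,
`J(v,v') = {U < m ≤ 2U, u < m v ≤ u+L, u < m v' ≤ u+L}`, an interval (`Ico`) of natural numbers. Here `1 ≤ v ≤ (u+L)/U ≤ X/U`
(note `v ≥ 1` as `m v > u ≥ 0`), and if `J` is not empty then `|v - v'| * U ≤ L`, as `m |v - v'| < L` and `m > U`.
The interval `J(v,v')` has at most `L / v + 1` elements (the `m` with `u < m v ≤ u + L`), so by `geo_bound` (for `v' > v` use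
`KK_neg` or conjugation) the inner sum is `≤ KK (L/v + 1) (r θ)`, `r = |v - v'|`. So
`∑_m ‖S_m‖² ≤ B1² ∑_{1≤v≤X/U} 2 ∑_{0≤r≤L/U} KK (L/v + 1) (r θ)`. By `vino` with `H = L/U + 1`, `y = 0`,
the sum over `r` is `≤ ((L/U + 1)/q + 1)(39 (L/v+1) + 3 q (1 + log q)) ≤ (L/(U q) + 2)(39 (L/v+1) + 3 q (1 + log X))`, and
`∑_{1≤v≤X/U} (L/v + 1) ≤ L (1 + log X) + X/U`, `∑_{v ≤ X/U} 3 q (1+log X) ≤ 3 q (1+log X) X/U`. Altogether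
`∑_m ‖S_m‖² ≤ 2 B1² (L/(U q) + 2) (1+log X) (39 L + 42 X q/U)`, and multiplying out gives four terms which are
`≤ C (1+log X) B1² (L²/(U q) + L X/U² + L + X q/U)`. -/
def S_V1 : Prop := ∃ C : ℝ, 1 ≤ C ∧ ∀ (X L u U q : ℕ) (b : ℤ) (θ : ℝ), 2 ≤ X → 1 ≤ L → u + L ≤ X → 1 ≤ U → U ≤ X → 1 ≤ q →
  q ≤ X → IsCoprime b (q : ℤ) → |θ - b / q| ≤ 1 / (q : ℝ) ^ 2 → ∀ (α β : ℕ → ℝ) (A2 B1 : ℝ), 0 ≤ A2 → 0 ≤ B1 →
  ∑ m ∈ Ioc U (2 * U), α m ^ 2 ≤ A2 → (∀ v, v ≤ X → |β v| ≤ B1) →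
  ‖∑ m ∈ Ioc U (2 * U), ∑ v ∈ Ioc (u / m) ((u + L) / m), ((α m * β v : ℝ) : ℂ) * ee (((m * v : ℕ) : ℝ) * θ)‖ ^ 2 ≤
    C * (1 + Real.log X) * A2 * B1 ^ 2 * ((L : ℝ) ^ 2 / (U * q) + L * X / U ^ 2 + L + X * q / U)

/-- (V2) The bilinear sums of Vaughan's identity over a short interval.

PROOF. The left side is `‖∑_{m > U} ∑_{v ∈ Ioc (u/m) ((u+L)/m), v > U} alU U m Λ(v) ee(m v θ)‖` (`n = m v`). Put `β v = Λ(v)` for
`v > U` and `0` otherwise (`|β v| ≤ log X` for `v ≤ X`). As `m v ≤ X` and `v > U` we have `m < X / U`. Split `m > U` into the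
blocks `(U_j, 2 U_j]`, `U_j = 2^j U`, `j < J`; only blocks with `U_j U ≤ X` are needed, their number is `≤ 2 (1 + log X)`. For each
block use S_V1 with `α m = alU U m`: `|alU U m| ≤ τ(m)`, and
`A2 = ∑_{m ≤ 2 U_j} τ(m)² ≤ 2 U_j (1 + log (2 U_j))^4` (library: `alU_le` and `tau_pow_sum` (with `k = 2`) in the file
`Pool/Graph/R_pool_sql_team_seeded_620a6dc7/helper24_UT_/II.lean`, lines 13-160, which only need Mathlib: get the text with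
`team-store fetch --alone` and copy these lemmas into your file; note `1 + log (2 U_j) ≤ 2 (1 + log X)`). So
the square of the block is `≤ C' (1+log X)^7 U_j (L²/(U_j q) + L X/U_j² + L + X q/U_j) ≤ C' (1+log X)^7 (L²/q + 2 L X/U + X q)`
(use `U_j ≥ U` and `U_j ≤ X/U`), and the square root is at most the sum of the square roots. -/
def S_V2 : Prop := ∃ (C : ℝ) (k : ℕ), 1 ≤ C ∧ ∀ (X L u U q : ℕ) (b : ℤ) (θ : ℝ), 2 ≤ X → 1 ≤ L → u + L ≤ X → 1 ≤ U → U ≤ X →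
  1 ≤ q → q ≤ X → IsCoprime b (q : ℤ) → |θ - b / q| ≤ 1 / (q : ℝ) ^ 2 →
  ‖∑ n ∈ Ioc u (u + L), ((∑ x ∈ n.divisorsAntidiagonal.filter (fun x => U < x.1 ∧ U < x.2),
      (alU U x.1 : ℝ) * ArithmeticFunction.vonMangoldt x.2 : ℝ) : ℂ) * ee ((n : ℝ) * θ)‖ ≤
    C * (1 + Real.log X) ^ k * (L / Real.sqrt q + Real.sqrt (L * X / U) + Real.sqrt (X * q))

/-- (V3) The linear sums of Vaughan's identity over a short interval.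

PROOF. Writing `n = d v` the left side is `≤ ∑_{1≤d≤D} |γ d| ‖T_d‖`, `T_d = ∑_{v ∈ Ioc (u/d) ((u+L)/d)} (log v)^i ee(v d θ)`.
The number of the `v` is `≤ L/d + 1`. For `i = 0`, `‖T_d‖ ≤ KK (L/d+1) (d θ)` by `geo_bound`. For `i = 1` partial summation (log is
monotone, `0 ≤ log v ≤ log X`, and every partial sum over an interval inside is `≤ KK (L/d+1) (d θ)`) gives
`‖T_d‖ ≤ 3 (1 + log X) KK (L/d+1) (d θ)`. And `|γ d| ≤ log (d + 3) ≤ 3 (1 + log X)` for `d ≤ D ≤ X`. So the left side is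
`≤ 9 (1+log X)² ∑_{1≤d≤D} KK (L/d+1) (d θ)`.
(a) `d ≤ B`: `d θ = d b/q + d (θ - b/q)`; as `2 B ≤ q`, `|d (θ - b/q)| ≤ B/q² ≤ 1/(2q)`, and `d b / q` has distance `≥ 1/q` from the
integers (`b` is coprime to `q` and `0 < d < q`). So the distance of `d θ` to the nearest integer is `≥ 1/(2q)`, `dd (d θ) ≥ 2/q`
(`dd_ge` after subtracting an integer) and `KK .. ≤ 3 q / 2`. These `d` contribute `≤ 3 B q / 2`.
(b) `d > B`: blocks `d ∈ (B_j, 2 B_j]`, `B_j = 2^j B ≤ D` (at most `2 (1+log X)` blocks). There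
`KK (L/d+1) (d θ) ≤ KK (L/B_j+1) (d θ)` (monotone), and `vino` with `y = (B_j + 1) θ`, `H = B_j` bounds the block by
`(B_j/q + 1)(39 (L/B_j + 1) + 3 q (1 + log q)) ≤ 100 (1+log X) (L/q + L/B + D + q)` (use `B ≤ B_j ≤ D`, `1 ≤ q ≤ X`).
Finally `q ≤ B q`. -/
def S_V3 : Prop := ∃ (C : ℝ) (k : ℕ), 1 ≤ C ∧ ∀ (X L u D B q i : ℕ) (b : ℤ) (θ : ℝ) (γ : ℕ → ℝ), 2 ≤ X → 1 ≤ L → u + L ≤ X →
  D ≤ X → 1 ≤ B → 2 * B ≤ q → q ≤ X → IsCoprime b (q : ℤ) → |θ - b / q| ≤ 1 / (q : ℝ) ^ 2 →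
  (∀ d, |γ d| ≤ Real.log ((d : ℝ) + 3)) → i ≤ 1 →
  ‖∑ n ∈ Ioc u (u + L), ((∑ d ∈ n.divisors.filter (fun d => d ≤ D), γ d * Real.log ((n / d : ℕ) : ℝ) ^ i : ℝ) : ℂ) *
      ee ((n : ℝ) * θ)‖ ≤
    C * (1 + Real.log X) ^ k * (L / q + L / B + D + B * q)

/-- (V4) Vinogradov's estimate for the primes in short intervals of length `L ≥ X^(2/3) (log X)^(B/3)`, minor arcs.

TO PROVE: `S_V2 → S_V3 → S_V4`. PROOF. Let `k2, k3` be the exponents and `C2, C3` the constants of S_V2, S_V3, `k = k2 + k3`,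
`l = log X` (large), `b1 = 2 A + 2 k + 10`, `b2 = A + k + 5`, `B = 2 b1 + 3 b2 + 20` (or larger). From `X² l^B ≤ L³` and `L ≤ X`:
`X l^B ≤ L²`, and `l^B ≤ L`. Put `U = ⌈(X/L) l^b1⌉₊` (so `(X/L) l^b1 ≤ U ≤ 2 (X/L) l^b1`, `U * U ≤ L ≤ X`), `B3 = ⌈l^b2⌉₊`
(`2 * B3 ≤ q`). (0) If `u < U`, remove the `n ≤ U`: they contribute `≤ ∑_{n ≤ U} Λ(n) ≤ U log X ≤ L / (4 l^A)`; what remains is a
sum over `Ioc u' (u' + L')` with `u' = max u U` (if `u' ≥ u + L` nothing remains), `L' ≤ L`; the bounds of S_V2, S_V3 for `L'` are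
at most those for `L`. So we may assume that all `n > U`.
(1) Vaughan's identity `Λ(n) = F1 n - F2 n - F3 n` for `n > U` (library: theorem `vaughan U U n` and `gamma_bound` in
`Pool/Graph/R_pool_sql_team_seeded_620a6dc7/helper24_UT_/Frl2.lean`, lines 1-180, which use only Mathlib and the definition of
`alU`: get the text with `team-store fetch --alone` and copy it; see also the theorem `main` there for the use):
`F1 n = ∑_{d∣n, d≤U} μ(d) log (n/d)`, `F2 n = ∑_{d∣n, d≤U²} γ(d)`, `|γ d| ≤ log (d+3)`,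
`F3 n = ∑_{n = x.1 x.2, x.1 > U, x.2 > U} alU U x.1 Λ(x.2)`.
(2) S_V2 for `F3`: `≤ C2 (2l)^k2 (L/√q + √(L X/U) + √(X q))`, with `q ≥ l^B`, `L X / U ≤ L²/l^b1`, `X q ≤ L²/l^B`: each term is
`≤ L / l^(A + k + 1)`-ish. (3) S_V3 for `F1` (`i = 1`, `D = U`, `γ = μ`) and `F2` (`i = 0`, `D = U * U`) with `B := B3`:
`≤ C3 (2l)^k3 (L/q + L/B3 + U² + B3 q)`; `U² ≤ 4 X² l^(2 b1)/L² ≤ 4 L l^(2 b1 - B)`; `B3 q ≤ 2 l^b2 L²/(X l^B) ≤ 2 L l^(b2 - B)`.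
All together `≤ L / l^A` for large `X`. -/
def S_V4 : Prop := ∀ A : ℕ, ∃ B X₀ : ℕ, ∀ X : ℕ, X₀ ≤ X → ∀ (L u q : ℕ) (b : ℤ) (θ : ℝ),
  (X : ℝ) ^ 2 * Real.log X ^ B ≤ (L : ℝ) ^ 3 → u + L ≤ X → Real.log X ^ B ≤ q → q * X * Real.log X ^ B ≤ (L : ℝ) ^ 2 →
  IsCoprime b (q : ℤ) → |θ - b / q| ≤ 1 / (q : ℝ) ^ 2 →
  ‖∑ n ∈ Ioc u (u + L), (ArithmeticFunction.vonMangoldt n : ℂ) * ee ((n : ℝ) * θ)‖ ≤ L / Real.log X ^ A

/-- (V6) From the mean over all windows to the subwindows of separated windows.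

PROOF. For `j ≤ D` and a window `(v, v + W]`: `NN E v W q ≤ 2 NN E (v + j) W q + 8 (j ρ)²` if `|E| ≤ ρ` on `(v, v + W + j]` (the sums
over a class in the two windows differ by sums over `(v, v+j]` and `(v+W, v+W+j]`; sum over the classes: `∑_r |δ_r| ≤ 2 j ρ`,
`∑_r (S_r + δ_r)² ≤ 2 ∑ S_r² + 2 (∑ |δ_r|)²`). This is the lemma `NN_shift` of
`Pool/Agent/H544/SR/S5.lean` on origin/main (its proof only needs the definition of `NN`; copy it). Sum over `j < D`: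
`D NN E v W q ≤ 2 ∑_{j<D} NN E (v + j) W q + 8 D (D ρ)²`. Apply this with `v = c n + i W`, `i < J`; as `D ≤ W` the numbers
`i W + j` (`i < J`, `j < D`) are different and `< J W`, so `D ∑_{i<J} NN E (c n + i W) W q ≤ 2 ∑_{c n ≤ u < c n + J W} NN E u W q +
8 J D (D ρ)²`. Sum over `n < N`: a given `u` satisfies `c n ≤ u < c n + J W` for at most `J W / s + 1` of the `n`, because the `c n`
are increasing with steps `≥ s` (`c n + s ≤ c n'` for `n < n'`), all in `(u - J W, u]`. All these `u` are in `range X` as integers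
(`0 ≤ c n`, `c n + J W ≤ X`). -/
def S_V6 : Prop := ∀ (E : ℤ → ℝ) (X N J D W q s : ℕ) (c : ℕ → ℤ) (ρ : ℝ), 1 ≤ q → 1 ≤ s → D ≤ W → 0 ≤ ρ →
  (∀ n ∈ range N, 0 ≤ c n) → (∀ n ∈ range N, c n + (J * W + D : ℕ) ≤ X) →
  (∀ n ∈ range N, ∀ n' ∈ range N, n < n' → c n + s ≤ c n') → (∀ m : ℤ, 0 ≤ m → m ≤ X → |E m| ≤ ρ) →
  D * ∑ n ∈ range N, ∑ i ∈ range J, NN E (c n + (i * W : ℕ)) W q ≤
    2 * (((J * W : ℕ) : ℝ) / s + 1) * ∑ u ∈ range X, NN E (u : ℤ) W q + 8 * N * J * D * (D * ρ) ^ 2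

/-- (V7a) An exponential sum over a window near a fraction.

PROOF. This is a variant of the lemma `maj` (and `win_rat`) of `Pool/Agent/H544/SR/S4.lean` on origin/main (copy and adapt):
split `Icc 1 L` into `L / W` blocks of length `W` and a remainder of fewer than `W` terms (bounded by `W ρ`). On the block
`l = i W + l'`, `1 ≤ l' ≤ W`, `ee (l θ) = ee (i W θ) ee (l' b / q) ee (l' (θ - b/q))`, `|θ - b/q| ≤ ε`,
`‖ee (l' (θ - b/q)) - 1‖ ≤ 7 W ε`, so up to `7 ε W² ρ` the block is `‖∑_{l'} E(c + iW + l') ee(l' b/q)‖`, which depends only on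
the classes modulo `q`: `≤ ∑_{r<q} |∑_{m ∈ (c+iW, c+iW+W], m ≡ r} E m| ≤ √(q NN E (c + i W) W q)` by Cauchy-Schwarz. -/
def S_V7a : Prop := ∀ (E : ℤ → ℝ) (c : ℤ) (L W q : ℕ) (ρ ε θ : ℝ) (b : ℤ), 1 ≤ q → 1 ≤ W → 0 ≤ ε → 0 ≤ ρ → |(q : ℝ) * θ - b| ≤ ε →
  (∀ l ∈ Icc 1 L, |E (c + l)| ≤ ρ) →
  ‖∑ l ∈ Icc 1 L, (E (c + l) : ℂ) * ee ((l : ℝ) * θ)‖ ≤
    ∑ i ∈ range (L / W), Real.sqrt (q * NN E (c + (i * W : ℕ)) W q) + (L / W : ℕ) * (7 * ε * W ^ 2 * ρ) + W * ρ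

/-- (V7) Exponential sums over separated windows, with a frequency for every window.

TO PROVE: `S_V6 → S_V7a → S_V7`. PROOF. Fix `n < N` and let `θ = θ n`. By Dirichlet's theorem (Mathlib
`Real.exists_int_int_abs_mul_sub_le`, then divide by the gcd) there are `1 ≤ q ≤ Q` and `b` coprime to `q` with
`|q θ - b| ≤ 1/(Q+1) ≤ 1/Q`, in particular `|θ - b/q| ≤ 1/(q Q) ≤ 1/q²`. If `q > Q1` the norm is `≤ μ` by hypothesis. If `q ≤ Q1` use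
S_V7a with `ε = 1/Q`: the norm is `≤ ∑_{i<J} √(q NN E (c n + i W) W q) + R`, `J = L / W`, `R = J * (7 * (1/Q) * W² * ρ) + W ρ`. In both
cases it is `≤ μ + R + ∑_{q ∈ Icc 1 Q1} ∑_{i<J} √(q NN E (c n + i W) W q)`. Sum over `n`. For each `q ≤ Q1`, by Cauchy-Schwarz,
`∑_n ∑_{i<J} √(q NN ..) ≤ √(N J Q1 ∑_n ∑_i NN E (c n + i W) W q)`, and by S_V6 (`J W ≤ L`, `D ≤ W ≤ L`)
`∑_n ∑_i NN .. ≤ (2 (L/s + 1) T + 8 N J D (D ρ)²)/D`. -/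
def S_V7 : Prop := ∀ (E : ℤ → ℝ) (X N L W D s Q Q1 : ℕ) (c : ℕ → ℤ) (ρ μ T : ℝ), 1 ≤ s → 1 ≤ D → D ≤ W → W ≤ L → 1 ≤ Q1 →
  Q1 ≤ Q → 0 ≤ ρ → 0 ≤ μ → (∀ n ∈ range N, 0 ≤ c n) → (∀ n ∈ range N, c n + (2 * L : ℕ) ≤ X) →
  (∀ n ∈ range N, ∀ n' ∈ range N, n < n' → c n + s ≤ c n') → (∀ m : ℤ, 0 ≤ m → m ≤ X → |E m| ≤ ρ) →
  (∀ n ∈ range N, ∀ (q : ℕ) (b : ℤ) (θ : ℝ), Q1 < q → q ≤ Q → IsCoprime b (q : ℤ) → |θ - b / q| ≤ 1 / (q : ℝ) ^ 2 →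
    ‖∑ l ∈ Icc 1 L, (E (c n + l) : ℂ) * ee ((l : ℝ) * θ)‖ ≤ μ) →
  (∀ q : ℕ, 1 ≤ q → q ≤ Q1 → ∑ u ∈ range X, NN E (u : ℤ) W q ≤ T) → ∀ θ : ℕ → ℝ,
  ∑ n ∈ range N, ‖∑ l ∈ Icc 1 L, (E (c n + l) : ℂ) * ee ((l : ℝ) * θ n)‖ ≤
    N * (μ + (L / W : ℕ) * (7 * (1 / (Q : ℝ)) * W ^ 2 * ρ) + W * ρ) +
      Q1 * Real.sqrt (N * (L / W : ℕ) * (Q1 * ((2 * ((L : ℝ) / s + 1) * T + 8 * N * (L / W : ℕ) * D * (D * ρ) ^ 2) / D)))

/-- (V8) Short correlations and exponential sums over one window.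

PROOF. Discrete Fourier analysis modulo `M`. Put `U t = ∑_{l ∈ Icc 1 L} g(c+l) ee(l (α + t/M))`,
`V t = ∑_{m ∈ Ioc (c-A) (c+L+A)} g m ee(-((m - c) t / M))` for `t ∈ range M`, and for `|h| < A`
`a_h = ∑_{l ∈ Icc 1 L} g(c+l) g(c+l+h) ee(l α)`. Then `M a_h = ∑_{t<M} U t V t ee(h t/M)`: expand; the sum over `t` of
`ee(t (l + h - (m - c))/M)` is `M` if `m = c + l + h` and `0` otherwise, because `|l + h - (m - c)| < L + 2 A ≤ M`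
(`1 ≤ l ≤ L`, `|h| < A`, `-A < m - c ≤ L + A`), and `m = c+l+h` does lie in the window. Bessel's inequality (the `h`, `|h| < A`, are different
modulo `M`): `∑_h |M a_h|² ≤ M ∑_{t<M} |U t|² |V t|²`. Let `t₀` maximise `|U t|` over `range M`
(`Finset.exists_max_image`). Then `∑_h |a_h|² ≤ |U t₀|² (1/M) ∑_t |V t|² = |U t₀|² ∑_m g(m)²` (Parseval; the window has
`L + 2A ≤ M` elements). -/
def S_V8 : Prop := ∀ (g : ℤ → ℝ) (A L M : ℕ) (c : ℤ) (α : ℝ), 1 ≤ A → 1 ≤ L → L + 2 * A ≤ M → ∃ t ∈ range M,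
  ∑ h ∈ Ioo (-(A : ℤ)) A, ‖∑ l ∈ Icc 1 L, ((g (c + l) * g (c + l + h) : ℝ) : ℂ) * ee ((l : ℝ) * α)‖ ^ 2 ≤
    ‖∑ l ∈ Icc 1 L, (g (c + l) : ℂ) * ee ((l : ℝ) * (α + (t : ℝ) / M))‖ ^ 2 * ∑ m ∈ Ioc (c - A) (c + L + A), g m ^ 2

/-- (V12) From correlations to arbitrary weights.

PROOF. `S = ∑_a |∑_n w n g a n|`, `S² ≤ A ∑_a (∑_n w n g a n)² = A ∑_{n,n'} w n w n' C(n,n') ≤ A ∑_{n,n'} |C(n,n')|`, where
`C(n,n') = ∑_a g a n g a n'`. Again by Cauchy-Schwarz `(∑_{n,n'} |C|)² ≤ y² ∑_{n,n'} C(n,n')²`, and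
`∑_{n,n'} C(n,n')² = ∑_{a,b} (∑_n g a n g b n)² ≤ y ρ² ∑_{a,b} |∑_n g a n g b n| ≤ y ρ² T`. So `S⁴ ≤ A² y² y ρ² T`. -/
def S_V12 : Prop := ∀ (g : ℕ → ℕ → ℝ) (A y : ℕ) (ρ T : ℝ), 0 ≤ ρ → (∀ a ∈ Icc 1 A, ∀ n ∈ Icc 1 y, |g a n| ≤ ρ) →
  ∑ a ∈ Icc 1 A, ∑ b ∈ Icc 1 A, |∑ n ∈ Icc 1 y, g a n * g b n| ≤ T → ∀ w : ℕ → ℝ, (∀ n, |w n| ≤ 1) →
  (∑ a ∈ Icc 1 A, |∑ n ∈ Icc 1 y, w n * g a n|) ^ 4 ≤ (A : ℝ) ^ 2 * (y : ℝ) ^ 3 * ρ ^ 2 * T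

end Pool.Agent.H544.VB
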