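import Mathlib
import Pool.Agent.H544.SR.S7
import Pool.Agent.H544.VB.Stm

/-!
The correlations along a polynomial, for one range, with free parameters.
-/

set_option autoImplicit false

namespace Pool.Agent.H544.VB
open Finset Polynomial
open Pool.Agent.H807R2.Dav
open Pool.Agent.H373R2.NB (Ph Ph_poly)
open Pool.Agent.H544.SR (inv bil gh Fw count)

/-- the correlation function at distance `h` -/
def Eh (E : ℤ → ℝ) (h : ℤ) (m : ℤ) : ℝ := E m * E (m + h)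

/-- the sum over the distances, for one window -/
lemma one_win (h8 : S_V8) (E : ℤ → ℝ) (A L : ℕ) (c : ℤ) (ρ : ℝ) (hA : 1 ≤ A) (hAL : A ≤ L) (hρ : 0 ≤ ρ)
    (hE : ∀ m : ℤ, m ≤ c + L + A → |E m| ≤ ρ) (τ : ℕ) :
    ∃ θ : ℝ, ∑ h ∈ Ioo (-(A : ℤ)) A, ‖gh (Eh E h) L L c τ‖ ≤ 4 * L * ρ * ‖∑ l ∈ Icc 1 L, (E (c + l) : ℂ) * ee ((l : ℝ) * θ)‖ := by
  obtain ⟨t, ht, h1⟩ := h8 E A L (L + 2 * A) c (-(τ : ℝ) / L) hA (hA.trans hAL) le_rfl
  refine ⟨-(τ : ℝ) / L + (t : ℝ) / ((L + 2 * A : ℕ) : ℝ), ?_⟩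
  set Z := ‖∑ l ∈ Icc 1 L, (E (c + l) : ℂ) * ee ((l : ℝ) * (-(τ : ℝ) / L + (t : ℝ) / ((L + 2 * A : ℕ) : ℝ)))‖ with hZ
  have hZ0 : 0 ≤ Z := norm_nonneg _
  have hA0 : (1 : ℝ) ≤ A := by exact_mod_cast hA
  have hALr : (A : ℝ) ≤ L := by exact_mod_cast hAL
  have hg : ∀ h : ℤ, gh (Eh E h) L L c τ = ∑ l ∈ Icc 1 L, ((E (c + l) * E (c + l + h) : ℝ) : ℂ) * ee ((l : ℝ) * (-(τ : ℝ) / L)) := by
    intro h
    unfold gh Eh
    apply sum_congr rfl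
    intro l _
    congr 2
    push_cast
    ring
  have h2 : ∑ h ∈ Ioo (-(A : ℤ)) A, ‖gh (Eh E h) L L c τ‖ ^ 2 ≤ Z ^ 2 * (3 * L * ρ ^ 2) := by
    simp only [hg]
    refine h1.trans ?_
    apply mul_le_mul_of_nonneg_left _ (sq_nonneg _)
    calc ∑ m ∈ Ioc (c - A) (c + L + A), E m ^ 2 ≤ ∑ _m ∈ Ioc (c - A) (c + L + A), ρ ^ 2 := by
          apply sum_le_sum
          intro m hm
          rw [mem_Ioc] at hm
          rw [← sq_abs]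
          exact pow_le_pow_left₀ (abs_nonneg _) (hE m hm.2) 2
      _ = ((L + 2 * A : ℕ) : ℝ) * ρ ^ 2 := by
          rw [sum_const, Int.card_Ioc, nsmul_eq_mul]
          congr 2
          omega
      _ ≤ _ := by
          apply mul_le_mul_of_nonneg_right _ (sq_nonneg _)
          push_cast
          linarith
  have h3 : (∑ h ∈ Ioo (-(A : ℤ)) A, ‖gh (Eh E h) L L c τ‖) ^ 2 ≤ (2 * A) * (Z ^ 2 * (3 * L * ρ ^ 2)) := by
    refine sq_sum_le_card_mul_sum_sq.trans ?_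
    apply mul_le_mul _ h2 (sum_nonneg fun _ _ => sq_nonneg _) (by positivity)
    rw [Int.card_Ioo]
    have : ((A : ℤ) - -(A : ℤ) - 1).toNat ≤ 2 * A := by omega
    exact_mod_cast this
  have h4 : 0 ≤ 4 * L * ρ * Z := by positivity
  apply le_of_sq_le_sq _ h4 |>.trans le_rfl
  refine h3.trans ?_
  have h5 : (2 * (A : ℝ)) * (Z ^ 2 * (3 * L * ρ ^ 2)) ≤ (2 * L) * (Z ^ 2 * (3 * L * ρ ^ 2)) := by gcongr
  refine h5.trans ?_
  have h6 : 0 ≤ (L : ℝ) ^ 2 * (Z ^ 2 * ρ ^ 2) := by positivity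
  nlinarith

open Classical in
theorem core2 (h8 : S_V8) (e : ℕ) (he : 1 ≤ e) : ∃ c m : ℕ, 1 ≤ c ∧ ∀ (P : ℤ[X]), P.natDegree ≤ e + 1 → ∀ g : ℕ, 1 ≤ g →
    (g : ℝ) = ((e + 1).factorial : ℝ) * (P.coeff (e + 1) : ℤ) → ∀ (E : ℤ → ℝ) (N Δ x1 A L X R : ℕ) (K ρ S ε : ℝ),
    1 ≤ N → 1 ≤ K → 1 ≤ A → A ≤ L → 0 ≤ ρ → 0 ≤ S → c * K ^ m ≤ Δ → c * K ^ m * Δ ≤ (N : ℝ) ^ e → c * K ^ m ≤ R →
    c * K ^ m / ((N : ℝ) ^ e * Δ) ≤ ε → ε < 1 →
    (∀ n ∈ range N, ∀ t ∈ Icc 1 Δ, P.eval ((x1 + n : ℕ) : ℤ) ≤ P.eval ((x1 + n + t : ℕ) : ℤ) ∧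
      P.eval ((x1 + n + t : ℕ) : ℤ) + A ≤ P.eval ((x1 + n : ℕ) : ℤ) + L) →
    (∀ n ∈ range N, P.eval ((x1 + n : ℕ) : ℤ) + (L + A : ℕ) ≤ X) →
    (∀ m : ℤ, m ≤ X → |E m| ≤ ρ) →
    (∀ θ : ℕ → ℝ, ∑ n ∈ range N, ‖∑ l ∈ Icc 1 L, (E (P.eval ((x1 + n : ℕ) : ℤ) + l) : ℂ) * ee ((l : ℝ) * θ n)‖ ≤ S) →
    ∑ h ∈ Ioo (-(A : ℤ)) A, ∑ a ∈ Icc 1 A, |∑ n ∈ range N, ∑ t ∈ Icc 1 Δ, Eh E h (a + P.eval ((x1 + n + t : ℕ) : ℤ))| ≤
      (R * (g * R + 1) * (2 * (ε * L) + 1)) ^ 2 * (A * Δ * (4 * L * ρ * S)) / L +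
        2 * A * (Real.sqrt (N * Δ ^ 2 / K * (A * (N * L))) * ρ ^ 2) := by
  obtain ⟨c, m, hc, hinv⟩ := inv e he
  refine ⟨c, m, hc, ?_⟩
  intro P hPd g hg hPg E N Δ x1 A L X R K ρ S ε hN hK hA hAL hρ hS h1 h2 h3 h4 hε hwin hX hE hSS
  have hK0 : 0 < K := by linarith
  have hN0 : (0 : ℝ) < N := by exact_mod_cast hN
  have hM : 1 ≤ L := hA.trans hAL
  have hM0 : (0 : ℝ) < L := by exact_mod_cast hM
  have hcK : (0 : ℝ) < c * K ^ m := by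
    have : (1 : ℝ) ≤ c := by exact_mod_cast hc
    positivity
  have hΔ0 : (0 : ℝ) < Δ := by linarith
  have hε0 : 0 ≤ ε := le_trans (by positivity) h4
  set F : ℕ → ℤ := fun n => P.eval (n : ℤ) with hF
  set c' : ℕ → ℤ := fun n => P.eval ((x1 + n : ℕ) : ℤ) with hc'
  set Db := (range L).filter (fun τ : ℕ => ∃ q : ℕ, 1 ≤ q ∧ q ≤ R ∧ ∃ b : ℤ, |(q : ℝ) * ((τ : ℝ) / L * g) - b| ≤ ε) with hDb
  have hcard := count L g R hM hg ε hε0 hε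
  rw [← hDb] at hcard
  set B2 : ℤ → ℝ := fun h => ∑ τ ∈ Db, ∑ n ∈ range N, ‖gh (Eh E h) L L (c' n) τ‖ with hB2
  set Sq := Real.sqrt (N * Δ ^ 2 / K * (A * (N * L))) with hSq
  have hbil : ∀ h ∈ Ioo (-(A : ℤ)) A, ∑ a ∈ Icc 1 A, |∑ n ∈ range N, ∑ t ∈ Icc 1 Δ, Eh E h (a + P.eval ((x1 + n + t : ℕ) : ℤ))| ≤
      #Db * (A * Δ * B2 h) / L + Sq * ρ ^ 2 := by
    intro h hh
    rw [mem_Ioo] at hh
    exact bil (Eh E h) A L L Δ N x1 hM le_rfl hAL F c' (by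
        intro n hn a ha t ht
        obtain ⟨w1, w2⟩ := hwin n hn t ht
        rw [mem_Icc] at ha
        simp only [hF, hc']
        constructor <;> omega) (ρ ^ 2) (N * Δ ^ 2 / K) (B2 h) (by positivity) (by positivity)
      (by
        intro n hn l hl
        rw [mem_Icc] at hl
        have a2 := hX n hn
        unfold Eh
        rw [abs_mul, sq]
        apply mul_le_mul _ _ (abs_nonneg _) hρ
        · apply hE
          simp only [hc']; push_cast at a2 ⊢; omega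
        · apply hE
          simp only [hc']; push_cast at a2 ⊢; omega) Db
      (by
        intro τ hτ hτD
        by_contra hcon
        push Not at hcon
        apply hτD
        rw [hDb, mem_filter]
        refine ⟨hτ, ?_⟩
        have hph := Ph_poly (e + 1) P hPd ((τ : ℝ) / L)
        have hφ : (fun m : ℕ => (τ : ℝ) * (((F m : ℤ) : ℝ) / L)) = (fun n : ℕ => (τ : ℝ) / L * ((P.eval (n : ℤ) : ℤ) : ℝ)) := by
          funext n
          simp only [hF]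
          ring
        rw [hφ] at hcon
        rw [← hPg] at hph
        have h5 : (N : ℝ) * Δ ^ 2 ≤ K * ∑ n ∈ range N, ‖Fw (fun n : ℕ => (τ : ℝ) / L * ((P.eval (n : ℤ) : ℤ) : ℝ)) Δ (x1 + n)‖ ^ 2 := by
          rw [div_lt_iff₀ hK0] at hcon
          linarith
        obtain ⟨q, q1, q2, b, hb⟩ := hinv N Δ x1 K _ _ hN hK hph h1 h2 h5
        exact ⟨q, q1, by exact_mod_cast q2.trans h3, b, hb.trans h4⟩)
      (by rw [hDb]; exact filter_subset _ _)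
      (by
        intro τ hτ
        simp only [hB2]
        exact single_le_sum (f := fun τ => ∑ n ∈ range N, ‖gh (Eh E h) L L (c' n) τ‖) (fun _ _ => sum_nonneg fun _ _ => norm_nonneg _) hτ)
  have hcard0 : (0 : ℝ) ≤ #Db := Nat.cast_nonneg _
  have hsum : ∑ h ∈ Ioo (-(A : ℤ)) A, B2 h ≤ #Db * (4 * L * ρ * S) := by
    simp only [hB2]
    rw [sum_comm]
    have h5 : ∀ τ ∈ Db, ∑ h ∈ Ioo (-(A : ℤ)) A, ∑ n ∈ range N, ‖gh (Eh E h) L L (c' n) τ‖ ≤ 4 * L * ρ * S := by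
      intro τ _
      rw [sum_comm]
      have h6 : ∀ n ∈ range N, ∃ θ : ℝ, ∑ h ∈ Ioo (-(A : ℤ)) A, ‖gh (Eh E h) L L (c' n) τ‖ ≤
          4 * L * ρ * ‖∑ l ∈ Icc 1 L, (E (c' n + l) : ℂ) * ee ((l : ℝ) * θ)‖ := by
        intro n hn
        apply one_win h8 E A L (c' n) ρ hA hAL hρ
        intro mm hmm
        have a2 : c' n + ((L + A : ℕ) : ℤ) ≤ X := hX n hn
        apply hE
        push_cast at a2
        omega
      choose! θ hθ using h6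
      refine (sum_le_sum hθ).trans ?_
      rw [← mul_sum]
      apply mul_le_mul_of_nonneg_left (hSS θ) (by positivity)
    refine (sum_le_sum h5).trans (le_of_eq ?_)
    rw [sum_const, nsmul_eq_mul]
  refine (sum_le_sum hbil).trans ?_
  rw [sum_add_distrib]
  apply add_le_add
  · have e1 : ∑ h ∈ Ioo (-(A : ℤ)) A, (#Db : ℝ) * (A * Δ * B2 h) / L = #Db * (A * Δ * ∑ h ∈ Ioo (-(A : ℤ)) A, B2 h) / L := by
      rw [← sum_div, mul_sum, mul_sum]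
    rw [e1]
    apply div_le_div_of_nonneg_right _ hM0.le
    calc (#Db : ℝ) * (A * Δ * ∑ h ∈ Ioo (-(A : ℤ)) A, B2 h) ≤ #Db * (A * Δ * (#Db * (4 * L * ρ * S))) := by gcongr
      _ = (#Db : ℝ) ^ 2 * (A * Δ * (4 * L * ρ * S)) := by ring
      _ ≤ _ := by gcongr
  · rw [sum_const, nsmul_eq_mul, Int.card_Ioo]
    apply mul_le_mul_of_nonneg_right _ (by positivity)
    have : ((A : ℤ) - -(A : ℤ) - 1).toNat ≤ 2 * A := by omega
    exact_mod_cast this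

end Pool.Agent.H544.VB
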