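import Mathlib
import Pool.Agent.H544.SR.S11
import Pool.Agent.H544.VB.C1

/-!
Exponential sums over separated windows with logarithmic savings.
-/

set_option autoImplicit false

namespace Pool.Agent.H544.VB
open Finset Polynomial
open Pool.Agent.H807R2.Dav
open Pool.Agent.helper24_UT (Ed)
open Pool.Agent.H373R2.T7 (ev_L' ev_log' Vz_inv_small Vz lamI lamzI lamI_nonneg lamzI_nonneg lamI_le lamzI_le)
open Pool.Agent.H544.SR (fl)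

lemma NN_eq : @Pool.Agent.H544.VB.NN = @Pool.Agent.helper24_UT.NN := rfl

/-- primes minus sieve model in progressions in almost all short intervals (a copy of `Pool.Agent.H561.Q4.Si4.S_SI4`) -/
def S_SI4c : Prop := ∀ e A B : ℕ, 5 ≤ e → ∀ E₁ : ℕ, ∃ X₀ : ℕ, ∀ X : ℕ, X₀ ≤ X → ∀ z : ℕ,
  (Real.log X) ^ B ≤ z → (z : ℝ) ≤ (Real.log X) ^ E₁ → ∀ q : ℕ, 1 ≤ q → (q : ℝ) ≤ (Real.log X) ^ B →
  ∀ W : ℕ, (X : ℝ) ^ (1 / 4 + 2 / e : ℝ) ≤ W → W ≤ X →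
  ∑ u ∈ range X, Pool.Agent.helper24_UT.NN (Ed z) (u : ℤ) W q ≤ X * (W : ℝ) ^ 2 / (Real.log X) ^ A

/-- (V5) primes minus model in short intervals, minor arcs -/
def S_V5 : Prop := ∀ A : ℕ, ∃ B : ℕ, ∀ E : ℕ, ∃ X₀ : ℕ, ∀ X : ℕ, X₀ ≤ X → ∀ (L u q z : ℕ) (b : ℤ) (θ : ℝ),
  (X : ℝ) ^ 2 * Real.log X ^ B ≤ (L : ℝ) ^ 3 → u + L ≤ X → Real.log X ^ B ≤ q → q * X * Real.log X ^ B ≤ (L : ℝ) ^ 2 →
  IsCoprime b (q : ℤ) → |θ - b / q| ≤ 1 / (q : ℝ) ^ 2 → 1 ≤ z → (z : ℝ) ≤ Real.log X ^ E →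
  ‖∑ l ∈ Icc 1 L, (Ed z ((u : ℤ) + l) : ℂ) * ee ((l : ℝ) * θ)‖ ≤ L / Real.log X ^ A

lemma ev_small (k : ℕ) (c δ : ℝ) (hδ : 0 < δ) : ∃ n1 : ℕ, ∀ x : ℕ, n1 ≤ x → c * Real.log x ^ k ≤ (x : ℝ) ^ δ := by
  have h := (isLittleO_log_rpow_rpow_atTop (k : ℝ) hδ).bound (show 0 < 1 / (|c| + 1) by positivity)
  have h2 := (tendsto_natCast_atTop_atTop (R := ℝ)).eventually h
  obtain ⟨x0, hx0⟩ := Filter.eventually_atTop.1 h2
  refine ⟨max x0 1, fun x hx => ?_⟩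
  have h3 := hx0 x (le_trans (le_max_left _ _) hx)
  have hx1 : (1 : ℝ) ≤ x := by exact_mod_cast (le_trans (le_max_right _ _) hx)
  have hl : 0 ≤ Real.log x := Real.log_nonneg hx1
  rw [Real.norm_eq_abs, Real.norm_eq_abs, abs_of_nonneg (by positivity : 0 ≤ Real.log (x : ℝ) ^ (k : ℝ)),
    abs_of_nonneg (by positivity : 0 ≤ (x : ℝ) ^ δ), Real.rpow_natCast] at h3
  have h4 : c ≤ |c| + 1 := by linarith [le_abs_self c]
  calc c * Real.log x ^ k ≤ (|c| + 1) * Real.log x ^ k := by gcongr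
    _ ≤ (|c| + 1) * (1 / (|c| + 1) * (x : ℝ) ^ δ) := by gcongr
    _ = _ := by field_simp

/-- the bound for the square root -/
lemma sq_bound (l N J W D L s X T ρ Q1 Y : ℝ) (B5 B7 : ℕ) (hl : 1 ≤ l) (hN : 0 ≤ N) (hJ : 0 ≤ J) (hW : 0 < W) (hD : 0 < D)
    (hL : 0 < L) (hs : 0 < s) (hsL : s ≤ L) (hX : 0 < X) (hρ : ρ = l ^ 2) (hQ0 : 0 ≤ Q1) (hQ1 : Q1 ≤ 2 * l ^ B5) (hJW : J * W ≤ L)
    (hWD : W ≤ 2 * D * l ^ B7) (hDW : D ≤ W / l ^ B7) (hT : T = X * W ^ 2 / l ^ (3 * B7)) (hY : Y = N + X / s) :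
    Real.sqrt (N * J * (Q1 * ((2 * (L / s + 1) * T + 8 * N * J * D * (D * ρ) ^ 2) / D))) ≤ 8 * l ^ B5 * (Y * L) * l ^ 2 / l ^ B7 := by
  have hl0 : 0 < l := by linarith
  have hXs : 0 ≤ X / s := by positivity
  have hY0 : 0 ≤ Y := by rw [hY]; positivity
  rw [Real.sqrt_le_left (by positivity)]
  have e1 : N * J * (Q1 * ((2 * (L / s + 1) * T + 8 * N * J * D * (D * ρ) ^ 2) / D)) =
      Q1 * (N * J * (2 * (L / s + 1)) * (T / D) + 8 * (N * (J * D)) ^ 2 * ρ ^ 2) := by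
    field_simp
  rw [e1]
  have h1 : 2 * (L / s + 1) ≤ 4 * (L / s) := by
    have : 1 ≤ L / s := by rw [one_le_div hs]; exact hsL
    linarith
  have h2 : T / D ≤ 2 * (X * W) * l ^ B7 / l ^ (3 * B7) := by
    rw [hT, div_le_iff₀ hD]
    calc X * W ^ 2 / l ^ (3 * B7) = X * W / l ^ (3 * B7) * W := by ring
      _ ≤ X * W / l ^ (3 * B7) * (2 * D * l ^ B7) := by gcongr
      _ = _ := by ring
  have h3 : N * J * (2 * (L / s + 1)) * (T / D) ≤ 8 * (N * (X / s)) * L ^ 2 / l ^ (2 * B7) := by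
    calc N * J * (2 * (L / s + 1)) * (T / D) ≤ N * J * (4 * (L / s)) * (2 * (X * W) * l ^ B7 / l ^ (3 * B7)) := by
          have : 0 ≤ T / D := by rw [hT]; positivity
          gcongr
      _ = 8 * (N * (X / s)) * L * (J * W) * (l ^ B7 / l ^ (3 * B7)) := by ring
      _ ≤ 8 * (N * (X / s)) * L * L * (l ^ B7 / l ^ (3 * B7)) := by gcongr
      _ = _ := by
          rw [show 3 * B7 = B7 + 2 * B7 by ring, pow_add]
          field_simp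
  have h4 : (N * (J * D)) ^ 2 ≤ N ^ 2 * L ^ 2 / l ^ (2 * B7) := by
    have h5 : J * D ≤ L / l ^ B7 := by
      calc J * D ≤ J * (W / l ^ B7) := by gcongr
        _ = (J * W) / l ^ B7 := by ring
        _ ≤ _ := by gcongr
    calc (N * (J * D)) ^ 2 ≤ (N * (L / l ^ B7)) ^ 2 := by gcongr
      _ = _ := by rw [mul_comm 2 B7, pow_mul]; ring
  have h6 : N * (X / s) ≤ Y ^ 2 := by rw [hY]; nlinarith [mul_nonneg hN hXs]
  have h7 : N ^ 2 ≤ Y ^ 2 := by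
    apply pow_le_pow_left₀ hN
    rw [hY]; linarith
  have hl4 : 1 ≤ l ^ 4 := one_le_pow₀ hl
  calc Q1 * (N * J * (2 * (L / s + 1)) * (T / D) + 8 * (N * (J * D)) ^ 2 * ρ ^ 2) ≤
        (2 * l ^ B5) * (8 * Y ^ 2 * L ^ 2 / l ^ (2 * B7) + 8 * (Y ^ 2 * L ^ 2 / l ^ (2 * B7)) * ρ ^ 2) := by
          apply mul_le_mul hQ1 _ (by rw [hT, hρ]; positivity) (by positivity)
          apply add_le_add
          · refine h3.trans ?_
            gcongr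
          · have h8 : (N * (J * D)) ^ 2 ≤ Y ^ 2 * L ^ 2 / l ^ (2 * B7) := h4.trans (by gcongr)
            gcongr
    _ = 16 * l ^ B5 * (Y ^ 2 * L ^ 2 / l ^ (2 * B7)) * (1 + l ^ 4) := by rw [hρ]; ring
    _ ≤ 16 * l ^ B5 * (Y ^ 2 * L ^ 2 / l ^ (2 * B7)) * (2 * l ^ 4) := by gcongr; linarith
    _ = 32 * l ^ B5 * (Y ^ 2 * L ^ 2 / l ^ (2 * B7)) * l ^ 4 := by ring
    _ ≤ 64 * (l ^ B5 * l ^ B5) * (Y ^ 2 * L ^ 2 / l ^ (2 * B7)) * l ^ 4 := by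
        have h9 : l ^ B5 ≤ l ^ B5 * l ^ B5 := le_mul_of_one_le_left (by positivity) (one_le_pow₀ hl)
        have h10 : 32 * l ^ B5 ≤ 64 * (l ^ B5 * l ^ B5) := by
          have : 0 ≤ l ^ B5 * l ^ B5 := by positivity
          linarith
        gcongr
    _ = (8 * l ^ B5 * (Y * L) * l ^ 2 / l ^ B7) ^ 2 := by rw [mul_comm 2 B7, pow_mul]; ring

theorem supav (h5 : S_V5) (h7 : S_V7) (hSI : S_SI4c) : ∀ U : ℕ, ∃ C0 E0 : ℕ, ∀ E1 : ℕ, ∃ X₀ : ℕ, ∀ X : ℕ, X₀ ≤ X → ∀ z : ℕ,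
    Real.log X ^ E0 ≤ z → (z : ℝ) ≤ Real.log X ^ E1 → ∀ (L N s : ℕ) (c : ℕ → ℤ), (X : ℝ) ^ 2 * Real.log X ^ C0 ≤ (L : ℝ) ^ 3 →
    1 ≤ s → s ≤ L → (∀ n ∈ range N, 0 ≤ c n) → (∀ n ∈ range N, c n + (2 * L : ℕ) ≤ X) → 2 * L ≤ X →
    (∀ n ∈ range N, ∀ n' ∈ range N, n < n' → c n + s ≤ c n') → ∀ θ : ℕ → ℝ,
    ∑ n ∈ range N, ‖∑ l ∈ Icc 1 L, (Ed z (c n + l) : ℂ) * ee ((l : ℝ) * θ n)‖ ≤ (N + (X : ℝ) / s) * L / Real.log X ^ U := by
  intro U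
  obtain ⟨B5, h5'⟩ := h5 (U + 1)
  obtain ⟨B6, hB6⟩ : ∃ B6 : ℕ, B6 = B5 + U + 8 := ⟨_, rfl⟩
  obtain ⟨B7, hB7⟩ : ∃ B7 : ℕ, B7 = 2 * B5 + U + 6 := ⟨_, rfl⟩
  obtain ⟨C0, hC0⟩ : ∃ C0 : ℕ, C0 = 2 * B6 + 2 * B5 + B7 + 5 := ⟨_, rfl⟩
  refine ⟨C0, B5 + 1, fun E1 => ?_⟩
  obtain ⟨n1, h1⟩ := h5' E1
  obtain ⟨n2, h2⟩ := hSI 25 (3 * B7) (B5 + 1) (by norm_num) E1
  obtain ⟨n3, h3⟩ := ev_L' 100
  obtain ⟨n4, h4⟩ := Vz_inv_small E1
  obtain ⟨n5, h5e⟩ := ev_small B6 2 (1 / 300) (by norm_num)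
  refine ⟨n1 + n2 + n3 + n4 + n5 + 3, fun X hX z hz1 hz2 L N s c hLX hs hsL hc0 hcX h2LX hsp θ => ?_⟩
  have hV5 := h1 X (by omega)
  have hSIX := h2 X (by omega) z hz1 hz2
  have hl100 := h3 X (by omega)
  have hVz := h4 X (by omega) z
  have hsm := h5e X (by omega)
  set l := Real.log X with hld
  have hX1 : (1 : ℝ) ≤ X := by exact_mod_cast (by omega : 1 ≤ X)
  have hX0 : (0 : ℝ) < X := by linarith
  have hl1 : 1 ≤ l := by linarith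
  have hl0 : 0 < l := by linarith
  have pm : ∀ i j : ℕ, i ≤ j → l ^ i ≤ l ^ j := fun i j h => pow_le_pow_right₀ hl1 h
  have p1 : ∀ i : ℕ, 1 ≤ l ^ i := fun i => one_le_pow₀ hl1
  have p0 : ∀ i : ℕ, 0 < l ^ i := fun i => by positivity
  have hz1' : 1 ≤ z := by
    have : (1 : ℝ) ≤ z := (p1 _).trans hz1
    exact_mod_cast this
  have hVzl : (Vz z)⁻¹ ≤ l := hVz hz1' hz2
  have hLn : 1 ≤ L := hs.trans hsL
  have hL0 : (0 : ℝ) < L := by exact_mod_cast hLn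
  have hLXr : (L : ℝ) ≤ X := by
    have : L ≤ X := by omega
    exact_mod_cast this
  -- L² ≥ X l^C0
  have hL2 : (X : ℝ) * l ^ C0 ≤ (L : ℝ) ^ 2 := by
    have h6 : (X : ℝ) * (X * l ^ C0) ≤ X * (L : ℝ) ^ 2 := by
      calc (X : ℝ) * (X * l ^ C0) = X ^ 2 * l ^ C0 := by ring
        _ ≤ (L : ℝ) ^ 3 := hLX
        _ = L * (L : ℝ) ^ 2 := by ring
        _ ≤ _ := by gcongr
    exact le_of_mul_le_mul_left h6 hX0
  have hLlow : (X : ℝ) ^ (2 / 3 : ℝ) ≤ L := by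
    have h6 : ((X : ℝ) ^ (2 / 3 : ℝ)) ^ 3 ≤ (L : ℝ) ^ 3 := by
      rw [← Real.rpow_natCast, ← Real.rpow_mul hX0.le]
      norm_num
      calc (X : ℝ) ^ 2 = X ^ 2 * 1 := by ring
        _ ≤ X ^ 2 * l ^ C0 := by gcongr; exact p1 _
        _ ≤ _ := hLX
    exact le_of_pow_le_pow_left₀ (by norm_num) hL0.le h6
  have hy : ∀ i : ℕ, i ≤ C0 → 1 ≤ (L : ℝ) ^ 2 / (X * l ^ i) := by
    intro i hi
    rw [one_le_div (by have := p0 i; positivity)]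
    refine le_trans ?_ hL2
    exact mul_le_mul_of_nonneg_left (pm _ _ hi) hX0.le
  -- Q
  obtain ⟨hQa, hQb, hQc⟩ := fl _ (hy B5 (by omega))
  set Q := ⌊(L : ℝ) ^ 2 / (X * l ^ B5)⌋₊ with hQd
  have hQ0 : (0 : ℝ) < Q := by exact_mod_cast hQc
  -- Q1
  obtain ⟨Q1, hQ1⟩ : ∃ Q1 : ℕ, Q1 = ⌈l ^ B5⌉₊ := ⟨_, rfl⟩
  have hQ1a : l ^ B5 ≤ Q1 := by rw [hQ1]; exact Nat.le_ceil _
  have hQ1b : (Q1 : ℝ) ≤ 2 * l ^ B5 := by
    have := Nat.ceil_lt_add_one (p0 B5).le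
    rw [hQ1]
    linarith [p1 B5]
  have hQ1n : 1 ≤ Q1 := by
    have : (1 : ℝ) ≤ Q1 := (p1 _).trans hQ1a
    exact_mod_cast this
  have hQ1Q : Q1 ≤ Q := by
    have h6 : (Q1 : ℝ) ≤ Q := by
      refine hQ1b.trans (le_trans ?_ hQa)
      rw [div_div, le_div_iff₀ (by have := p0 B5; positivity)]
      calc 2 * l ^ B5 * (X * l ^ B5 * 2) = X * (4 * l ^ (2 * B5)) := by ring
        _ ≤ X * (l * l ^ (2 * B5)) := by gcongr; linarith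
        _ = X * l ^ (2 * B5 + 1) := by ring
        _ ≤ X * l ^ C0 := mul_le_mul_of_nonneg_left (pm _ _ (by omega)) hX0.le
        _ ≤ _ := hL2
    exact_mod_cast h6
  -- W
  obtain ⟨hWa, hWb, hWc⟩ := fl _ (hy B6 (by omega))
  set W := ⌊(L : ℝ) ^ 2 / (X * l ^ B6)⌋₊ with hWd
  have hW0 : (0 : ℝ) < W := by exact_mod_cast hWc
  have hWLr : (W : ℝ) ≤ L / l ^ B6 := by
    refine hWb.trans ?_
    rw [div_le_div_iff₀ (by have := p0 B6; positivity) (p0 _)]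
    calc (L : ℝ) ^ 2 * l ^ B6 = L * (L * l ^ B6) := by ring
      _ ≤ L * (X * l ^ B6) := by gcongr
  have hWL : W ≤ L := by
    have : (W : ℝ) ≤ L := hWLr.trans (div_le_self hL0.le (p1 _))
    exact_mod_cast this
  -- D
  have hyD : 1 ≤ (W : ℝ) / l ^ B7 := by
    rw [one_le_div (p0 _)]
    refine le_trans ?_ hWa
    rw [div_div, le_div_iff₀ (by have := p0 B6; positivity)]
    calc l ^ B7 * (X * l ^ B6 * 2) = X * (2 * l ^ (B7 + B6)) := by ring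
      _ ≤ X * (l * l ^ (B7 + B6)) := by gcongr; linarith
      _ = X * l ^ (B7 + B6 + 1) := by ring
      _ ≤ X * l ^ C0 := mul_le_mul_of_nonneg_left (pm _ _ (by omega)) hX0.le
      _ ≤ _ := hL2
  obtain ⟨hDa, hDb, hDc⟩ := fl _ hyD
  set D := ⌊(W : ℝ) / l ^ B7⌋₊ with hDd
  have hD0 : (0 : ℝ) < D := by exact_mod_cast hDc
  have hDW : D ≤ W := by
    have : (D : ℝ) ≤ W := hDb.trans (div_le_self hW0.le (p1 _))
    exact_mod_cast this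
  have hEd : ∀ mm : ℤ, 0 ≤ mm → mm ≤ X → |Ed z mm| ≤ l ^ 2 := by
    intro mm _ hm2
    have h1 := lamI_nonneg mm
    have h2 := lamzI_nonneg z mm
    have h3 : lamI mm ≤ Real.log X := lamI_le mm X hX1 (by exact_mod_cast hm2)
    have h4 := lamzI_le z mm
    have h5 : l ≤ l ^ 2 := le_self_pow₀ hl1 (by norm_num)
    unfold Ed
    rw [abs_le]
    constructor <;> linarith
  have hmain := h7 (Ed z) X N L W D s Q Q1 c (l ^ 2) (L / l ^ (U + 1)) (X * (W : ℝ) ^ 2 / l ^ (3 * B7)) hs hDc hDW hWL hQ1n hQ1Q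
    (by positivity) (by positivity) hc0 hcX hsp hEd
    (by
      intro n hn q b th hq1 hq2 hcop hth
      have a1 := hc0 n hn
      have a2 := hcX n hn
      obtain ⟨u, hu⟩ : ∃ u : ℕ, (u : ℤ) = c n := ⟨(c n).toNat, Int.toNat_of_nonneg a1⟩
      rw [← hu]
      apply hV5 L u q z b th _ _ _ _ hcop hth hz1' hz2
      · refine le_trans ?_ hLX
        exact mul_le_mul_of_nonneg_left (pm _ _ (by omega)) (by positivity)
      · rw [← hu] at a2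
        push_cast at a2
        omega
      · refine hQ1a.trans ?_
        exact_mod_cast hq1.le
      · have h6 : (q : ℝ) ≤ (L : ℝ) ^ 2 / (X * l ^ B5) := le_trans (by exact_mod_cast hq2) hQb
        rw [le_div_iff₀ (by have := p0 B5; positivity)] at h6
        calc (q : ℝ) * X * l ^ B5 = q * (X * l ^ B5) := by ring
          _ ≤ _ := h6)
    (by
      intro q hq1 hq2
      rw [NN_eq]
      apply hSIX q hq1
      · have h6 : (q : ℝ) ≤ Q1 := by exact_mod_cast hq2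
        calc (q : ℝ) ≤ 2 * l ^ B5 := h6.trans hQ1b
          _ ≤ l * l ^ B5 := by gcongr; linarith
          _ = _ := by ring
      · -- W ≥ X ^ 0.33
        refine le_trans ?_ hWa
        rw [div_div, le_div_iff₀ (by have := p0 B6; positivity)]
        have e1 : (X : ℝ) ^ (1 / 4 + 2 / (25 : ℕ) : ℝ) * (X * l ^ B6 * 2) = (X : ℝ) ^ (1 / 4 + 2 / (25 : ℕ) : ℝ) * X * (2 * l ^ B6) := by ring
        rw [e1]
        calc (X : ℝ) ^ (1 / 4 + 2 / (25 : ℕ) : ℝ) * X * (2 * l ^ B6) ≤ (X : ℝ) ^ (1 / 4 + 2 / (25 : ℕ) : ℝ) * (X : ℝ) ^ (1 : ℝ) * (X : ℝ) ^ (1 / 300 : ℝ) := by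
              rw [Real.rpow_one]
              gcongr
          _ = (X : ℝ) ^ (4 / 3 : ℝ) := by
              rw [← Real.rpow_add hX0, ← Real.rpow_add hX0]
              norm_num
          _ = ((X : ℝ) ^ (2 / 3 : ℝ)) ^ 2 := by
              rw [← Real.rpow_natCast, ← Real.rpow_mul hX0.le]
              norm_num
          _ ≤ _ := by gcongr
      · have : W ≤ X := by omega
        exact this) θ
  refine hmain.trans ?_
  obtain ⟨Y, hY⟩ : ∃ Y : ℝ, Y = N + (X : ℝ) / s := ⟨_, rfl⟩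
  rw [← hY]
  have hs0 : (0 : ℝ) < s := by exact_mod_cast hs
  have hN0 : (0 : ℝ) ≤ N := Nat.cast_nonneg _
  have hNY : (N : ℝ) ≤ Y := by rw [hY]; have : 0 ≤ (X : ℝ) / s := by positivity
                               linarith
  have hY0 : 0 ≤ Y := hN0.trans hNY
  have hJW : ((L / W : ℕ) : ℝ) * W ≤ L := by exact_mod_cast Nat.div_mul_le_self L W
  have hJ0 : (0 : ℝ) ≤ ((L / W : ℕ) : ℝ) := Nat.cast_nonneg _
  have hsL' : (s : ℝ) ≤ L := by exact_mod_cast hsL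
  have q1 := sq_bound l N ((L / W : ℕ) : ℝ) W D L s X (X * (W : ℝ) ^ 2 / l ^ (3 * B7)) (l ^ 2) Q1 Y B5 B7 hl1 hN0 hJ0 hW0 hD0 hL0 hs0
    hsL' hX0 rfl (Nat.cast_nonneg _) hQ1b hJW (by
      rw [div_div, div_le_iff₀ (by have := p0 B7; positivity)] at hDa
      linarith) hDb rfl hY
  have q2 : ((L / W : ℕ) : ℝ) * (7 * (1 / (Q : ℝ)) * W ^ 2 * l ^ 2) ≤ 14 * L * l ^ (B5 + 2) / l ^ B6 := by
    have h6 : (W : ℝ) / Q ≤ 2 * l ^ B5 / l ^ B6 := by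
      rw [div_le_div_iff₀ hQ0 (p0 _)]
      have h7 : (W : ℝ) * l ^ B6 ≤ (L : ℝ) ^ 2 / X := by
        calc (W : ℝ) * l ^ B6 ≤ (L : ℝ) ^ 2 / (X * l ^ B6) * l ^ B6 := by gcongr
          _ = _ := by field_simp
      have h8 : (L : ℝ) ^ 2 / X ≤ 2 * l ^ B5 * Q := by
        have h9 : (L : ℝ) ^ 2 / (X * l ^ B5) ≤ 2 * Q := by linarith
        calc (L : ℝ) ^ 2 / X = (L : ℝ) ^ 2 / (X * l ^ B5) * l ^ B5 := by field_simp
          _ ≤ 2 * Q * l ^ B5 := by gcongr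
          _ = _ := by ring
      exact h7.trans h8
    calc ((L / W : ℕ) : ℝ) * (7 * (1 / (Q : ℝ)) * W ^ 2 * l ^ 2) = 7 * (((L / W : ℕ) : ℝ) * W) * (W / Q) * l ^ 2 := by ring
      _ ≤ 7 * L * (2 * l ^ B5 / l ^ B6) * l ^ 2 := by gcongr
      _ = _ := by rw [pow_add]; ring
  have q3 : (W : ℝ) * l ^ 2 ≤ L * l ^ 2 / l ^ B6 := by
    calc (W : ℝ) * l ^ 2 ≤ L / l ^ B6 * l ^ 2 := by gcongr
      _ = _ := by ring
  have e6 : l ^ (B5 + 2) / l ^ B6 ≤ 1 / l ^ (U + 1) := by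
    rw [div_le_div_iff₀ (p0 _) (p0 _), one_mul, ← pow_add]
    exact pm _ _ (by omega)
  have e7 : l ^ 2 / l ^ B6 ≤ 1 / l ^ (U + 1) := by
    rw [div_le_div_iff₀ (p0 _) (p0 _), one_mul, ← pow_add]
    exact pm _ _ (by omega)
  have t1 : (L : ℝ) / l ^ (U + 1) + ((L / W : ℕ) : ℝ) * (7 * (1 / (Q : ℝ)) * W ^ 2 * l ^ 2) + W * l ^ 2 ≤ 16 * L / l ^ (U + 1) := by
    have a1 : 14 * (L : ℝ) * l ^ (B5 + 2) / l ^ B6 ≤ 14 * L * (1 / l ^ (U + 1)) := by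
      rw [mul_div_assoc]
      gcongr
    have a2 : (L : ℝ) * l ^ 2 / l ^ B6 ≤ L * (1 / l ^ (U + 1)) := by
      rw [mul_div_assoc]
      gcongr
    have a3 : (L : ℝ) / l ^ (U + 1) = L * (1 / l ^ (U + 1)) := by ring
    have a4 : 16 * (L : ℝ) / l ^ (U + 1) = 16 * (L * (1 / l ^ (U + 1))) := by ring
    rw [a4, a3]
    linarith
  have t2 : (Q1 : ℝ) * (8 * l ^ B5 * (Y * L) * l ^ 2 / l ^ B7) ≤ 16 * (Y * L) / l ^ (U + 1) := by
    calc (Q1 : ℝ) * (8 * l ^ B5 * (Y * L) * l ^ 2 / l ^ B7) ≤ (2 * l ^ B5) * (8 * l ^ B5 * (Y * L) * l ^ 2 / l ^ B7) := by gcongr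
      _ = 16 * (Y * L) * (l ^ (2 * B5 + 2) / l ^ B7) := by rw [pow_add, pow_mul']; ring
      _ ≤ 16 * (Y * L) * (1 / l ^ (U + 1)) := by
          refine mul_le_mul_of_nonneg_left ?_ (by positivity)
          rw [div_le_div_iff₀ (p0 _) (p0 _), one_mul, ← pow_add]
          exact pm _ _ (by omega)
      _ = _ := by ring
  calc (N : ℝ) * (L / l ^ (U + 1) + ((L / W : ℕ) : ℝ) * (7 * (1 / (Q : ℝ)) * W ^ 2 * l ^ 2) + W * l ^ 2) +
      Q1 * Real.sqrt (N * (L / W : ℕ) * (Q1 * ((2 * ((L : ℝ) / s + 1) * (X * (W : ℝ) ^ 2 / l ^ (3 * B7)) + 8 * N * (L / W : ℕ) * D * (D * l ^ 2) ^ 2) / D))) ≤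
      Y * (16 * L / l ^ (U + 1)) + 16 * (Y * L) / l ^ (U + 1) := by
        apply add_le_add
        · exact mul_le_mul hNY t1 (by positivity) hY0
        · exact le_trans (mul_le_mul_of_nonneg_left q1 (Nat.cast_nonneg _)) t2
    _ = (32 / l) * (Y * L / l ^ U) := by rw [pow_succ]; field_simp; ring
    _ ≤ 1 * (Y * L / l ^ U) := by
        gcongr
        rw [div_le_one hl0]; linarith
    _ = _ := one_mul _

end Pool.Agent.H544.VB
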