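import Mathlib
import Pool.Agent.H544.SR.S10
import Pool.Agent.H544.VB.C2

/-!
The sum of the correlations for one range of the variable.
-/

set_option autoImplicit false

namespace Pool.Agent.H544.VB
open Finset Polynomial
open Pool.Agent.H807R2.Dav
open Pool.Agent.helper24_UT (Ed)
open Pool.Agent.H373R2.T7 (ev_L' ev_log' Vz_inv_small Vz lamI lamzI lamI_nonneg lamzI_nonneg lamI_le lamzI_le)
open Pool.Agent.H544.SR (fl incr poly_bd c_a)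

/-- the conclusion of `supav` -/
def S_SUP : Prop := ∀ U : ℕ, ∃ C0 E0 : ℕ, ∀ E1 : ℕ, ∃ X₀ : ℕ, ∀ X : ℕ, X₀ ≤ X → ∀ z : ℕ,
    Real.log X ^ E0 ≤ z → (z : ℝ) ≤ Real.log X ^ E1 → ∀ (L N s : ℕ) (c : ℕ → ℤ), (X : ℝ) ^ 2 * Real.log X ^ C0 ≤ (L : ℝ) ^ 3 →
    1 ≤ s → s ≤ L → (∀ n ∈ range N, 0 ≤ c n) → (∀ n ∈ range N, c n + (2 * L : ℕ) ≤ X) → 2 * L ≤ X →
    (∀ n ∈ range N, ∀ n' ∈ range N, n < n' → c n + s ≤ c n') → ∀ θ : ℕ → ℝ,
    ∑ n ∈ range N, ‖∑ l ∈ Icc 1 L, (Ed z (c n + l) : ℂ) * ee ((l : ℝ) * θ n)‖ ≤ (N + (X : ℝ) / s) * L / Real.log X ^ U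

theorem sup_of (h5 : S_V5) (h7 : S_V7) (hSI : S_SI4c) : S_SUP := supav h5 h7 hSI

theorem param2 (hSU : S_SUP) (h8 : S_V8) (f : ℤ[X]) (e : ℕ) (he : 1 ≤ e) (hd : f.natDegree = e + 1) (hl : 0 < f.leadingCoeff) (U G V : ℕ) :
    ∃ C0 E0 : ℕ, ∀ E1 : ℕ, ∃ n1 : ℕ, ∀ x : ℕ, n1 ≤ x → ∀ A a0 : ℕ, (x : ℝ) ^ e * Real.log x ^ C0 ≤ A →
      (x : ℝ) ^ (2 * (e + 1)) * Real.log x ^ C0 ≤ (A : ℝ) ^ 3 →
      (A : ℝ) + a0 ≤ (x : ℝ) ^ (e + 1) * Real.log x ^ G → ∀ z : ℕ, Real.log x ^ E0 ≤ z → (z : ℝ) ≤ Real.log x ^ E1 →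
      ∃ Δ : ℕ, 1 ≤ Δ ∧ (Δ : ℝ) ≤ x / Real.log x ^ (U + 4) ∧ ∀ x1 N : ℕ, x1 ≤ x → (x : ℝ) ≤ x1 * Real.log x ^ V → N ≤ x →
        (x : ℝ) ≤ N * Real.log x ^ V →
        ∑ h ∈ Ioo (-(A : ℤ)) A, ∑ a ∈ Icc 1 A,
          |∑ n ∈ range N, ∑ t ∈ Icc 1 Δ, Eh (Ed z) h ((a : ℤ) + (f + C (a0 : ℤ)).eval ((x1 + n + t : ℕ) : ℤ))| ≤
          A ^ 2 * Δ * x / Real.log x ^ U := by
  obtain ⟨c, m, hc, hcore⟩ := core2 h8 e he
  obtain ⟨n0, k, hk, hn0, hpol⟩ := poly_bd f e hd hl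
  obtain ⟨r, hr⟩ : ∃ r : ℕ, r = (2 * U + 12) * m + 1 := ⟨_, rfl⟩
  obtain ⟨B, hB⟩ : ∃ B : ℕ, B = r + G + e * V + U + 4 := ⟨_, rfl⟩
  obtain ⟨s, hs⟩ : ∃ s : ℕ, s = r + e * V + B := ⟨_, rfl⟩
  obtain ⟨b, hb⟩ : ∃ b : ℕ, b = 2 * r + s + 4 := ⟨_, rfl⟩
  obtain ⟨v, hv⟩ : ∃ v : ℕ, v = e * V + 1 := ⟨_, rfl⟩
  obtain ⟨U', hU'⟩ : ∃ U' : ℕ, U' = 2 * b + U + G + v + 6 := ⟨_, rfl⟩
  obtain ⟨C1, E0', hsup⟩ := hSU U'
  obtain ⟨C0, hC0⟩ : ∃ C0 : ℕ, C0 = B + r + s + 2 * C1 + 2 * (G + 1) + 4 := ⟨_, rfl⟩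
  obtain ⟨lc, hlc⟩ : ∃ lc : ℕ, (lc : ℤ) = f.leadingCoeff := ⟨f.leadingCoeff.toNat, Int.toNat_of_nonneg hl.le⟩
  have hlc1 : 1 ≤ lc := by omega
  obtain ⟨g, hg⟩ : ∃ g : ℕ, g = (e + 1).factorial * lc := ⟨_, rfl⟩
  have hg1 : 1 ≤ g := by rw [hg]; exact Nat.mul_pos (Nat.factorial_pos _) hlc1
  refine ⟨C0, 2 * E0', fun E1 => ?_⟩
  obtain ⟨X0, hX0⟩ := hsup E1
  obtain ⟨n2, hn2⟩ := ev_L' ((100 + c + 2 * g + k * 3 ^ (e + 1) + k + 4 + (e + 4) + (g + 1) : ℕ) : ℝ)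
  obtain ⟨n3, hn3⟩ := ev_log' (G + 1 + V + v) ((n0 + 2 : ℕ) : ℝ)
  obtain ⟨n4, hn4⟩ := Vz_inv_small E1
  refine ⟨X0 + n2 + n3 + n4 + 3, fun x hx A a0 hA1 hA3 hA2 z hz1 hz2 => ?_⟩
  have hcl := hn2 x (by omega)
  have hbig := hn3 x (by omega)
  have hVz := hn4 x (by omega) z
  set l := Real.log x with hld
  push_cast at hcl hbig
  have hx1 : (1 : ℝ) ≤ x := by exact_mod_cast (by omega : 1 ≤ x)
  have hx0 : (0 : ℝ) < x := by linarith
  have hsx : Real.sqrt x ≤ x := by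
    rw [Real.sqrt_le_left (by linarith)]
    nlinarith
  have hc0 : (0 : ℝ) ≤ c := Nat.cast_nonneg _
  have hg0 : (1 : ℝ) ≤ g := by exact_mod_cast hg1
  have hk0 : (1 : ℝ) ≤ k := by exact_mod_cast hk
  have he0 : (0 : ℝ) ≤ e := Nat.cast_nonneg _
  have hn00 : (1 : ℝ) ≤ n0 := by exact_mod_cast hn0
  have h3e : (0 : ℝ) < 3 ^ (e + 1) := by positivity
  have hk3 : 0 ≤ (k : ℝ) * 3 ^ (e + 1) := by positivity
  have hl40 : 100 ≤ l := by linarith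
  have hl1 : 1 ≤ l := by linarith
  have hl0 : 0 < l := by linarith
  have hcl' : (c : ℝ) ≤ l := by linarith
  have hgl : 2 * (g : ℝ) ≤ l := by linarith
  have hkl : (k : ℝ) * 3 ^ (e + 1) + 4 ≤ l := by linarith
  have hkl' : (k : ℝ) ≤ l := by linarith
  have hel : (e : ℝ) + 4 ≤ l := by linarith
  have pm : ∀ i j : ℕ, i ≤ j → l ^ i ≤ l ^ j := fun i j h => pow_le_pow_right₀ hl1 h
  have p1 : ∀ i : ℕ, 1 ≤ l ^ i := fun i => one_le_pow₀ hl1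
  have p0 : ∀ i : ℕ, 0 < l ^ i := fun i => by positivity
  have hlx : ((n0 : ℝ) + 2) * l ^ (G + 1 + V + v) ≤ x := hbig.trans hsx
  have hlx2 : ∀ i : ℕ, i ≤ G + 1 + V + v → 2 * l ^ i ≤ x := by
    intro i hi
    refine le_trans ?_ hlx
    have := pm i _ hi
    have h1 := p0 (G + 1 + V + v)
    nlinarith
  have hxe : (x : ℝ) ≤ (x : ℝ) ^ e := le_self_pow₀ hx1 (by omega)
  have hxe0 : (0 : ℝ) < (x : ℝ) ^ e := by positivity
  have hxe1 : (1 : ℝ) ≤ (x : ℝ) ^ e := one_le_pow₀ hx1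
  have hAr : 0 < (A : ℝ) := lt_of_lt_of_le (by positivity) hA1
  have hAn : 1 ≤ A := by exact_mod_cast hAr
  have ha0 : (0 : ℝ) ≤ a0 := Nat.cast_nonneg _
  have hAup : (A : ℝ) ≤ (x : ℝ) ^ (e + 1) * l ^ G := by linarith
  have hxeA : (x : ℝ) ^ e ≤ A := le_trans (le_mul_of_one_le_right hxe0.le (p1 _)) hA1
  -- Δ
  have hy1 : 1 ≤ (A : ℝ) / ((x : ℝ) ^ e * l ^ B) := by
    rw [one_le_div (by positivity)]
    refine le_trans ?_ hA1
    exact mul_le_mul_of_nonneg_left (pm _ _ (by omega)) hxe0.le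
  obtain ⟨hΔ1, hΔ2, hΔ3⟩ := fl _ hy1
  set Δ := ⌊(A : ℝ) / ((x : ℝ) ^ e * l ^ B)⌋₊ with hΔd
  have hΔ0 : (0 : ℝ) < Δ := by exact_mod_cast hΔ3
  have hΔx : (Δ : ℝ) * l ^ B ≤ x * l ^ G := by
    calc (Δ : ℝ) * l ^ B ≤ (A : ℝ) / ((x : ℝ) ^ e * l ^ B) * l ^ B := by gcongr
      _ = A / (x : ℝ) ^ e := by field_simp
      _ ≤ ((x : ℝ) ^ (e + 1) * l ^ G) / (x : ℝ) ^ e := by gcongr
      _ = _ := by rw [pow_succ]; field_simp
  refine ⟨Δ, hΔ3, ?_, ?_⟩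
  · rw [le_div_iff₀ (p0 _)]
    have h1 : (Δ : ℝ) * l ^ (U + 4) * l ^ G ≤ x * l ^ G := by
      refine le_trans ?_ hΔx
      rw [mul_assoc, ← pow_add]
      exact mul_le_mul_of_nonneg_left (pm _ _ (by omega)) hΔ0.le
    exact le_of_mul_le_mul_right h1 (p0 G)
  intro x1 N hx1x hx1V hNx hNV
  have hN0 : (0 : ℝ) < N := by
    by_contra hcon
    push Not at hcon
    have : (N : ℝ) * l ^ V ≤ 0 := mul_nonpos_of_nonpos_of_nonneg hcon (p0 V).le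
    linarith
  have hN1 : 1 ≤ N := by exact_mod_cast hN0
  have hNxr : (N : ℝ) ≤ x := by exact_mod_cast hNx
  have hx1r : (x1 : ℝ) ≤ x := by exact_mod_cast hx1x
  have hΔxx : Δ ≤ x := by
    have h1 : (Δ : ℝ) * l ^ G ≤ x * l ^ G := by
      refine le_trans ?_ hΔx
      exact mul_le_mul_of_nonneg_left (pm _ _ (by omega)) hΔ0.le
    exact_mod_cast le_of_mul_le_mul_right h1 (p0 G)
  have hn0x1 : n0 ≤ x1 := by
    have h1 : (n0 : ℝ) * l ^ V ≤ x1 * l ^ V := by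
      refine le_trans ?_ hx1V
      refine le_trans ?_ hlx
      have := pm V (G + 1 + V + v) (by omega)
      have h2 := p0 V
      nlinarith
    exact_mod_cast le_of_mul_le_mul_right h1 (p0 V)
  have hNe : (x : ℝ) ^ e ≤ (N : ℝ) ^ e * l ^ (e * V) := by
    calc (x : ℝ) ^ e ≤ (N * l ^ V) ^ e := pow_le_pow_left₀ hx0.le hNV e
      _ = _ := by rw [mul_pow, ← pow_mul, mul_comm V e]
  have hx1e : (x : ℝ) ^ e ≤ (x1 : ℝ) ^ e * l ^ (e * V) := by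
    calc (x : ℝ) ^ e ≤ (x1 * l ^ V) ^ e := pow_le_pow_left₀ hx0.le hx1V e
      _ = _ := by rw [mul_pow, ← pow_mul, mul_comm V e]
  -- K, R
  set K : ℝ := l ^ (2 * U + 12) with hK
  have hcK : (c : ℝ) * K ^ m ≤ l ^ r := by
    rw [hK, ← pow_mul, hr, pow_succ, mul_comm]
    exact mul_le_mul_of_nonneg_left hcl' (by positivity)
  have hcK0 : 0 ≤ (c : ℝ) * K ^ m := by positivity
  set R := ⌈(c : ℝ) * K ^ m⌉₊ with hR
  have hR1 : (c : ℝ) * K ^ m ≤ R := Nat.le_ceil _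
  have hR2 : (R : ℝ) ≤ l ^ (r + 1) := by
    have h1 := Nat.ceil_lt_add_one hcK0
    calc (R : ℝ) ≤ l ^ r + 1 := by linarith
      _ ≤ l ^ r + l ^ r := by linarith [p1 r]
      _ = 2 * l ^ r := by ring
      _ ≤ l * l ^ r := mul_le_mul_of_nonneg_right (by linarith) (p0 r).le
      _ = _ := by ring
  -- D
  have hy3 : 1 ≤ (x : ℝ) ^ e / l ^ v := by
    rw [one_le_div (p0 _)]
    have := hlx2 v (by omega)
    have := p0 v
    linarith
  obtain ⟨hD1, hD2, hD3⟩ := fl _ hy3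
  set D := ⌊(x : ℝ) ^ e / l ^ v⌋₊ with hDd
  have hD0 : (0 : ℝ) < D := by exact_mod_cast hD3
  -- X
  obtain ⟨X, hX⟩ : ∃ X : ℕ, X = ⌈(x : ℝ) ^ (e + 1) * l ^ (G + 1)⌉₊ := ⟨_, rfl⟩
  have hX1 : (x : ℝ) ^ (e + 1) * l ^ (G + 1) ≤ X := by rw [hX]; exact Nat.le_ceil _
  have hxe1' : (1 : ℝ) ≤ (x : ℝ) ^ (e + 1) := one_le_pow₀ hx1
  have hX2 : (X : ℝ) ≤ 2 * ((x : ℝ) ^ (e + 1) * l ^ (G + 1)) := by
    have h1 := Nat.ceil_lt_add_one (by positivity : 0 ≤ (x : ℝ) ^ (e + 1) * l ^ (G + 1))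
    rw [← hX] at h1
    have h2 : 1 ≤ (x : ℝ) ^ (e + 1) * l ^ (G + 1) := one_le_mul_of_one_le_of_one_le hxe1' (p1 _)
    linarith
  have hxX : (x : ℝ) ≤ X := by
    refine le_trans ?_ hX1
    calc (x : ℝ) ≤ (x : ℝ) ^ (e + 1) := le_self_pow₀ hx1 (by omega)
      _ ≤ _ := le_mul_of_one_le_right (by positivity) (p1 _)
  have hXx : (X : ℝ) ≤ (x : ℝ) ^ (e + 2) := by
    refine hX2.trans ?_
    have := hlx2 (G + 1) (by omega)
    calc 2 * ((x : ℝ) ^ (e + 1) * l ^ (G + 1)) = (x : ℝ) ^ (e + 1) * (2 * l ^ (G + 1)) := by ring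
      _ ≤ (x : ℝ) ^ (e + 1) * x := by gcongr
      _ = _ := by ring
  have hlX1 : l ≤ Real.log X := Real.log_le_log hx0 hxX
  have hlX2 : Real.log X ≤ ((e : ℝ) + 2) * l := by
    have h1 := Real.log_le_log (by linarith : (0 : ℝ) < X) hXx
    rw [Real.log_pow] at h1
    push_cast at h1
    exact h1
  have hlX3 : Real.log X ≤ l ^ 2 := by
    refine hlX2.trans ?_
    rw [sq]
    exact mul_le_mul_of_nonneg_right (by linarith) hl0.le
  have hlX0 : 0 < Real.log X := by linarith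
  -- the error function
  have hz1' : 1 ≤ z := by
    have : (1 : ℝ) ≤ z := (p1 _).trans hz1
    exact_mod_cast this
  have hVzl : (Vz z)⁻¹ ≤ l := hVz hz1' hz2
  have hEd : ∀ mm : ℤ, mm ≤ X → |Ed z mm| ≤ l ^ 2 := by
    intro mm hm2
    have h1 := lamI_nonneg mm
    have h2 := lamzI_nonneg z mm
    have h3 : lamI mm ≤ Real.log X := lamI_le mm X (by linarith) (by exact_mod_cast hm2)
    have h4 := lamzI_le z mm
    have h5 : l ≤ l ^ 2 := le_self_pow₀ hl1 (by norm_num)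
    unfold Ed
    rw [abs_le]
    constructor <;> linarith
  -- values
  have hvals : ∀ mm : ℕ, x1 ≤ mm → ∀ t : ℕ, ((f.eval (mm : ℤ) : ℤ) : ℝ) ≤ ((f.eval ((mm + t : ℕ) : ℤ) : ℤ) : ℝ) ∧
      ((f.eval ((mm + t : ℕ) : ℤ) : ℤ) : ℝ) ≤ ((f.eval (mm : ℤ) : ℤ) : ℝ) + t * (k * ((mm + t : ℕ) : ℝ) ^ e) := by
    intro mm hmm t
    exact incr (fun i : ℕ => ((f.eval (i : ℤ) : ℤ) : ℝ)) n0 e k (fun i hi => ⟨(hpol i hi).2.2.1, (hpol i hi).2.2.2⟩) (by linarith) mm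
      (by omega) t
  have hPe : ∀ i : ℕ, (f + C (a0 : ℤ)).eval (i : ℤ) = f.eval (i : ℤ) + a0 := by
    intro i
    rw [eval_add, eval_C]
  have hPd : (f + C (a0 : ℤ)).natDegree ≤ e + 1 := by rw [natDegree_add_C, hd]
  have hPg : (g : ℝ) = ((e + 1).factorial : ℝ) * ((f + C (a0 : ℤ)).coeff (e + 1) : ℤ) := by
    rw [coeff_add, coeff_C_succ, add_zero, ← hd, ← leadingCoeff, ← hlc, hg, hd]
    push_cast
    ring
  obtain ⟨L, hL⟩ : ∃ L : ℕ, L = 2 * A := ⟨_, rfl⟩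
  have hLr : (L : ℝ) = 2 * A := by rw [hL]; push_cast; ring
  obtain ⟨ε, hε⟩ : ∃ ε : ℝ, ε = 2 * l ^ s / A := ⟨_, rfl⟩
  have hc1 : ∀ n ∈ range N, 0 ≤ (f + C (a0 : ℤ)).eval ((x1 + n : ℕ) : ℤ) := by
    intro n hn
    rw [hPe]
    have := (hpol (x1 + n) (by omega)).1
    omega
  have hc2 : ∀ n ∈ range N, (f + C (a0 : ℤ)).eval ((x1 + n : ℕ) : ℤ) + (2 * L : ℕ) ≤ X := by
    intro n hn
    rw [mem_range] at hn
    rw [hPe]
    have h1 := (hpol (x1 + n) (by omega)).2.1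
    have h2 : ((x1 + n : ℕ) : ℝ) ≤ 3 * x := by
      have : x1 + n ≤ 3 * x := by omega
      exact_mod_cast this
    have h3 : (k : ℝ) * ((x1 + n : ℕ) : ℝ) ^ (e + 1) ≤ k * 3 ^ (e + 1) * (x : ℝ) ^ (e + 1) := by
      calc (k : ℝ) * ((x1 + n : ℕ) : ℝ) ^ (e + 1) ≤ k * (3 * x) ^ (e + 1) := by gcongr
        _ = _ := by rw [mul_pow]; ring
    have h5 : ((f.eval ((x1 + n : ℕ) : ℤ) : ℤ) : ℝ) + a0 + (2 * L : ℕ) ≤ X := by
      refine le_trans ?_ hX1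
      have e1 : (x : ℝ) ^ (e + 1) * l ^ (G + 1) = l * ((x : ℝ) ^ (e + 1) * l ^ G) := by ring
      rw [e1]
      have h6 : (k : ℝ) * 3 ^ (e + 1) * (x : ℝ) ^ (e + 1) ≤ k * 3 ^ (e + 1) * ((x : ℝ) ^ (e + 1) * l ^ G) := by
        apply mul_le_mul_of_nonneg_left _ hk3
        exact le_mul_of_one_le_right (by positivity) (p1 _)
      have h8 : ((k : ℝ) * 3 ^ (e + 1) + 4) * ((x : ℝ) ^ (e + 1) * l ^ G) ≤ l * ((x : ℝ) ^ (e + 1) * l ^ G) :=
        mul_le_mul_of_nonneg_right hkl (by positivity)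
      generalize ((f.eval ((x1 + n : ℕ) : ℤ) : ℤ) : ℝ) = F1 at h1 ⊢
      have h9 : (((2 * L : ℕ)) : ℝ) = 4 * A := by push_cast; rw [hLr]; ring
      rw [h9]
      linarith
    exact_mod_cast h5
  have hc3 : ∀ n ∈ range N, ∀ n' ∈ range N, n < n' →
      (f + C (a0 : ℤ)).eval ((x1 + n : ℕ) : ℤ) + D ≤ (f + C (a0 : ℤ)).eval ((x1 + n' : ℕ) : ℤ) := by
    intro n hn n' hn' hnn
    rw [mem_range] at hn hn'
    rw [hPe, hPe]
    obtain ⟨i, hi⟩ : ∃ i : ℕ, x1 + n' = x1 + n + 1 + i := ⟨n' - n - 1, by omega⟩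
    have h1 := (hvals (x1 + n + 1) (by omega) i).1
    have h2 := (hpol (x1 + n) (by omega)).2.2.1
    have h3 : (x1 : ℝ) ^ e ≤ ((x1 + n : ℕ) : ℝ) ^ e := by
      apply pow_le_pow_left₀ (Nat.cast_nonneg _)
      exact_mod_cast (by omega : x1 ≤ x1 + n)
    have h4 : (k : ℝ) * D ≤ (x1 : ℝ) ^ e := by
      have h5 : (k : ℝ) * D * l ^ (e * V) ≤ (x1 : ℝ) ^ e * l ^ (e * V) := by
        refine le_trans ?_ hx1e
        calc (k : ℝ) * D * l ^ (e * V) ≤ l * ((x : ℝ) ^ e / l ^ v) * l ^ (e * V) := by gcongr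
          _ = (x : ℝ) ^ e := by rw [hv, pow_succ]; field_simp
      exact le_of_mul_le_mul_right h5 (p0 _)
    have h5 : (D : ℝ) ≤ ((f.eval ((x1 + n + 1 : ℕ) : ℤ) : ℤ) : ℝ) - ((f.eval ((x1 + n : ℕ) : ℤ) : ℤ) : ℝ) :=
      le_of_mul_le_mul_left (h4.trans (h3.trans h2)) (by linarith)
    rw [← hi] at h1
    have h6 : ((f.eval ((x1 + n : ℕ) : ℤ) : ℤ) : ℝ) + D ≤ ((f.eval ((x1 + n' : ℕ) : ℤ) : ℤ) : ℝ) := by linarith
    have h7 : f.eval ((x1 + n : ℕ) : ℤ) + D ≤ f.eval ((x1 + n' : ℕ) : ℤ) := by exact_mod_cast h6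
    linarith
  have hDL : D ≤ L := by
    have h1 : (D : ℝ) ≤ L := by
      rw [hLr]
      have := hD2.trans (div_le_self hxe0.le (p1 _))
      linarith
    exact_mod_cast h1
  have h2LX : 2 * L ≤ X := by
    have h1 : ((2 * L : ℕ) : ℝ) ≤ X := by
      refine le_trans ?_ hX1
      push_cast
      rw [hLr]
      calc 2 * (2 * (A : ℝ)) ≤ 4 * ((x : ℝ) ^ (e + 1) * l ^ G) := by linarith
        _ ≤ l * ((x : ℝ) ^ (e + 1) * l ^ G) := mul_le_mul_of_nonneg_right (by linarith) (by positivity)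
        _ = _ := by ring
    exact_mod_cast h1
  have hXL : (X : ℝ) ^ 2 * Real.log X ^ C1 ≤ (L : ℝ) ^ 3 := by
    calc (X : ℝ) ^ 2 * Real.log X ^ C1 ≤ (2 * ((x : ℝ) ^ (e + 1) * l ^ (G + 1))) ^ 2 * (l ^ 2) ^ C1 := by gcongr
      _ = 4 * ((x : ℝ) ^ (2 * (e + 1)) * l ^ (2 * (G + 1) + 2 * C1)) := by ring
      _ ≤ 8 * ((x : ℝ) ^ (2 * (e + 1)) * l ^ C0) := by
          apply mul_le_mul (by norm_num) _ (by positivity) (by norm_num)
          exact mul_le_mul_of_nonneg_left (pm _ _ (by omega)) (by positivity)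
      _ ≤ 8 * (A : ℝ) ^ 3 := by gcongr
      _ = _ := by rw [hLr]; ring
  obtain ⟨S, hS⟩ : ∃ S : ℝ, S = (N + (X : ℝ) / D) * L / Real.log X ^ U' := ⟨_, rfl⟩
  have hmain := hcore (f + C (a0 : ℤ)) hPd g hg1 hPg (Ed z) N Δ x1 A L X R K (l ^ 2) S ε hN1 (p1 _) hAn (by omega) (by positivity)
    (by rw [hS]; positivity)
    (by
      -- c K ^ m ≤ Δ
      refine hcK.trans (le_trans ?_ hΔ1)
      rw [div_div, le_div_iff₀ (by have := p0 B; positivity)]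
      refine le_trans ?_ hA1
      calc l ^ r * ((x : ℝ) ^ e * l ^ B * 2) = (x : ℝ) ^ e * (2 * (l ^ r * l ^ B)) := by ring
        _ ≤ (x : ℝ) ^ e * (l * (l ^ r * l ^ B)) := by
            apply mul_le_mul_of_nonneg_left _ hxe0.le
            exact mul_le_mul_of_nonneg_right (by linarith) (by positivity)
        _ = (x : ℝ) ^ e * l ^ (1 + r + B) := by rw [pow_add, pow_add]; ring
        _ ≤ _ := mul_le_mul_of_nonneg_left (pm _ _ (by omega)) hxe0.le)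
    (by
      -- c K ^ m Δ ≤ N ^ e
      have h1 : (c : ℝ) * K ^ m * Δ * l ^ (e * V + G) ≤ x * l ^ G := by
        calc (c : ℝ) * K ^ m * Δ * l ^ (e * V + G) ≤ l ^ r * Δ * l ^ (e * V + G) := by gcongr
          _ = Δ * l ^ (r + (e * V + G)) := by rw [pow_add l r]; ring
          _ ≤ Δ * l ^ B := mul_le_mul_of_nonneg_left (pm _ _ (by omega)) hΔ0.le
          _ ≤ _ := hΔx
      have h2 : (c : ℝ) * K ^ m * Δ * l ^ (e * V + G) ≤ (N : ℝ) ^ e * l ^ (e * V + G) := by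
        refine h1.trans ?_
        rw [pow_add, ← mul_assoc]
        exact mul_le_mul_of_nonneg_right (hxe.trans hNe) (p0 _).le
      exact le_of_mul_le_mul_right h2 (p0 _))
    hR1
    (by
      -- ε
      rw [hε, div_le_div_iff₀ (by positivity) hAr]
      have h1 : (A : ℝ) ≤ 2 * Δ * ((x : ℝ) ^ e * l ^ B) := by
        rw [div_div, div_le_iff₀ (by have := p0 B; positivity)] at hΔ1
        linarith
      calc (c : ℝ) * K ^ m * A ≤ l ^ r * (2 * Δ * ((x : ℝ) ^ e * l ^ B)) := by gcongr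
        _ ≤ l ^ r * (2 * Δ * (((N : ℝ) ^ e * l ^ (e * V)) * l ^ B)) := by gcongr
        _ = 2 * l ^ s * ((N : ℝ) ^ e * Δ) := by rw [hs, pow_add, pow_add]; ring)
    (by
      rw [hε, div_lt_one hAr]
      refine lt_of_lt_of_le ?_ hA1
      calc 2 * l ^ s < l * l ^ s := mul_lt_mul_of_pos_right (by linarith) (p0 _)
        _ = 1 * l ^ (s + 1) := by ring
        _ ≤ (x : ℝ) ^ e * l ^ C0 := mul_le_mul hxe1 (pm _ _ (by omega)) (p0 _).le hxe0.le)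
    (by
      intro n hn t ht
      rw [mem_range] at hn
      rw [mem_Icc] at ht
      obtain ⟨v1, v2⟩ := hvals (x1 + n) (by omega) t
      rw [hPe, hPe]
      constructor
      · have : f.eval ((x1 + n : ℕ) : ℤ) ≤ f.eval ((x1 + n + t : ℕ) : ℤ) := by exact_mod_cast v1
        linarith
      · have h1 : (t : ℝ) * (k * ((x1 + n + t : ℕ) : ℝ) ^ e) ≤ A := by
          have h2 : ((x1 + n + t : ℕ) : ℝ) ≤ 3 * x := by
            have : x1 + n + t ≤ 3 * x := by omega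
            exact_mod_cast this
          have h3 : (t : ℝ) ≤ Δ := by exact_mod_cast ht.2
          calc (t : ℝ) * (k * ((x1 + n + t : ℕ) : ℝ) ^ e) ≤ Δ * (k * (3 * x) ^ e) := by gcongr
            _ ≤ (A : ℝ) / ((x : ℝ) ^ e * l ^ B) * (k * (3 * x) ^ e) := by gcongr
            _ = A * ((k * 3 ^ e) / l ^ B) := by rw [mul_pow]; field_simp
            _ ≤ A * 1 := by
                apply mul_le_mul_of_nonneg_left _ hAr.le
                rw [div_le_one (p0 _)]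
                have h4 : (k : ℝ) * 3 ^ e ≤ k * 3 ^ (e + 1) := by
                  apply mul_le_mul_of_nonneg_left _ (by linarith)
                  exact pow_le_pow_right₀ (by norm_num) (by omega)
                have h5 : l ≤ l ^ B := le_self_pow₀ hl1 (by omega)
                linarith
            _ = _ := mul_one _
        have h2 : ((f.eval ((x1 + n + t : ℕ) : ℤ) : ℤ) : ℝ) + a0 + A ≤ ((f.eval ((x1 + n : ℕ) : ℤ) : ℤ) : ℝ) + a0 + (L : ℕ) := by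
          rw [hLr]
          push_cast at v2 h1 ⊢
          linarith
        exact_mod_cast h2)
    (by
      intro n hn
      have h1 := hc2 n hn
      have h2 : ((L + A : ℕ) : ℤ) ≤ ((2 * L : ℕ) : ℤ) := by exact_mod_cast (by omega : L + A ≤ 2 * L)
      linarith)
    hEd
    (by
      intro θ
      rw [hS]
      exact hX0 X (by
          have : X0 ≤ x := by omega
          exact_mod_cast (le_trans (by exact_mod_cast this : (X0 : ℝ) ≤ x) hxX)) z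
        (by
          refine le_trans ?_ hz1
          calc Real.log X ^ E0' ≤ (l ^ 2) ^ E0' := by gcongr
            _ = _ := by rw [← pow_mul])
        (hz2.trans (by gcongr)) L N D (fun n => (f + C (a0 : ℤ)).eval ((x1 + n : ℕ) : ℤ)) hXL hD3 hDL hc1 hc2 h2LX hc3 θ)
  refine hmain.trans ?_
  have q1 := c_a (R : ℝ) g l L A ε r s (Nat.cast_nonneg _) hR2 hg0 (by linarith) hgl hAr (by rw [hLr]; linarith) (by positivity) hε
  have q1' : (R : ℝ) * (g * R + 1) * (2 * (ε * L) + 1) ≤ l ^ b := by rw [hb]; exact q1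
  have hS1 : S ≤ 10 * (A * x) * l ^ (G + 1 + v) / l ^ U' := by
    have h1 : (X : ℝ) / D ≤ 4 * (x * l ^ (G + 1 + v)) := by
      rw [div_le_iff₀ hD0]
      have h2 : (x : ℝ) ^ e ≤ 2 * D * l ^ v := by
        rw [div_div, div_le_iff₀ (by have := p0 v; positivity)] at hD1
        linarith
      calc (X : ℝ) ≤ 2 * ((x : ℝ) ^ (e + 1) * l ^ (G + 1)) := hX2
        _ = 2 * (x * l ^ (G + 1)) * (x : ℝ) ^ e := by ring
        _ ≤ 2 * (x * l ^ (G + 1)) * (2 * D * l ^ v) := by gcongr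
        _ = _ := by rw [pow_add l (G + 1) v]; ring
    have h2 : (N : ℝ) ≤ x * l ^ (G + 1 + v) := hNxr.trans (le_mul_of_one_le_right hx0.le (p1 _))
    rw [hS, hLr]
    calc (N + (X : ℝ) / D) * (2 * A) / Real.log X ^ U' ≤ (x * l ^ (G + 1 + v) + 4 * (x * l ^ (G + 1 + v))) * (2 * A) / l ^ U' := by
          gcongr
      _ = _ := by ring
  have q4 : ((R : ℝ) * (g * R + 1) * (2 * (ε * L) + 1)) ^ 2 * (A * Δ * (4 * L * l ^ 2 * S)) / L ≤ 40 * (A ^ 2 * Δ * x / l ^ (U + 1)) := by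
    have hL0 : (0 : ℝ) < L := by rw [hLr]; linarith
    have e1 : ((R : ℝ) * (g * R + 1) * (2 * (ε * L) + 1)) ^ 2 * (A * Δ * (4 * L * l ^ 2 * S)) / L =
        ((R : ℝ) * (g * R + 1) * (2 * (ε * L) + 1)) ^ 2 * (4 * A * Δ * l ^ 2 * S) := by field_simp
    rw [e1]
    have hε0 : 0 ≤ ε := by rw [hε]; positivity
    have hS0 : 0 ≤ S := by rw [hS]; positivity
    calc ((R : ℝ) * (g * R + 1) * (2 * (ε * L) + 1)) ^ 2 * (4 * A * Δ * l ^ 2 * S) ≤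
          (l ^ b) ^ 2 * (4 * A * Δ * l ^ 2 * (10 * (A * x) * l ^ (G + 1 + v) / l ^ U')) := by gcongr
      _ = 40 * (A ^ 2 * Δ * x * ((l ^ b) ^ 2 * l ^ 2 * l ^ (G + 1 + v) / l ^ U')) := by ring
      _ ≤ 40 * (A ^ 2 * Δ * x * (1 / l ^ (U + 1))) := by
          apply mul_le_mul_of_nonneg_left _ (by norm_num)
          apply mul_le_mul_of_nonneg_left _ (by positivity)
          rw [div_le_div_iff₀ (p0 _) (p0 _), one_mul, ← pow_mul, ← pow_add, ← pow_add, ← pow_add]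
          exact pm _ _ (by omega)
      _ = _ := by ring
  have q5 : 2 * A * (Real.sqrt (N * Δ ^ 2 / K * (A * (N * L))) * (l ^ 2) ^ 2) ≤ 4 * (A ^ 2 * Δ * x / l ^ (U + 1)) := by
    have h1 : Real.sqrt (N * Δ ^ 2 / K * (A * (N * L))) ≤ 2 * (N * Δ * A) / l ^ (U + 6) := by
      rw [Real.sqrt_le_left (by positivity)]
      have e1 : (2 * (N * Δ * A) / l ^ (U + 6)) ^ 2 = 4 * (N ^ 2 * Δ ^ 2 * A ^ 2) / K := by
        rw [hK, div_pow, ← pow_mul]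
        ring
      rw [e1, hLr]
      calc (N : ℝ) * Δ ^ 2 / K * (A * (N * (2 * A))) = 2 * (N ^ 2 * Δ ^ 2 * A ^ 2) / K := by ring
        _ ≤ _ := by
            apply div_le_div_of_nonneg_right _ (by positivity)
            have : 0 ≤ (N : ℝ) ^ 2 * Δ ^ 2 * A ^ 2 := by positivity
            linarith
    calc 2 * A * (Real.sqrt (N * Δ ^ 2 / K * (A * (N * L))) * (l ^ 2) ^ 2) ≤ 2 * A * (2 * (N * Δ * A) / l ^ (U + 6) * (l ^ 2) ^ 2) := by gcongr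
      _ = 4 * (A ^ 2 * Δ * N * (l ^ 4 / l ^ (U + 6))) := by ring
      _ ≤ 4 * (A ^ 2 * Δ * x * (1 / l ^ (U + 1))) := by
          apply mul_le_mul_of_nonneg_left _ (by norm_num)
          apply mul_le_mul _ _ (by positivity) (by positivity)
          · exact mul_le_mul_of_nonneg_left hNxr (by positivity)
          · rw [div_le_div_iff₀ (p0 _) (p0 _), one_mul, ← pow_add]
            exact pm _ _ (by omega)
      _ = _ := by ring
  refine (add_le_add q4 q5).trans ?_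
  have h9 : 40 * ((A : ℝ) ^ 2 * Δ * x / l ^ (U + 1)) + 4 * (A ^ 2 * Δ * x / l ^ (U + 1)) = (44 / l) * (A ^ 2 * Δ * x / l ^ U) := by
    rw [pow_succ]
    field_simp
    ring
  rw [h9]
  calc (44 / l) * ((A : ℝ) ^ 2 * Δ * x / l ^ U) ≤ 1 * (A ^ 2 * Δ * x / l ^ U) := by
        apply mul_le_mul_of_nonneg_right _ (by positivity)
        rw [div_le_one hl0]; linarith
    _ = _ := one_mul _

end Pool.Agent.H544.VB
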