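import Mathlib
import Pool.Agent.H544.VB.C3

/-!
Arbitrary weights.
-/

set_option autoImplicit false

namespace Pool.Agent.H544.VB
open Finset Polynomial
open Pool.Agent.H807R2.Dav
open Pool.Agent.helper24_UT (Ed)
open Pool.Agent.H373R2.T7 (ev_L' ev_log' Vz_inv_small Vz lamI lamzI lamI_nonneg lamzI_nonneg lamI_le lamzI_le cf abs_eval_le)
open Pool.Agent.H544.SR (fl ed_vals smooth_cmp)

lemma reas {ι : Type*} (S : Finset ι) (g : ι → ℕ → ℝ) (x y x1 Δ : ℕ) (ρ T : ℝ) (hρ : 0 ≤ ρ) (hT : 0 ≤ T) (hx1 : x1 ≤ x)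
    (hyx : y ≤ x) (hΔ1 : 1 ≤ Δ) (hΔx : Δ ≤ x) (hg : ∀ p ∈ S, ∀ n ∈ Icc 1 (3 * x), |g p n| ≤ ρ)
    (h : ∀ N : ℕ, y = x1 + N → x1 ≤ N → ∑ p ∈ S, |∑ n ∈ range N, ∑ t ∈ Icc 1 Δ, g p (x1 + n + t)| ≤ T * Δ) :
    ∑ p ∈ S, |∑ n ∈ Icc 1 y, g p n| ≤ T + #S * (2 * x1 * ρ + 2 * Δ * ρ) := by
  have hΔ0 : (0 : ℝ) < Δ := by exact_mod_cast hΔ1
  have htriv : ∀ y' : ℕ, y' ≤ x → ∀ p ∈ S, |∑ n ∈ Icc 1 y', g p n| ≤ y' * ρ := by
    intro y' hy' p hp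
    refine (abs_sum_le_sum_abs _ _).trans ?_
    calc ∑ n ∈ Icc 1 y', |g p n| ≤ ∑ _n ∈ Icc 1 y', ρ := by
          apply sum_le_sum
          intro n hn
          rw [mem_Icc] at hn
          exact hg p hp n (mem_Icc.2 (by omega))
      _ = _ := by rw [sum_const, Nat.card_Icc, nsmul_eq_mul, Nat.add_sub_cancel]
  by_cases hy2 : y ≤ 2 * x1
  · have h6 : ∑ p ∈ S, |∑ n ∈ Icc 1 y, g p n| ≤ ∑ _p ∈ S, 2 * x1 * ρ := by
      apply sum_le_sum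
      intro p hp
      refine (htriv y hyx p hp).trans ?_
      have : (y : ℝ) ≤ 2 * x1 := by exact_mod_cast hy2
      exact mul_le_mul_of_nonneg_right this hρ
    refine h6.trans ?_
    rw [sum_const, nsmul_eq_mul]
    have h7 : (0 : ℝ) ≤ #S * (2 * Δ * ρ) := by positivity
    linarith
  · push Not at hy2
    obtain ⟨N, hN⟩ : ∃ N, y = x1 + N := ⟨y - x1, by omega⟩
    have hx1N : x1 ≤ N := by omega
    have h6 := h N hN hx1N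
    have h7 : ∀ p ∈ S, |∑ n ∈ Icc 1 y, g p n| ≤ |∑ n ∈ range N, ∑ t ∈ Icc 1 Δ, g p (x1 + n + t)| / Δ + (2 * x1 * ρ + 2 * Δ * ρ) := by
      intro p hp
      have g1 := smooth_cmp (fun m : ℕ => g p m) x1 N Δ ρ hρ (fun m hm1 hm2 => hg p hp m (mem_Icc.2 (by omega)))
      have g2 : ∑ n ∈ Icc 1 y, g p n = ∑ n ∈ Icc 1 x1, g p n + ∑ m ∈ Ioc x1 (x1 + N), g p m := by
        have e : ∀ n : ℕ, Icc 1 n = Ioc 0 n := by
          intro n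
          ext x
          simp only [mem_Icc, mem_Ioc]
          omega
        rw [hN, e, e]
        exact (sum_Ioc_consecutive (fun m : ℕ => g p m) (Nat.zero_le x1) (Nat.le_add_right x1 N)).symm
      have g3 := htriv x1 hx1 p hp
      rw [g2]
      refine (abs_add_le _ _).trans ?_
      set Sm := ∑ n ∈ range N, ∑ t ∈ Icc 1 Δ, g p (x1 + n + t) with hS
      set Q := ∑ m ∈ Ioc x1 (x1 + N), g p m with hQ
      have g4 : Δ * |Q| ≤ |Sm| + 2 * Δ ^ 2 * ρ := by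
        have e1 : (Δ : ℝ) * |Q| = |Δ * Q| := by rw [abs_mul, abs_of_pos hΔ0]
        have e2 : (Δ : ℝ) * Q = Sm - (Sm - Δ * Q) := by ring
        rw [e1, e2]
        refine (abs_sub _ _).trans ?_
        linarith
      have g5 : |Q| ≤ |Sm| / Δ + 2 * Δ * ρ := by
        rw [← sub_nonneg]
        have e1 : |Sm| / Δ + 2 * Δ * ρ - |Q| = (|Sm| + 2 * Δ ^ 2 * ρ - Δ * |Q|) / Δ := by
          field_simp
        rw [e1]
        apply div_nonneg _ hΔ0.le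
        linarith
      have g6 : 0 ≤ (x1 : ℝ) * ρ := by positivity
      linarith
    refine (sum_le_sum h7).trans ?_
    rw [sum_add_distrib, ← sum_div, sum_const, nsmul_eq_mul]
    have h8 : (∑ p ∈ S, |∑ n ∈ range N, ∑ t ∈ Icc 1 Δ, g p (x1 + n + t)|) / Δ ≤ T := by
      rw [div_le_iff₀ hΔ0]
      exact h6
    linarith

lemma ed_le (e E1 : ℕ) : ∃ n1 : ℕ, ∀ x : ℕ, n1 ≤ x → ∀ z : ℕ, 1 ≤ z → (z : ℝ) ≤ Real.log x ^ E1 → ∀ m : ℤ,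
    (m : ℝ) ≤ (x : ℝ) ^ (e + 2) → |Ed z m| ≤ Real.log x ^ 2 := by
  obtain ⟨n2, hn2⟩ := ev_L' ((e : ℝ) + 4)
  obtain ⟨n4, hn4⟩ := Vz_inv_small E1
  refine ⟨n2 + n4 + 3, fun x hx z hz1 hz2 mm h2 => ?_⟩
  have hl := hn2 x (by omega)
  have hVz := hn4 x (by omega) z hz1 hz2
  set l := Real.log x with hld
  have hx1 : (1 : ℝ) ≤ x := by exact_mod_cast (by omega : 1 ≤ x)
  have hx0 : (0 : ℝ) < x := by linarith
  have he0 : (0 : ℝ) ≤ e := Nat.cast_nonneg _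
  have hl1 : 1 ≤ l := by linarith
  have hl0 : 0 < l := by linarith
  have h3 := lamI_nonneg mm
  have h4 := lamzI_nonneg z mm
  have h5 : lamI mm ≤ Real.log ((x : ℝ) ^ (e + 2)) := lamI_le mm _ (one_le_pow₀ hx1) h2
  rw [Real.log_pow] at h5
  push_cast at h5
  have h6 := lamzI_le z mm
  have h7 : ((e : ℝ) + 2) * l ≤ l ^ 2 := by
    rw [sq]
    exact mul_le_mul_of_nonneg_right (by linarith) hl0.le
  have h8 : l ≤ l ^ 2 := le_self_pow₀ hl1 (by norm_num)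
  unfold Ed
  rw [abs_le]
  constructor <;> linarith

lemma val_le (f : ℤ[X]) (e : ℕ) (hd : f.natDegree = e + 1) (G : ℕ) : ∃ n1 : ℕ, ∀ x : ℕ, n1 ≤ x → ∀ A a0 : ℕ, 1 ≤ A →
    (A : ℝ) + a0 ≤ (x : ℝ) ^ (e + 1) * Real.log x ^ G → ∀ n ∈ Icc 1 (3 * x),
    ((((A : ℤ) + (f + C (a0 : ℤ)).eval (n : ℤ)) : ℤ) : ℝ) ≤ (x : ℝ) ^ (e + 2) := by
  obtain ⟨n2, hn2⟩ := ed_vals f e hd G 0
  obtain ⟨n3, hn3⟩ := ev_log' G (2 * cf f * 3 ^ (e + 1))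
  refine ⟨n2 + n3 + 3, fun x hx A a0 hA1 hA2 n hn => ?_⟩
  have h1 := (hn2 x (by omega) A a0 hA2 1 le_rfl (by simp) A (mem_Icc.2 ⟨hA1, le_rfl⟩) n hn).1
  have hbig := hn3 x (by omega)
  have hx1 : (1 : ℝ) ≤ x := by exact_mod_cast (by omega : 1 ≤ x)
  have hsx : Real.sqrt x ≤ x := by
    rw [Real.sqrt_le_left (by linarith)]
    nlinarith
  push_cast at h1 ⊢
  refine h1.trans ?_
  calc 2 * cf f * 3 ^ (e + 1) * ((x : ℝ) ^ (e + 1) * Real.log x ^ G) = (x : ℝ) ^ (e + 1) * (2 * cf f * 3 ^ (e + 1) * Real.log x ^ G) := by ring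
    _ ≤ (x : ℝ) ^ (e + 1) * x := mul_le_mul_of_nonneg_left (hbig.trans hsx) (by positivity)
    _ = _ := by ring

theorem fm2 (hSU : S_SUP) (h8 : S_V8) (f : ℤ[X]) (e : ℕ) (he : 1 ≤ e) (hd : f.natDegree = e + 1) (hl : 0 < f.leadingCoeff) (U G : ℕ) :
    ∃ C0 E0 : ℕ, ∀ E1 : ℕ, ∃ n1 : ℕ, ∀ x : ℕ, n1 ≤ x → ∀ A a0 : ℕ, (x : ℝ) ^ e * Real.log x ^ C0 ≤ A →
      (x : ℝ) ^ (2 * (e + 1)) * Real.log x ^ C0 ≤ (A : ℝ) ^ 3 →
      (A : ℝ) + a0 ≤ (x : ℝ) ^ (e + 1) * Real.log x ^ G → ∀ z : ℕ, Real.log x ^ E0 ≤ z → (z : ℝ) ≤ Real.log x ^ E1 →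
      ∀ y : ℕ, y ≤ x → ∑ p ∈ Ioo (-(A : ℤ)) A ×ˢ Icc 1 A, |∑ n ∈ Icc 1 y, Eh (Ed z) p.1 ((p.2 : ℤ) + (f + C (a0 : ℤ)).eval (n : ℤ))| ≤
          A ^ 2 * x / Real.log x ^ U := by
  obtain ⟨C0, E0, h0⟩ := param2 hSU h8 f e he hd hl (U + 1) G (U + 6)
  refine ⟨C0, E0, fun E1 => ?_⟩
  obtain ⟨n2, h2⟩ := h0 E1
  obtain ⟨n3, h3⟩ := ed_le e E1
  obtain ⟨n6, h6⟩ := val_le f e hd (G + 1)
  obtain ⟨n4, h4⟩ := ev_L' 20
  obtain ⟨n5, h5⟩ := ev_log' (U + 6) 1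
  refine ⟨n2 + n3 + n4 + n5 + n6 + 3, fun x hx A a0 hA1 hA3 hA2 z hz1 hz2 y hy => ?_⟩
  have hl20 := h4 x (by omega)
  have hbig := h5 x (by omega)
  obtain ⟨Δ, hΔ1, hΔ2, hpar⟩ := h2 x (by omega) A a0 hA1 hA3 hA2 z hz1 hz2
  have hEdl := h3 x (by omega) z
  have hval := h6 x (by omega) (2 * A) a0
  set l := Real.log x with hld
  have hx1 : (1 : ℝ) ≤ x := by exact_mod_cast (by omega : 1 ≤ x)
  have hx0 : (0 : ℝ) < x := by linarith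
  have hl1 : 1 ≤ l := by linarith
  have hl0 : 0 < l := by linarith
  have p0 : ∀ i : ℕ, 0 < l ^ i := fun i => by positivity
  have p1 : ∀ i : ℕ, 1 ≤ l ^ i := fun i => one_le_pow₀ hl1
  have hsx : Real.sqrt x ≤ x := by
    rw [Real.sqrt_le_left (by linarith)]
    nlinarith
  have hz1' : 1 ≤ z := by
    have : (1 : ℝ) ≤ z := (p1 _).trans hz1
    exact_mod_cast this
  have hA0 : (0 : ℝ) < A := lt_of_lt_of_le (by positivity) hA1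
  have hAn : 1 ≤ A := by exact_mod_cast hA0
  have ha0 : (0 : ℝ) ≤ a0 := Nat.cast_nonneg _
  have hval' := hval (by omega) (by
    push_cast
    have e1 : (x : ℝ) ^ (e + 1) * l ^ (G + 1) = l * ((x : ℝ) ^ (e + 1) * l ^ G) := by ring
    rw [e1]
    have e2 : 2 * ((x : ℝ) ^ (e + 1) * l ^ G) ≤ l * ((x : ℝ) ^ (e + 1) * l ^ G) := mul_le_mul_of_nonneg_right (by linarith) (by positivity)
    linarith)
  have hEd2 : ∀ p ∈ Ioo (-(A : ℤ)) A ×ˢ Icc 1 A, ∀ n ∈ Icc 1 (3 * x),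
      |Eh (Ed z) p.1 ((p.2 : ℤ) + (f + C (a0 : ℤ)).eval (n : ℤ))| ≤ l ^ 4 := by
    intro p hp n hn
    rw [mem_product, mem_Ioo, mem_Icc] at hp
    have g1 := hval' n hn
    unfold Eh
    rw [abs_mul, show l ^ 4 = l ^ 2 * l ^ 2 by ring]
    apply mul_le_mul _ _ (abs_nonneg _) (by positivity)
    · apply hEdl hz1' hz2
      refine le_trans ?_ g1
      exact_mod_cast (by push_cast; omega)
    · apply hEdl hz1' hz2
      refine le_trans ?_ g1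
      exact_mod_cast (by push_cast; omega)
  have hyy : 1 ≤ (x : ℝ) / l ^ (U + 6) := by
    rw [one_le_div (p0 _)]
    linarith
  obtain ⟨x1, hx1d⟩ : ∃ x1 : ℕ, x1 = ⌈(x : ℝ) / l ^ (U + 6)⌉₊ := ⟨_, rfl⟩
  have hx1a : (x : ℝ) ≤ x1 * l ^ (U + 6) := by
    rw [← div_le_iff₀ (p0 _), hx1d]
    exact Nat.le_ceil _
  have hx1b : (x1 : ℝ) ≤ 2 * ((x : ℝ) / l ^ (U + 6)) := by
    have := Nat.ceil_lt_add_one (by positivity : 0 ≤ (x : ℝ) / l ^ (U + 6))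
    rw [hx1d]
    linarith
  have hx1d' : (x1 : ℝ) * l ^ 4 ≤ x / l ^ (U + 1) := by
    calc (x1 : ℝ) * l ^ 4 ≤ 2 * ((x : ℝ) / l ^ (U + 6)) * l ^ 4 := mul_le_mul_of_nonneg_right hx1b (by positivity)
      _ = (2 / l) * (x / l ^ (U + 1)) := by rw [show U + 6 = (U + 1) + 5 by ring, pow_add]; field_simp
      _ ≤ 1 * (x / l ^ (U + 1)) := by
          apply mul_le_mul_of_nonneg_right _ (by positivity)
          rw [div_le_one hl0]; linarith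
      _ = _ := one_mul _
  have hx1x : x1 ≤ x := by
    have h7 : (x1 : ℝ) ≤ x := by
      calc (x1 : ℝ) = x1 * 1 := (mul_one _).symm
        _ ≤ x1 * l ^ 4 := by gcongr; exact p1 4
        _ ≤ x / l ^ (U + 1) := hx1d'
        _ ≤ x := div_le_self hx0.le (p1 _)
    exact_mod_cast h7
  have hΔx : (Δ : ℝ) ≤ x := hΔ2.trans (div_le_self hx0.le (p1 _))
  have hΔxn : Δ ≤ x := by exact_mod_cast hΔx
  have hΔ4 : (Δ : ℝ) * l ^ 4 ≤ x / l ^ (U + 1) := by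
    calc (Δ : ℝ) * l ^ 4 ≤ x / l ^ (U + 1 + 4) * l ^ 4 := mul_le_mul_of_nonneg_right hΔ2 (by positivity)
      _ = _ := by rw [pow_add l (U + 1) 4]; field_simp
  have hre := reas (Ioo (-(A : ℤ)) A ×ˢ Icc 1 A) (fun p n => Eh (Ed z) p.1 ((p.2 : ℤ) + (f + C (a0 : ℤ)).eval (n : ℤ))) x y x1 Δ
    (l ^ 4) (A ^ 2 * x / l ^ (U + 1)) (by positivity) (by positivity) hx1x hy hΔ1 hΔxn hEd2 (by
      intro N hN hx1N
      have h7 := hpar x1 N hx1x hx1a (by omega) (by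
        refine hx1a.trans ?_
        apply mul_le_mul_of_nonneg_right _ (p0 _).le
        exact_mod_cast hx1N)
      rw [sum_product]
      refine h7.trans (le_of_eq ?_)
      ring)
  refine hre.trans ?_
  have hcard : ((#(Ioo (-(A : ℤ)) A ×ˢ Icc 1 A) : ℕ) : ℝ) ≤ 2 * A ^ 2 := by
    rw [card_product, Int.card_Ioo, Nat.card_Icc]
    have h7 : ((A : ℤ) - -(A : ℤ) - 1).toNat ≤ 2 * A := by omega
    have h8' : ((A : ℤ) - -(A : ℤ) - 1).toNat * (A + 1 - 1) ≤ 2 * A * A := by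
      rw [Nat.add_sub_cancel]
      exact Nat.mul_le_mul_right _ h7
    calc _ ≤ ((2 * A * A : ℕ) : ℝ) := by exact_mod_cast h8'
      _ = _ := by push_cast; ring
  have h9 : (2 : ℝ) * x1 * l ^ 4 + 2 * Δ * l ^ 4 ≤ 4 * (x / l ^ (U + 1)) := by linarith
  calc (A : ℝ) ^ 2 * x / l ^ (U + 1) + (#(Ioo (-(A : ℤ)) A ×ˢ Icc 1 A) : ℝ) * (2 * x1 * l ^ 4 + 2 * Δ * l ^ 4) ≤
        A ^ 2 * x / l ^ (U + 1) + 2 * A ^ 2 * (4 * (x / l ^ (U + 1))) := by gcongr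
    _ = (9 / l) * (A ^ 2 * x / l ^ U) := by rw [pow_succ]; field_simp; ring
    _ ≤ 1 * (A ^ 2 * x / l ^ U) := by
        apply mul_le_mul_of_nonneg_right _ (by positivity)
        rw [div_le_one hl0]; linarith
    _ = _ := one_mul _

theorem fw (hSU : S_SUP) (h8 : S_V8) (h12 : S_V12) (f : ℤ[X]) (e : ℕ) (he : 1 ≤ e) (hd : f.natDegree = e + 1)
    (hl : 0 < f.leadingCoeff) (U G : ℕ) :
    ∃ C0 E0 : ℕ, ∀ E1 : ℕ, ∃ n1 : ℕ, ∀ x : ℕ, n1 ≤ x → ∀ A a0 : ℕ, (x : ℝ) ^ e * Real.log x ^ C0 ≤ A →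
      (x : ℝ) ^ (2 * (e + 1)) * Real.log x ^ C0 ≤ (A : ℝ) ^ 3 →
      (A : ℝ) + a0 ≤ (x : ℝ) ^ (e + 1) * Real.log x ^ G → ∀ z : ℕ, Real.log x ^ E0 ≤ z → (z : ℝ) ≤ Real.log x ^ E1 →
      ∀ y : ℕ, y ≤ x → ∀ w : ℕ → ℝ, (∀ n, |w n| ≤ 1) →
        ∑ a ∈ Icc 1 A, |∑ n ∈ Icc 1 y, w n * Ed z ((a : ℤ) + (f + C (a0 : ℤ)).eval (n : ℤ))| ≤ A * x / Real.log x ^ U := by
  obtain ⟨C0, E0, h0⟩ := fm2 hSU h8 f e he hd hl (4 * U + 4) G
  refine ⟨C0, E0, fun E1 => ?_⟩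
  obtain ⟨n2, h2⟩ := h0 E1
  obtain ⟨n3, h3⟩ := ed_le e E1
  obtain ⟨n4, h4⟩ := ev_L' 20
  obtain ⟨n6, h6⟩ := val_le f e hd G
  refine ⟨n2 + n3 + n4 + n6 + 3, fun x hx A a0 hA1 hA3 hA2 z hz1 hz2 y hy w hw => ?_⟩
  have hm := h2 x (by omega) A a0 hA1 hA3 hA2 z hz1 hz2 y hy
  have hEdl := h3 x (by omega) z
  have hL := h4 x (by omega)
  have hval := h6 x (by omega) A a0
  set l := Real.log x with hld
  have hx1 : (1 : ℝ) ≤ x := by exact_mod_cast (by omega : 1 ≤ x)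
  have hx0 : (0 : ℝ) < x := by linarith
  have hl1 : 1 ≤ l := by linarith
  have hl0 : 0 < l := by linarith
  have p1 : ∀ i : ℕ, 1 ≤ l ^ i := fun i => one_le_pow₀ hl1
  have hz1' : 1 ≤ z := by
    have : (1 : ℝ) ≤ z := (p1 _).trans hz1
    exact_mod_cast this
  have hA0 : (0 : ℝ) < A := lt_of_lt_of_le (by positivity) hA1
  have hAn : 1 ≤ A := by exact_mod_cast hA0
  have hval' := hval hAn hA2
  set g : ℕ → ℕ → ℝ := fun a n => Ed z ((a : ℤ) + (f + C (a0 : ℤ)).eval (n : ℤ)) with hg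
  have hb : ∀ a ∈ Icc 1 A, ∀ n ∈ Icc 1 y, |g a n| ≤ l ^ 2 := by
    intro a ha n hn
    rw [mem_Icc] at ha hn
    apply hEdl hz1' hz2
    refine le_trans ?_ (hval' n (mem_Icc.2 (by omega)))
    exact_mod_cast (by push_cast; omega)
  have hT : ∑ a ∈ Icc 1 A, ∑ b ∈ Icc 1 A, |∑ n ∈ Icc 1 y, g a n * g b n| ≤ A ^ 2 * x / l ^ (4 * U + 4) := by
    refine le_trans ?_ hm
    rw [sum_product_right]
    apply sum_le_sum
    intro a ha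
    rw [mem_Icc] at ha
    have e1 : ∀ b ∈ Icc 1 A, |∑ n ∈ Icc 1 y, g a n * g b n| =
        |∑ n ∈ Icc 1 y, Eh (Ed z) ((b : ℤ) - a) ((a : ℤ) + (f + C (a0 : ℤ)).eval (n : ℤ))| := by
      intro b _
      congr 1
      apply sum_congr rfl
      intro n _
      simp only [hg]
      unfold Eh
      congr 2
      ring
    rw [sum_congr rfl e1]
    have hinj : Set.InjOn (fun b : ℕ => (b : ℤ) - a) (Icc 1 A : Finset ℕ) := by
      intro b _ b' _ h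
      have : (b : ℤ) - a = (b' : ℤ) - a := h
      omega
    rw [← sum_image (f := fun h : ℤ => |∑ n ∈ Icc 1 y, Eh (Ed z) h ((a : ℤ) + (f + C (a0 : ℤ)).eval (n : ℤ))|) hinj]
    apply sum_le_sum_of_subset_of_nonneg
    · intro h hh
      rw [mem_image] at hh
      obtain ⟨b, hb1, rfl⟩ := hh
      rw [mem_Icc] at hb1
      rw [mem_Ioo]
      omega
    · intro _ _ _
      exact abs_nonneg _
  have h7 := h12 g A y (l ^ 2) _ (by positivity) hb hT w hw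
  have h8' : (∑ a ∈ Icc 1 A, |∑ n ∈ Icc 1 y, w n * g a n|) ^ 4 ≤ (A * x / l ^ U) ^ 4 := by
    refine h7.trans ?_
    have hyr : (y : ℝ) ≤ x := by exact_mod_cast hy
    calc (A : ℝ) ^ 2 * (y : ℝ) ^ 3 * (l ^ 2) ^ 2 * (A ^ 2 * x / l ^ (4 * U + 4)) ≤
          (A : ℝ) ^ 2 * (x : ℝ) ^ 3 * (l ^ 2) ^ 2 * (A ^ 2 * x / l ^ (4 * U + 4)) := by gcongr
      _ = _ := by
          have e2 : l ^ (4 * U + 4) = (l ^ U) ^ 4 * l ^ 4 := by rw [← pow_mul, ← pow_add, mul_comm U 4]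
          rw [e2]
          field_simp
  exact le_of_pow_le_pow_left₀ (by norm_num) (by positivity) h8'

end Pool.Agent.H544.VB
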