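import Mathlib
import Pool.Agent.H544.VB.C4
import Pool.Agent.H544.LD.Fin

/-!
Systems of polynomials.
-/

set_option autoImplicit false

namespace Pool.Agent.H544.VB
open Finset Polynomial
open Pool.Agent.helper24_UT (Ed)
open Pool.Agent.H373R2.T7 (ev_L' ev_log' Vz_inv_small Vz lamI lamzI lamP lamI_nonneg lamzI_nonneg lamP_nonneg lamP_le lamI_le lamzI_le)
open Pool.Agent.H544.LD (teleF va Bx)
open Pool.Agent.H544.SR (pps)

variable {k : ℕ}

/-- the conditions for the box of the shifts -/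
def Box (F : Fin k → ℤ[X]) (x C G : ℕ) (A a0 : Fin k → ℕ) : Prop := ∀ i,
  (x : ℝ) ^ ((F i).natDegree - 1) * Real.log x ^ C ≤ A i ∧
  (x : ℝ) ^ (2 * (F i).natDegree) * Real.log x ^ C ≤ (A i : ℝ) ^ 3 ∧
  (A i : ℝ) + a0 i ≤ (x : ℝ) ^ (F i).natDegree * Real.log x ^ G

lemma Box.mono {F : Fin k → ℤ[X]} {x C C' G : ℕ} {A a0 : Fin k → ℕ} (h : Box F x C G A a0) (hC : C' ≤ C) (hl : 1 ≤ Real.log x) :
    Box F x C' G A a0 := by
  intro i
  obtain ⟨h1, h2, h3⟩ := h i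
  refine ⟨le_trans ?_ h1, le_trans ?_ h2, h3⟩
  · exact mul_le_mul_of_nonneg_left (pow_le_pow_right₀ hl hC) (by positivity)
  · exact mul_le_mul_of_nonneg_left (pow_le_pow_right₀ hl hC) (by positivity)

lemma va_add (F : Fin k → ℤ[X]) (a a0 : Fin k → ℕ) (i : Fin k) (n : ℕ) :
    va F (a + a0) i n = (a i : ℤ) + (F i + C (a0 i : ℤ)).eval (n : ℤ) := by
  unfold va
  rw [eval_add, eval_C, Pi.add_apply]
  push_cast
  ring

lemma lam_le2 (e E1 : ℕ) : ∃ n1 : ℕ, ∀ x : ℕ, n1 ≤ x → ∀ z : ℕ, 1 ≤ z → (z : ℝ) ≤ Real.log x ^ E1 → ∀ m : ℤ,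
    (m : ℝ) ≤ (x : ℝ) ^ (e + 2) → |lamI m| ≤ Real.log x ^ 2 ∧ |lamzI z m| ≤ Real.log x ^ 2 := by
  obtain ⟨n2, hn2⟩ := ev_L' ((e : ℝ) + 4)
  obtain ⟨n4, hn4⟩ := Vz_inv_small E1
  refine ⟨n2 + n4 + 3, fun x hx z hz1 hz2 mm h2 => ?_⟩
  have hl := hn2 x (by omega)
  have hVz := hn4 x (by omega) z hz1 hz2
  set l := Real.log x with hld
  have hx1 : (1 : ℝ) ≤ x := by exact_mod_cast (by omega : 1 ≤ x)
  have hx0 : (0 : ℝ) < x := by linarith
  have he0 : (0 : ℝ) ≤ e := Nat.cast_nonneg _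
  have hl1 : 1 ≤ l := by linarith
  have hl0 : 0 < l := by linarith
  have h3 := lamI_nonneg mm
  have h4 := lamzI_nonneg z mm
  have h5 : lamI mm ≤ Real.log ((x : ℝ) ^ (e + 2)) := lamI_le mm _ (one_le_pow₀ hx1) h2
  rw [Real.log_pow] at h5
  push_cast at h5
  have h6 := lamzI_le z mm
  have h7 : ((e : ℝ) + 2) * l ≤ l ^ 2 := by
    rw [sq]
    exact mul_le_mul_of_nonneg_right (by linarith) hl0.le
  have h8 : l ≤ l ^ 2 := le_self_pow₀ hl1 (by norm_num)
  rw [abs_of_nonneg h3, abs_of_nonneg h4]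
  exact ⟨by linarith, by linarith⟩

/-- the constants of a finite family -/
lemma fin_max (P : Fin k → ℕ → Prop) (hmono : ∀ i n m, n ≤ m → P i n → P i m) (h : ∀ i, ∃ n, P i n) : ∃ n, ∀ i, P i n := by
  choose n hn using h
  exact ⟨univ.sup n, fun i => hmono i _ _ (le_sup (f := n) (mem_univ i)) (hn i)⟩

theorem fk (hSU : S_SUP) (h8 : S_V8) (h12 : S_V12) (F : Fin k → ℤ[X]) (hd : ∀ i, 2 ≤ (F i).natDegree)
    (hl : ∀ i, 0 < (F i).leadingCoeff) (U G : ℕ) :
    ∃ C0 E0 : ℕ, ∀ E1 : ℕ, ∃ n1 : ℕ, ∀ x : ℕ, n1 ≤ x → ∀ A a0 : Fin k → ℕ, Box F x C0 G A a0 →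
      ∀ z : ℕ, Real.log x ^ E0 ≤ z → (z : ℝ) ≤ Real.log x ^ E1 → ∀ y : ℕ, y ≤ x → ∀ w : ℕ → ℝ, (∀ n, |w n| ≤ 1) →
        ∑ a ∈ Bx A, |∑ n ∈ Icc 1 y, w n * (∏ i, lamI (va F (a + a0) i n) - ∏ i, lamzI z (va F (a + a0) i n))| ≤
          (∏ i, (A i : ℝ)) * x / Real.log x ^ U := by
  obtain ⟨U', hU'⟩ : ∃ U' : ℕ, U' = U + 2 * k + 1 := ⟨_, rfl⟩
  have h0 := fun i => fw hSU h8 h12 (F i) ((F i).natDegree - 1) (by have := hd i; omega) (by have := hd i; omega) (hl i) U' G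
  choose C0 E0 h0 using h0
  refine ⟨univ.sup C0, univ.sup E0, fun E1 => ?_⟩
  have h1 := fun i => h0 i E1
  choose n1 h1 using h1
  have h2 := fun i => lam_le2 ((F i).natDegree - 1) E1
  choose n2 h2 using h2
  have h3 := fun i => val_le (F i) ((F i).natDegree - 1) (by have := hd i; omega) G
  choose n3 h3 using h3
  obtain ⟨n4, h4⟩ := ev_L' ((k : ℝ) + 2)
  refine ⟨univ.sup n1 + univ.sup n2 + univ.sup n3 + n4 + 3, fun x hx A a0 hA z hz1 hz2 y hy w hw => ?_⟩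
  have hL := h4 x (by omega)
  have g1 : ∀ i, n1 i ≤ x := fun i => by have := le_sup (f := n1) (mem_univ i); omega
  have g2 : ∀ i, n2 i ≤ x := fun i => by have := le_sup (f := n2) (mem_univ i); omega
  have g3 : ∀ i, n3 i ≤ x := fun i => by have := le_sup (f := n3) (mem_univ i); omega
  set l := Real.log x with hld
  have hx1 : (1 : ℝ) ≤ x := by exact_mod_cast (by omega : 1 ≤ x)
  have hx0 : (0 : ℝ) < x := by linarith
  have hk0 : (0 : ℝ) ≤ k := Nat.cast_nonneg _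
  have hl1 : 1 ≤ l := by linarith
  have hl0 : 0 < l := by linarith
  have pm : ∀ i j : ℕ, i ≤ j → l ^ i ≤ l ^ j := fun i j h => pow_le_pow_right₀ hl1 h
  have p1 : ∀ i : ℕ, 1 ≤ l ^ i := fun i => one_le_pow₀ hl1
  have hz1' : 1 ≤ z := by
    have : (1 : ℝ) ≤ z := (p1 _).trans hz1
    exact_mod_cast this
  have hA0 : ∀ i, (0 : ℝ) < A i := fun i => lt_of_lt_of_le (by positivity) (hA i).1
  have hAn : ∀ i, 1 ≤ A i := fun i => by exact_mod_cast hA0 i
  have hde : ∀ i, (F i).natDegree - 1 + 1 = (F i).natDegree := fun i => by have := hd i; omega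
  have hvals : ∀ i, ∀ n ∈ Icc 1 x, ∀ v ∈ Icc 1 (A i), |lamI ((v : ℤ) + (F i + C (a0 i : ℤ)).eval (n : ℤ))| ≤ l ^ 2 ∧
      |lamzI z ((v : ℤ) + (F i + C (a0 i : ℤ)).eval (n : ℤ))| ≤ l ^ 2 := by
    intro i n hn v hv
    rw [mem_Icc] at hn hv
    have q1 := h3 i x (g3 i) (A i) (a0 i) (hAn i) (by rw [hde]; exact (hA i).2.2) n (mem_Icc.2 (by omega))
    apply h2 i x (g2 i) z hz1' hz2
    refine le_trans ?_ q1
    exact_mod_cast (by push_cast; omega)
  have key := teleF x A hAn (fun i n v => lamI ((v : ℤ) + (F i + C (a0 i : ℤ)).eval (n : ℤ)))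
    (fun i n v => lamzI z ((v : ℤ) + (F i + C (a0 i : ℤ)).eval (n : ℤ))) (fun h => |∑ n ∈ Icc 1 y, h n|) (l ^ 2) (x / l ^ U')
    (p1 2) (by positivity) (by simp) (by
      intro g h
      simp only
      rw [sum_add_distrib]
      exact abs_add_le _ _) (by
      intro g h hgh
      congr 1
      apply sum_congr rfl
      intro n hn
      rw [mem_Icc] at hn
      exact hgh n (mem_Icc.2 (by omega)))
    (fun i n hn v hv => (hvals i n hn v hv).1) (fun i n hn v hv => (hvals i n hn v hv).2) (by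
      intro i K hK G' hG'
      have q1 := h1 i x (g1 i) (A i) (a0 i)
        (le_trans (mul_le_mul_of_nonneg_left (pm _ _ (le_sup (f := C0) (mem_univ i))) (by positivity)) (hA i).1)
        (by
          rw [hde]
          exact le_trans (mul_le_mul_of_nonneg_left (pm _ _ (le_sup (f := C0) (mem_univ i))) (by positivity)) (hA i).2.1)
        (by rw [hde]; exact (hA i).2.2) z (le_trans (pm _ _ (le_sup (f := E0) (mem_univ i))) hz1) hz2 y hy
        (fun n => if n ∈ Icc 1 x then G' n / K else 0) (by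
          intro n
          split_ifs with hn
          · rw [abs_div, abs_of_pos hK, div_le_one hK]
            exact hG' n hn
          · simp)
      have e1 : ∀ v ∈ Icc 1 (A i), |∑ n ∈ Icc 1 y, G' n * (lamI ((v : ℤ) + (F i + C (a0 i : ℤ)).eval (n : ℤ)) -
          lamzI z ((v : ℤ) + (F i + C (a0 i : ℤ)).eval (n : ℤ)))| =
          K * |∑ n ∈ Icc 1 y, (if n ∈ Icc 1 x then G' n / K else 0) * Ed z ((v : ℤ) + (F i + C (a0 i : ℤ)).eval (n : ℤ))| := by
        intro v _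
        rw [← abs_of_pos hK, ← abs_mul, abs_of_pos hK, mul_sum]
        congr 1
        apply sum_congr rfl
        intro n hn
        rw [mem_Icc] at hn
        rw [if_pos (mem_Icc.2 (by omega))]
        unfold Ed
        field_simp
      rw [sum_congr rfl e1, ← mul_sum]
      apply mul_le_mul_of_nonneg_left _ hK.le
      refine q1.trans (le_of_eq ?_)
      ring)
    univ 1 one_pos (fun n _ => w n) (by
      intro n _ m _
      exact hw n) (by
      intro n m v i _; rfl)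
  have e2 : ∀ a ∈ Bx A, |∑ n ∈ Icc 1 y, w n * (∏ i, lamI (va F (a + a0) i n) - ∏ i, lamzI z (va F (a + a0) i n))| =
      |∑ n ∈ Icc 1 y, w n * (∏ i, lamI ((a i : ℤ) + (F i + C (a0 i : ℤ)).eval (n : ℤ)) -
        ∏ i, lamzI z ((a i : ℤ) + (F i + C (a0 i : ℤ)).eval (n : ℤ)))| := by
    intro a _
    simp only [va_add]
  rw [sum_congr rfl e2]
  refine key.trans ?_
  rw [card_univ, Fintype.card_fin]
  have hprod : 0 ≤ ∏ i, (A i : ℝ) := prod_nonneg fun _ _ => Nat.cast_nonneg _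
  calc (k : ℝ) * (1 * (l ^ 2) ^ k * (x / l ^ U')) * ∏ i, (A i : ℝ) = (k / l) * ((∏ i, (A i : ℝ)) * x / l ^ U) := by
        have e4 : l ^ U' = l ^ U * (l ^ 2) ^ k * l := by rw [hU', pow_succ l (U + 2 * k), pow_add, pow_mul]
        rw [e4]
        field_simp
    _ ≤ 1 * ((∏ i, (A i : ℝ)) * x / l ^ U) := by
        apply mul_le_mul_of_nonneg_right _ (by positivity)
        rw [div_le_one hl0]
        linarith
    _ = _ := one_mul _

theorem ppk (F : Fin k → ℤ[X]) (hd : ∀ i, 2 ≤ (F i).natDegree) (U G : ℕ) :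
    ∃ C0 n1 : ℕ, ∀ x : ℕ, n1 ≤ x → ∀ A a0 : Fin k → ℕ, Box F x C0 G A a0 →
        ∑ a ∈ Bx A, ∑ n ∈ Icc 1 x, |∏ i, lamI (va F (a + a0) i n) - ∏ i, lamP (va F (a + a0) i n)| ≤
          (∏ i, (A i : ℝ)) * x / Real.log x ^ U := by
  obtain ⟨U', hU'⟩ : ∃ U' : ℕ, U' = U + 2 * k + 1 := ⟨_, rfl⟩
  have h1 := fun i => pps (F i) ((F i).natDegree - 1) (by have := hd i; omega) (by have := hd i; omega) U' G
  choose n1 h1 using h1
  have h2 := fun i => lam_le2 ((F i).natDegree - 1) 0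
  choose n2 h2 using h2
  have h3 := fun i => val_le (F i) ((F i).natDegree - 1) (by have := hd i; omega) G
  choose n3 h3 using h3
  obtain ⟨n4, h4⟩ := ev_L' ((k : ℝ) + 2)
  refine ⟨G + U' + 4, univ.sup n1 + univ.sup n2 + univ.sup n3 + n4 + 3, fun x hx A a0 hA => ?_⟩
  have hL := h4 x (by omega)
  have g1 : ∀ i, n1 i ≤ x := fun i => by have := le_sup (f := n1) (mem_univ i); omega
  have g2 : ∀ i, n2 i ≤ x := fun i => by have := le_sup (f := n2) (mem_univ i); omega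
  have g3 : ∀ i, n3 i ≤ x := fun i => by have := le_sup (f := n3) (mem_univ i); omega
  set l := Real.log x with hld
  have hx1 : (1 : ℝ) ≤ x := by exact_mod_cast (by omega : 1 ≤ x)
  have hx0 : (0 : ℝ) < x := by linarith
  have hk0 : (0 : ℝ) ≤ k := Nat.cast_nonneg _
  have hl1 : 1 ≤ l := by linarith
  have hl0 : 0 < l := by linarith
  have p1 : ∀ i : ℕ, 1 ≤ l ^ i := fun i => one_le_pow₀ hl1
  have hA0 : ∀ i, (0 : ℝ) < A i := fun i => lt_of_lt_of_le (by positivity) (hA i).1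
  have hAn : ∀ i, 1 ≤ A i := fun i => by exact_mod_cast hA0 i
  have hde : ∀ i, (F i).natDegree - 1 + 1 = (F i).natDegree := fun i => by have := hd i; omega
  have hvals : ∀ i, ∀ n ∈ Icc 1 x, ∀ v ∈ Icc 1 (A i), |lamI ((v : ℤ) + (F i + C (a0 i : ℤ)).eval (n : ℤ))| ≤ l ^ 2 ∧
      |lamP ((v : ℤ) + (F i + C (a0 i : ℤ)).eval (n : ℤ))| ≤ l ^ 2 := by
    intro i n hn v hv
    rw [mem_Icc] at hn hv
    have q1 := h3 i x (g3 i) (A i) (a0 i) (hAn i) (by rw [hde]; exact (hA i).2.2) n (mem_Icc.2 (by omega))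
    have q2 := (h2 i x (g2 i) 1 le_rfl (by simp) ((v : ℤ) + (F i + C (a0 i : ℤ)).eval (n : ℤ)) (by
      refine le_trans ?_ q1
      exact_mod_cast (by push_cast; omega))).1
    refine ⟨q2, ?_⟩
    rw [abs_of_nonneg (lamP_nonneg _)]
    exact (lamP_le _).trans ((le_abs_self _).trans q2)
  have key := teleF x A hAn (fun i n v => lamI ((v : ℤ) + (F i + C (a0 i : ℤ)).eval (n : ℤ)))
    (fun i n v => lamP ((v : ℤ) + (F i + C (a0 i : ℤ)).eval (n : ℤ))) (fun h => ∑ n ∈ Icc 1 x, |h n|) (l ^ 2) (x / l ^ U')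
    (p1 2) (by positivity) (by simp) (by
      intro g h
      simp only
      rw [← sum_add_distrib]
      exact sum_le_sum fun n _ => abs_add_le _ _) (by
      intro g h hgh
      apply sum_congr rfl
      intro n hn
      rw [hgh n hn])
    (fun i n hn v hv => (hvals i n hn v hv).1) (fun i n hn v hv => (hvals i n hn v hv).2) (by
      intro i K hK G' hG'
      have q1 := h1 i x (g1 i) (A i) (a0 i) (hA i).1 (by rw [hde]; exact (hA i).2.2)
      have e1 : ∀ v ∈ Icc 1 (A i), ∑ n ∈ Icc 1 x, |G' n * (lamI ((v : ℤ) + (F i + C (a0 i : ℤ)).eval (n : ℤ)) -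
          lamP ((v : ℤ) + (F i + C (a0 i : ℤ)).eval (n : ℤ)))| ≤
          K * ∑ n ∈ Icc 1 x, (lamI ((v : ℤ) + (F i + C (a0 i : ℤ)).eval (n : ℤ)) - lamP ((v : ℤ) + (F i + C (a0 i : ℤ)).eval (n : ℤ))) := by
        intro v _
        rw [mul_sum]
        apply sum_le_sum
        intro n hn
        have q2 := lamP_le ((v : ℤ) + (F i + C (a0 i : ℤ)).eval (n : ℤ))
        rw [abs_mul, abs_of_nonneg (sub_nonneg.2 q2)]
        exact mul_le_mul_of_nonneg_right (hG' n hn) (sub_nonneg.2 q2)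
      refine (sum_le_sum e1).trans ?_
      rw [← mul_sum]
      apply mul_le_mul_of_nonneg_left _ hK.le
      refine q1.trans (le_of_eq ?_)
      ring)
    univ 1 one_pos (fun _ _ => 1) (by
      intro n _ m _
      simp) (by
      intro n m v i _; rfl)
  have e2 : ∀ a ∈ Bx A, ∑ n ∈ Icc 1 x, |∏ i, lamI (va F (a + a0) i n) - ∏ i, lamP (va F (a + a0) i n)| =
      ∑ n ∈ Icc 1 x, |1 * (∏ i, lamI ((a i : ℤ) + (F i + C (a0 i : ℤ)).eval (n : ℤ)) -
        ∏ i, lamP ((a i : ℤ) + (F i + C (a0 i : ℤ)).eval (n : ℤ)))| := by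
    intro a _
    simp only [va_add, one_mul]
  rw [sum_congr rfl e2]
  refine key.trans ?_
  rw [card_univ, Fintype.card_fin]
  have hprod : 0 ≤ ∏ i, (A i : ℝ) := prod_nonneg fun _ _ => Nat.cast_nonneg _
  calc (k : ℝ) * (1 * (l ^ 2) ^ k * (x / l ^ U')) * ∏ i, (A i : ℝ) = (k / l) * ((∏ i, (A i : ℝ)) * x / l ^ U) := by
        have e4 : l ^ U' = l ^ U * (l ^ 2) ^ k * l := by rw [hU', pow_succ l (U + 2 * k), pow_add, pow_mul]
        rw [e4]
        field_simp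
    _ ≤ 1 * ((∏ i, (A i : ℝ)) * x / l ^ U) := by
        apply mul_le_mul_of_nonneg_right _ (by positivity)
        rw [div_le_one hl0]
        linarith
    _ = _ := one_mul _

end Pool.Agent.H544.VB
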