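import Pool.Agent.H544.VB.Stm

set_option autoImplicit false

namespace Pool.Agent.H544.VB
open Finset
open Pool.Agent.H807R2.Dav

namespace V1N

theorem mem_I (u L m v : ℕ) (hm : 0 < m) :
    v ∈ Ioc (u / m) ((u + L) / m) ↔ u < m * v ∧ m * v ≤ u + L := by
  rw [mem_Ioc, Nat.div_lt_iff_lt_mul hm, Nat.le_div_iff_mul_le hm, Nat.mul_comm v m]

theorem conj_ee (x : ℝ) : (starRingEnd ℂ) (ee x) = ee (-x) := by
  unfold ee
  rw [← Complex.exp_conj]
  congr 1
  simp only [map_mul, Complex.conj_ofReal, Complex.conj_I, map_ofNat]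
  push_cast
  ring

/-- the terms -/
noncomputable def w (u L : ℕ) (β : ℕ → ℝ) (θ : ℝ) (m v : ℕ) : ℂ :=
  if u < m * v ∧ m * v ≤ u + L then (β v : ℂ) * ee (((m * v : ℕ) : ℝ) * θ) else 0

/-- the set of the `m` -/
def J (u L U v v' : ℕ) : Finset ℕ := (Ioc U (2 * U)).filter fun m =>
  (u < m * v ∧ m * v ≤ u + L) ∧ (u < m * v' ∧ m * v' ≤ u + L)

theorem inner_eq (u L U : ℕ) (β : ℕ → ℝ) (θ : ℝ) (v v' : ℕ) :
    ∑ m ∈ Ioc U (2 * U), w u L β θ m v * (starRingEnd ℂ) (w u L β θ m v') =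
      ((β v * β v' : ℝ) : ℂ) * ∑ m ∈ J u L U v v', ee ((m : ℝ) * (((v : ℝ) - v') * θ)) := by
  unfold J
  rw [Finset.sum_filter, Finset.mul_sum]
  apply Finset.sum_congr rfl
  intro m _
  unfold w
  by_cases h1 : u < m * v ∧ m * v ≤ u + L
  · by_cases h2 : u < m * v' ∧ m * v' ≤ u + L
    · rw [if_pos h1, if_pos h2, if_pos ⟨h1, h2⟩, map_mul, Complex.conj_ofReal, conj_ee]
      have h3 : (m : ℝ) * (((v : ℝ) - v') * θ) =
          ((m * v : ℕ) : ℝ) * θ + -(((m * v' : ℕ) : ℝ) * θ) := by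
        push_cast
        ring
      rw [h3, ee_add]
      push_cast
      ring
    · rw [if_neg h2, map_zero, mul_zero, if_neg (fun h => h2 h.2), mul_zero]
  · rw [if_neg h1, zero_mul, if_neg (fun h => h1 h.1), mul_zero]

theorem J_eq (u L U v v' : ℕ) (hv : 0 < v) (hv' : 0 < v') :
    J u L U v v' = Ico (max (U + 1) (max (u / v + 1) (u / v' + 1)))
      (max (max (U + 1) (max (u / v + 1) (u / v' + 1)))
        (min (2 * U + 1) (min ((u + L) / v + 1) ((u + L) / v' + 1)))) := by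
  ext m
  unfold J
  rw [mem_filter, mem_Ioc, mem_Ico]
  have h1 : u < m * v ↔ u / v < m := (Nat.div_lt_iff_lt_mul hv).symm
  have h2 : m * v ≤ u + L ↔ m ≤ (u + L) / v := (Nat.le_div_iff_mul_le hv).symm
  have h3 : u < m * v' ↔ u / v' < m := (Nat.div_lt_iff_lt_mul hv').symm
  have h4 : m * v' ≤ u + L ↔ m ≤ (u + L) / v' := (Nat.le_div_iff_mul_le hv').symm
  rw [h1, h2, h3, h4]
  generalize u / v = a1
  generalize u / v' = a2
  generalize (u + L) / v = a3
  generalize (u + L) / v' = a4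
  omega

theorem J_near (u L U v v' : ℕ) (hU : 1 ≤ U) (h : (J u L U v v').Nonempty) :
    v - v' ≤ L / U ∧ v' - v ≤ L / U := by
  obtain ⟨m, hm⟩ := h
  unfold J at hm
  rw [mem_filter, mem_Ioc] at hm
  obtain ⟨⟨hm1, hm2⟩, ⟨h1, h2⟩, h3, h4⟩ := hm
  constructor
  · rw [Nat.le_div_iff_mul_le (by omega)]
    have h5 : (v - v') * m ≤ L := by
      rw [Nat.sub_mul, Nat.mul_comm v, Nat.mul_comm v']
      omega
    exact (Nat.mul_le_mul_left _ (by omega : U ≤ m)).trans h5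
  · rw [Nat.le_div_iff_mul_le (by omega)]
    have h5 : (v' - v) * m ≤ L := by
      rw [Nat.sub_mul, Nat.mul_comm v, Nat.mul_comm v']
      omega
    exact (Nat.mul_le_mul_left _ (by omega : U ≤ m)).trans h5

theorem div_diff (u L v : ℕ) (hv : 0 < v) :
    (((u + L) / v : ℕ) : ℝ) - ((u / v : ℕ) : ℝ) ≤ (L : ℝ) / v + 1 := by
  have hv' : (0 : ℝ) < v := by exact_mod_cast hv
  have h1 : (((u + L) / v : ℕ) : ℝ) ≤ ((u + L : ℕ) : ℝ) / v := Nat.cast_div_le
  have h2 : ((u : ℝ)) / v < ((u / v : ℕ) : ℝ) + 1 := by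
    rw [div_lt_iff₀ hv']
    have h3 : u < (u / v + 1) * v := by
      have := Nat.lt_mul_div_succ u hv
      rw [Nat.mul_comm] at this
      exact this
    exact_mod_cast h3
  push_cast at h1
  rw [add_div] at h1
  linarith

theorem J_bound (u L U v v' : ℕ) (hU : 1 ≤ U) (hv : 0 < v) (hv' : 0 < v') (x : ℝ) :
    ‖∑ m ∈ J u L U v v', ee ((m : ℝ) * x)‖ ≤
      if v - v' ≤ L / U ∧ v' - v ≤ L / U then KK ((L : ℝ) / v + 1) x else 0 := by
  have hM : (0 : ℝ) ≤ (L : ℝ) / v + 1 := by positivity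
  by_cases hne : (J u L U v v').Nonempty
  · rw [if_pos (J_near u L U v v' hU hne), J_eq u L U v v' hv hv']
    apply geo_bound _ _ (le_max_left _ _)
    have h1 := div_diff u L v hv
    rcases le_total (min (2 * U + 1) (min ((u + L) / v + 1) ((u + L) / v' + 1)))
      (max (U + 1) (max (u / v + 1) (u / v' + 1))) with h | h
    · rw [max_eq_left h, sub_self]
      exact hM
    · rw [max_eq_right h]
      have h2 : (((min (2 * U + 1) (min ((u + L) / v + 1) ((u + L) / v' + 1)) : ℕ)) : ℝ) ≤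
          (((u + L) / v : ℕ) : ℝ) + 1 := by
        have : min (2 * U + 1) (min ((u + L) / v + 1) ((u + L) / v' + 1)) ≤ (u + L) / v + 1 :=
          (min_le_right _ _).trans (min_le_left _ _)
        exact_mod_cast this
      have h3 : ((u / v : ℕ) : ℝ) + 1 ≤
          ((max (U + 1) (max (u / v + 1) (u / v' + 1)) : ℕ) : ℝ) := by
        have : u / v + 1 ≤ max (U + 1) (max (u / v + 1) (u / v' + 1)) :=
          (le_max_left _ _).trans (le_max_right _ _)
        exact_mod_cast this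
      linarith
  · rw [Finset.not_nonempty_iff_eq_empty.1 hne, Finset.sum_empty, norm_zero]
    split_ifs
    · exact KK_nonneg hM x
    · exact le_refl _

theorem sum_inj (s t : Finset ℕ) (φ : ℕ → ℕ) (g : ℕ → ℝ) (hg : ∀ y, 0 ≤ g y)
    (hφ : Set.InjOn φ s) (hst : ∀ x ∈ s, φ x ∈ t) : ∑ x ∈ s, g (φ x) ≤ ∑ y ∈ t, g y := by
  rw [← Finset.sum_image (f := g) hφ]
  apply Finset.sum_le_sum_of_subset_of_nonneg
  · intro y hy
    obtain ⟨x, hx, rfl⟩ := Finset.mem_image.1 hy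
    exact hst x hx
  · intro y _ _
    exact hg y

theorem sum_near (R H v : ℕ) (M θ : ℝ) (hM : 0 ≤ M) :
    ∑ v' ∈ Icc 1 R, (if v - v' ≤ H ∧ v' - v ≤ H then KK M (((v : ℝ) - v') * θ) else 0) ≤
      2 * ∑ r ∈ range (H + 1), KK M ((r : ℝ) * θ) := by
  have hg : ∀ r : ℕ, 0 ≤ KK M ((r : ℝ) * θ) := fun r => KK_nonneg hM _
  have h1 : ∀ v' ∈ Icc 1 R, (if v - v' ≤ H ∧ v' - v ≤ H then KK M (((v : ℝ) - v') * θ) else 0) ≤
      (if v' ≤ v ∧ v - v' ≤ H then KK M (((v - v' : ℕ) : ℝ) * θ) else 0) +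
      (if v < v' ∧ v' - v ≤ H then KK M (((v' - v : ℕ) : ℝ) * θ) else 0) := by
    intro v' _
    by_cases hn : v - v' ≤ H ∧ v' - v ≤ H
    · rw [if_pos hn]
      rcases Nat.lt_or_ge v v' with h | h
      · rw [if_neg (fun h2 => absurd h2.1 (by omega)), if_pos ⟨h, hn.2⟩, zero_add,
          Nat.cast_sub h.le, ← KK_neg]
        apply le_of_eq
        congr 1
        ring
      · rw [if_pos ⟨h, hn.1⟩, if_neg (fun h2 => absurd h2.1 (by omega)), add_zero,
          Nat.cast_sub h]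
    · rw [if_neg hn]
      apply add_nonneg
      · split_ifs
        · exact hg _
        · exact le_refl _
      · split_ifs
        · exact hg _
        · exact le_refl _
  refine (Finset.sum_le_sum h1).trans ?_
  rw [Finset.sum_add_distrib, ← Finset.sum_filter, ← Finset.sum_filter, two_mul]
  apply add_le_add
  · apply sum_inj _ _ (fun v' => v - v') (fun r => KK M ((r : ℝ) * θ)) hg
    · intro x hx y hy hxy
      rw [Finset.mem_coe, mem_filter] at hx hy
      simp only at hxy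
      omega
    · intro x hx
      rw [mem_filter] at hx
      rw [mem_range]
      omega
  · apply sum_inj _ _ (fun v' => v' - v) (fun r => KK M ((r : ℝ) * θ)) hg
    · intro x hx y hy hxy
      rw [Finset.mem_coe, mem_filter] at hx hy
      simp only at hxy
      omega
    · intro x hx
      rw [mem_filter] at hx
      rw [mem_range]
      omega

theorem harm (R : ℕ) : ∑ v ∈ Icc 1 R, 1 / (v : ℝ) ≤ 1 + Real.log R := by
  have h := harmonic_le_one_add_log R
  rw [harmonic_eq_sum_Icc] at h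
  push_cast at h
  simpa only [one_div] using h

theorem S_norm (u L U R : ℕ) (β : ℕ → ℝ) (θ B1 : ℝ) (hU : 1 ≤ U) (hB1 : 0 ≤ B1)
    (hβ : ∀ v, v ≤ R → |β v| ≤ B1) :
    ∑ m ∈ Ioc U (2 * U), ‖∑ v ∈ Icc 1 R, w u L β θ m v‖ ^ 2 ≤
      B1 ^ 2 * ∑ v ∈ Icc 1 R, ∑ v' ∈ Icc 1 R,
        (if v - v' ≤ L / U ∧ v' - v ≤ L / U then KK ((L : ℝ) / v + 1) (((v : ℝ) - v') * θ)
          else 0) := by
  have h1 : ((∑ m ∈ Ioc U (2 * U), ‖∑ v ∈ Icc 1 R, w u L β θ m v‖ ^ 2 : ℝ) : ℂ) =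
      ∑ v ∈ Icc 1 R, ∑ v' ∈ Icc 1 R, ∑ m ∈ Ioc U (2 * U),
        w u L β θ m v * (starRingEnd ℂ) (w u L β θ m v') := by
    have h2 : ((∑ m ∈ Ioc U (2 * U), ‖∑ v ∈ Icc 1 R, w u L β θ m v‖ ^ 2 : ℝ) : ℂ) =
        ∑ m ∈ Ioc U (2 * U), ∑ v ∈ Icc 1 R, ∑ v' ∈ Icc 1 R,
          w u L β θ m v * (starRingEnd ℂ) (w u L β θ m v') := by
      push_cast
      apply Finset.sum_congr rfl
      intro m _
      rw [← Complex.mul_conj', map_sum, Finset.sum_mul_sum]
    rw [h2, Finset.sum_comm]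
    apply Finset.sum_congr rfl
    intro v _
    rw [Finset.sum_comm]
  have h3 : 0 ≤ ∑ m ∈ Ioc U (2 * U), ‖∑ v ∈ Icc 1 R, w u L β θ m v‖ ^ 2 :=
    Finset.sum_nonneg fun m _ => by positivity
  have h4 : ∑ m ∈ Ioc U (2 * U), ‖∑ v ∈ Icc 1 R, w u L β θ m v‖ ^ 2 =
      ‖((∑ m ∈ Ioc U (2 * U), ‖∑ v ∈ Icc 1 R, w u L β θ m v‖ ^ 2 : ℝ) : ℂ)‖ := by
    rw [Complex.norm_real, Real.norm_of_nonneg h3]
  rw [h4, h1]
  refine (norm_sum_le _ _).trans ?_
  rw [Finset.mul_sum]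
  apply Finset.sum_le_sum
  intro v hv
  rw [mem_Icc] at hv
  refine (norm_sum_le _ _).trans ?_
  rw [Finset.mul_sum]
  apply Finset.sum_le_sum
  intro v' hv'
  rw [mem_Icc] at hv'
  rw [inner_eq, norm_mul, Complex.norm_real, Real.norm_eq_abs, abs_mul]
  have h5 : |β v| * |β v'| ≤ B1 ^ 2 := by
    rw [sq]
    exact mul_le_mul (hβ v hv.2) (hβ v' hv'.2) (abs_nonneg _) hB1
  have h6 := J_bound u L U v v' hU hv.1 hv'.1 (((v : ℝ) - v') * θ)
  exact mul_le_mul h5 h6 (norm_nonneg _) (by positivity)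

end V1N

open V1N in
theorem v1 : S_V1 := by
  refine ⟨168, by norm_num, ?_⟩
  intro X L u U q b θ hX hL huL hU hUX hq hqX hcop hθ α β A2 B1 hA2 hB1 hα hβ
  have hX' : (2 : ℝ) ≤ X := by exact_mod_cast hX
  have hU' : (1 : ℝ) ≤ U := by exact_mod_cast hU
  have hq' : (1 : ℝ) ≤ q := by exact_mod_cast hq
  have hL' : (1 : ℝ) ≤ L := by exact_mod_cast hL
  have hlX : 0 ≤ Real.log X := Real.log_nonneg (by linarith)
  set R := X / U with hR
  have hRX : R ≤ X := Nat.div_le_self X U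
  have hR' : (R : ℝ) ≤ X / U := Nat.cast_div_le
  have e1 : ∑ m ∈ Ioc U (2 * U), ∑ v ∈ Ioc (u / m) ((u + L) / m),
      ((α m * β v : ℝ) : ℂ) * ee (((m * v : ℕ) : ℝ) * θ) =
      ∑ m ∈ Ioc U (2 * U), (α m : ℂ) * ∑ v ∈ Icc 1 R, w u L β θ m v := by
    apply Finset.sum_congr rfl
    intro m hm
    rw [mem_Ioc] at hm
    have hm0 : 0 < m := by omega
    rw [Finset.mul_sum]
    have h1 : ∑ v ∈ Ioc (u / m) ((u + L) / m),
        ((α m * β v : ℝ) : ℂ) * ee (((m * v : ℕ) : ℝ) * θ) =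
        ∑ v ∈ Ioc (u / m) ((u + L) / m), (α m : ℂ) * w u L β θ m v := by
      apply Finset.sum_congr rfl
      intro v hv
      rw [mem_I u L m v hm0] at hv
      rw [w, if_pos hv]
      push_cast
      ring
    rw [h1]
    apply Finset.sum_subset
    · intro v hv
      rw [mem_I u L m v hm0] at hv
      rw [mem_Icc]
      constructor
      · by_contra h0
        have : v = 0 := by omega
        rw [this, Nat.mul_zero] at hv
        omega
      · rw [hR, Nat.le_div_iff_mul_le (by omega)]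
        calc v * U ≤ v * m := Nat.mul_le_mul_left _ hm.1.le
          _ = m * v := Nat.mul_comm _ _
          _ ≤ X := hv.2.trans huL
    · intro v _ hv
      rw [mem_I u L m v hm0] at hv
      rw [w, if_neg hv, mul_zero]
  have e2 : ‖∑ m ∈ Ioc U (2 * U), (α m : ℂ) * ∑ v ∈ Icc 1 R, w u L β θ m v‖ ^ 2 ≤
      A2 * ∑ m ∈ Ioc U (2 * U), ‖∑ v ∈ Icc 1 R, w u L β θ m v‖ ^ 2 := by
    have h1 : ‖∑ m ∈ Ioc U (2 * U), (α m : ℂ) * ∑ v ∈ Icc 1 R, w u L β θ m v‖ ≤
        ∑ m ∈ Ioc U (2 * U), |α m| * ‖∑ v ∈ Icc 1 R, w u L β θ m v‖ := by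
      refine (norm_sum_le _ _).trans (le_of_eq ?_)
      apply Finset.sum_congr rfl
      intro m _
      rw [norm_mul, Complex.norm_real, Real.norm_eq_abs]
    have h2 := Finset.sum_mul_sq_le_sq_mul_sq (Ioc U (2 * U)) (fun m => |α m|)
      (fun m => ‖∑ v ∈ Icc 1 R, w u L β θ m v‖)
    have h3 : ∑ m ∈ Ioc U (2 * U), |α m| ^ 2 ≤ A2 := by
      refine le_trans (le_of_eq ?_) hα
      apply Finset.sum_congr rfl
      intro m _
      exact sq_abs _
    have h4 : 0 ≤ ∑ m ∈ Ioc U (2 * U), ‖∑ v ∈ Icc 1 R, w u L β θ m v‖ ^ 2 :=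
      Finset.sum_nonneg fun m _ => by positivity
    calc _ ≤ (∑ m ∈ Ioc U (2 * U), |α m| * ‖∑ v ∈ Icc 1 R, w u L β θ m v‖) ^ 2 :=
          pow_le_pow_left₀ (norm_nonneg _) h1 2
      _ ≤ _ := h2
      _ ≤ _ := mul_le_mul_of_nonneg_right h3 h4
  have e3 := S_norm u L U R β θ B1 hU hB1 (fun v hv => hβ v (hv.trans hRX))
  set H := L / U with hH
  have hH' : (H : ℝ) ≤ L / U := Nat.cast_div_le
  set Q : ℝ := (L : ℝ) / (U * q) + 2 with hQ
  have hQ0 : 0 ≤ Q := by positivity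
  have hlq : Real.log q ≤ Real.log X := Real.log_le_log (by linarith) (by exact_mod_cast hqX)
  have e4 : ∀ v ∈ Icc 1 R, ∑ v' ∈ Icc 1 R,
      (if v - v' ≤ H ∧ v' - v ≤ H then KK ((L : ℝ) / v + 1) (((v : ℝ) - v') * θ) else 0) ≤
      2 * (Q * (39 * ((L : ℝ) * (1 / v) + 1) + 3 * q * (1 + Real.log X))) := by
    intro v hv
    rw [mem_Icc] at hv
    have hM : (0 : ℝ) ≤ (L : ℝ) / v + 1 := by positivity
    refine (sum_near R H v _ θ hM).trans ?_
    apply mul_le_mul_of_nonneg_left _ (by norm_num)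
    have h1 := vino hq hcop hθ hM 0 (H + 1)
    simp only [zero_add] at h1
    refine h1.trans ?_
    have h2 : ((H + 1 : ℕ) : ℝ) / q + 1 ≤ Q := by
      push_cast
      rw [hQ, add_div]
      have h3 : (H : ℝ) / q ≤ L / (U * q) := by
        rw [← div_div]
        exact div_le_div_of_nonneg_right hH' (by linarith)
      have h4 : 1 / (q : ℝ) ≤ 1 := by
        rw [div_le_one (by linarith)]
        exact hq'
      linarith
    have h5 : 39 * ((L : ℝ) / v + 1) + 3 * q * (1 + Real.log q) ≤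
        39 * ((L : ℝ) * (1 / v) + 1) + 3 * q * (1 + Real.log X) := by
      rw [mul_one_div]
      have : 3 * (q : ℝ) * (1 + Real.log q) ≤ 3 * q * (1 + Real.log X) :=
        mul_le_mul_of_nonneg_left (by linarith) (by linarith)
      linarith
    have h6 : 0 ≤ Real.log q := Real.log_nonneg hq'
    exact mul_le_mul h2 h5 (by positivity) hQ0
  have e5 : ∑ v ∈ Icc 1 R, (2 * (Q * (39 * ((L : ℝ) * (1 / v) + 1) +
      3 * q * (1 + Real.log X)))) ≤
      2 * (Q * ((1 + Real.log X) * (39 * L + 42 * (X * q / U)))) := by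
    rw [← Finset.mul_sum, ← Finset.mul_sum]
    apply mul_le_mul_of_nonneg_left _ (by norm_num)
    apply mul_le_mul_of_nonneg_left _ hQ0
    have h1 : ∑ v ∈ Icc 1 R, (39 * ((L : ℝ) * (1 / v) + 1) + 3 * q * (1 + Real.log X)) =
        39 * L * (∑ v ∈ Icc 1 R, 1 / (v : ℝ)) + (39 + 3 * q * (1 + Real.log X)) * R := by
      have h2 : ∀ v ∈ Icc 1 R, 39 * ((L : ℝ) * (1 / v) + 1) + 3 * q * (1 + Real.log X) =
          39 * L * (1 / (v : ℝ)) + (39 + 3 * q * (1 + Real.log X)) := fun v _ => by ring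
      rw [Finset.sum_congr rfl h2, Finset.sum_add_distrib, ← Finset.mul_sum, Finset.sum_const,
        Nat.card_Icc, nsmul_eq_mul, Nat.add_sub_cancel]
      ring
    rw [h1]
    have h3 : ∑ v ∈ Icc 1 R, 1 / (v : ℝ) ≤ 1 + Real.log X := by
      refine (harm R).trans ?_
      rcases Nat.eq_zero_or_pos R with h0 | h0
      · rw [h0, Nat.cast_zero, Real.log_zero]
        linarith
      · have : Real.log R ≤ Real.log X :=
          Real.log_le_log (by exact_mod_cast h0) (by exact_mod_cast hRX)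
        linarith
    have h4 : 39 * (L : ℝ) * (∑ v ∈ Icc 1 R, 1 / (v : ℝ)) ≤ 39 * L * (1 + Real.log X) :=
      mul_le_mul_of_nonneg_left h3 (by positivity)
    have h5 : (39 + 3 * (q : ℝ) * (1 + Real.log X)) * R ≤
        (42 * q * (1 + Real.log X)) * (X / U) := by
      apply mul_le_mul _ hR' (Nat.cast_nonneg _) (by positivity)
      have : 1 ≤ (q : ℝ) * (1 + Real.log X) := by nlinarith
      nlinarith
    have h6 : (1 + Real.log X) * (39 * L + 42 * (X * q / U)) =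
        39 * L * (1 + Real.log X) + (42 * q * (1 + Real.log X)) * (X / U) := by ring
    rw [h6]
    linarith
  rw [e1]
  refine e2.trans ?_
  have e6 : ∑ m ∈ Ioc U (2 * U), ‖∑ v ∈ Icc 1 R, w u L β θ m v‖ ^ 2 ≤
      B1 ^ 2 * (2 * (Q * ((1 + Real.log X) * (39 * L + 42 * (X * q / U))))) := by
    refine e3.trans ?_
    apply mul_le_mul_of_nonneg_left _ (by positivity)
    exact (Finset.sum_le_sum e4).trans e5
  refine (mul_le_mul_of_nonneg_left e6 hA2).trans ?_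
  have e7 : 2 * (Q * (39 * (L : ℝ) + 42 * (X * q / U))) ≤
      168 * ((L : ℝ) ^ 2 / (U * q) + L * X / U ^ 2 + L + X * q / U) := by
    have h1 : Q * (39 * (L : ℝ) + 42 * (X * q / U)) =
        39 * ((L : ℝ) ^ 2 / (U * q)) + 42 * (L * X / U ^ 2) + 78 * L + 84 * (X * q / U) := by
      rw [hQ]
      have hU0 : (U : ℝ) ≠ 0 := by linarith
      have hq0 : (q : ℝ) ≠ 0 := by linarith
      field_simp
      ring
    rw [h1]
    have a1 : 0 ≤ (L : ℝ) ^ 2 / (U * q) := by positivity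
    have a2 : 0 ≤ (L : ℝ) * X / U ^ 2 := by positivity
    linarith
  have e8 : A2 * (B1 ^ 2 * (2 * (Q * ((1 + Real.log X) * (39 * L + 42 * (X * q / U)))))) =
      (A2 * B1 ^ 2 * (1 + Real.log X)) * (2 * (Q * (39 * (L : ℝ) + 42 * (X * q / U)))) := by ring
  rw [e8]
  refine (mul_le_mul_of_nonneg_left e7 (by positivity)).trans (le_of_eq ?_)
  ring

end Pool.Agent.H544.VB
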