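import Pool.Agent.H544.VB.Stm

/-!
# Project VB (helper544): S_V12
-/

set_option autoImplicit false

namespace Pool.Agent.H544.VB

open Finset

namespace V12N

lemma sq1 {κ : Type} (s : Finset κ) (f : κ → ℝ) :
    (∑ i ∈ s, |f i|) ^ 2 ≤ s.card * ∑ i ∈ s, f i ^ 2 := by
  have h := sq_sum_le_card_mul_sum_sq (s := s) (f := fun i => |f i|)
  simp only [sq_abs] at h
  exact h

end V12N

theorem v12 : S_V12 := by
  intro g A y ρ T hρ hg hT w hw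
  set I := Icc 1 A with hId
  set J := Icc 1 y with hJd
  have hI : (I.card : ℝ) = A := by
    rw [hId, Nat.card_Icc]
    norm_num
  have hJ : (J.card : ℝ) = y := by
    rw [hJd, Nat.card_Icc]
    norm_num
  set Cf : ℕ → ℕ → ℝ := fun n n' => ∑ a ∈ I, g a n * g a n' with hCf
  set Df : ℕ → ℕ → ℝ := fun a b => ∑ n ∈ J, g a n * g b n with hDf
  have h1 : (∑ a ∈ I, |∑ n ∈ J, w n * g a n|) ^ 2 ≤
      A * ∑ a ∈ I, (∑ n ∈ J, w n * g a n) ^ 2 := by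
    have h := V12N.sq1 I (fun a => ∑ n ∈ J, w n * g a n)
    rw [hI] at h
    exact h
  have h2 : ∑ a ∈ I, (∑ n ∈ J, w n * g a n) ^ 2 ≤ ∑ n ∈ J, ∑ n' ∈ J, |Cf n n'| := by
    have e : ∑ a ∈ I, (∑ n ∈ J, w n * g a n) ^ 2 =
        ∑ n ∈ J, ∑ n' ∈ J, w n * w n' * Cf n n' := by
      have e1 : ∀ a, (∑ n ∈ J, w n * g a n) ^ 2 =
          ∑ n ∈ J, ∑ n' ∈ J, w n * w n' * (g a n * g a n') := by
        intro a
        rw [sq, Finset.sum_mul_sum]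
        refine Finset.sum_congr rfl fun n _ => Finset.sum_congr rfl fun n' _ => ?_
        ring
      simp only [e1]
      rw [Finset.sum_comm]
      refine Finset.sum_congr rfl fun n _ => ?_
      rw [Finset.sum_comm]
      refine Finset.sum_congr rfl fun n' _ => ?_
      rw [hCf, Finset.mul_sum]
    rw [e]
    refine Finset.sum_le_sum fun n _ => Finset.sum_le_sum fun n' _ => ?_
    calc w n * w n' * Cf n n' ≤ |w n * w n' * Cf n n'| := le_abs_self _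
      _ = |w n| * |w n'| * |Cf n n'| := by rw [abs_mul, abs_mul]
      _ ≤ 1 * 1 * |Cf n n'| :=
          mul_le_mul_of_nonneg_right
            (mul_le_mul (hw n) (hw n') (abs_nonneg _) zero_le_one) (abs_nonneg _)
      _ = |Cf n n'| := by ring
  have h3 : (∑ n ∈ J, ∑ n' ∈ J, |Cf n n'|) ^ 2 ≤
      (y : ℝ) ^ 2 * ∑ n ∈ J, ∑ n' ∈ J, Cf n n' ^ 2 := by
    have h := V12N.sq1 (J ×ˢ J) (fun p => Cf p.1 p.2)
    rw [Finset.card_product, Nat.cast_mul, hJ, Finset.sum_product, Finset.sum_product] at h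
    rw [sq (y : ℝ)]
    exact h
  have h4 : ∑ n ∈ J, ∑ n' ∈ J, Cf n n' ^ 2 = ∑ a ∈ I, ∑ b ∈ I, Df a b ^ 2 := by
    have e1 : ∀ n n', Cf n n' ^ 2 =
        ∑ q ∈ I ×ˢ I, (g q.1 n * g q.1 n') * (g q.2 n * g q.2 n') := by
      intro n n'
      rw [sq, hCf, Finset.sum_mul_sum, Finset.sum_product]
    have e2 : ∀ a b, Df a b ^ 2 =
        ∑ p ∈ J ×ˢ J, (g a p.1 * g b p.1) * (g a p.2 * g b p.2) := by
      intro a b
      rw [sq, hDf, Finset.sum_mul_sum, Finset.sum_product]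
    have e3 : ∑ n ∈ J, ∑ n' ∈ J, Cf n n' ^ 2 = ∑ p ∈ J ×ˢ J, Cf p.1 p.2 ^ 2 := by
      rw [Finset.sum_product]
    have e4 : ∑ a ∈ I, ∑ b ∈ I, Df a b ^ 2 = ∑ q ∈ I ×ˢ I, Df q.1 q.2 ^ 2 := by
      rw [Finset.sum_product]
    rw [e3, e4]
    simp only [e1, e2]
    rw [Finset.sum_comm]
    refine Finset.sum_congr rfl fun q _ => Finset.sum_congr rfl fun p _ => ?_
    ring
  have h5 : ∑ a ∈ I, ∑ b ∈ I, Df a b ^ 2 ≤ (y : ℝ) * ρ ^ 2 * T := by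
    have hb : ∀ a ∈ I, ∀ b ∈ I, |Df a b| ≤ (y : ℝ) * ρ ^ 2 := by
      intro a ha b hb
      calc |Df a b| ≤ ∑ n ∈ J, |g a n * g b n| := Finset.abs_sum_le_sum_abs _ _
        _ ≤ ∑ _n ∈ J, ρ ^ 2 := by
            refine Finset.sum_le_sum fun n hn => ?_
            rw [abs_mul, sq]
            exact mul_le_mul (hg a ha n hn) (hg b hb n hn) (abs_nonneg _) hρ
        _ = (y : ℝ) * ρ ^ 2 := by rw [Finset.sum_const, nsmul_eq_mul, hJ]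
    have h6 : ∑ a ∈ I, ∑ b ∈ I, Df a b ^ 2 ≤
        ∑ a ∈ I, ∑ b ∈ I, (y : ℝ) * ρ ^ 2 * |Df a b| := by
      refine Finset.sum_le_sum fun a ha => Finset.sum_le_sum fun b hb' => ?_
      rw [← sq_abs, sq]
      exact mul_le_mul_of_nonneg_right (hb a ha b hb') (abs_nonneg _)
    refine h6.trans ?_
    have e : ∑ a ∈ I, ∑ b ∈ I, (y : ℝ) * ρ ^ 2 * |Df a b| =
        (y : ℝ) * ρ ^ 2 * ∑ a ∈ I, ∑ b ∈ I, |Df a b| := by
      simp only [Finset.mul_sum]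
    rw [e]
    exact mul_le_mul_of_nonneg_left hT (by positivity)
  have hX0 : 0 ≤ ∑ n ∈ J, ∑ n' ∈ J, |Cf n n'| :=
    Finset.sum_nonneg fun n _ => Finset.sum_nonneg fun n' _ => abs_nonneg _
  have hA0 : (0 : ℝ) ≤ A := Nat.cast_nonneg A
  have h7 : (∑ a ∈ I, |∑ n ∈ J, w n * g a n|) ^ 2 ≤ A * ∑ n ∈ J, ∑ n' ∈ J, |Cf n n'| :=
    h1.trans (mul_le_mul_of_nonneg_left h2 hA0)
  calc (∑ a ∈ I, |∑ n ∈ J, w n * g a n|) ^ 4
      = ((∑ a ∈ I, |∑ n ∈ J, w n * g a n|) ^ 2) ^ 2 := by ring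
    _ ≤ (A * ∑ n ∈ J, ∑ n' ∈ J, |Cf n n'|) ^ 2 := pow_le_pow_left₀ (sq_nonneg _) h7 2
    _ = (A : ℝ) ^ 2 * (∑ n ∈ J, ∑ n' ∈ J, |Cf n n'|) ^ 2 := by ring
    _ ≤ (A : ℝ) ^ 2 * ((y : ℝ) ^ 2 * ((y : ℝ) * ρ ^ 2 * T)) := by
        refine mul_le_mul_of_nonneg_left (h3.trans ?_) (sq_nonneg _)
        rw [h4]
        exact mul_le_mul_of_nonneg_left h5 (sq_nonneg _)
    _ = (A : ℝ) ^ 2 * (y : ℝ) ^ 3 * ρ ^ 2 * T := by ring

end Pool.Agent.H544.VB
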