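import Pool.Agent.H544.VB.Stm

/-!
# Project VB (helper544), part V2: bilinear sums of the identity of Vaughan over a short interval
-/

set_option autoImplicit false
set_option linter.all false

namespace Pool.Agent.H544.VB

open Finset
open Pool.Agent.H807R2.Dav

namespace V2N

/-- the number of divisors -/
noncomputable def tau (n : ℕ) : ℝ := (n.divisors.card : ℝ)

lemma tau_nonneg (n : ℕ) : 0 ≤ tau n := Nat.cast_nonneg _

lemma one_le_tau {n : ℕ} (hn : n ≠ 0) : 1 ≤ tau n := by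
  unfold tau
  have : 0 < n.divisors.card := Finset.card_pos.mpr (Nat.nonempty_divisors.mpr hn)
  exact_mod_cast this

lemma tau_mul_le (m n : ℕ) : tau (m * n) ≤ tau m * tau n := by
  unfold tau
  rw [Nat.divisors_mul]
  exact_mod_cast Finset.card_mul_le

lemma tau_mono {m n : ℕ} (hn : n ≠ 0) (h : m ∣ n) : tau m ≤ tau n := by
  unfold tau
  exact_mod_cast Finset.card_le_card (Nat.divisors_subset_of_dvd hn h)

/-- pairs with product `n` inside a box -/
lemma fiber_eq {x n : ℕ} (hn : n ∈ Icc 1 x) :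
    (((Icc 1 x ×ˢ Icc 1 x).filter (fun p : ℕ × ℕ => p.1 * p.2 ≤ x)).filter (fun p => p.1 * p.2 = n)) =
      n.divisorsAntidiagonal := by
  ext p
  simp only [Finset.mem_filter, Finset.mem_product, Finset.mem_Icc, Nat.mem_divisorsAntidiagonal]
  rw [Finset.mem_Icc] at hn
  constructor
  · rintro ⟨_, h⟩
    exact ⟨h, by omega⟩
  · rintro ⟨h, h0⟩
    have h1 : p.1 ≠ 0 := by
      rintro h2
      rw [h2] at h
      omega
    have h2 : p.2 ≠ 0 := by
      rintro h3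
      rw [h3] at h
      omega
    have h3 : p.1 ≤ n := by rw [← h]; exact Nat.le_mul_of_pos_right _ (Nat.pos_of_ne_zero h2)
    have h4 : p.2 ≤ n := by rw [← h]; exact Nat.le_mul_of_pos_left _ (Nat.pos_of_ne_zero h1)
    omega

lemma tau_sum (k x : ℕ) : ∑ n ∈ Icc 1 x, tau n ^ k / n ≤ (1 + Real.log x) ^ (2 ^ k) := by
  induction k with
  | zero =>
    have h := harmonic_le_one_add_log x
    rw [harmonic_eq_sum_Icc] at h
    push_cast at h
    simpa [one_div] using h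
  | succ k ih =>
    have h1 : ∑ n ∈ Icc 1 x, tau n ^ (k + 1) / n ≤
        ∑ n ∈ Icc 1 x, ∑ p ∈ n.divisorsAntidiagonal, (tau p.1 ^ k / p.1) * (tau p.2 ^ k / p.2) := by
      refine Finset.sum_le_sum fun n hn => ?_
      rw [Finset.mem_Icc] at hn
      have hn0 : (0 : ℝ) < n := by exact_mod_cast (by omega : 0 < n)
      have h2 : tau n ^ (k + 1) / n = ∑ p ∈ n.divisorsAntidiagonal, tau n ^ k / n := by
        rw [Finset.sum_const, nsmul_eq_mul, pow_succ]
        have : (n.divisorsAntidiagonal.card : ℝ) = tau n := by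
          unfold tau
          rw [Finset.card_eq_sum_ones, Finset.card_eq_sum_ones,
            Nat.sum_divisorsAntidiagonal (f := fun _ _ => (1 : ℕ))]
        rw [this]
        ring
      rw [h2]
      refine Finset.sum_le_sum fun p hp => ?_
      rw [Nat.mem_divisorsAntidiagonal] at hp
      have h3 : ((p.1 : ℝ) * p.2) = n := by exact_mod_cast hp.1
      have h4 : tau n ≤ tau p.1 * tau p.2 := by rw [← hp.1]; exact tau_mul_le _ _
      rw [div_mul_div_comm, h3, ← mul_pow]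
      gcongr
      exact tau_nonneg _
    have h5 : ∑ n ∈ Icc 1 x, ∑ p ∈ n.divisorsAntidiagonal, (tau p.1 ^ k / p.1) * (tau p.2 ^ k / p.2) =
        ∑ p ∈ (Icc 1 x ×ˢ Icc 1 x).filter (fun p : ℕ × ℕ => p.1 * p.2 ≤ x),
          (tau p.1 ^ k / p.1) * (tau p.2 ^ k / p.2) := by
      rw [← Finset.sum_fiberwise_of_maps_to (s := (Icc 1 x ×ˢ Icc 1 x).filter (fun p : ℕ × ℕ => p.1 * p.2 ≤ x))
        (t := Icc 1 x) (g := fun p => p.1 * p.2)]
      · refine Finset.sum_congr rfl fun n hn => ?_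
        rw [fiber_eq hn]
      · intro p hp
        simp only [Finset.mem_filter, Finset.mem_product, Finset.mem_Icc] at hp ⊢
        refine ⟨?_, hp.2⟩
        exact Nat.mul_pos hp.1.1.1 hp.1.2.1
    have h6 : ∑ p ∈ (Icc 1 x ×ˢ Icc 1 x).filter (fun p : ℕ × ℕ => p.1 * p.2 ≤ x),
          (tau p.1 ^ k / p.1) * (tau p.2 ^ k / p.2) ≤
        ∑ p ∈ (Icc 1 x ×ˢ Icc 1 x), (tau p.1 ^ k / p.1) * (tau p.2 ^ k / p.2) := by
      refine Finset.sum_le_sum_of_subset_of_nonneg (Finset.filter_subset _ _) fun p _ _ => ?_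
      have := tau_nonneg p.1
      have := tau_nonneg p.2
      positivity
    have h7 : ∑ p ∈ (Icc 1 x ×ˢ Icc 1 x), (tau p.1 ^ k / p.1) * (tau p.2 ^ k / p.2) =
        (∑ n ∈ Icc 1 x, tau n ^ k / n) ^ 2 := by
      rw [sq, Finset.sum_mul_sum, Finset.sum_product]
    have h8 : 0 ≤ ∑ n ∈ Icc 1 x, tau n ^ k / n := Finset.sum_nonneg fun n _ => by
      have := tau_nonneg n
      positivity
    calc ∑ n ∈ Icc 1 x, tau n ^ (k + 1) / n ≤ (∑ n ∈ Icc 1 x, tau n ^ k / n) ^ 2 := by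
          rw [← h7]
          exact (h1.trans h5.le).trans h6
      _ ≤ ((1 + Real.log x) ^ (2 ^ k)) ^ 2 := pow_le_pow_left₀ h8 ih 2
      _ = (1 + Real.log x) ^ (2 ^ (k + 1)) := by rw [← pow_mul, pow_succ]

lemma tau_pow_sum (k x : ℕ) (hx : 1 ≤ x) : ∑ n ∈ Icc 1 x, tau n ^ k ≤ x * (1 + Real.log x) ^ (2 ^ k) := by
  have h := tau_sum k x
  have hx0 : (0 : ℝ) < x := by exact_mod_cast hx
  calc ∑ n ∈ Icc 1 x, tau n ^ k ≤ ∑ n ∈ Icc 1 x, x * (tau n ^ k / n) := by
        refine Finset.sum_le_sum fun n hn => ?_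
        rw [Finset.mem_Icc] at hn
        have hn0 : (0 : ℝ) < n := by exact_mod_cast (by omega : 0 < n)
        have hnx : (n : ℝ) ≤ x := by exact_mod_cast hn.2
        have := tau_nonneg n
        rw [mul_div_assoc', le_div_iff₀ hn0, mul_comm]
        gcongr
    _ = x * ∑ n ∈ Icc 1 x, tau n ^ k / n := by rw [Finset.mul_sum]
    _ ≤ _ := by gcongr

lemma alU_le (U m : ℕ) : |(alU U m : ℝ)| ≤ tau m := by
  unfold alU tau
  have h : |∑ b ∈ m.divisors.filter (fun b => b ≤ U), ArithmeticFunction.moebius b| ≤ (m.divisors.card : ℤ) := by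
    calc |∑ b ∈ m.divisors.filter (fun b => b ≤ U), ArithmeticFunction.moebius b|
        ≤ ∑ b ∈ m.divisors.filter (fun b => b ≤ U), |ArithmeticFunction.moebius b| := Finset.abs_sum_le_sum_abs _ _
      _ ≤ ∑ b ∈ m.divisors.filter (fun b => b ≤ U), 1 :=
          Finset.sum_le_sum fun b _ => ArithmeticFunction.abs_moebius_le_one
      _ = ((m.divisors.filter (fun b => b ≤ U)).card : ℤ) := by simp
      _ ≤ _ := by exact_mod_cast Finset.card_le_card (Finset.filter_subset _ _)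
  exact_mod_cast h

/-- collecting the pairs -/
lemma rearr {X L u U : ℕ} (hX : u + L ≤ X) (f : ℕ → ℕ → ℂ) :
    ∑ n ∈ Ioc u (u + L), ∑ x ∈ n.divisorsAntidiagonal.filter (fun x => U < x.1 ∧ U < x.2),
      f x.1 x.2 =
    ∑ m ∈ Ioc U X, ∑ v ∈ Ioc (u / m) ((u + L) / m), if U < v then f m v else 0 := by
  classical
  set T : Finset (ℕ × ℕ) := (Icc 1 X ×ˢ Icc 1 X).filter
    (fun p => U < p.1 ∧ U < p.2 ∧ u < p.1 * p.2 ∧ p.1 * p.2 ≤ u + L) with hT
  have memT : ∀ p : ℕ × ℕ, p ∈ T ↔ U < p.1 ∧ U < p.2 ∧ u < p.1 * p.2 ∧ p.1 * p.2 ≤ u + L := by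
    intro p
    rw [hT, mem_filter, mem_product, mem_Icc, mem_Icc]
    refine ⟨fun h => h.2, fun h => ⟨?_, h⟩⟩
    obtain ⟨h1, h2, h3, h4⟩ := h
    have h5 : p.1 ≤ p.1 * p.2 := Nat.le_mul_of_pos_right _ (by omega)
    have h6 : p.2 ≤ p.1 * p.2 := Nat.le_mul_of_pos_left _ (by omega)
    omega
  have e1 : ∑ n ∈ Ioc u (u + L), ∑ x ∈ n.divisorsAntidiagonal.filter
      (fun x => U < x.1 ∧ U < x.2), f x.1 x.2 = ∑ p ∈ T, f p.1 p.2 := by
    rw [← sum_fiberwise_of_maps_to (s := T) (t := Ioc u (u + L)) (g := fun p => p.1 * p.2)]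
    · refine sum_congr rfl fun n hn => ?_
      rw [mem_Ioc] at hn
      refine sum_congr ?_ fun _ _ => rfl
      ext p
      rw [mem_filter, mem_filter, memT, Nat.mem_divisorsAntidiagonal]
      constructor
      · rintro ⟨⟨h1, h2⟩, h3, h4⟩
        exact ⟨⟨h3, h4, by omega, by omega⟩, h1⟩
      · rintro ⟨⟨h1, h2, h3, h4⟩, h5⟩
        exact ⟨⟨h5, by omega⟩, h1, h2⟩
    · intro p hp
      have h := (memT p).1 hp
      exact mem_Ioc.2 ⟨h.2.2.1, h.2.2.2⟩
  have e2 : ∑ m ∈ Ioc U X, ∑ v ∈ Ioc (u / m) ((u + L) / m), (if U < v then f m v else 0) =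
      ∑ p ∈ T, f p.1 p.2 := by
    rw [← sum_fiberwise_of_maps_to (s := T) (t := Ioc U X) (g := fun p => p.1)]
    · refine sum_congr rfl fun m hm => ?_
      rw [mem_Ioc] at hm
      have hm0 : 0 < m := by omega
      rw [← sum_filter]
      refine sum_bij' (i := fun v _ => (m, v)) (j := fun p _ => p.2) ?_ ?_ ?_ ?_ ?_
      · intro v hv
        rw [mem_filter, mem_Ioc, Nat.div_lt_iff_lt_mul hm0, Nat.le_div_iff_mul_le hm0] at hv
        rw [mem_filter, memT]
        refine ⟨⟨hm.1, hv.2, ?_, ?_⟩, rfl⟩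
        · rw [mul_comm]; exact hv.1.1
        · rw [mul_comm]; exact hv.1.2
      · intro p hp
        rw [mem_filter, memT] at hp
        obtain ⟨⟨h1, h2, h3, h4⟩, h5⟩ := hp
        rw [mem_filter, mem_Ioc, Nat.div_lt_iff_lt_mul hm0, Nat.le_div_iff_mul_le hm0]
        rw [← h5, mul_comm p.2 p.1]
        exact ⟨⟨h3, h4⟩, h2⟩
      · intro v _
        rfl
      · intro p hp
        rw [mem_filter] at hp
        exact Prod.ext hp.2.symm rfl
      · intro v _
        rfl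
    · intro p hp
      have h := (memT p).1 hp
      have h5 : p.1 ≤ p.1 * p.2 := Nat.le_mul_of_pos_right _ (by omega)
      exact mem_Ioc.2 ⟨h.1, by omega⟩
  rw [e1, e2]

/-- dyadic blocks -/
lemma dy (g : ℕ → ℂ) (U J : ℕ) : ∑ m ∈ Ioc U (2 ^ J * U), g m =
    ∑ j ∈ range J, ∑ m ∈ Ioc (2 ^ j * U) (2 * (2 ^ j * U)), g m := by
  induction J with
  | zero => simp
  | succ J ih =>
    have h1 : U ≤ 2 ^ J * U := Nat.le_mul_of_pos_left _ (by positivity)
    have h2 : 2 ^ (J + 1) * U = 2 * (2 ^ J * U) := by ring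
    rw [sum_range_succ, ← ih, h2, sum_Ioc_consecutive g h1 (by omega)]

/-- one block -/
lemma block {C : ℝ} (hC : 1 ≤ C) (hV : ∀ (X L u U q : ℕ) (b : ℤ) (θ : ℝ), 2 ≤ X → 1 ≤ L →
    u + L ≤ X → 1 ≤ U → U ≤ X → 1 ≤ q → q ≤ X → IsCoprime b (q : ℤ) →
    |θ - b / q| ≤ 1 / (q : ℝ) ^ 2 → ∀ (α β : ℕ → ℝ) (A2 B1 : ℝ), 0 ≤ A2 → 0 ≤ B1 →
    ∑ m ∈ Ioc U (2 * U), α m ^ 2 ≤ A2 → (∀ v, v ≤ X → |β v| ≤ B1) →
    ‖∑ m ∈ Ioc U (2 * U), ∑ v ∈ Ioc (u / m) ((u + L) / m),
      ((α m * β v : ℝ) : ℂ) * ee (((m * v : ℕ) : ℝ) * θ)‖ ^ 2 ≤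
    C * (1 + Real.log X) * A2 * B1 ^ 2 * ((L : ℝ) ^ 2 / (U * q) + L * X / U ^ 2 + L + X * q / U))
    {X L u U q : ℕ} {b : ℤ} {θ : ℝ} (hX : 2 ≤ X) (hL : 1 ≤ L) (huL : u + L ≤ X) (hU : 1 ≤ U)
    (hUX : U ≤ X) (hq : 1 ≤ q) (hqX : q ≤ X) (hb : IsCoprime b (q : ℤ))
    (hθ : |θ - b / q| ≤ 1 / (q : ℝ) ^ 2) (W : ℕ) (hUW : U ≤ W) :
    ‖∑ m ∈ Ioc W (2 * W), ∑ v ∈ Ioc (u / m) ((u + L) / m),
      (if U < v then (((alU U m : ℝ) * ArithmeticFunction.vonMangoldt v : ℝ) : ℂ) *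
        ee (((m * v : ℕ) : ℝ) * θ) else 0)‖ ≤
    8 * C * (1 + Real.log X) ^ 4 * (L / Real.sqrt q + Real.sqrt (L * X / U) +
      Real.sqrt (X * q)) := by
  have hXr : (2 : ℝ) ≤ X := by exact_mod_cast hX
  have hlog : 0 ≤ Real.log X := Real.log_nonneg (by linarith)
  set l : ℝ := 1 + Real.log X with hl
  have hl1 : 1 ≤ l := by linarith
  have hUr : (1 : ℝ) ≤ U := by exact_mod_cast hU
  have hqr : (1 : ℝ) ≤ q := by exact_mod_cast hq
  have hLr : (1 : ℝ) ≤ L := by exact_mod_cast hL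
  have hWr : (U : ℝ) ≤ W := by exact_mod_cast hUW
  set Y : ℝ := L / Real.sqrt q + Real.sqrt (L * X / U) + Real.sqrt (X * q) with hY
  have hY0 : 0 ≤ Y := by positivity
  by_cases hW : W * U ≤ X
  · have hWX : W ≤ X := (Nat.le_mul_of_pos_right _ hU).trans hW
    have hWUr : (W : ℝ) * U ≤ X := by exact_mod_cast hW
    have hWXr : (W : ℝ) ≤ X := by exact_mod_cast hWX
    set β : ℕ → ℝ := fun v => if U < v then ArithmeticFunction.vonMangoldt v else 0 with hβ
    have hA : ∑ m ∈ Ioc W (2 * W), (alU U m : ℝ) ^ 2 ≤ 32 * W * l ^ 4 := by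
      have h1 : ∑ m ∈ Ioc W (2 * W), (alU U m : ℝ) ^ 2 ≤ ∑ m ∈ Icc 1 (2 * W), tau m ^ 2 := by
        refine (sum_le_sum fun m _ => ?_).trans (sum_le_sum_of_subset_of_nonneg
          (f := fun m => tau m ^ 2) ?_ fun m _ _ => sq_nonneg _)
        · rw [← sq_abs]
          exact pow_le_pow_left₀ (abs_nonneg _) (alU_le U m) 2
        · intro m hm
          rw [mem_Ioc] at hm
          rw [mem_Icc]
          omega
      have h2 := tau_pow_sum 2 (2 * W) (by omega)
      have h3 : 1 + Real.log ((2 * W : ℕ) : ℝ) ≤ 2 * l := by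
        have h4 : Real.log ((2 * W : ℕ) : ℝ) ≤ Real.log 2 + Real.log X := by
          rw [← Real.log_mul (by norm_num) (by linarith)]
          refine Real.log_le_log ?_ ?_
          · push_cast
            linarith
          · push_cast
            linarith
        have h5 : Real.log 2 ≤ 1 := by
          have := Real.log_two_lt_d9
          linarith
        linarith
      have h6 : 0 ≤ 1 + Real.log ((2 * W : ℕ) : ℝ) := by
        have : 0 ≤ Real.log ((2 * W : ℕ) : ℝ) := Real.log_natCast_nonneg _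
        linarith
      have h7 : (1 + Real.log ((2 * W : ℕ) : ℝ)) ^ (2 ^ 2) ≤ (2 * l) ^ 4 :=
        pow_le_pow_left₀ h6 h3 4
      calc _ ≤ _ := h1
        _ ≤ _ := h2
        _ ≤ ((2 * W : ℕ) : ℝ) * (2 * l) ^ 4 := mul_le_mul_of_nonneg_left h7 (Nat.cast_nonneg _)
        _ = _ := by push_cast; ring
    have hB : ∀ v, v ≤ X → |β v| ≤ l := by
      intro v hv
      simp only [hβ]
      split_ifs with h
      · rw [abs_of_nonneg ArithmeticFunction.vonMangoldt_nonneg]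
        refine ArithmeticFunction.vonMangoldt_le_log.trans ?_
        have h1 : Real.log v ≤ Real.log X :=
          Real.log_le_log (by exact_mod_cast (by omega : 0 < v)) (by exact_mod_cast hv)
        linarith
      · rw [abs_zero]
        linarith
    have hW1 : 1 ≤ W := hU.trans hUW
    have key := hV X L u W q b θ hX hL huL hW1 hWX hq hqX hb hθ (fun m => (alU U m : ℝ)) β
      (32 * W * l ^ 4) l (by positivity) (by linarith) hA hB
    have e1 : ∑ m ∈ Ioc W (2 * W), ∑ v ∈ Ioc (u / m) ((u + L) / m),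
        (((alU U m : ℝ) * β v : ℝ) : ℂ) * ee (((m * v : ℕ) : ℝ) * θ) =
        ∑ m ∈ Ioc W (2 * W), ∑ v ∈ Ioc (u / m) ((u + L) / m),
        (if U < v then (((alU U m : ℝ) * ArithmeticFunction.vonMangoldt v : ℝ) : ℂ) *
        ee (((m * v : ℕ) : ℝ) * θ) else 0) := by
      refine sum_congr rfl fun m _ => sum_congr rfl fun v _ => ?_
      simp only [hβ]
      split_ifs with h
      · rfl
      · simp
    rw [e1] at key
    have hWp : (0 : ℝ) < W := by linarith
    have hUp : (0 : ℝ) < U := by linarith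
    have hqp : (0 : ℝ) < q := by linarith
    have e2 : C * l * (32 * W * l ^ 4) * l ^ 2 * ((L : ℝ) ^ 2 / (W * q) + L * X / W ^ 2 + L +
        X * q / W) = 32 * C * l ^ 7 * ((L : ℝ) ^ 2 / q + L * X / W + L * W + X * q) := by
      field_simp
    have e3 : (L : ℝ) * X / W ≤ L * X / U := by gcongr
    have e4 : (L : ℝ) * W ≤ L * X / U := by
      rw [le_div_iff₀ hUp]
      nlinarith
    have e5 : (L : ℝ) ^ 2 / q + L * X / U + X * q ≤ Y ^ 2 := by
      have a1 : (L / Real.sqrt q) ^ 2 = (L : ℝ) ^ 2 / q := by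
        rw [div_pow, Real.sq_sqrt hqp.le]
      have a2 : (Real.sqrt (L * X / U)) ^ 2 = (L : ℝ) * X / U := Real.sq_sqrt (by positivity)
      have a3 : (Real.sqrt (X * q)) ^ 2 = (X : ℝ) * q := Real.sq_sqrt (by positivity)
      have b1 : 0 ≤ L / Real.sqrt q := by positivity
      have b2 : 0 ≤ Real.sqrt (L * X / U) := by positivity
      have b3 : 0 ≤ Real.sqrt (X * q) := by positivity
      rw [← a1, ← a2, ← a3, hY]
      nlinarith [mul_nonneg b1 b2, mul_nonneg b1 b3, mul_nonneg b2 b3]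
    have e6 : (L : ℝ) ^ 2 / q + L * X / W + L * W + X * q ≤ 2 * Y ^ 2 := by
      have a1 : 0 ≤ (L : ℝ) ^ 2 / q := by positivity
      have a2 : 0 ≤ (X : ℝ) * q := by positivity
      linarith
    have hfin : ‖∑ m ∈ Ioc W (2 * W), ∑ v ∈ Ioc (u / m) ((u + L) / m),
        (if U < v then (((alU U m : ℝ) * ArithmeticFunction.vonMangoldt v : ℝ) : ℂ) *
        ee (((m * v : ℕ) : ℝ) * θ) else 0)‖ ^ 2 ≤ (8 * C * l ^ 4 * Y) ^ 2 := by
      refine key.trans ?_
      rw [e2]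
      calc 32 * C * l ^ 7 * ((L : ℝ) ^ 2 / q + L * X / W + L * W + X * q)
          ≤ 32 * C * l ^ 7 * (2 * Y ^ 2) := mul_le_mul_of_nonneg_left e6 (by positivity)
        _ = 64 * (C * 1) * (l ^ 7 * 1) * Y ^ 2 := by ring
        _ ≤ 64 * (C * C) * (l ^ 7 * l) * Y ^ 2 := by gcongr
        _ = _ := by ring
    exact (pow_le_pow_iff_left₀ (norm_nonneg _) (by positivity) two_ne_zero).1 hfin
  · have hz : ∀ m ∈ Ioc W (2 * W), ∀ v ∈ Ioc (u / m) ((u + L) / m), ¬ U < v := by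
      intro m hm v hv hUv
      rw [mem_Ioc] at hm hv
      have hm0 : 0 < m := by omega
      have h1 : v * m ≤ u + L := (Nat.le_div_iff_mul_le hm0).1 hv.2
      have h2 : W * U ≤ m * v := Nat.mul_le_mul hm.1.le hUv.le
      rw [mul_comm] at h1
      omega
    have h0 : ∑ m ∈ Ioc W (2 * W), ∑ v ∈ Ioc (u / m) ((u + L) / m),
        (if U < v then (((alU U m : ℝ) * ArithmeticFunction.vonMangoldt v : ℝ) : ℂ) *
        ee (((m * v : ℕ) : ℝ) * θ) else 0) = 0 :=
      sum_eq_zero fun m hm => sum_eq_zero fun v hv => if_neg (hz m hm v hv)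
    rw [h0, norm_zero]
    positivity

end V2N

theorem v2 : S_V1 → S_V2 := by
  rintro ⟨C, hC, hV⟩
  refine ⟨16 * C, 5, by linarith, ?_⟩
  intro X L u U q b θ hX hL huL hU hUX hq hqX hb hθ
  have hXr : (2 : ℝ) ≤ X := by exact_mod_cast hX
  have hlog : 0 ≤ Real.log X := Real.log_nonneg (by linarith)
  set f : ℕ → ℕ → ℂ := fun m v => (((alU U m : ℝ) * ArithmeticFunction.vonMangoldt v : ℝ) : ℂ) *
    ee (((m * v : ℕ) : ℝ) * θ) with hf
  set G : ℕ → ℂ := fun m => ∑ v ∈ Ioc (u / m) ((u + L) / m), if U < v then f m v else 0 with hG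
  have e1 : ∑ n ∈ Ioc u (u + L), ((∑ x ∈ n.divisorsAntidiagonal.filter
      (fun x => U < x.1 ∧ U < x.2), (alU U x.1 : ℝ) * ArithmeticFunction.vonMangoldt x.2 : ℝ) : ℂ) *
      ee ((n : ℝ) * θ) = ∑ m ∈ Ioc U X, G m := by
    rw [hG, ← V2N.rearr huL f]
    refine sum_congr rfl fun n _ => ?_
    rw [Complex.ofReal_sum, sum_mul]
    refine sum_congr rfl fun x hx => ?_
    have h1 := (Nat.mem_divisorsAntidiagonal.1 (mem_filter.1 hx).1).1
    simp only [hf]
    rw [h1]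
  set J : ℕ := Nat.log 2 X + 1 with hJ
  have hXJ : X ≤ 2 ^ J * U := by
    have h1 : X < 2 ^ J := Nat.lt_pow_succ_log_self (by norm_num) X
    have h2 : 2 ^ J ≤ 2 ^ J * U := Nat.le_mul_of_pos_right _ hU
    omega
  have e2 : ∑ m ∈ Ioc U X, G m = ∑ m ∈ Ioc U (2 ^ J * U), G m := by
    refine sum_subset (Ioc_subset_Ioc_right hXJ) fun m hm hm' => ?_
    rw [mem_Ioc] at hm hm'
    have h1 : (u + L) / m = 0 := Nat.div_eq_of_lt (by omega)
    simp only [hG]
    rw [h1]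
    simp
  rw [e1, e2, V2N.dy]
  have hJr : (J : ℝ) ≤ 2 * (1 + Real.log X) := by
    have h1 : (2 : ℝ) ^ (Nat.log 2 X) ≤ X := by exact_mod_cast Nat.pow_log_le_self 2 (by omega)
    have h2 : (Nat.log 2 X : ℝ) * Real.log 2 ≤ Real.log X := by
      rw [← Real.log_pow]
      exact Real.log_le_log (by positivity) h1
    have h3 := Real.log_two_gt_d9
    have h4 : (Nat.log 2 X : ℝ) * (1 / 2) ≤ (Nat.log 2 X : ℝ) * Real.log 2 :=
      mul_le_mul_of_nonneg_left (by linarith) (Nat.cast_nonneg _)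
    rw [hJ]
    push_cast
    linarith
  calc ‖∑ j ∈ range J, ∑ m ∈ Ioc (2 ^ j * U) (2 * (2 ^ j * U)), G m‖
      ≤ ∑ j ∈ range J, ‖∑ m ∈ Ioc (2 ^ j * U) (2 * (2 ^ j * U)), G m‖ := norm_sum_le _ _
    _ ≤ ∑ j ∈ range J, 8 * C * (1 + Real.log X) ^ 4 * (L / Real.sqrt q +
        Real.sqrt (L * X / U) + Real.sqrt (X * q)) := sum_le_sum fun j _ =>
          V2N.block hC hV hX hL huL hU hUX hq hqX hb hθ (2 ^ j * U)
            (Nat.le_mul_of_pos_left _ (by positivity))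
    _ = J * (8 * C * (1 + Real.log X) ^ 4 * (L / Real.sqrt q +
        Real.sqrt (L * X / U) + Real.sqrt (X * q))) := by
          rw [sum_const, card_range, nsmul_eq_mul]
    _ ≤ (2 * (1 + Real.log X)) * (8 * C * (1 + Real.log X) ^ 4 * (L / Real.sqrt q +
        Real.sqrt (L * X / U) + Real.sqrt (X * q))) :=
          mul_le_mul_of_nonneg_right hJr (by positivity)
    _ = _ := by ring

end Pool.Agent.H544.VB
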