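import Pool.Agent.H544.VB.Stm

/-!
# Project VB (helper544), task V3: linear sums of Vaughan's identity over a short interval (helper336)
-/

set_option autoImplicit false

namespace Pool.Agent.H544.VB
open Finset
open Pool.Agent.H807R2.Dav

namespace V3N

lemma KK_mono {M M' : ℝ} (hM : 0 ≤ M) (h : M ≤ M') (x : ℝ) : KK M x ≤ KK M' x := by
  unfold KK
  have h0 := dd_nonneg x
  have hM' : 0 ≤ M' := hM.trans h
  rw [div_le_div_iff₀ (by positivity) (by positivity)]
  nlinarith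

/-- the function `log` on the natural numbers -/
lemma log_mono : Monotone (fun v : ℕ => Real.log (v : ℝ)) := by
  intro a b hab
  rcases Nat.eq_zero_or_pos a with h | h
  · subst h
    simp only [Nat.cast_zero, Real.log_zero]
    exact Real.log_natCast_nonneg b
  · exact Real.log_le_log (by exact_mod_cast h) (by exact_mod_cast hab)

/-- partial summation with a monotone weight -/
lemma abel (g : ℕ → ℂ) (K : ℝ) : ∀ (n a : ℕ) (f : ℕ → ℝ), Monotone f → 0 ≤ f a →
    (∀ t, a ≤ t → t ≤ a + n → ‖∑ v ∈ Ico t (a + n), g v‖ ≤ K) →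
    ‖∑ v ∈ Ico a (a + n), (f v : ℂ) * g v‖ ≤ f (a + n) * K := by
  intro n
  induction n with
  | zero =>
    intro a f hf h0 hK
    have hK0 : 0 ≤ K := by
      have := hK a le_rfl (by omega)
      exact (norm_nonneg _).trans this
    simp only [Nat.add_zero, Ico_self, sum_empty, norm_zero]
    exact mul_nonneg h0 hK0
  | succ n ih =>
    intro a f hf h0 hK
    have h1 : ∑ v ∈ Ico a (a + (n + 1)), (f v : ℂ) * g v =
        (f a : ℂ) * ∑ v ∈ Ico a (a + (n + 1)), g v +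
          ∑ v ∈ Ico (a + 1) (a + 1 + n), (((fun w => f w - f a) v : ℝ) : ℂ) * g v := by
      have h2 : ∑ v ∈ Ico (a + 1) (a + 1 + n), (((fun w => f w - f a) v : ℝ) : ℂ) * g v =
          ∑ v ∈ Ico a (a + (n + 1)), (((fun w => f w - f a) v : ℝ) : ℂ) * g v := by
        have e0 : a < a + 1 + n := by omega
        have e1 := Finset.sum_eq_sum_Ico_succ_bot e0
          (fun v => (((fun w => f w - f a) v : ℝ) : ℂ) * g v)
        rw [show a + (n + 1) = a + 1 + n by omega, e1]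
        simp
      rw [h2, Finset.mul_sum, ← Finset.sum_add_distrib]
      refine Finset.sum_congr rfl fun v _ => ?_
      push_cast
      ring
    have h3 := ih (a + 1) (fun w => f w - f a) (fun x y hxy => sub_le_sub_right (hf hxy) _)
      (by have := hf (Nat.le_add_right a 1); linarith)
      (fun t ht1 ht2 => by
        have := hK t (by omega) (by omega)
        rw [show a + 1 + n = a + (n + 1) by omega]
        exact this)
    have h4 : ‖(f a : ℂ) * ∑ v ∈ Ico a (a + (n + 1)), g v‖ ≤ f a * K := by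
      rw [norm_mul, Complex.norm_real, Real.norm_eq_abs, abs_of_nonneg h0]
      exact mul_le_mul_of_nonneg_left (hK a le_rfl (by omega)) h0
    rw [h1]
    refine (norm_add_le _ _).trans ?_
    rw [show a + (n + 1) = a + 1 + n by omega] at h4 ⊢
    have h5 : (fun w => f w - f a) (a + 1 + n) * K = f (a + 1 + n) * K - f a * K := by ring
    linarith

/-- the sum over `v` for one `d` -/
lemma inner (X L u d i : ℕ) (x : ℝ) (hd : 1 ≤ d) (hX : u + L ≤ X) (hX2 : 2 ≤ X) (hi : i ≤ 1) :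
    ‖∑ v ∈ Ioc (u / d) ((u + L) / d), ((Real.log (v : ℝ) ^ i : ℝ) : ℂ) * ee ((v : ℝ) * x)‖ ≤
      (1 + Real.log X) * KK ((L : ℝ) / d + 1) x := by
  set a := u / d + 1 with ha
  set e := (u + L) / d + 1 with he
  have hae : a ≤ e := by
    have := Nat.div_le_div_right (c := d) (Nat.le_add_right u L)
    omega
  obtain ⟨n, hn⟩ := Nat.exists_eq_add_of_le hae
  have hd0 : (0 : ℝ) < d := by exact_mod_cast hd
  have hIoc : Ioc (u / d) ((u + L) / d) = Ico a (a + n) := by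
    rw [← hn]
    ext v
    simp only [mem_Ioc, mem_Ico]
    omega
  have hlen : ((a + n : ℕ) : ℝ) - a ≤ (L : ℝ) / d + 1 := by
    rw [← hn]
    have h1 : (u + L) / d * d ≤ u + L := Nat.div_mul_le_self _ _
    have h2 : u < (u / d + 1) * d := by
      rw [Nat.mul_comm]
      exact Nat.lt_mul_div_succ u hd
    have h3 : (((u + L) / d : ℕ) : ℝ) * d ≤ u + L := by exact_mod_cast h1
    have h4 : (u : ℝ) < ((u / d : ℕ) + 1 : ℝ) * d := by exact_mod_cast h2
    rw [he, ha]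
    push_cast
    have h5 : ((((u + L) / d : ℕ) : ℝ) - ((u / d : ℕ) : ℝ)) * d ≤ L + d := by nlinarith
    have h6 : (((u + L) / d : ℕ) : ℝ) - ((u / d : ℕ) : ℝ) ≤ (L + d) / d := by
      rw [le_div_iff₀ hd0]
      exact h5
    rw [add_div, div_self hd0.ne'] at h6
    linarith
  have hM0 : 0 ≤ (L : ℝ) / d + 1 := by positivity
  have hK0 : 0 ≤ KK ((L : ℝ) / d + 1) x := KK_nonneg hM0 x
  have hlogX : 0 ≤ Real.log X := Real.log_natCast_nonneg X
  have hpart : ∀ t, a ≤ t → t ≤ a + n → ‖∑ v ∈ Ico t (a + n), ee ((v : ℝ) * x)‖ ≤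
      KK ((L : ℝ) / d + 1) x := by
    intro t ht1 ht2
    refine geo_bound t (a + n) ht2 ?_ x
    have : (a : ℝ) ≤ t := by exact_mod_cast ht1
    linarith
  rw [hIoc]
  have hi' : i = 0 ∨ i = 1 := by omega
  rcases hi' with h | h
  · subst h
    simp only [pow_zero, Complex.ofReal_one, one_mul]
    have h1 := hpart a le_rfl (by omega)
    nlinarith
  · subst h
    simp only [pow_one]
    have h1 := abel (fun v => ee ((v : ℝ) * x)) (KK ((L : ℝ) / d + 1) x) n a
      (fun v : ℕ => Real.log (v : ℝ)) log_mono (Real.log_natCast_nonneg a) hpart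
    refine h1.trans ?_
    apply mul_le_mul_of_nonneg_right _ hK0
    have h2 : a + n ≤ 2 * X := by
      rw [← hn, he]
      have : (u + L) / d ≤ u + L := Nat.div_le_self _ _
      omega
    have h3 : Real.log ((a + n : ℕ) : ℝ) ≤ Real.log ((2 * X : ℕ) : ℝ) := log_mono h2
    have h4 : Real.log ((2 * X : ℕ) : ℝ) = Real.log 2 + Real.log X := by
      push_cast
      rw [Real.log_mul (by norm_num) (by positivity)]
    have h5 : Real.log 2 ≤ 1 := by
      have := Real.log_two_lt_d9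
      linarith
    linarith

/-- exchange of the sums -/
lemma swap (L u D i : ℕ) (θ : ℝ) (γ : ℕ → ℝ) :
    ∑ n ∈ Ioc u (u + L), ((∑ d ∈ n.divisors.filter (fun d => d ≤ D),
      γ d * Real.log ((n / d : ℕ) : ℝ) ^ i : ℝ) : ℂ) * ee ((n : ℝ) * θ) =
    ∑ d ∈ Icc 1 D, (γ d : ℂ) * ∑ v ∈ Ioc (u / d) ((u + L) / d),
      ((Real.log (v : ℝ) ^ i : ℝ) : ℂ) * ee ((v : ℝ) * ((d : ℝ) * θ)) := by
  have h1 : ∀ n ∈ Ioc u (u + L), ((∑ d ∈ n.divisors.filter (fun d => d ≤ D),
      γ d * Real.log ((n / d : ℕ) : ℝ) ^ i : ℝ) : ℂ) * ee ((n : ℝ) * θ) =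
      ∑ d ∈ Icc 1 D, if d ∣ n then ((γ d * Real.log ((n / d : ℕ) : ℝ) ^ i : ℝ) : ℂ) *
        ee ((n : ℝ) * θ) else 0 := by
    intro n hn
    have hn0 : n ≠ 0 := by have := (mem_Ioc.mp hn).1; omega
    have h2 : n.divisors.filter (fun d => d ≤ D) = (Icc 1 D).filter (fun d => d ∣ n) := by
      ext d
      simp only [mem_filter, Nat.mem_divisors, mem_Icc]
      constructor
      · rintro ⟨⟨h3, _⟩, h4⟩
        exact ⟨⟨Nat.pos_of_dvd_of_pos h3 (Nat.pos_of_ne_zero hn0), h4⟩, h3⟩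
      · rintro ⟨⟨_, h4⟩, h3⟩
        exact ⟨⟨h3, hn0⟩, h4⟩
    rw [h2, Complex.ofReal_sum, Finset.sum_mul, Finset.sum_filter]
  rw [Finset.sum_congr rfl h1, Finset.sum_comm]
  refine Finset.sum_congr rfl fun d hd => ?_
  have hd1 : 0 < d := (mem_Icc.mp hd).1
  rw [← Finset.sum_filter, Finset.mul_sum]
  refine Finset.sum_nbij' (fun n => n / d) (fun v => v * d) ?_ ?_ ?_ ?_ ?_
  · intro n hn
    rw [mem_filter, mem_Ioc] at hn
    obtain ⟨⟨h3, h4⟩, v, rfl⟩ := hn
    rw [mem_Ioc, Nat.mul_div_cancel_left v hd1, Nat.div_lt_iff_lt_mul hd1,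
      Nat.le_div_iff_mul_le hd1, Nat.mul_comm v d]
    exact ⟨h3, h4⟩
  · intro v hv
    rw [mem_Ioc, Nat.div_lt_iff_lt_mul hd1, Nat.le_div_iff_mul_le hd1] at hv
    rw [mem_filter, mem_Ioc]
    exact ⟨hv, Dvd.intro_left v rfl⟩
  · intro n hn
    exact Nat.div_mul_cancel (mem_filter.mp hn).2
  · intro v _
    exact Nat.mul_div_cancel v hd1
  · intro n hn
    obtain ⟨v, rfl⟩ := (mem_filter.mp hn).2
    rw [Nat.mul_div_cancel_left v hd1]
    push_cast
    rw [show (d : ℝ) * v * θ = (v : ℝ) * ((d : ℝ) * θ) by ring]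
    ring

/-- small `d`: no multiple of `θ` is close to an integer -/
lemma small (q B d : ℕ) (b : ℤ) (θ M : ℝ) (hM : 0 ≤ M) (hB : 2 * B ≤ q) (hd1 : 1 ≤ d)
    (hdB : d ≤ B) (hcop : IsCoprime b (q : ℤ)) (hθ : |θ - b / q| ≤ 1 / (q : ℝ) ^ 2) :
    KK M ((d : ℝ) * θ) ≤ 3 * q / 2 := by
  have hq : 2 ≤ q := by omega
  have hq0 : (0 : ℝ) < q := by exact_mod_cast (by omega : 0 < q)
  have hqz : (q : ℤ) ≠ 0 := by omega
  set m : ℤ := ((d : ℤ) * b) / q with hm
  set r : ℤ := ((d : ℤ) * b) % q with hr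
  have hdm : (d : ℤ) * b = q * m + r := (Int.mul_ediv_add_emod _ _).symm
  have hr0 : 0 ≤ r := Int.emod_nonneg _ hqz
  have hrq : r < q := Int.emod_lt_of_pos _ (by omega)
  have hr1 : 1 ≤ r := by
    rcases lt_or_ge 0 r with h | h
    · omega
    · exfalso
      have h1 : r = 0 := le_antisymm h hr0
      have h2 : (q : ℤ) ∣ (d : ℤ) * b := Int.dvd_of_emod_eq_zero h1
      have h3 : (q : ℤ) ∣ (d : ℤ) := (hcop.symm).dvd_of_dvd_mul_right h2
      have h4 : q ∣ d := Int.natCast_dvd_natCast.mp h3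
      have h5 := Nat.le_of_dvd hd1 h4
      omega
  set δ : ℝ := (d : ℝ) * (θ - b / q) with hδ
  have hδ' : |δ| ≤ 1 / (2 * q) := by
    rw [hδ, abs_mul, abs_of_nonneg (Nat.cast_nonneg d)]
    have h1 : (d : ℝ) ≤ q / 2 := by
      have : ((2 * d : ℕ) : ℝ) ≤ q := by exact_mod_cast (by omega : 2 * d ≤ q)
      push_cast at this
      linarith
    calc (d : ℝ) * |θ - b / q| ≤ q / 2 * (1 / (q : ℝ) ^ 2) :=
          mul_le_mul h1 hθ (abs_nonneg _) (by positivity)
      _ = 1 / (2 * q) := by field_simp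
  have hrr : (1 : ℝ) ≤ r := by exact_mod_cast hr1
  have hrr' : (r : ℝ) + 1 ≤ q := by exact_mod_cast (by omega : r + 1 ≤ q)
  set t : ℝ := (r : ℝ) / q + δ with ht
  have heq : (d : ℝ) * θ = t + m := by
    have h1 : (d : ℝ) * b = q * m + r := by exact_mod_cast hdm
    have h2 : (d : ℝ) * (b / q) = m + r / q := by
      field_simp
      linarith
    rw [ht, hδ, mul_sub, h2]
    ring
  have h1q : 1 / (2 * (q : ℝ)) ≤ 1 / q - 1 / (2 * q) := by
    have : 1 / (q : ℝ) - 1 / (2 * q) = 1 / (2 * q) := by field_simp; ring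
    rw [this]
  have habs := abs_le.mp hδ'
  have h3 : 1 / (2 * (q : ℝ)) ≤ t := by
    have : 1 / (q : ℝ) ≤ r / q := div_le_div_of_nonneg_right hrr hq0.le
    rw [ht]
    linarith
  have h4 : 1 / (2 * (q : ℝ)) ≤ 1 - t := by
    have h5 : (r : ℝ) / q ≤ 1 - 1 / q := by
      rw [div_le_iff₀ hq0, sub_mul, one_mul, div_mul_cancel₀ _ hq0.ne']
      linarith
    rw [ht]
    linarith
  have hpos : 0 < 1 / (2 * (q : ℝ)) := by positivity
  have h6 : 2 / (q : ℝ) ≤ dd ((d : ℝ) * θ) := by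
    rw [heq, dd_add_int]
    refine le_trans ?_ (dd_ge (by linarith) (by linarith))
    have h7 : 1 / (2 * (q : ℝ)) ≤ min t (1 - t) := le_min h3 h4
    have h8 : 2 / (q : ℝ) = 4 * (1 / (2 * (q : ℝ))) := by field_simp; ring
    rw [h8]
    linarith
  have h9 := KK_le' (M := M) (x := (d : ℝ) * θ) hM (by positivity : 0 < 2 / (q : ℝ)) h6
  have h10 : 3 / (2 / (q : ℝ)) = 3 * q / 2 := by field_simp
  rw [h10] at h9
  exact h9

/-- one dyadic block of large `d` -/
lemma block (X L D B q Bj : ℕ) (b : ℤ) (θ : ℝ) (hL : 1 ≤ L) (hLX : L ≤ X) (hD : D ≤ X)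
    (hB : 1 ≤ B) (hBB : B ≤ Bj) (hBD : Bj ≤ D) (hq : 1 ≤ q) (hqX : q ≤ X)
    (hcop : IsCoprime b (q : ℤ)) (hθ : |θ - b / q| ≤ 1 / (q : ℝ) ^ 2) :
    ∑ d ∈ Ioc Bj (2 * Bj), KK ((L : ℝ) / d + 1) ((d : ℝ) * θ) ≤
      42 * (1 + Real.log X) * ((L : ℝ) / q + L / B + D + q) := by
  have hBj1 : 1 ≤ Bj := hB.trans hBB
  have hBj0 : (0 : ℝ) < Bj := by exact_mod_cast hBj1
  have hB0 : (0 : ℝ) < B := by exact_mod_cast hB
  have hq0 : (0 : ℝ) < q := by exact_mod_cast hq
  have hM : 0 ≤ (L : ℝ) / Bj + 1 := by positivity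
  have h1 : ∑ d ∈ Ioc Bj (2 * Bj), KK ((L : ℝ) / d + 1) ((d : ℝ) * θ) ≤
      ∑ d ∈ Ioc Bj (2 * Bj), KK ((L : ℝ) / Bj + 1) ((d : ℝ) * θ) := by
    refine Finset.sum_le_sum fun d hd => ?_
    have hd' := (mem_Ioc.mp hd).1
    have hd0 : (Bj : ℝ) ≤ d := by exact_mod_cast hd'.le
    refine KK_mono (by positivity) ?_ _
    have : (L : ℝ) / d ≤ L / Bj := div_le_div_of_nonneg_left (Nat.cast_nonneg L) hBj0 hd0
    linarith
  have h2 : ∑ d ∈ Ioc Bj (2 * Bj), KK ((L : ℝ) / Bj + 1) ((d : ℝ) * θ) =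
      ∑ j ∈ range Bj, KK ((L : ℝ) / Bj + 1) (((Bj : ℝ) + 1) * θ + j * θ) := by
    refine Finset.sum_nbij' (fun d => d - (Bj + 1)) (fun j => Bj + 1 + j) ?_ ?_ ?_ ?_ ?_
    · intro d hd
      rw [mem_Ioc] at hd
      rw [mem_range]
      omega
    · intro j hj
      rw [mem_range] at hj
      rw [mem_Ioc]
      omega
    · intro d hd
      rw [mem_Ioc] at hd
      omega
    · intro j hj
      omega
    · intro d hd
      rw [mem_Ioc] at hd
      have h3 : ((d - (Bj + 1) : ℕ) : ℝ) = d - (Bj + 1) := by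
        rw [Nat.cast_sub (by omega)]
        push_cast
        ring
      rw [h3]
      congr 1
      ring
  have h4 := vino hq hcop hθ hM (((Bj : ℝ) + 1) * θ) Bj
  refine h1.trans (h2.le.trans (h4.trans ?_))
  set l : ℝ := 1 + Real.log X with hl
  have hlogX : 0 ≤ Real.log X := Real.log_natCast_nonneg X
  have hl1 : 1 ≤ l := by linarith
  have hlq : 1 + Real.log q ≤ l := by
    have : Real.log (q : ℝ) ≤ Real.log X := log_mono hqX
    linarith
  have hlq0 : 0 ≤ 1 + Real.log q := by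
    have := Real.log_natCast_nonneg q
    linarith
  have hBjD : (Bj : ℝ) ≤ D := by exact_mod_cast hBD
  have hBBj : (B : ℝ) ≤ Bj := by exact_mod_cast hBB
  have hq1 : (1 : ℝ) ≤ q := by exact_mod_cast hq
  have e1 : ((Bj : ℝ) / q + 1) * (39 * ((L : ℝ) / Bj + 1) + 3 * q * (1 + Real.log q)) =
      39 * (L / q) + 39 * (Bj / q) + 3 * Bj * (1 + Real.log q) + 39 * (L / Bj) + 39 +
        3 * q * (1 + Real.log q) := by
    field_simp
    ring
  have e2 : (L : ℝ) / Bj ≤ L / B := div_le_div_of_nonneg_left (Nat.cast_nonneg L) hB0 hBBj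
  have e3 : (Bj : ℝ) / q ≤ D := by
    rw [div_le_iff₀ hq0]
    nlinarith [Nat.cast_nonneg (α := ℝ) D]
  have e4 : (Bj : ℝ) * (1 + Real.log q) ≤ D * l :=
    mul_le_mul hBjD hlq hlq0 (Nat.cast_nonneg D)
  have e5 : (q : ℝ) * (1 + Real.log q) ≤ q * l := mul_le_mul_of_nonneg_left hlq hq0.le
  have e6 : 0 ≤ (L : ℝ) / q := by positivity
  have e7 : 0 ≤ (L : ℝ) / B := by positivity
  have e8 : 0 ≤ (D : ℝ) := Nat.cast_nonneg D
  rw [e1]
  have f1 : (L : ℝ) / q ≤ l * (L / q) := le_mul_of_one_le_left e6 hl1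
  have f2 : (L : ℝ) / B ≤ l * (L / B) := le_mul_of_one_le_left e7 hl1
  have f3 : (D : ℝ) ≤ l * D := le_mul_of_one_le_left e8 hl1
  have f4 : (q : ℝ) ≤ l * q := le_mul_of_one_le_left hq0.le hl1
  nlinarith

/-- all `d > B` -/
lemma large (X L D B q : ℕ) (b : ℤ) (θ : ℝ) (hL : 1 ≤ L) (hLX : L ≤ X) (hD : D ≤ X)
    (hB : 1 ≤ B) (hq : 1 ≤ q) (hqX : q ≤ X)
    (hcop : IsCoprime b (q : ℤ)) (hθ : |θ - b / q| ≤ 1 / (q : ℝ) ^ 2) (J : ℕ) :
    ∑ d ∈ Ioc B (2 ^ J * B), (if d ≤ D then KK ((L : ℝ) / d + 1) ((d : ℝ) * θ) else 0) ≤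
      J * (42 * (1 + Real.log X) * ((L : ℝ) / q + L / B + D + q)) := by
  have hnn : 0 ≤ 42 * (1 + Real.log X) * ((L : ℝ) / q + L / B + D + q) := by
    have hlogX : 0 ≤ Real.log X := Real.log_natCast_nonneg X
    positivity
  induction J with
  | zero => simp
  | succ J ih =>
    have h1 : B ≤ 2 ^ J * B := Nat.le_mul_of_pos_left B (by positivity)
    have h2 : 2 ^ J * B ≤ 2 ^ (J + 1) * B := by
      rw [pow_succ]
      nlinarith
    rw [← Finset.sum_Ioc_consecutive _ h1 h2]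
    have h3 : ∑ d ∈ Ioc (2 ^ J * B) (2 ^ (J + 1) * B),
        (if d ≤ D then KK ((L : ℝ) / d + 1) ((d : ℝ) * θ) else 0) ≤
        42 * (1 + Real.log X) * ((L : ℝ) / q + L / B + D + q) := by
      rcases le_or_gt (2 ^ J * B) D with h4 | h4
      · refine le_trans (Finset.sum_le_sum (g := fun d : ℕ => KK ((L : ℝ) / d + 1) ((d : ℝ) * θ))
          fun d _ => ?_) ?_
        · split_ifs
          · exact le_rfl
          · exact KK_nonneg (by positivity) _
        · rw [show 2 ^ (J + 1) * B = 2 * (2 ^ J * B) by ring]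
          exact block X L D B q (2 ^ J * B) b θ hL hLX hD hB h1 h4 hq hqX hcop hθ
      · rw [Finset.sum_eq_zero]
        · exact hnn
        · intro d hd
          rw [mem_Ioc] at hd
          rw [if_neg (by omega)]
    push_cast
    linarith

end V3N

theorem v3 : S_V3 := by
  refine ⟨1000, 4, by norm_num, ?_⟩
  intro X L u D B q i b θ γ hX hL hX' hD hB hBq hqX hcop hθ hγ hi
  have hq : 1 ≤ q := by omega
  have hLX : L ≤ X := by omega
  set l : ℝ := 1 + Real.log X with hl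
  have hlogX : 0 ≤ Real.log X := Real.log_natCast_nonneg X
  have hl1 : 1 ≤ l := by linarith
  have hX0 : (0 : ℝ) < X := by exact_mod_cast (by omega : 0 < X)
  have hq0 : (0 : ℝ) < q := by exact_mod_cast hq
  have hB0 : (0 : ℝ) < B := by exact_mod_cast hB
  rw [V3N.swap]
  -- the bound by the sum of `KK`
  have h1 : ‖∑ d ∈ Icc 1 D, (γ d : ℂ) * ∑ v ∈ Ioc (u / d) ((u + L) / d),
      ((Real.log (v : ℝ) ^ i : ℝ) : ℂ) * ee ((v : ℝ) * ((d : ℝ) * θ))‖ ≤
      2 * l ^ 2 * ∑ d ∈ Icc 1 D, KK ((L : ℝ) / d + 1) ((d : ℝ) * θ) := by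
    rw [Finset.mul_sum]
    refine (norm_sum_le _ _).trans (Finset.sum_le_sum fun d hd => ?_)
    rw [mem_Icc] at hd
    rw [norm_mul, Complex.norm_real, Real.norm_eq_abs]
    have h2 := V3N.inner X L u d i ((d : ℝ) * θ) hd.1 hX' hX hi
    have h3 : |γ d| ≤ 2 * l := by
      refine (hγ d).trans ?_
      have h4 : (d : ℝ) + 3 ≤ 4 * X := by
        have : ((d + 3 : ℕ) : ℝ) ≤ ((4 * X : ℕ) : ℝ) := by exact_mod_cast (by omega)
        push_cast at this
        exact this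
      have h5 : Real.log ((d : ℝ) + 3) ≤ Real.log (4 * X) :=
        Real.log_le_log (by positivity) h4
      have h6 : Real.log (4 * (X : ℝ)) = Real.log 4 + Real.log X :=
        Real.log_mul (by norm_num) hX0.ne'
      have h7 : Real.log 4 ≤ 2 := by
        rw [show (4 : ℝ) = 2 ^ 2 by norm_num, Real.log_pow]
        have := Real.log_two_lt_d9
        push_cast
        linarith
      rw [hl]
      linarith
    have h8 : 0 ≤ KK ((L : ℝ) / d + 1) ((d : ℝ) * θ) := KK_nonneg (by positivity) _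
    calc _ ≤ (2 * l) * (l * KK ((L : ℝ) / d + 1) ((d : ℝ) * θ)) :=
          mul_le_mul h3 h2 (norm_nonneg _) (by positivity)
      _ = _ := by ring
  refine h1.trans ?_
  have hnn : 0 ≤ (L : ℝ) / q + L / B + D + B * q := by positivity
  -- the sum of `KK`
  have hsum : ∑ d ∈ Icc 1 D, KK ((L : ℝ) / d + 1) ((d : ℝ) * θ) ≤
      100 * l ^ 2 * ((L : ℝ) / q + L / B + D + B * q) := by
    have hnonneg : ∀ d : ℕ, 0 ≤ KK ((L : ℝ) / d + 1) ((d : ℝ) * θ) := fun d =>
      KK_nonneg (by positivity) _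
    set J : ℕ := Nat.log 2 D + 1 with hJ
    have hDJ : D ≤ 2 ^ J * B := by
      have h2 : D < 2 ^ J := Nat.lt_pow_succ_log_self (by norm_num) D
      nlinarith
    have hsub : Icc 1 D ⊆ Icc 1 B ∪ (Ioc B (2 ^ J * B)).filter (fun d => d ≤ D) := by
      intro d hd
      rw [mem_Icc] at hd
      rw [mem_union, mem_filter, mem_Icc, mem_Ioc]
      omega
    have h2 : ∑ d ∈ Icc 1 D, KK ((L : ℝ) / d + 1) ((d : ℝ) * θ) ≤
        ∑ d ∈ Icc 1 B, KK ((L : ℝ) / d + 1) ((d : ℝ) * θ) +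
        ∑ d ∈ Ioc B (2 ^ J * B), (if d ≤ D then KK ((L : ℝ) / d + 1) ((d : ℝ) * θ) else 0) := by
      rw [← Finset.sum_filter]
      have h3 : Disjoint (Icc 1 B) ((Ioc B (2 ^ J * B)).filter (fun d => d ≤ D)) := by
        rw [Finset.disjoint_left]
        intro d h4 h5
        rw [mem_Icc] at h4
        rw [mem_filter, mem_Ioc] at h5
        omega
      rw [← Finset.sum_union h3]
      exact Finset.sum_le_sum_of_subset_of_nonneg hsub fun d _ _ => hnonneg d
    have h3 : ∑ d ∈ Icc 1 B, KK ((L : ℝ) / d + 1) ((d : ℝ) * θ) ≤ B * (3 * q / 2) := by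
      have h4 : ∀ d ∈ Icc 1 B, KK ((L : ℝ) / d + 1) ((d : ℝ) * θ) ≤ 3 * q / 2 := by
        intro d hd
        rw [mem_Icc] at hd
        exact V3N.small q B d b θ _ (by positivity) hBq hd.1 hd.2 hcop hθ
      have h5 := Finset.sum_le_card_nsmul _ _ _ h4
      rw [Nat.card_Icc, nsmul_eq_mul, Nat.add_sub_cancel] at h5
      exact h5
    have h4 := V3N.large X L D B q b θ hL hLX hD hB hq hqX hcop hθ J
    have h5 : (J : ℝ) ≤ 2 * l := by
      rcases Nat.eq_zero_or_pos D with h6 | h6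
      · rw [hJ, h6]
        simp
        linarith
      · have h7 : 2 ^ (Nat.log 2 D) ≤ X := (Nat.pow_log_le_self 2 (by omega)).trans hD
        have h8 : Real.log ((2 ^ (Nat.log 2 D) : ℕ) : ℝ) ≤ Real.log X := V3N.log_mono h7
        push_cast at h8
        rw [Real.log_pow] at h8
        have h9 : (1 : ℝ) / 2 ≤ Real.log 2 := by
          have := Real.log_two_gt_d9
          linarith
        have h10 : (0 : ℝ) ≤ (Nat.log 2 D : ℕ) := Nat.cast_nonneg _
        rw [hJ]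
        push_cast
        nlinarith
    have h6 : (L : ℝ) / q + L / B + D + q ≤ L / q + L / B + D + B * q := by
      have : (1 : ℝ) ≤ B := by exact_mod_cast hB
      nlinarith
    have h7 : 0 ≤ (L : ℝ) / q + L / B + D + q := by positivity
    have h8 : (B : ℝ) * (3 * q / 2) ≤ 2 * l ^ 2 * (L / q + L / B + D + B * q) := by
      have h9 : (B : ℝ) * (3 * q / 2) ≤ 2 * (L / q + L / B + D + B * q) := by
        have g1 : 0 ≤ (L : ℝ) / q := by positivity
        have g2 : 0 ≤ (L : ℝ) / B := by positivity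
        have g3 : 0 ≤ (B : ℝ) * q := by positivity
        have g4 : 0 ≤ (D : ℝ) := Nat.cast_nonneg D
        nlinarith
      have h10 : (1 : ℝ) ≤ l ^ 2 := one_le_pow₀ hl1
      nlinarith
    have h9 : (J : ℝ) * (42 * l * ((L : ℝ) / q + L / B + D + q)) ≤
        (2 * l) * (42 * l * (L / q + L / B + D + B * q)) :=
      mul_le_mul h5 (mul_le_mul_of_nonneg_left h6 (by positivity)) (by positivity) (by positivity)
    have h10 : 0 ≤ l ^ 2 * ((L : ℝ) / q + L / B + D + B * q) := by positivity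
    nlinarith
  calc 2 * l ^ 2 * ∑ d ∈ Icc 1 D, KK ((L : ℝ) / d + 1) ((d : ℝ) * θ) ≤
        2 * l ^ 2 * (100 * l ^ 2 * ((L : ℝ) / q + L / B + D + B * q)) :=
        mul_le_mul_of_nonneg_left hsum (by positivity)
    _ = 200 * l ^ 4 * ((L : ℝ) / q + L / B + D + B * q) := by ring
    _ ≤ 1000 * l ^ 4 * ((L : ℝ) / q + L / B + D + B * q) := by
        have : 0 ≤ l ^ 4 * ((L : ℝ) / q + L / B + D + B * q) := by positivity
        nlinarith

end Pool.Agent.H544.VB
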