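import Pool.Agent.H544.VB.Stm

/-!
# Project VB (helper544), V4: primes in short intervals, minor arcs (by helper115)

Vaughan's identity and its coefficients are copied from `Pool.Agent.helper24_UT.Frl2`.
-/

set_option autoImplicit false

namespace Pool.Agent.H544.VB

open Finset
open Pool.Agent.H807R2.Dav

namespace V4N

open ArithmeticFunction in
/-- the Moebius function cut at `U` -/
noncomputable def m1 (U : ℕ) : ArithmeticFunction ℝ :=
  ⟨fun b => if b ≤ U then ((moebius b : ℤ) : ℝ) else 0, by simp⟩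

open ArithmeticFunction in
/-- the von Mangoldt function cut at `V` -/
noncomputable def L1 (V : ℕ) : ArithmeticFunction ℝ :=
  ⟨fun b => if b ≤ V then vonMangoldt b else 0, by simp⟩

theorem m1_apply (U b : ℕ) : m1 U b =
    if b ≤ U then ((ArithmeticFunction.moebius b : ℤ) : ℝ) else 0 := rfl

theorem L1_apply (V b : ℕ) : L1 V b =
    if b ≤ V then ArithmeticFunction.vonMangoldt b else 0 := rfl

theorem m1_zeta (U m : ℕ) : (m1 U * (ArithmeticFunction.zeta : ArithmeticFunction ℝ)) m =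
    ((alU U m : ℤ) : ℝ) := by
  rw [ArithmeticFunction.coe_mul_zeta_apply]
  unfold alU
  push_cast
  rw [Finset.sum_filter]
  rfl

theorem alU_one (U : ℕ) (hU : 1 ≤ U) : alU U 1 = 1 := by
  unfold alU
  rw [Nat.divisors_one, Finset.filter_singleton, if_pos hU]
  simp

theorem alU_small (U m : ℕ) (h1 : 1 < m) (hU : m ≤ U) : alU U m = 0 := by
  unfold alU
  have h : m.divisors.filter (fun b => b ≤ U) = m.divisors := by
    refine Finset.filter_true_of_mem fun b hb => ?_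
    exact (Nat.divisor_le hb).trans hU
  rw [h]
  have h2 := ArithmeticFunction.coe_mul_zeta_apply (R := ℤ) (f := ArithmeticFunction.moebius) (x := m)
  rw [ArithmeticFunction.moebius_mul_coe_zeta] at h2
  rw [← h2, ArithmeticFunction.one_apply_ne h1.ne']

/-- Vaughan's identity -/
theorem vaughan (U V n : ℕ) (hU : 1 ≤ U) (hn : V < n) :
    ArithmeticFunction.vonMangoldt n =
      (∑ b ∈ n.divisors.filter (fun b => b ≤ U),
        ((ArithmeticFunction.moebius b : ℤ) : ℝ) * Real.log ((n / b : ℕ) : ℝ)) -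
      (∑ b ∈ n.divisors.filter (fun b => b ≤ U * V), (L1 V * m1 U) b) -
      ∑ x ∈ n.divisorsAntidiagonal.filter (fun x => U < x.1 ∧ V < x.2),
        ((alU U x.1 : ℤ) : ℝ) * ArithmeticFunction.vonMangoldt x.2 := by
  have hn0 : n ≠ 0 := by omega
  -- the full sum
  have hall : ∑ x ∈ n.divisorsAntidiagonal, ((alU U x.1 : ℤ) : ℝ) *
      ArithmeticFunction.vonMangoldt x.2 = ∑ b ∈ n.divisors.filter (fun b => b ≤ U),
        ((ArithmeticFunction.moebius b : ℤ) : ℝ) * Real.log ((n / b : ℕ) : ℝ) := by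
    have h1 : ∑ x ∈ n.divisorsAntidiagonal, ((alU U x.1 : ℤ) : ℝ) *
        ArithmeticFunction.vonMangoldt x.2 =
        ((m1 U * (ArithmeticFunction.zeta : ArithmeticFunction ℝ)) *
          ArithmeticFunction.vonMangoldt) n := by
      rw [ArithmeticFunction.mul_apply]
      refine Finset.sum_congr rfl fun x _ => ?_
      rw [m1_zeta]
    have h2 : (m1 U * (ArithmeticFunction.zeta : ArithmeticFunction ℝ)) *
          ArithmeticFunction.vonMangoldt = m1 U * ArithmeticFunction.log := by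
      rw [mul_assoc, mul_comm (ArithmeticFunction.zeta : ArithmeticFunction ℝ),
        ArithmeticFunction.vonMangoldt_mul_zeta]
    rw [h1, h2, ArithmeticFunction.mul_apply,
      Nat.sum_divisorsAntidiagonal (fun a b => m1 U a * ArithmeticFunction.log b),
      Finset.sum_filter]
    refine Finset.sum_congr rfl fun b _ => ?_
    rw [m1_apply, ArithmeticFunction.log_apply]
    split_ifs <;> simp
  -- the part with small second factor
  have hsmall : ∑ x ∈ n.divisorsAntidiagonal.filter (fun x => x.2 ≤ V), ((alU U x.1 : ℤ) : ℝ) *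
      ArithmeticFunction.vonMangoldt x.2 =
      ∑ b ∈ n.divisors.filter (fun b => b ≤ U * V), (L1 V * m1 U) b := by
    have h1 : ∑ x ∈ n.divisorsAntidiagonal.filter (fun x => x.2 ≤ V), ((alU U x.1 : ℤ) : ℝ) *
        ArithmeticFunction.vonMangoldt x.2 =
        ((m1 U * (ArithmeticFunction.zeta : ArithmeticFunction ℝ)) * L1 V) n := by
      rw [ArithmeticFunction.mul_apply, Finset.sum_filter]
      refine Finset.sum_congr rfl fun x _ => ?_
      rw [m1_zeta, L1_apply]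
      split_ifs <;> simp
    have h2 : (m1 U * (ArithmeticFunction.zeta : ArithmeticFunction ℝ)) * L1 V =
        (L1 V * m1 U) * (ArithmeticFunction.zeta : ArithmeticFunction ℝ) := by
      ring
    rw [h1, h2, ArithmeticFunction.coe_mul_zeta_apply, Finset.sum_filter]
    refine Finset.sum_congr rfl fun b _ => ?_
    split_ifs with hb
    · rfl
    · rw [ArithmeticFunction.mul_apply]
      refine Finset.sum_eq_zero fun x hx => ?_
      rw [L1_apply, m1_apply]
      by_cases hx1 : x.1 ≤ V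
      · by_cases hx2 : x.2 ≤ U
        · exfalso
          apply hb
          rw [← (Nat.mem_divisorsAntidiagonal.1 hx).1, mul_comm U V]
          exact Nat.mul_le_mul hx1 hx2
        · rw [if_neg hx2, mul_zero]
      · rw [if_neg hx1, zero_mul]
  -- the part with large second factor
  have hlarge : ∑ x ∈ n.divisorsAntidiagonal.filter (fun x => ¬ x.2 ≤ V), ((alU U x.1 : ℤ) : ℝ) *
      ArithmeticFunction.vonMangoldt x.2 = ArithmeticFunction.vonMangoldt n +
      ∑ x ∈ n.divisorsAntidiagonal.filter (fun x => U < x.1 ∧ V < x.2),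
        ((alU U x.1 : ℤ) : ℝ) * ArithmeticFunction.vonMangoldt x.2 := by
    have hmem : (1, n) ∈ n.divisorsAntidiagonal.filter (fun x => ¬ x.2 ≤ V) := by
      rw [Finset.mem_filter, Nat.mem_divisorsAntidiagonal]
      exact ⟨⟨one_mul n, hn0⟩, by simpa using hn⟩
    rw [← Finset.add_sum_erase _ _ hmem]
    congr 1
    · rw [alU_one U hU]; simp
    · symm
      refine Finset.sum_subset ?_ ?_
      · intro x hx
        rw [Finset.mem_filter] at hx
        rw [Finset.mem_erase, Finset.mem_filter]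
        refine ⟨?_, hx.1, not_le.2 hx.2.2⟩
        rintro rfl
        exact absurd hx.2.1 (not_lt.2 hU)
      · intro x hx hx2
        rw [Finset.mem_erase, Finset.mem_filter] at hx
        obtain ⟨hne, hx1, hxV⟩ := hx
        have hx1' := Nat.mem_divisorsAntidiagonal.1 hx1
        have hxU : x.1 ≤ U := by
          by_contra hcon
          exact hx2 (Finset.mem_filter.2 ⟨hx1, not_le.1 hcon, not_le.1 hxV⟩)
        have hx11 : x.1 ≠ 1 := by
          intro h
          apply hne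
          have : x.2 = n := by rw [← hx1'.1, h, one_mul]
          exact Prod.ext h this
        have hx10 : x.1 ≠ 0 := by
          intro h
          rw [h, zero_mul] at hx1'
          exact hn0 hx1'.1.symm
        rw [alU_small U x.1 (by omega) hxU]
        simp
  have hsplit := Finset.sum_filter_add_sum_filter_not n.divisorsAntidiagonal (fun x => x.2 ≤ V)
    (fun x => ((alU U x.1 : ℤ) : ℝ) * ArithmeticFunction.vonMangoldt x.2)
  rw [hsmall, hlarge, hall] at hsplit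
  linarith

theorem gamma_bound (U V b : ℕ) : |(L1 V * m1 U) b| ≤ Real.log ((b : ℝ) + 3) := by
  have h1 : |(L1 V * m1 U) b| ≤ Real.log b := by
    rw [ArithmeticFunction.mul_apply]
    refine (Finset.abs_sum_le_sum_abs _ _).trans ?_
    have h2 : ∑ x ∈ b.divisorsAntidiagonal, |L1 V x.1 * m1 U x.2| ≤
        ∑ x ∈ b.divisorsAntidiagonal, ArithmeticFunction.vonMangoldt x.1 := by
      refine Finset.sum_le_sum fun x _ => ?_
      rw [abs_mul]
      have ha : |L1 V x.1| ≤ ArithmeticFunction.vonMangoldt x.1 := by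
        rw [L1_apply]
        split_ifs
        · rw [abs_of_nonneg ArithmeticFunction.vonMangoldt_nonneg]
        · rw [abs_zero]; exact ArithmeticFunction.vonMangoldt_nonneg
      have hb : |m1 U x.2| ≤ 1 := by
        rw [m1_apply]
        split_ifs
        · rw [← Int.cast_abs]
          exact_mod_cast ArithmeticFunction.abs_moebius_le_one
        · simp
      calc |L1 V x.1| * |m1 U x.2| ≤ ArithmeticFunction.vonMangoldt x.1 * 1 :=
            mul_le_mul ha hb (abs_nonneg _) ArithmeticFunction.vonMangoldt_nonneg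
        _ = _ := mul_one _
    refine h2.trans ?_
    rw [Nat.sum_divisorsAntidiagonal (fun a _ => ArithmeticFunction.vonMangoldt a),
      ArithmeticFunction.vonMangoldt_sum]
  refine h1.trans ?_
  rcases Nat.eq_zero_or_pos b with rfl | hb
  · simp only [Nat.cast_zero, Real.log_zero, zero_add]
    exact Real.log_nonneg (by norm_num)
  · exact Real.log_le_log (by exact_mod_cast hb) (by linarith)

/-! ## The pieces -/

/-- the sum without the small `n` -/
theorem split_sum (X L u U : ℕ) (θ : ℝ) (huL : u + L ≤ X) (hX : 1 ≤ X) :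
    ∃ m L' : ℕ, m + L' = u + L ∧ L' ≤ L ∧ (L' = 0 ∨ U ≤ m) ∧
      ‖∑ n ∈ Ioc u (u + L), (ArithmeticFunction.vonMangoldt n : ℂ) * ee ((n : ℝ) * θ)‖ ≤
        U * Real.log X +
          ‖∑ n ∈ Ioc m (m + L'), (ArithmeticFunction.vonMangoldt n : ℂ) * ee ((n : ℝ) * θ)‖ := by
  obtain ⟨m, hm⟩ : ∃ m, m = min (max u U) (u + L) := ⟨_, rfl⟩
  have hum : u ≤ m := by omega
  have hmL : m ≤ u + L := by omega
  refine ⟨m, u + L - m, by omega, by omega, by omega, ?_⟩
  have e1 : m + (u + L - m) = u + L := by omega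
  rw [e1]
  have e2 : Ioc u (u + L) = Ioc u m ∪ Ioc m (u + L) := (Ioc_union_Ioc_eq_Ioc hum hmL).symm
  have hdis : Disjoint (Ioc u m) (Ioc m (u + L)) := by
    rw [Finset.disjoint_left]
    intro n h1 h2
    rw [mem_Ioc] at h1 h2
    omega
  rw [e2, sum_union hdis]
  refine (norm_add_le _ _).trans ?_
  have h1 : ‖∑ n ∈ Ioc u m, (ArithmeticFunction.vonMangoldt n : ℂ) * ee ((n : ℝ) * θ)‖ ≤
      U * Real.log X := by
    refine (norm_sum_le _ _).trans ?_
    have h2 : ∀ n ∈ Ioc u m, ‖(ArithmeticFunction.vonMangoldt n : ℂ) * ee ((n : ℝ) * θ)‖ ≤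
        Real.log X := by
      intro n hn
      rw [mem_Ioc] at hn
      rw [norm_mul, norm_ee, mul_one, Complex.norm_real,
        Real.norm_of_nonneg ArithmeticFunction.vonMangoldt_nonneg]
      refine ArithmeticFunction.vonMangoldt_le_log.trans ?_
      refine Real.log_le_log ?_ ?_
      · exact_mod_cast (show 0 < n by omega)
      · exact_mod_cast (show n ≤ X by omega)
    refine (sum_le_sum h2).trans ?_
    rw [sum_const, nsmul_eq_mul, Nat.card_Ioc]
    have h3 : m - u ≤ U := by omega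
    have h4 : ((m - u : ℕ) : ℝ) ≤ U := by exact_mod_cast h3
    exact mul_le_mul_of_nonneg_right h4 (Real.log_nonneg (by exact_mod_cast hX))
  linarith

/-- Vaughan's identity for the exponential sum -/
theorem vau_sum (m L U : ℕ) (θ : ℝ) (hU : 1 ≤ U) (hm : U ≤ m) :
    ‖∑ n ∈ Ioc m (m + L), (ArithmeticFunction.vonMangoldt n : ℂ) * ee ((n : ℝ) * θ)‖ ≤
      ‖∑ n ∈ Ioc m (m + L), ((∑ d ∈ n.divisors.filter (fun d => d ≤ U),
        ((ArithmeticFunction.moebius d : ℤ) : ℝ) * Real.log ((n / d : ℕ) : ℝ) ^ 1 : ℝ) : ℂ) *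
        ee ((n : ℝ) * θ)‖ +
      ‖∑ n ∈ Ioc m (m + L), ((∑ d ∈ n.divisors.filter (fun d => d ≤ U * U),
        (L1 U * m1 U) d * Real.log ((n / d : ℕ) : ℝ) ^ 0 : ℝ) : ℂ) * ee ((n : ℝ) * θ)‖ +
      ‖∑ n ∈ Ioc m (m + L), ((∑ x ∈ n.divisorsAntidiagonal.filter (fun x => U < x.1 ∧ U < x.2),
        (alU U x.1 : ℝ) * ArithmeticFunction.vonMangoldt x.2 : ℝ) : ℂ) * ee ((n : ℝ) * θ)‖ := by
  have h : ∑ n ∈ Ioc m (m + L), (ArithmeticFunction.vonMangoldt n : ℂ) * ee ((n : ℝ) * θ) =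
      ∑ n ∈ Ioc m (m + L), ((∑ d ∈ n.divisors.filter (fun d => d ≤ U),
        ((ArithmeticFunction.moebius d : ℤ) : ℝ) * Real.log ((n / d : ℕ) : ℝ) ^ 1 : ℝ) : ℂ) *
        ee ((n : ℝ) * θ) -
      ∑ n ∈ Ioc m (m + L), ((∑ d ∈ n.divisors.filter (fun d => d ≤ U * U),
        (L1 U * m1 U) d * Real.log ((n / d : ℕ) : ℝ) ^ 0 : ℝ) : ℂ) * ee ((n : ℝ) * θ) -
      ∑ n ∈ Ioc m (m + L), ((∑ x ∈ n.divisorsAntidiagonal.filter (fun x => U < x.1 ∧ U < x.2),
        (alU U x.1 : ℝ) * ArithmeticFunction.vonMangoldt x.2 : ℝ) : ℂ) * ee ((n : ℝ) * θ) := by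
    rw [← sum_sub_distrib, ← sum_sub_distrib]
    refine sum_congr rfl fun n hn => ?_
    rw [mem_Ioc] at hn
    have h1 := vaughan U U n hU (by omega)
    have h2 : ∑ d ∈ n.divisors.filter (fun d => d ≤ U),
        ((ArithmeticFunction.moebius d : ℤ) : ℝ) * Real.log ((n / d : ℕ) : ℝ) ^ 1 =
        ∑ d ∈ n.divisors.filter (fun d => d ≤ U),
        ((ArithmeticFunction.moebius d : ℤ) : ℝ) * Real.log ((n / d : ℕ) : ℝ) :=
      sum_congr rfl fun d _ => by rw [pow_one]
    have h3 : ∑ d ∈ n.divisors.filter (fun d => d ≤ U * U),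
        (L1 U * m1 U) d * Real.log ((n / d : ℕ) : ℝ) ^ 0 =
        ∑ d ∈ n.divisors.filter (fun d => d ≤ U * U), (L1 U * m1 U) d :=
      sum_congr rfl fun d _ => by rw [pow_zero, mul_one]
    rw [h2, h3, h1, Complex.ofReal_sub, Complex.ofReal_sub]
    ring
  rw [h]
  refine (norm_sub_le _ _).trans ?_
  exact add_le_add_left (norm_sub_le _ _) _

end V4N

open V4N

theorem v4 : S_V2 → S_V3 → S_V4 := by
  rintro ⟨C2, k2, hC2, h2⟩ ⟨C3, k3, hC3, h3⟩ A
  obtain ⟨κ, hκ⟩ : ∃ κ, κ = k2 + k3 := ⟨_, rfl⟩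
  obtain ⟨s, hs⟩ : ∃ s, s = A + κ + 1 := ⟨_, rfl⟩
  obtain ⟨G, hG⟩ : ∃ G : ℝ, G = (4 + 3 * C2 + 16 * C3) * 2 ^ κ := ⟨_, rfl⟩
  have hG4 : 4 ≤ G := by
    rw [hG]
    have : (1 : ℝ) ≤ 2 ^ κ := one_le_pow₀ (by norm_num)
    nlinarith
  refine ⟨6 * s + 2, ⌈Real.exp G⌉₊, ?_⟩
  intro X hX L u q b θ hXL huL hqB hqX hb hθ
  have hexp : Real.exp G ≤ (X : ℝ) := Nat.ceil_le.1 hX
  have hX0 : (0 : ℝ) < X := (Real.exp_pos G).trans_le hexp
  obtain ⟨l, hl⟩ : ∃ l, l = Real.log X := ⟨_, rfl⟩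
  have hlG : G ≤ l := by rw [hl]; exact (Real.le_log_iff_exp_le hX0).2 hexp
  have hl4 : 4 ≤ l := hG4.trans hlG
  have hl1 : 1 ≤ l := by linarith
  have hl0 : 0 < l := by linarith
  have hX2 : 2 ≤ X := by
    have h5 : (2 : ℝ) ≤ X := by
      have := Real.add_one_le_exp G
      linarith
    exact_mod_cast h5
  rw [← hl] at hXL hqB hqX ⊢
  have hpow : ∀ i j : ℕ, i ≤ j → l ^ i ≤ l ^ j := fun i j hij => pow_le_pow_right₀ hl1 hij
  have hp0 : ∀ i : ℕ, 0 < l ^ i := fun i => pow_pos hl0 i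
  have hp1 : ∀ i : ℕ, 1 ≤ l ^ i := fun i => one_le_pow₀ hl1
  -- the sizes
  have hLX : (L : ℝ) ≤ X := by exact_mod_cast (show L ≤ X by omega)
  have hL0 : (0 : ℝ) < L := by
    have h5 : 0 < (L : ℝ) ^ 3 := lt_of_lt_of_le (mul_pos (pow_pos hX0 2) (hp0 _)) hXL
    by_contra hc
    have h6 : (L : ℝ) = 0 := le_antisymm (not_lt.1 hc) (Nat.cast_nonneg L)
    rw [h6] at h5
    norm_num at h5
  have hq0 : (0 : ℝ) < q := (hp0 _).trans_le hqB
  have hq1 : 1 ≤ q := by exact_mod_cast (Nat.cast_pos.1 hq0)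
  -- `q l^B ≤ L`
  have hqL : q * l ^ (6 * s + 2) ≤ L := by
    have h5 : (q * l ^ (6 * s + 2)) * X ≤ L * X := by
      calc (q * l ^ (6 * s + 2)) * X = q * X * l ^ (6 * s + 2) := by ring
        _ ≤ (L : ℝ) ^ 2 := hqX
        _ ≤ L * X := by
          rw [sq]
          exact mul_le_mul_of_nonneg_left hLX hL0.le
    exact le_of_mul_le_mul_right h5 hX0
  have hqX' : q ≤ X := by
    have h5 : (q : ℝ) ≤ X := by
      calc (q : ℝ) = q * 1 := (mul_one _).symm
        _ ≤ q * l ^ (6 * s + 2) := mul_le_mul_of_nonneg_left (hp1 _) hq0.le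
        _ ≤ L := hqL
        _ ≤ X := hLX
    exact_mod_cast h5
  -- the cut
  obtain ⟨S, hS⟩ : ∃ S : ℝ, S = L / l ^ s := ⟨_, rfl⟩
  have hS0 : 0 < S := by rw [hS]; exact div_pos hL0 (hp0 s)
  obtain ⟨w, hw⟩ : ∃ w : ℝ, w = X / L * l ^ (2 * s) := ⟨_, rfl⟩
  have hw1 : 1 ≤ w := by
    rw [hw]
    have h5 : 1 ≤ (X : ℝ) / L := (one_le_div hL0).2 hLX
    calc (1 : ℝ) = 1 * 1 := (mul_one _).symm
      _ ≤ X / L * l ^ (2 * s) := mul_le_mul h5 (hp1 _) zero_le_one (by positivity)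
  obtain ⟨U, hUdef⟩ : ∃ U : ℕ, U = ⌈w⌉₊ := ⟨_, rfl⟩
  have hUw : w ≤ U := by rw [hUdef]; exact Nat.le_ceil _
  have hU2w : (U : ℝ) ≤ 2 * w := by
    have := Nat.ceil_lt_add_one (show (0 : ℝ) ≤ w by linarith)
    rw [hUdef]
    linarith
  have hU1r : (1 : ℝ) ≤ U := hw1.trans hUw
  have hU1 : 1 ≤ U := by exact_mod_cast hU1r
  have hwL : w * L = X * l ^ (2 * s) := by
    rw [hw]
    field_simp
  have hUU : (U : ℝ) ^ 2 * l ^ (2 * s + 2) ≤ 4 * L := by
    have h5 : ((U : ℝ) ^ 2 * l ^ (2 * s + 2)) * L ^ 2 ≤ (4 * L) * L ^ 2 := by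
      have h6 : ((U : ℝ) * L) ^ 2 ≤ (2 * (w * L)) ^ 2 := by
        refine pow_le_pow_left₀ (by positivity) ?_ 2
        calc (U : ℝ) * L ≤ (2 * w) * L := mul_le_mul_of_nonneg_right hU2w hL0.le
          _ = _ := by ring
      calc ((U : ℝ) ^ 2 * l ^ (2 * s + 2)) * L ^ 2 = ((U : ℝ) * L) ^ 2 * l ^ (2 * s + 2) := by ring
        _ ≤ (2 * (w * L)) ^ 2 * l ^ (2 * s + 2) :=
          mul_le_mul_of_nonneg_right h6 (hp0 _).le
        _ = 4 * ((X : ℝ) ^ 2 * l ^ (6 * s + 2)) := by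
          rw [hwL]
          ring
        _ ≤ 4 * (L : ℝ) ^ 3 := by linarith
        _ = _ := by ring
    exact le_of_mul_le_mul_right h5 (by positivity)
  have hUS : (U : ℝ) ^ 2 * l ≤ 4 * S := by
    rw [hS, ← mul_div_assoc, le_div_iff₀ (hp0 s)]
    calc (U : ℝ) ^ 2 * l * l ^ s = (U : ℝ) ^ 2 * l ^ (s + 1) := by ring
      _ ≤ (U : ℝ) ^ 2 * l ^ (2 * s + 2) :=
        mul_le_mul_of_nonneg_left (hpow _ _ (by omega)) (by positivity)
      _ ≤ 4 * L := hUU
  have hUS2 : (U : ℝ) ^ 2 ≤ 4 * S := by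
    refine le_trans ?_ hUS
    calc (U : ℝ) ^ 2 = (U : ℝ) ^ 2 * 1 := (mul_one _).symm
      _ ≤ _ := mul_le_mul_of_nonneg_left hl1 (by positivity)
  have hUr : (U : ℝ) ≤ (U : ℝ) ^ 2 := by nlinarith
  have hUUX : U * U ≤ X := by
    have h5 : (U : ℝ) ^ 2 * 4 ≤ 4 * L := by
      refine le_trans (mul_le_mul_of_nonneg_left ?_ (by positivity)) hUU
      calc (4 : ℝ) ≤ l := hl4
        _ = l ^ 1 := (pow_one l).symm
        _ ≤ _ := hpow _ _ (by omega)
    have h6 : ((U * U : ℕ) : ℝ) ≤ X := by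
      push_cast
      nlinarith
    exact_mod_cast h6
  have hUX : U ≤ X := (Nat.le_mul_self U).trans hUUX
  -- the second cut
  obtain ⟨B3, hB3def⟩ : ∃ B3 : ℕ, B3 = ⌈l ^ s⌉₊ := ⟨_, rfl⟩
  have hB3l : l ^ s ≤ B3 := by rw [hB3def]; exact Nat.le_ceil _
  have hB3u : (B3 : ℝ) ≤ 2 * l ^ s := by
    have := Nat.ceil_lt_add_one (hp0 s).le
    have := hp1 s
    rw [hB3def]
    linarith
  have hB31 : 1 ≤ B3 := by
    have : (1 : ℝ) ≤ B3 := (hp1 s).trans hB3l
    exact_mod_cast this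
  have hB3q : 2 * B3 ≤ q := by
    have h5 : ((2 * B3 : ℕ) : ℝ) ≤ q := by
      push_cast
      calc 2 * (B3 : ℝ) ≤ 4 * l ^ s := by linarith
        _ ≤ l * l ^ s := mul_le_mul_of_nonneg_right hl4 (hp0 s).le
        _ = l ^ (s + 1) := by ring
        _ ≤ l ^ (6 * s + 2) := hpow _ _ (by omega)
        _ ≤ q := hqB
    exact_mod_cast h5
  -- the terms
  have t1 : (L : ℝ) / √q ≤ S := by
    rw [hS]
    refine div_le_div_of_nonneg_left hL0.le (hp0 s) ?_
    refine Real.le_sqrt_of_sq_le ?_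
    calc (l ^ s) ^ 2 = l ^ (2 * s) := by ring
      _ ≤ l ^ (6 * s + 2) := hpow _ _ (by omega)
      _ ≤ q := hqB
  have hS2 : S ^ 2 = (L : ℝ) ^ 2 / l ^ (2 * s) := by
    rw [hS, div_pow]
    congr 1
    ring
  have t2 : √((L : ℝ) * X / U) ≤ S := by
    refine Real.sqrt_le_iff.2 ⟨hS0.le, ?_⟩
    rw [hS2, div_le_div_iff₀ (by linarith) (hp0 _)]
    calc (L : ℝ) * X * l ^ (2 * s) = L * (w * L) := by rw [hwL]; ring
      _ = w * (L : ℝ) ^ 2 := by ring
      _ ≤ U * (L : ℝ) ^ 2 := mul_le_mul_of_nonneg_right hUw (by positivity)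
      _ = _ := by ring
  have t3 : √((X : ℝ) * q) ≤ S := by
    refine Real.sqrt_le_iff.2 ⟨hS0.le, ?_⟩
    rw [hS2, le_div_iff₀ (hp0 _)]
    calc (X : ℝ) * q * l ^ (2 * s) ≤ X * q * l ^ (6 * s + 2) :=
          mul_le_mul_of_nonneg_left (hpow _ _ (by omega)) (by positivity)
      _ = q * X * l ^ (6 * s + 2) := by ring
      _ ≤ _ := hqX
  have t4 : (L : ℝ) / q ≤ S := by
    rw [hS]
    refine div_le_div_of_nonneg_left hL0.le (hp0 s) ?_
    exact (hpow s (6 * s + 2) (by omega)).trans hqB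
  have t5 : (L : ℝ) / B3 ≤ S := by
    rw [hS]
    exact div_le_div_of_nonneg_left hL0.le (hp0 s) hB3l
  have t6 : (B3 : ℝ) * q ≤ 2 * S := by
    rw [hS, ← mul_div_assoc, le_div_iff₀ (hp0 s)]
    calc (B3 : ℝ) * q * l ^ s ≤ (2 * l ^ s) * q * l ^ s := by gcongr
      _ = 2 * (q * l ^ (2 * s)) := by ring
      _ ≤ 2 * (q * l ^ (6 * s + 2)) := by
        have := mul_le_mul_of_nonneg_left (hpow (2 * s) (6 * s + 2) (by omega)) hq0.le
        linarith
      _ ≤ 2 * L := by linarith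
  -- the reduction
  obtain ⟨m, L', hmL, hL'L, hm, hsplit⟩ := split_sum X L u U θ huL (by omega)
  rw [← hl] at hsplit
  have hfin : ∀ Z : ℝ, Z ≤ (3 * C2 + 16 * C3) * ((2 * l) ^ κ * S) → U * l + Z ≤ L / l ^ A := by
    intro Z hZ
    have h5 : (U : ℝ) * l ≤ 4 * ((2 * l) ^ κ * S) := by
      have h6 : (U : ℝ) * l ≤ 4 * S := (mul_le_mul_of_nonneg_right hUr hl0.le).trans hUS
      have h7 : (1 : ℝ) ≤ (2 * l) ^ κ := one_le_pow₀ (by linarith)
      have h8 := mul_le_mul_of_nonneg_right h7 hS0.le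
      linarith
    have h6 : U * l + Z ≤ G * (l ^ κ * S) := by
      have h7 : G * (l ^ κ * S) = (4 + 3 * C2 + 16 * C3) * ((2 * l) ^ κ * S) := by
        rw [hG, mul_pow]
        ring
      rw [h7]
      linarith
    refine h6.trans ?_
    have h7 : l * (l ^ κ * S) = L / l ^ A := by
      rw [hS, hs]
      have h8 : l ^ (A + κ + 1) = l ^ A * (l * l ^ κ) := by ring
      rw [h8]
      field_simp
    rw [← h7]
    exact mul_le_mul_of_nonneg_right hlG (mul_nonneg (hp0 κ).le hS0.le)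
  refine hsplit.trans (hfin _ ?_)
  have hC0 : 0 ≤ (3 * C2 + 16 * C3) * ((2 * l) ^ κ * S) := by positivity
  rcases Nat.eq_zero_or_pos L' with hz | hpos
  · rw [hz, add_zero, Ioc_self, sum_empty, norm_zero]
    exact hC0
  have hUm : U ≤ m := by
    rcases hm with h5 | h5
    · omega
    · exact h5
  have hLr : (L' : ℝ) ≤ L := by exact_mod_cast hL'L
  have hL'0 : (0 : ℝ) ≤ L' := Nat.cast_nonneg _
  refine (vau_sum m L' U θ hU1 hUm).trans ?_
  have hlog3 : 1 ≤ Real.log 3 := by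
    rw [Real.le_log_iff_exp_le (by norm_num)]
    have := Real.exp_one_lt_d9
    linarith
  have f1 := h3 X L' m U B3 q 1 b θ (fun d => ((ArithmeticFunction.moebius d : ℤ) : ℝ)) hX2 hpos
    (by omega) hUX hB31 hB3q hqX' hb hθ (by
      intro d
      have h5 : |((ArithmeticFunction.moebius d : ℤ) : ℝ)| ≤ 1 := by
        rw [← Int.cast_abs]
        exact_mod_cast ArithmeticFunction.abs_moebius_le_one
      have h6 : Real.log 3 ≤ Real.log ((d : ℝ) + 3) := by
        refine Real.log_le_log (by norm_num) ?_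
        have : (0 : ℝ) ≤ d := Nat.cast_nonneg _
        linarith
      linarith) le_rfl
  have f2 := h3 X L' m (U * U) B3 q 0 b θ (fun d => (L1 U * m1 U) d) hX2 hpos
    (by omega) hUUX hB31 hB3q hqX' hb hθ (fun d => gamma_bound U U d) (by norm_num)
  have f3 := h2 X L' m U q b θ hX2 hpos (by omega) hU1 hUX hq1 hqX' hb hθ
  rw [← hl] at f1 f2 f3
  have k2' : C2 * (1 + l) ^ k2 ≤ C2 * (2 * l) ^ κ := by
    refine mul_le_mul_of_nonneg_left ?_ (by linarith)
    calc (1 + l) ^ k2 ≤ (2 * l) ^ k2 := pow_le_pow_left₀ (by linarith) (by linarith) _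
      _ ≤ (2 * l) ^ κ := pow_le_pow_right₀ (by linarith) (by omega)
  have k3' : C3 * (1 + l) ^ k3 ≤ C3 * (2 * l) ^ κ := by
    refine mul_le_mul_of_nonneg_left ?_ (by linarith)
    calc (1 + l) ^ k3 ≤ (2 * l) ^ k3 := pow_le_pow_left₀ (by linarith) (by linarith) _
      _ ≤ (2 * l) ^ κ := pow_le_pow_right₀ (by linarith) (by omega)
  have b1 : (L' : ℝ) / q + L' / B3 + U + B3 * q ≤ 8 * S := by
    have h5 : (L' : ℝ) / q ≤ L / q := div_le_div_of_nonneg_right hLr hq0.le
    have h6 : (L' : ℝ) / B3 ≤ L / B3 := div_le_div_of_nonneg_right hLr (Nat.cast_nonneg _)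
    linarith
  have b2 : (L' : ℝ) / q + L' / B3 + ((U * U : ℕ) : ℝ) + B3 * q ≤ 8 * S := by
    have h5 : (L' : ℝ) / q ≤ L / q := div_le_div_of_nonneg_right hLr hq0.le
    have h6 : (L' : ℝ) / B3 ≤ L / B3 := div_le_div_of_nonneg_right hLr (Nat.cast_nonneg _)
    push_cast
    nlinarith
  have b3 : (L' : ℝ) / √q + √((L' : ℝ) * X / U) + √((X : ℝ) * q) ≤ 3 * S := by
    have h5 : (L' : ℝ) / √q ≤ L / √q := div_le_div_of_nonneg_right hLr (Real.sqrt_nonneg _)
    have h6 : √((L' : ℝ) * X / U) ≤ √((L : ℝ) * X / U) := by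
      refine Real.sqrt_le_sqrt ?_
      exact div_le_div_of_nonneg_right (mul_le_mul_of_nonneg_right hLr hX0.le) (by linarith)
    linarith
  have g1 := f1.trans (mul_le_mul k3' b1 (by positivity) (by positivity))
  have g2 := f2.trans (mul_le_mul k3' b2 (by positivity) (by positivity))
  have g3 := f3.trans (mul_le_mul k2' b3 (by positivity) (by positivity))
  refine (add_le_add (add_le_add g1 g2) g3).trans (le_of_eq ?_)
  ring

end Pool.Agent.H544.VB
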