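import Pool.Agent.H544.VB.C2
import Pool.Graph.R_pool_sql_team_seeded_620a6dc7.helper24_UT_.Miz

/-!
Primes minus the sieve model in short intervals, minor arcs.
-/

set_option autoImplicit false

namespace Pool.Agent.H544.VB
open Finset
open Pool.Agent.H807R2.Dav
open Pool.Agent.helper24_UT (Ed)
open Pool.Agent.H373R2.T7 (ev_L' lamz lamI lamzI)

lemma Ed_nat (z n : ℕ) (hn : 1 ≤ n) : Ed z (n : ℤ) = ArithmeticFunction.vonMangoldt n - lamz z n := by
  have h1 : (1 : ℤ) ≤ (n : ℤ) := by exact_mod_cast hn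
  unfold Ed lamI lamzI
  rw [if_pos h1, if_pos h1, Int.toNat_natCast]

lemma shift_id (z u L : ℕ) (θ : ℝ) : ∑ l ∈ Icc 1 L, (Ed z ((u : ℤ) + l) : ℂ) * ee ((l : ℝ) * θ) =
    ee (-((u : ℝ) * θ)) * (∑ n ∈ Ioc u (u + L), (ArithmeticFunction.vonMangoldt n : ℂ) * ee ((n : ℝ) * θ) -
      ∑ n ∈ Ioc u (u + L), (lamz z n : ℂ) * ee ((n : ℝ) * θ)) := by
  rw [← sum_sub_distrib, mul_sum]
  apply sum_bij (fun l _ => u + l)
  · intro l hl
    rw [mem_Icc] at hl
    rw [mem_Ioc]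
    omega
  · intro a _ b _ h
    exact Nat.add_left_cancel h
  · intro n hn
    rw [mem_Ioc] at hn
    exact ⟨n - u, by rw [mem_Icc]; omega, by omega⟩
  · intro l hl
    rw [mem_Icc] at hl
    have e1 : (u : ℤ) + l = ((u + l : ℕ) : ℤ) := by push_cast; ring
    rw [e1, Ed_nat z (u + l) (by omega)]
    have e2 : ee ((l : ℝ) * θ) = ee (-((u : ℝ) * θ)) * ee (((u + l : ℕ) : ℝ) * θ) := by
      rw [← ee_add]
      congr 1
      push_cast
      ring
    rw [e2]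
    push_cast
    ring

theorem v5 (h4 : S_V4) : S_V5 := by
  intro A
  obtain ⟨B1, n1, h1⟩ := h4 (A + 1)
  obtain ⟨B2, h2⟩ := Pool.Agent.helper24_UT.Miz.main 2 (A + 1) (by norm_num)
  refine ⟨B1 + B2, fun E => ?_⟩
  obtain ⟨n2, h3⟩ := h2 E
  obtain ⟨n3, h4'⟩ := ev_L' 2
  refine ⟨n1 + n2 + n3 + 2, fun X hX L u q z b θ hLX huL hq hqX hcop hθ hz1 hz2 => ?_⟩
  have hl2 := h4' X (by omega)
  have hB1 := h1 X (by omega) L u q b θ
  have hB2 := h3 X (by omega) L q z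
  set l := Real.log X with hld
  have hX1 : (1 : ℝ) ≤ X := by exact_mod_cast (by omega : 1 ≤ X)
  have hX0 : (0 : ℝ) < X := by linarith
  have hl1 : 1 ≤ l := by linarith
  have hl0 : 0 < l := by linarith
  have pm : ∀ i j : ℕ, i ≤ j → l ^ i ≤ l ^ j := fun i j h => pow_le_pow_right₀ hl1 h
  have p1 : ∀ i : ℕ, 1 ≤ l ^ i := fun i => one_le_pow₀ hl1
  have hL0' : (0 : ℝ) ≤ L := Nat.cast_nonneg _
  have hLX' : L ≤ X := by omega
  have hLXr : (L : ℝ) ≤ X := by exact_mod_cast hLX'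
  have hLlow : (X : ℝ) ^ (2 / 3 : ℝ) ≤ L := by
    have h6 : ((X : ℝ) ^ (2 / 3 : ℝ)) ^ 3 ≤ (L : ℝ) ^ 3 := by
      rw [← Real.rpow_natCast, ← Real.rpow_mul hX0.le]
      norm_num
      calc (X : ℝ) ^ 2 = X ^ 2 * 1 := by ring
        _ ≤ X ^ 2 * l ^ (B1 + B2) := by gcongr; exact p1 _
        _ ≤ _ := hLX
    exact le_of_pow_le_pow_left₀ (by norm_num) hL0' h6
  have hL1 : (1 : ℝ) ≤ L := (Real.one_le_rpow hX1 (by norm_num)).trans hLlow
  have hL0 : (0 : ℝ) < L := by linarith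
  have hLn : 1 ≤ L := by exact_mod_cast hL1
  have c1 := hB1 (le_trans (mul_le_mul_of_nonneg_left (pm _ _ (by omega)) (by positivity)) hLX) huL ((pm _ _ (by omega)).trans hq)
    (le_trans (mul_le_mul_of_nonneg_left (pm _ _ (by omega)) (by positivity)) hqX) hcop hθ
  have c2 := hB2 (by
      refine le_trans ?_ hLlow
      apply Real.rpow_le_rpow_of_exponent_le hX1
      norm_num) hLX' hz1 hz2 ((pm _ _ (by omega)).trans hq) (by
      have h6 : (X : ℝ) * ((q : ℝ) * l ^ B2) ≤ X * L := by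
        calc (X : ℝ) * ((q : ℝ) * l ^ B2) = q * X * l ^ B2 := by ring
          _ ≤ q * X * l ^ (B1 + B2) := mul_le_mul_of_nonneg_left (pm _ _ (by omega)) (by positivity)
          _ ≤ (L : ℝ) ^ 2 := hqX
          _ = L * L := by ring
          _ ≤ _ := by gcongr
      exact le_of_mul_le_mul_left h6 hX0) b hcop θ hθ u (by omega)
  rw [shift_id, norm_mul, norm_ee, one_mul]
  refine (norm_sub_le _ _).trans ((add_le_add c1 c2).trans ?_)
  have e1 : (L : ℝ) / l ^ (A + 1) + L / l ^ (A + 1) = (2 / l) * (L / l ^ A) := by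
    rw [pow_succ]; field_simp; ring
  rw [e1]
  calc (2 / l) * ((L : ℝ) / l ^ A) ≤ 1 * (L / l ^ A) := by
        gcongr
        rw [div_le_one hl0]; exact hl2
    _ = _ := one_mul _

end Pool.Agent.H544.VB
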