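import Pool.Agent.H544.VB.Stm

/-!
# Task V6 of project VB (helper544)

The lemmas up to `NN_shift` are copies from `Pool/Agent/H544/SR/S5.lean`.
-/

set_option autoImplicit false

namespace Pool.Agent.H544.VB.V6N
open Finset
open Pool.Agent.H544.VB (NN)

lemma NN_nonneg (E : ℤ → ℝ) (u : ℤ) (W q : ℕ) : 0 ≤ NN E u W q := sum_nonneg fun _ _ => sq_nonneg _

lemma ioc_split (g : ℤ → ℝ) (u v w : ℤ) (h1 : u ≤ v) (h2 : v ≤ w) :
    ∑ m ∈ Ioc u w, g m = ∑ m ∈ Ioc u v, g m + ∑ m ∈ Ioc v w, g m := by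
  rw [← Ioc_union_Ioc_eq_Ioc h1 h2, sum_union]
  rw [disjoint_left]
  intro m hm hm'
  rw [mem_Ioc] at hm hm'
  omega

lemma abs_fib (E : ℤ → ℝ) (q : ℕ) (hq : 1 ≤ q) (u : ℤ) (j : ℕ) (ρ : ℝ) (hE : ∀ m ∈ Ioc u (u + j), |E m| ≤ ρ) :
    ∑ r ∈ range q, |∑ m ∈ Ioc u (u + j), if m % (q : ℤ) = (r : ℤ) then E m else 0| ≤ j * ρ := by
  calc ∑ r ∈ range q, |∑ m ∈ Ioc u (u + j), if m % (q : ℤ) = (r : ℤ) then E m else 0| ≤
        ∑ r ∈ range q, ∑ m ∈ Ioc u (u + j), if m % (q : ℤ) = (r : ℤ) then |E m| else 0 := by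
          apply sum_le_sum
          intro r _
          refine (abs_sum_le_sum_abs _ _).trans (le_of_eq ?_)
          apply sum_congr rfl
          intro m _
          split_ifs
          · rfl
          · exact abs_zero
    _ = ∑ m ∈ Ioc u (u + j), |E m| := by
        rw [sum_comm]
        apply sum_congr rfl
        intro m _
        have h1 : 0 ≤ m % (q : ℤ) := Int.emod_nonneg _ (by omega)
        have h2 : m % (q : ℤ) < q := Int.emod_lt_of_pos _ (by omega)
        rw [sum_eq_single (m % (q : ℤ)).toNat]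
        · rw [if_pos (by omega)]
        · intro r _ hr
          rw [if_neg]
          intro h
          apply hr
          omega
        · intro h
          exfalso
          apply h
          rw [mem_range]
          omega
    _ ≤ ∑ _m ∈ Ioc u (u + j), ρ := sum_le_sum hE
    _ = _ := by
        rw [sum_const, Int.card_Ioc, nsmul_eq_mul]
        congr 2
        rw [show u + (j : ℤ) - u = j by ring, Int.toNat_natCast]

lemma NN_shift (E : ℤ → ℝ) (u : ℤ) (j W q : ℕ) (ρ : ℝ) (hq : 1 ≤ q) (hE : ∀ m ∈ Ioc u (u + (W + j : ℕ)), |E m| ≤ ρ) :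
    NN E u W q ≤ 2 * NN E (u + j) W q + 8 * (j * ρ) ^ 2 := by
  set g : ℕ → ℤ → ℝ := fun r m => if m % (q : ℤ) = (r : ℤ) then E m else 0 with hg
  set δ : ℕ → ℝ := fun r => ∑ m ∈ Ioc u (u + j), g r m - ∑ m ∈ Ioc (u + W) (u + W + j), g r m with hδ
  have hS : ∀ v : ℤ, ∀ r : ℕ, ∑ m ∈ (Ioc v (v + W)).filter (fun m => m % (q : ℤ) = (r : ℤ)), E m = ∑ m ∈ Ioc v (v + W), g r m := by
    intro v r
    rw [sum_filter]
  have h1 : ∀ r, ∑ m ∈ Ioc u (u + W), g r m = ∑ m ∈ Ioc (u + j) (u + j + W), g r m + δ r := by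
    intro r
    have e1 := ioc_split (g r) u (u + W) (u + W + j) (by omega) (by omega)
    have e2 := ioc_split (g r) u (u + j) (u + W + j) (by omega) (by omega)
    have e3 : u + (j : ℤ) + W = u + W + j := by ring
    rw [hδ, e3]
    simp only
    linarith
  have h2 : ∑ r ∈ range q, |δ r| ≤ 2 * (j * ρ) := by
    have e1 := abs_fib E q hq u j ρ (fun m hm => hE m (by
      rw [mem_Ioc] at hm ⊢
      push_cast
      omega))
    have e2 := abs_fib E q hq (u + W) j ρ (fun m hm => hE m (by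
      rw [mem_Ioc] at hm ⊢
      push_cast
      omega))
    calc ∑ r ∈ range q, |δ r| ≤ ∑ r ∈ range q, (|∑ m ∈ Ioc u (u + j), g r m| + |∑ m ∈ Ioc (u + W) (u + W + j), g r m|) := by
          apply sum_le_sum
          intro r _
          exact abs_sub _ _
      _ ≤ _ := by
          rw [sum_add_distrib]
          linarith
  have h3 : ∑ r ∈ range q, δ r ^ 2 ≤ (2 * (j * ρ)) ^ 2 := by
    calc ∑ r ∈ range q, δ r ^ 2 = ∑ r ∈ range q, |δ r| * |δ r| := by
          apply sum_congr rfl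
          intro r _
          rw [← sq, sq_abs]
      _ ≤ ∑ r ∈ range q, |δ r| * ∑ s ∈ range q, |δ s| := by
          apply sum_le_sum
          intro r hr
          exact mul_le_mul_of_nonneg_left (single_le_sum (f := fun s => |δ s|) (fun s _ => abs_nonneg _) hr) (abs_nonneg _)
      _ = (∑ r ∈ range q, |δ r|) ^ 2 := by rw [← sum_mul, sq]
      _ ≤ _ := pow_le_pow_left₀ (sum_nonneg fun _ _ => abs_nonneg _) h2 2
  unfold NN
  calc ∑ r ∈ range q, (∑ m ∈ (Ioc u (u + W)).filter (fun m => m % (q : ℤ) = (r : ℤ)), E m) ^ 2 ≤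
        ∑ r ∈ range q, (2 * (∑ m ∈ (Ioc (u + j) (u + j + W)).filter (fun m => m % (q : ℤ) = (r : ℤ)), E m) ^ 2 + 2 * δ r ^ 2) := by
          apply sum_le_sum
          intro r _
          rw [hS, hS, h1]
          nlinarith [sq_nonneg (∑ m ∈ Ioc (u + (j : ℤ)) (u + j + W), g r m - δ r)]
    _ ≤ _ := by
        rw [sum_add_distrib, ← mul_sum, ← mul_sum]
        have h4 : 2 * ∑ r ∈ range q, δ r ^ 2 ≤ 8 * (j * ρ) ^ 2 := by
          calc 2 * ∑ r ∈ range q, δ r ^ 2 ≤ 2 * (2 * (j * ρ)) ^ 2 := by linarith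
            _ = _ := by ring
        linarith

/-- the number of windows which contain a given point -/
lemma count (N s T : ℕ) (c : ℕ → ℤ) (hs : 1 ≤ s)
    (hm : ∀ n ∈ range N, ∀ n' ∈ range N, n < n' → c n + s ≤ c n') (u : ℤ) :
    (((range N).filter fun n => c n ≤ u ∧ u < c n + T).card : ℝ) ≤ (T : ℝ) / s + 1 := by
  have h1 : ((range N).filter fun n => c n ≤ u ∧ u < c n + T).card ≤ (range (T / s + 1)).card := by
    refine card_le_card_of_injOn (fun n => (u - c n).toNat / s) ?_ ?_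
    · intro n hn
      have hn' := (mem_filter.1 (mem_coe.1 hn)).2
      have h2 : (u - c n).toNat ≤ T := by omega
      have h3 := Nat.div_le_div_right (c := s) h2
      simp only [coe_range, Set.mem_Iio]
      omega
    · have key : ∀ n ∈ ((range N).filter fun n => c n ≤ u ∧ u < c n + T),
          ∀ n' ∈ ((range N).filter fun n => c n ≤ u ∧ u < c n + T), n < n' →
          (u - c n).toNat / s ≠ (u - c n').toNat / s := by
        intro n hn n' hn' hlt
        have a1 := mem_filter.1 hn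
        have a2 := mem_filter.1 hn'
        have a3 := hm n a1.1 n' a2.1 hlt
        have a4 : (u - c n').toNat + s ≤ (u - c n).toNat := by omega
        have a5 := Nat.div_le_div_right (c := s) a4
        rw [Nat.add_div_right _ (by omega)] at a5
        omega
      intro n hn n' hn' h
      rcases lt_trichotomy n n' with h3 | h3 | h3
      · exact absurd h (key n (mem_coe.1 hn) n' (mem_coe.1 hn') h3)
      · exact h3
      · exact absurd h.symm (key n' (mem_coe.1 hn') n (mem_coe.1 hn) h3)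
  rw [card_range] at h1
  have h2 : (((range N).filter fun n => c n ≤ u ∧ u < c n + T).card : ℝ) ≤ ((T / s + 1 : ℕ) : ℝ) := by
    exact_mod_cast h1
  refine h2.trans ?_
  push_cast
  have := @Nat.cast_div_le ℝ _ _ _ T s
  linarith

/-- sum over separated windows -/
lemma windows (G : ℤ → ℝ) (hG : ∀ u, 0 ≤ G u) (X N s T : ℕ) (c : ℕ → ℤ) (hs : 1 ≤ s)
    (h0 : ∀ n ∈ range N, 0 ≤ c n) (hX : ∀ n ∈ range N, c n + T ≤ X)
    (hm : ∀ n ∈ range N, ∀ n' ∈ range N, n < n' → c n + s ≤ c n') :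
    ∑ n ∈ range N, ∑ t ∈ range T, G (c n + t) ≤ ((T : ℝ) / s + 1) * ∑ u ∈ range X, G (u : ℤ) := by
  have h1 : ∀ n ∈ range N, ∑ t ∈ range T, G (c n + t) =
      ∑ u ∈ range X, if (c n ≤ (u : ℤ) ∧ (u : ℤ) < c n + T) then G (u : ℤ) else 0 := by
    intro n hn
    have a0 := h0 n hn
    have a1 := hX n hn
    rw [← sum_filter]
    refine sum_nbij' (fun t => (c n + t).toNat) (fun u => ((u : ℤ) - c n).toNat) ?_ ?_ ?_ ?_ ?_
    · intro t ht
      rw [mem_range] at ht
      rw [mem_filter, mem_range]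
      omega
    · intro u hu
      rw [mem_filter, mem_range] at hu
      rw [mem_range]
      omega
    · intro t ht
      rw [mem_range] at ht
      omega
    · intro u hu
      rw [mem_filter, mem_range] at hu
      omega
    · intro t ht
      rw [Int.toNat_of_nonneg (by omega)]
  rw [sum_congr rfl h1, sum_comm, mul_sum]
  refine sum_le_sum fun u _ => ?_
  rw [← sum_filter, sum_const, nsmul_eq_mul]
  exact mul_le_mul_of_nonneg_right (count N s T c hs hm u) (hG _)

/-- one window -/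
lemma one (E : ℤ → ℝ) (X D W q : ℕ) (v : ℤ) (ρ : ℝ) (hq : 1 ≤ q) (hρ : 0 ≤ ρ) (h0 : 0 ≤ v)
    (hX : v + (W + D : ℕ) ≤ X) (hE : ∀ m : ℤ, 0 ≤ m → m ≤ X → |E m| ≤ ρ) :
    (D : ℝ) * NN E v W q ≤ 2 * ∑ j ∈ range D, NN E (v + j) W q + 8 * D * (D * ρ) ^ 2 := by
  have e : (D : ℝ) * NN E v W q = ∑ _j ∈ range D, NN E v W q := by
    rw [sum_const, card_range, nsmul_eq_mul]
  have e2 : 2 * ∑ j ∈ range D, NN E (v + j) W q + 8 * D * (D * ρ) ^ 2 =
      ∑ j ∈ range D, (2 * NN E (v + j) W q + 8 * (D * ρ) ^ 2) := by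
    rw [sum_add_distrib, ← mul_sum, sum_const, card_range, nsmul_eq_mul]
    ring
  rw [e, e2]
  apply sum_le_sum
  intro j hj
  rw [mem_range] at hj
  have h3 := NN_shift E v j W q ρ hq (fun m hm' => hE m (by
      rw [mem_Ioc] at hm'
      omega) (by
      rw [mem_Ioc] at hm'
      push_cast at hm' hX
      omega))
  have h4 : (j : ℝ) ≤ D := by exact_mod_cast hj.le
  have h5 : ((j : ℝ) * ρ) ^ 2 ≤ (D * ρ) ^ 2 := by
    apply pow_le_pow_left₀ (by positivity)
    exact mul_le_mul_of_nonneg_right h4 hρ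
  linarith

/-- the subwindows of one window -/
lemma sub (G : ℤ → ℝ) (hG : ∀ u, 0 ≤ G u) (J D W : ℕ) (hDW : D ≤ W) (v : ℤ) :
    ∑ i ∈ range J, ∑ j ∈ range D, G (v + (i * W : ℕ) + j) ≤ ∑ t ∈ range (J * W), G (v + t) := by
  rw [← sum_product']
  have hinj : Set.InjOn (fun p : ℕ × ℕ => p.1 * W + p.2) (↑(range J ×ˢ range D) : Set (ℕ × ℕ)) := by
    intro p hp p' hp' h
    rw [mem_coe, mem_product, mem_range, mem_range] at hp hp'
    simp only at h
    have hW : 0 < W := by omega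
    have b1 : (p.1 * W + p.2) / W = p.1 := by
      rw [mul_comm, Nat.mul_add_div hW, Nat.div_eq_of_lt (by omega), add_zero]
    have b2 : (p'.1 * W + p'.2) / W = p'.1 := by
      rw [mul_comm, Nat.mul_add_div hW, Nat.div_eq_of_lt (by omega), add_zero]
    have b3 : p.1 = p'.1 := by rw [← b1, ← b2, h]
    ext
    · exact b3
    · rw [b3] at h
      omega
  have e : ∑ p ∈ range J ×ˢ range D, G (v + (p.1 * W : ℕ) + p.2) =
      ∑ t ∈ (range J ×ˢ range D).image (fun p : ℕ × ℕ => p.1 * W + p.2), G (v + t) := by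
    rw [sum_image (fun p hp p' hp' h => hinj hp hp' h)]
    apply sum_congr rfl
    intro p _
    congr 1
    push_cast
    ring
  rw [e]
  apply sum_le_sum_of_subset_of_nonneg
  · intro t ht
    rw [mem_image] at ht
    obtain ⟨p, hp, rfl⟩ := ht
    rw [mem_product, mem_range, mem_range] at hp
    rw [mem_range]
    have : (p.1 + 1) * W ≤ J * W := Nat.mul_le_mul_right _ hp.1
    have h2 : (p.1 + 1) * W = p.1 * W + W := by ring
    omega
  · intro u _ _
    exact hG _

end Pool.Agent.H544.VB.V6N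

namespace Pool.Agent.H544.VB
open Finset

theorem v6 : S_V6 := by
  intro E X N J D W q s c ρ hq hs hDW hρ h0 hX hm hE
  set G : ℤ → ℝ := fun u => NN E u W q with hGdef
  have hG : ∀ u, 0 ≤ G u := fun u => V6N.NN_nonneg _ _ _ _
  have h1 : ∀ n ∈ range N, (D : ℝ) * ∑ i ∈ range J, G (c n + (i * W : ℕ)) ≤
      2 * ∑ t ∈ range (J * W), G (c n + t) + J * (8 * D * (D * ρ) ^ 2) := by
    intro n hn
    have a0 := h0 n hn
    have a1 := hX n hn
    rw [mul_sum]
    have h2 : ∀ i ∈ range J, (D : ℝ) * G (c n + (i * W : ℕ)) ≤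
        2 * ∑ j ∈ range D, G (c n + (i * W : ℕ) + j) + 8 * D * (D * ρ) ^ 2 := by
      intro i hi
      rw [mem_range] at hi
      have h3 : (i + 1) * W ≤ J * W := Nat.mul_le_mul_right _ hi
      have h4 : (i + 1) * W = i * W + W := by ring
      refine V6N.one E X D W q _ ρ hq hρ (by positivity) ?_ hE
      have h5 : ((i * W + W : ℕ) : ℤ) ≤ ((J * W : ℕ) : ℤ) := by exact_mod_cast (h4 ▸ h3)
      push_cast at h5 a1 ⊢
      linarith
    refine (sum_le_sum h2).trans ?_
    rw [sum_add_distrib, ← mul_sum, sum_const, card_range, nsmul_eq_mul]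
    have h6 := V6N.sub G hG J D W hDW (c n)
    linarith
  have h7 : (D : ℝ) * ∑ n ∈ range N, ∑ i ∈ range J, G (c n + (i * W : ℕ)) ≤
      2 * ∑ n ∈ range N, ∑ t ∈ range (J * W), G (c n + t) + N * (J * (8 * D * (D * ρ) ^ 2)) := by
    rw [mul_sum]
    refine (sum_le_sum h1).trans ?_
    rw [sum_add_distrib, ← mul_sum, sum_const, card_range, nsmul_eq_mul]
  have h8 := V6N.windows G hG X N s (J * W) c hs h0 (fun n hn => by
    have := hX n hn
    push_cast at this ⊢
    linarith [Int.natCast_nonneg D]) hm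
  have e : 2 * (((J * W : ℕ) : ℝ) / s + 1) * ∑ u ∈ range X, NN E (u : ℤ) W q + 8 * N * J * D * (D * ρ) ^ 2 =
      2 * ((((J * W : ℕ) : ℝ) / s + 1) * ∑ u ∈ range X, G (u : ℤ)) + N * (J * (8 * D * (D * ρ) ^ 2)) := by
    rw [hGdef]
    ring
  rw [e]
  linarith

end Pool.Agent.H544.VB
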