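import Pool.Agent.H544.VB.Stm

/-!
Proof of `S_V6 → S_V7a → S_V7`: exponential sums over separated windows.
-/

set_option autoImplicit false

namespace Pool.Agent.H544.VB
open Finset
open Pool.Agent.H807R2.Dav

namespace V7N

theorem cs {ι : Type} (s : Finset ι) (f : ι → ℝ) (hf : ∀ x ∈ s, 0 ≤ f x) :
    ∑ x ∈ s, Real.sqrt (f x) ≤ Real.sqrt ((s.card : ℝ) * ∑ x ∈ s, f x) := by
  refine (le_abs_self _).trans (Real.abs_le_sqrt ?_)
  refine (sq_sum_le_card_mul_sum_sq (s := s) (f := fun x => Real.sqrt (f x))).trans ?_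
  refine le_of_eq ?_
  congr 1
  exact sum_congr rfl fun x hx => Real.sq_sqrt (hf x hx)

theorem NN_nonneg (a : ℤ → ℝ) (u : ℤ) (W q : ℕ) : 0 ≤ NN a u W q :=
  sum_nonneg fun _ _ => sq_nonneg _

theorem dirichlet (θ : ℝ) (Q : ℕ) (hQ : 1 ≤ Q) : ∃ (q : ℕ) (b : ℤ), 1 ≤ q ∧ q ≤ Q ∧
    IsCoprime b (q : ℤ) ∧ |(q : ℝ) * θ - b| ≤ 1 / (Q : ℝ) ∧ |θ - b / q| ≤ 1 / (q : ℝ) ^ 2 := by
  obtain ⟨r, hr1, hr2⟩ := Real.exists_rat_abs_sub_le_and_den_le θ (n := Q) (by omega)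
  have hq : (0 : ℝ) < (r.den : ℝ) := by exact_mod_cast r.den_pos
  have hQ' : (0 : ℝ) < (Q : ℝ) := by exact_mod_cast (show 0 < Q by omega)
  have hqQ : (r.den : ℝ) ≤ (Q : ℝ) := by exact_mod_cast hr2
  have hr : (r : ℝ) = (r.num : ℝ) / (r.den : ℝ) := by
    exact_mod_cast (Rat.num_div_den r).symm
  refine ⟨r.den, r.num, r.den_pos, hr2, ?_, ?_, ?_⟩
  · rw [Int.isCoprime_iff_gcd_eq_one]
    exact r.reduced
  · have h1 : (r.den : ℝ) * θ - r.num = r.den * (θ - r) := by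
      rw [hr]
      field_simp
    rw [h1, abs_mul, abs_of_pos hq]
    calc (r.den : ℝ) * |θ - r| ≤ r.den * (1 / ((Q + 1) * r.den)) :=
          mul_le_mul_of_nonneg_left hr1 hq.le
      _ = 1 / ((Q : ℝ) + 1) := by field_simp
      _ ≤ 1 / (Q : ℝ) := one_div_le_one_div_of_le hQ' (by linarith)
  · rw [← hr]
    refine hr1.trans (one_div_le_one_div_of_le (by positivity) ?_)
    nlinarith

end V7N

open V7N in
theorem v7 (h6 : S_V6) (h7 : S_V7a) : S_V7 := by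
  intro E X N L W D s Q Q1 c ρ μ T hs hD hDW hWL hQ1 hQ hρ hμ hc0 hcX hsep hE hmin hmaj θ
  have hW : 1 ≤ W := hD.trans hDW
  have hQp : (0 : ℝ) < (Q : ℝ) := by exact_mod_cast (show 0 < Q by omega)
  have hDp : (0 : ℝ) < (D : ℝ) := by exact_mod_cast (show 0 < D by omega)
  have hsp : (0 : ℝ) < (s : ℝ) := by exact_mod_cast (show 0 < s by omega)
  set J : ℕ := L / W with hJ
  have hJW : J * W ≤ L := Nat.div_mul_le_self L W
  set R : ℝ := (J : ℝ) * (7 * (1 / (Q : ℝ)) * W ^ 2 * ρ) + W * ρ with hR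
  have hR0 : 0 ≤ R := by positivity
  -- the sums of the square roots
  set A : ℕ → ℕ → ℝ := fun q n =>
    ∑ i ∈ range J, Real.sqrt (q * NN E (c n + (i * W : ℕ)) W q) with hA
  have hA0 : ∀ q n, 0 ≤ A q n := fun q n => sum_nonneg fun _ _ => Real.sqrt_nonneg _
  have hpt : ∀ n ∈ range N, ‖∑ l ∈ Icc 1 L, (E (c n + l) : ℂ) * ee ((l : ℝ) * θ n)‖ ≤
      μ + R + ∑ q ∈ Icc 1 Q1, A q n := by
    intro n hn
    obtain ⟨q, b, hq1, hqQ, hcop, hb1, hb2⟩ := dirichlet (θ n) Q (hQ1.trans hQ)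
    by_cases hq : Q1 < q
    · have h1 := hmin n hn q b (θ n) hq hqQ hcop hb2
      have h2 : 0 ≤ ∑ q ∈ Icc 1 Q1, A q n := sum_nonneg fun q _ => hA0 q n
      linarith
    · have hqle : q ≤ Q1 := not_lt.1 hq
      have h1 := h7 E (c n) L W q ρ (1 / (Q : ℝ)) (θ n) b hq1 hW (by positivity) hρ hb1 (by
        intro l hl
        rw [mem_Icc] at hl
        have h2 := hc0 n hn
        have h3 := hcX n hn
        have h4 : ((2 * L : ℕ) : ℤ) = 2 * (L : ℤ) := by push_cast; ring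
        rw [h4] at h3
        apply hE
        · omega
        · omega)
      have h2 : A q n ≤ ∑ q ∈ Icc 1 Q1, A q n :=
        single_le_sum (f := fun q => A q n) (fun q _ => hA0 q n) (mem_Icc.2 ⟨hq1, hqle⟩)
      have h3 : A q n = ∑ i ∈ range J, Real.sqrt (q * NN E (c n + (i * W : ℕ)) W q) := rfl
      rw [← h3] at h1
      linarith
  have hsum : ∀ q ∈ Icc 1 Q1, ∑ n ∈ range N, A q n ≤
      Real.sqrt (N * (J : ℕ) * (Q1 * ((2 * ((L : ℝ) / s + 1) * T +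
        8 * N * (J : ℕ) * D * (D * ρ) ^ 2) / D))) := by
    intro q hq
    rw [mem_Icc] at hq
    have h1 := h6 E X N J D W q s c ρ hq.1 hs hDW hρ hc0 (by
      intro n hn
      have h2 := hcX n hn
      refine le_trans ?_ h2
      have h3 : J * W + D ≤ 2 * L := by omega
      have h4 : ((J * W + D : ℕ) : ℤ) ≤ ((2 * L : ℕ) : ℤ) := by exact_mod_cast h3
      linarith) hsep hE
    have hT := hmaj q hq.1 hq.2
    have hT0 : 0 ≤ ∑ u ∈ range X, NN E (u : ℤ) W q := sum_nonneg fun _ _ => NN_nonneg _ _ _ _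
    have h2 : ∑ n ∈ range N, ∑ i ∈ range J, NN E (c n + (i * W : ℕ)) W q ≤
        (2 * ((L : ℝ) / s + 1) * T + 8 * N * (J : ℕ) * D * (D * ρ) ^ 2) / D := by
      rw [le_div_iff₀ hDp, mul_comm]
      refine h1.trans ?_
      have h3 : ((J * W : ℕ) : ℝ) / s ≤ (L : ℝ) / s := by
        apply div_le_div_of_nonneg_right _ hsp.le
        exact_mod_cast hJW
      have h4 : 0 ≤ ((J * W : ℕ) : ℝ) / s := by positivity
      have h5 : 2 * (((J * W : ℕ) : ℝ) / s + 1) * ∑ u ∈ range X, NN E (u : ℤ) W q ≤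
          2 * ((L : ℝ) / s + 1) * T := by
        apply mul_le_mul _ hT hT0 (by positivity)
        linarith
      linarith
    have h3 : ∑ n ∈ range N, A q n = ∑ x ∈ range N ×ˢ range J,
        Real.sqrt (q * NN E (c x.1 + (x.2 * W : ℕ)) W q) := by
      rw [sum_product]
    rw [h3]
    refine (cs _ _ fun x _ => mul_nonneg (Nat.cast_nonneg q) (NN_nonneg _ _ _ _)).trans ?_
    apply Real.sqrt_le_sqrt
    rw [card_product, card_range, card_range, ← mul_sum, sum_product]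
    push_cast
    apply mul_le_mul_of_nonneg_left _ (by positivity)
    apply mul_le_mul _ h2 (sum_nonneg fun n _ => sum_nonneg fun i _ => NN_nonneg _ _ _ _)
      (Nat.cast_nonneg _)
    exact_mod_cast hq.2
  calc ∑ n ∈ range N, ‖∑ l ∈ Icc 1 L, (E (c n + l) : ℂ) * ee ((l : ℝ) * θ n)‖
      ≤ ∑ n ∈ range N, (μ + R + ∑ q ∈ Icc 1 Q1, A q n) := sum_le_sum hpt
    _ = N * (μ + R) + ∑ q ∈ Icc 1 Q1, ∑ n ∈ range N, A q n := by
        rw [sum_add_distrib, sum_const, card_range, nsmul_eq_mul, sum_comm]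
    _ ≤ N * (μ + R) + ∑ q ∈ Icc 1 Q1, Real.sqrt (N * (J : ℕ) * (Q1 * ((2 * ((L : ℝ) / s + 1) * T +
        8 * N * (J : ℕ) * D * (D * ρ) ^ 2) / D))) := by
        have := sum_le_sum hsum
        linarith
    _ = _ := by
        rw [sum_const, Nat.card_Icc, nsmul_eq_mul, Nat.add_sub_cancel, hR]
        ring

end Pool.Agent.H544.VB
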