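import Pool.Agent.H544.VB.Stm

/-!
An exponential sum over a window near a fraction (adapted from `Pool.Agent.H544.SR.S4`).
-/

set_option autoImplicit false

namespace Pool.Agent.H544.VB
open Finset
open Pool.Agent.H807R2.Dav

namespace V7aN

lemma ee_sub_one_le (t : ℝ) : ‖ee t - 1‖ ≤ 7 * |t| := by
  have h1 : ‖ee t - 1‖ ≤ 2 * Real.pi * |t| := by
    rw [ee_eq']
    have := Real.norm_exp_I_mul_ofReal_sub_one_le (x := 2 * Real.pi * t)
    refine this.trans (le_of_eq ?_)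
    rw [Real.norm_eq_abs, abs_mul, abs_of_pos Real.two_pi_pos]
  have h2 := Real.pi_lt_d2
  have h3 := abs_nonneg t
  nlinarith

lemma shift_block (f : ℕ → ℂ) (s W : ℕ) : ∑ l ∈ Ioc s (s + W), f l = ∑ l ∈ Icc 1 W, f (s + l) := by
  apply sum_nbij' (fun l => l - s) (fun l => s + l)
  · intro l hl
    simp only [mem_Ioc, mem_Icc] at hl ⊢
    omega
  · intro l hl
    simp only [mem_Ioc, mem_Icc] at hl ⊢
    omega
  · intro l hl
    simp only [mem_Ioc] at hl
    omega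
  · intro l hl
    omega
  · intro l hl
    simp only [mem_Ioc] at hl
    congr 1
    omega

lemma split_blocks (f : ℕ → ℂ) (W : ℕ) : ∀ J : ℕ, ∑ l ∈ Icc 1 (J * W), f l = ∑ i ∈ range J, ∑ l ∈ Icc 1 W, f (i * W + l) := by
  intro J
  induction J with
  | zero => simp
  | succ J ih =>
    rw [sum_range_succ, ← ih, ← shift_block]
    have e : ∀ n : ℕ, Icc 1 n = Ioc 0 n := by
      intro n
      ext x
      simp only [mem_Icc, mem_Ioc]
      omega
    rw [e, e, show (J + 1) * W = J * W + W by ring]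
    exact (sum_Ioc_consecutive f (Nat.zero_le _) (Nat.le_add_right _ _)).symm

/-- the sum over one window at a fraction with denominator `q` -/
lemma win_rat (E : ℤ → ℝ) (u : ℤ) (W q : ℕ) (hq : 1 ≤ q) (b : ℤ) :
    ‖∑ l ∈ Icc 1 W, (E (u + l) : ℂ) * ee (-((l : ℝ) * ((b : ℝ) / q)))‖ ≤ Real.sqrt (q * NN E u W q) := by
  have hq0 : (0 : ℝ) < q := by exact_mod_cast hq
  have e1 : ∑ l ∈ Icc 1 W, (E (u + l) : ℂ) * ee (-((l : ℝ) * ((b : ℝ) / q))) =
      ∑ m ∈ Ioc u (u + W), (E m : ℂ) * ee (-(((m - u : ℤ) : ℝ) * ((b : ℝ) / q))) := by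
    apply sum_nbij' (fun l : ℕ => u + l) (fun m : ℤ => (m - u).toNat)
    · intro l hl
      simp only [mem_Ioc, mem_Icc] at hl ⊢
      omega
    · intro l hl
      simp only [mem_Ioc, mem_Icc] at hl ⊢
      omega
    · intro l hl
      omega
    · intro l hl
      simp only [mem_Ioc] at hl ⊢
      omega
    · intro l hl
      congr 3
      push_cast
      ring
  have e2 : ∑ m ∈ Ioc u (u + W), (E m : ℂ) * ee (-(((m - u : ℤ) : ℝ) * ((b : ℝ) / q))) =
      ∑ r ∈ range q, ee (-((((r : ℤ) - u : ℤ) : ℝ) * ((b : ℝ) / q))) *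
        ((∑ m ∈ (Ioc u (u + W)).filter (fun m => m % (q : ℤ) = (r : ℤ)), E m : ℝ) : ℂ) := by
    rw [← sum_fiberwise_of_maps_to (s := Ioc u (u + W)) (t := range q) (g := fun m : ℤ => (m % (q : ℤ)).toNat)]
    · apply sum_congr rfl
      intro r hr
      push_cast
      rw [mul_sum]
      have hset : (Ioc u (u + W)).filter (fun m : ℤ => (m % (q : ℤ)).toNat = r) =
          (Ioc u (u + W)).filter (fun m : ℤ => m % (q : ℤ) = (r : ℤ)) := by
        apply filter_congr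
        intro m _
        have h1 : 0 ≤ m % (q : ℤ) := Int.emod_nonneg _ (by omega)
        omega
      rw [hset]
      apply sum_congr rfl
      intro m hm
      rw [mem_filter] at hm
      have h1 : m = (r : ℤ) + q * (m / q) := by
        have := Int.emod_add_mul_ediv m q
        rw [hm.2] at this
        omega
      have h2 : ee (-(((m - u : ℤ) : ℝ) * ((b : ℝ) / q))) = ee (-((((r : ℤ) - u : ℤ) : ℝ) * ((b : ℝ) / q))) := by
        rw [← ee_add_int (-((((r : ℤ) - u : ℤ) : ℝ) * ((b : ℝ) / q))) (-((m / q) * b))]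
        congr 1
        have h3 : (m : ℝ) = r + q * ((m / q : ℤ) : ℝ) := by
          have := congrArg (fun x : ℤ => (x : ℝ)) h1
          push_cast at this
          exact this
        push_cast
        rw [h3]
        field_simp
        ring
      push_cast at h2
      rw [h2]
      ring
    · intro m _
      rw [mem_range]
      have h1 : 0 ≤ m % (q : ℤ) := Int.emod_nonneg _ (by omega)
      have h2 : m % (q : ℤ) < q := Int.emod_lt_of_pos _ (by omega)
      omega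
  rw [e1, e2]
  refine (norm_sum_le _ _).trans ?_
  have e3 : ∀ r ∈ range q, ‖ee (-((((r : ℤ) - u : ℤ) : ℝ) * ((b : ℝ) / q))) *
        ((∑ m ∈ (Ioc u (u + W)).filter (fun m => m % (q : ℤ) = (r : ℤ)), E m : ℝ) : ℂ)‖ =
      |∑ m ∈ (Ioc u (u + W)).filter (fun m => m % (q : ℤ) = (r : ℤ)), E m| := by
    intro r _
    rw [norm_mul, norm_ee, one_mul, Complex.norm_real, Real.norm_eq_abs]
  rw [sum_congr rfl e3]
  apply Real.le_sqrt_of_sq_le
  refine (sq_sum_le_card_mul_sum_sq).trans (le_of_eq ?_)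
  rw [card_range]
  unfold NN
  congr 1
  apply sum_congr rfl
  intro r _
  rw [sq_abs]

/-- a whole number of blocks -/
lemma blocks (E : ℤ → ℝ) (c : ℤ) (J W q : ℕ) (hq : 1 ≤ q) (ρ ε θ : ℝ) (hε : 0 ≤ ε) (b : ℤ)
    (hb : |(q : ℝ) * θ - b| ≤ ε) (hE : ∀ l ∈ Icc 1 (J * W), |E (c + l)| ≤ ρ) :
    ‖∑ l ∈ Icc 1 (J * W), (E (c + l) : ℂ) * ee ((l : ℝ) * θ)‖ ≤
      ∑ i ∈ range J, Real.sqrt (q * NN E (c + (i * W : ℕ)) W q) + J * (7 * ε * W ^ 2 * ρ) := by
  have hq0 : (1 : ℝ) ≤ q := by exact_mod_cast hq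
  have hθ : |θ - b / q| ≤ ε := by
    have e : θ - b / q = ((q : ℝ) * θ - b) / q := by
      field_simp
    rw [e, abs_div, abs_of_pos (by linarith : (0 : ℝ) < q)]
    rw [div_le_iff₀ (by linarith)]
    calc _ ≤ ε := hb
      _ ≤ ε * q := le_mul_of_one_le_right hε hq0
  have hsplit := split_blocks (fun l : ℕ => (E (c + l) : ℂ) * ee ((l : ℝ) * θ)) W J
  rw [hsplit]
  have e0 : (J : ℝ) * (7 * ε * W ^ 2 * ρ) = ∑ _i ∈ range J, 7 * ε * W ^ 2 * ρ := by
    rw [sum_const, card_range, nsmul_eq_mul]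
  rw [e0, ← sum_add_distrib]
  refine (norm_sum_le _ _).trans (sum_le_sum fun i hi => ?_)
  rw [mem_range] at hi
  have e1 : ∑ l ∈ Icc 1 W, (E (c + ((i * W + l : ℕ) : ℤ)) : ℂ) * ee (((i * W + l : ℕ) : ℝ) * θ) =
      ee (((i * W : ℕ) : ℝ) * θ) *
        (∑ l ∈ Icc 1 W, (E (c + ((i * W : ℕ) : ℤ) + l) : ℂ) * ee (-((l : ℝ) * (((-b : ℤ) : ℝ) / q))) +
          ∑ l ∈ Icc 1 W, (E (c + ((i * W : ℕ) : ℤ) + l) : ℂ) * ee (-((l : ℝ) * (((-b : ℤ) : ℝ) / q))) *
            (ee ((l : ℝ) * (θ - b / q)) - 1)) := by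
    rw [← sum_add_distrib, mul_sum]
    apply sum_congr rfl
    intro l _
    have h1 : ee (((i * W + l : ℕ) : ℝ) * θ) =
        ee (((i * W : ℕ) : ℝ) * θ) * (ee (-((l : ℝ) * (((-b : ℤ) : ℝ) / q))) * ee ((l : ℝ) * (θ - b / q))) := by
      rw [← ee_add, ← ee_add]
      congr 1
      push_cast
      ring
    rw [h1]
    have h2 : c + ((i * W + l : ℕ) : ℤ) = c + ((i * W : ℕ) : ℤ) + l := by push_cast; ring
    rw [h2]
    ring
  rw [e1, norm_mul, norm_ee, one_mul]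
  refine (norm_add_le _ _).trans (add_le_add (win_rat E _ W q hq (-b)) ?_)
  refine (norm_sum_le _ _).trans ?_
  calc ∑ l ∈ Icc 1 W, ‖(E (c + ((i * W : ℕ) : ℤ) + l) : ℂ) * ee (-((l : ℝ) * (((-b : ℤ) : ℝ) / q))) *
            (ee ((l : ℝ) * (θ - b / q)) - 1)‖ ≤ ∑ _l ∈ Icc 1 W, 7 * ε * W * ρ := by
        apply sum_le_sum
        intro l hl
        rw [mem_Icc] at hl
        have h3 : |E (c + ((i * W : ℕ) : ℤ) + l)| ≤ ρ := by
          have h4 := hE (i * W + l) (mem_Icc.2 ⟨by omega, by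
            calc i * W + l ≤ i * W + W := by omega
              _ = (i + 1) * W := by ring
              _ ≤ J * W := Nat.mul_le_mul_right _ hi⟩)
          have h2 : c + ((i * W + l : ℕ) : ℤ) = c + ((i * W : ℕ) : ℤ) + l := by push_cast; ring
          rwa [h2] at h4
        have hρ : 0 ≤ ρ := (abs_nonneg _).trans h3
        rw [norm_mul, norm_mul, norm_ee, mul_one, Complex.norm_real, Real.norm_eq_abs]
        have h5 : ‖ee ((l : ℝ) * (θ - b / q)) - 1‖ ≤ 7 * ε * W := by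
          refine (ee_sub_one_le _).trans ?_
          rw [abs_mul, abs_of_nonneg (Nat.cast_nonneg l)]
          have h6 : (l : ℝ) ≤ W := by exact_mod_cast hl.2
          calc 7 * ((l : ℝ) * |θ - b / q|) ≤ 7 * (W * ε) := by gcongr
            _ = _ := by ring
        calc |E (c + ((i * W : ℕ) : ℤ) + l)| * ‖ee ((l : ℝ) * (θ - b / q)) - 1‖ ≤ ρ * (7 * ε * W) :=
              mul_le_mul h3 h5 (norm_nonneg _) hρ
          _ = _ := by ring
    _ = _ := by
        rw [sum_const, nsmul_eq_mul, Nat.card_Icc, Nat.add_sub_cancel]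
        ring

end V7aN

open V7aN in
/-- `S_V7a` with the hypothesis `0 ≤ ρ` -/
theorem v7a' (E : ℤ → ℝ) (c : ℤ) (L W q : ℕ) (ρ ε θ : ℝ) (b : ℤ) (hq : 1 ≤ q) (hW : 1 ≤ W)
    (hε : 0 ≤ ε) (hρ : 0 ≤ ρ) (hb : |(q : ℝ) * θ - b| ≤ ε)
    (hE : ∀ l ∈ Icc 1 L, |E (c + l)| ≤ ρ) :
    ‖∑ l ∈ Icc 1 L, (E (c + l) : ℂ) * ee ((l : ℝ) * θ)‖ ≤
      ∑ i ∈ range (L / W), Real.sqrt (q * NN E (c + (i * W : ℕ)) W q) +
        (L / W : ℕ) * (7 * ε * W ^ 2 * ρ) + W * ρ := by
  have hJ : L / W * W ≤ L := Nat.div_mul_le_self L W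
  have hJ2 : L < L / W * W + W := by
    have := Nat.lt_div_mul_add (a := L) (b := W) (by omega)
    omega
  have e : ∀ n : ℕ, Icc 1 n = Ioc 0 n := by
    intro n
    ext x
    simp only [mem_Icc, mem_Ioc]
    omega
  have hsum : ∑ l ∈ Icc 1 L, (E (c + l) : ℂ) * ee ((l : ℝ) * θ) =
      ∑ l ∈ Icc 1 (L / W * W), (E (c + l) : ℂ) * ee ((l : ℝ) * θ) +
        ∑ l ∈ Ioc (L / W * W) L, (E (c + l) : ℂ) * ee ((l : ℝ) * θ) := by
    rw [e, e]
    exact (sum_Ioc_consecutive (fun l : ℕ => (E (c + l) : ℂ) * ee ((l : ℝ) * θ)) (Nat.zero_le _)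
      hJ).symm
  rw [hsum]
  refine (norm_add_le _ _).trans (add_le_add ?_ ?_)
  · refine blocks E c (L / W) W q hq ρ ε θ hε b hb fun l hl => hE l ?_
    rw [mem_Icc] at hl ⊢
    exact ⟨hl.1, hl.2.trans hJ⟩
  · refine (norm_sum_le _ _).trans ?_
    calc ∑ l ∈ Ioc (L / W * W) L, ‖(E (c + l) : ℂ) * ee ((l : ℝ) * θ)‖ ≤
          ∑ _l ∈ Ioc (L / W * W) L, ρ := by
          refine sum_le_sum fun l hl => ?_
          rw [mem_Ioc] at hl
          rw [norm_mul, norm_ee, mul_one, Complex.norm_real, Real.norm_eq_abs]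
          exact hE l (mem_Icc.2 ⟨by omega, hl.2⟩)
      _ = ((L - L / W * W : ℕ) : ℝ) * ρ := by
          rw [sum_const, nsmul_eq_mul, Nat.card_Ioc]
      _ ≤ W * ρ := by
          refine mul_le_mul_of_nonneg_right ?_ hρ
          have : L - L / W * W ≤ W := by omega
          exact_mod_cast this

theorem v7a : S_V7a := fun E c L W q ρ ε θ b hq hW hε hρ hb hE =>
  v7a' E c L W q ρ ε θ b hq hW hε hρ hb hE

end Pool.Agent.H544.VB
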