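import Pool.Agent.H544.VB.Stm
import Pool.Graph.R_seed8.H373R2.T7.BilF

/-!
# Project VB: proof of S_V8
-/

set_option autoImplicit false

namespace Pool.Agent.H544.VB
open Finset
open Pool.Agent.H807R2.Dav

namespace V8N

/-- Parseval's identity -/
lemma pars {ι : Type*} (I : Finset ι) (C : ι → ℂ) (φ : ι → ℤ) (M : ℕ) (hM : 1 ≤ M)
    (hφ : ∀ i ∈ I, ∀ j ∈ I, (M : ℤ) ∣ φ i - φ j → i = j) :
    ∑ t ∈ range M, ‖∑ i ∈ I, C i * ee ((t : ℝ) * ((φ i : ℝ) / M))‖ ^ 2 =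
      M * ∑ i ∈ I, ‖C i‖ ^ 2 := by
  classical
  have h1 := Pool.Agent.H373R2.T7.sq_expand I C φ M hM
  have h2 : ∑ i ∈ I, ∑ j ∈ I, C i * (starRingEnd ℂ) (C j) *
      (if (M : ℤ) ∣ φ i - φ j then (M : ℂ) else 0) =
      (((M : ℝ) * ∑ i ∈ I, ‖C i‖ ^ 2 : ℝ) : ℂ) := by
    push_cast
    rw [mul_sum]
    refine sum_congr rfl fun i hi => ?_
    rw [sum_eq_single i]
    · rw [sub_self, if_pos (dvd_zero _), Complex.mul_conj']
      ring
    · intro j hj hji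
      rw [if_neg fun h => hji (hφ i hi j hj h).symm, mul_zero]
    · intro h
      exact absurd hi h
  rw [h2] at h1
  exact_mod_cast h1

/-- Bessel's inequality -/
lemma bess (H : Finset ℤ) (M : ℕ) (hM : 1 ≤ M)
    (hH : ∀ i ∈ H, ∀ j ∈ H, (M : ℤ) ∣ i - j → i = j) (x : ℕ → ℂ) :
    ∑ h ∈ H, ‖∑ t ∈ range M, x t * ee ((t : ℝ) * ((h : ℝ) / M))‖ ^ 2 ≤
      M * ∑ t ∈ range M, ‖x t‖ ^ 2 := by
  classical
  set b : ℤ → ℂ := fun h => ∑ t ∈ range M, x t * ee ((t : ℝ) * ((h : ℝ) / M)) with hb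
  set S : ℝ := ∑ h ∈ H, ‖b h‖ ^ 2 with hS
  set X : ℝ := ∑ t ∈ range M, ‖x t‖ ^ 2 with hX
  have hS0 : 0 ≤ S := sum_nonneg fun h _ => by positivity
  have hX0 : 0 ≤ X := sum_nonneg fun h _ => by positivity
  have h1 : (S : ℂ) = ∑ t ∈ range M, x t *
      ∑ h ∈ H, (starRingEnd ℂ) (b h) * ee ((t : ℝ) * ((h : ℝ) / M)) := by
    rw [hS]
    push_cast
    simp only [mul_sum]
    rw [sum_comm]
    refine sum_congr rfl fun h _ => ?_
    rw [← Complex.mul_conj', mul_comm, hb]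
    beta_reduce
    rw [mul_sum]
    refine sum_congr rfl fun t _ => by ring
  have h2 : S ≤ ∑ t ∈ range M, ‖x t‖ *
      ‖∑ h ∈ H, (starRingEnd ℂ) (b h) * ee ((t : ℝ) * ((h : ℝ) / M))‖ := by
    have h3 : S = ‖(S : ℂ)‖ := by
      rw [Complex.norm_real, Real.norm_of_nonneg hS0]
    rw [h3, h1]
    refine (norm_sum_le _ _).trans (le_of_eq ?_)
    refine sum_congr rfl fun t _ => ?_
    rw [norm_mul]
  have h4 := sum_mul_sq_le_sq_mul_sq (range M) (fun t => ‖x t‖)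
    (fun t => ‖∑ h ∈ H, (starRingEnd ℂ) (b h) * ee ((t : ℝ) * ((h : ℝ) / M))‖)
  have h5 := pars H (fun h => (starRingEnd ℂ) (b h)) (fun h => h) M hM hH
  beta_reduce at h5
  rw [h5] at h4
  have h6 : ∑ h ∈ H, ‖(starRingEnd ℂ) (b h)‖ ^ 2 = S := by
    rw [hS]
    refine sum_congr rfl fun h _ => ?_
    rw [RCLike.norm_conj]
  rw [h6] at h4
  have h7 : S ^ 2 ≤ X * (M * S) := (pow_le_pow_left₀ hS0 h2 2).trans h4
  by_contra hcon
  have hcon' : M * X < S := not_le.1 hcon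
  have hSp : 0 < S := lt_of_le_of_lt (by positivity) hcon'
  nlinarith

/-- the Fourier expansion of the correlations -/
lemma four (g : ℤ → ℝ) (A L M : ℕ) (c : ℤ) (α : ℝ) (hM : 1 ≤ M) (hLM : L + 2 * A ≤ M) (h : ℤ)
    (h1 : -(A : ℤ) < h) (h2 : h < A) :
    ∑ t ∈ range M, ((∑ l ∈ Icc 1 L, (g (c + l) : ℂ) * ee ((l : ℝ) * (α + (t : ℝ) / M))) *
      (∑ m ∈ Ioc (c - A) (c + L + A), (g m : ℂ) * ee ((t : ℝ) * (((c - m : ℤ) : ℝ) / M)))) *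
        ee ((t : ℝ) * ((h : ℝ) / M)) =
    (M : ℂ) * ∑ l ∈ Icc 1 L, ((g (c + l) * g (c + l + h) : ℝ) : ℂ) * ee ((l : ℝ) * α) := by
  classical
  have e1 : ∀ t ∈ range M,
      ((∑ l ∈ Icc 1 L, (g (c + l) : ℂ) * ee ((l : ℝ) * (α + (t : ℝ) / M))) *
      (∑ m ∈ Ioc (c - A) (c + L + A), (g m : ℂ) * ee ((t : ℝ) * (((c - m : ℤ) : ℝ) / M)))) *
        ee ((t : ℝ) * ((h : ℝ) / M)) =
      ∑ l ∈ Icc 1 L, ∑ m ∈ Ioc (c - A) (c + L + A), (g (c + l) : ℂ) * (g m : ℂ) *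
        ee ((l : ℝ) * α) * ee ((t : ℝ) * (((l + (c - m) + h : ℤ) : ℝ) / M)) := by
    intro t _
    rw [sum_mul_sum, sum_mul]
    refine sum_congr rfl fun l _ => ?_
    rw [sum_mul]
    refine sum_congr rfl fun m _ => ?_
    have e2 : ee ((l : ℝ) * (α + (t : ℝ) / M)) = ee ((l : ℝ) * α) * ee ((t : ℝ) * ((l : ℝ) / M)) := by
      rw [← ee_add]
      congr 1
      ring
    have e3 : ee ((t : ℝ) * (((l + (c - m) + h : ℤ) : ℝ) / M)) =
        ee ((t : ℝ) * ((l : ℝ) / M)) * ee ((t : ℝ) * (((c - m : ℤ) : ℝ) / M)) *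
          ee ((t : ℝ) * ((h : ℝ) / M)) := by
      rw [← ee_add, ← ee_add]
      congr 1
      push_cast
      ring
    rw [e2, e3]
    ring
  rw [sum_congr rfl e1, sum_comm, mul_sum]
  refine sum_congr rfl fun l hl => ?_
  rw [sum_comm]
  obtain ⟨hl1, hl2⟩ := mem_Icc.1 hl
  have e4 : ∀ m ∈ Ioc (c - A) (c + L + A), ∑ t ∈ range M, (g (c + l) : ℂ) * (g m : ℂ) *
        ee ((l : ℝ) * α) * ee ((t : ℝ) * (((l + (c - m) + h : ℤ) : ℝ) / M)) =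
      if m = c + l + h then (g (c + l) : ℂ) * (g m : ℂ) * ee ((l : ℝ) * α) * M else 0 := by
    intro m hm
    obtain ⟨hm1, hm2⟩ := mem_Ioc.1 hm
    rw [← mul_sum, Pool.Agent.H373R2.T7.orth M hM]
    by_cases hmc : m = c + l + h
    · rw [if_pos hmc, if_pos ⟨0, by rw [hmc]; ring⟩]
    · rw [if_neg hmc, if_neg, mul_zero]
      rintro hd
      apply hmc
      have e5 : (l : ℤ) + (c - m) + h = 0 := by
        refine Int.eq_zero_of_abs_lt_dvd hd ?_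
        rw [abs_lt]
        constructor
        · have : (L : ℤ) + 2 * A ≤ M := by exact_mod_cast hLM
          have : (1 : ℤ) ≤ l := by exact_mod_cast hl1
          linarith
        · have : (L : ℤ) + 2 * A ≤ M := by exact_mod_cast hLM
          have : (l : ℤ) ≤ L := by exact_mod_cast hl2
          linarith
      linarith
  rw [sum_congr rfl e4, sum_ite_eq' , if_pos]
  · push_cast
    ring
  · have : (1 : ℤ) ≤ l := by exact_mod_cast hl1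
    have : (l : ℤ) ≤ L := by exact_mod_cast hl2
    exact mem_Ioc.2 ⟨by linarith, by linarith⟩

end V8N

theorem v8 : S_V8 := by
  classical
  intro g A L M c α hA hL hLM
  have hM : 1 ≤ M := by omega
  have hMp : (0 : ℝ) < M := by exact_mod_cast hM
  obtain ⟨U, hU⟩ : ∃ U : ℕ → ℂ, U = fun t : ℕ => ∑ l ∈ Icc 1 L, (g (c + l) : ℂ) *
      ee ((l : ℝ) * (α + (t : ℝ) / M)) := ⟨_, rfl⟩
  obtain ⟨V, hV⟩ : ∃ V : ℕ → ℂ, V = fun t : ℕ => ∑ m ∈ Ioc (c - A) (c + L + A), (g m : ℂ) *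
      ee ((t : ℝ) * (((c - m : ℤ) : ℝ) / M)) := ⟨_, rfl⟩
  obtain ⟨t₀, ht₀, hmax⟩ := exists_max_image (range M) (fun t => ‖U t‖) ⟨0, mem_range.2 hM⟩
  refine ⟨t₀, ht₀, ?_⟩
  have hLM' : (L : ℤ) + 2 * A ≤ M := by exact_mod_cast hLM
  have hL' : (1 : ℤ) ≤ L := by exact_mod_cast hL
  have hA' : (1 : ℤ) ≤ A := by exact_mod_cast hA
  -- Parseval
  have p1 : ∑ t ∈ range M, ‖V t‖ ^ 2 = M * ∑ m ∈ Ioc (c - A) (c + L + A), g m ^ 2 := by
    rw [hV]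
    beta_reduce
    rw [V8N.pars (Ioc (c - A) (c + L + A)) (fun m => (g m : ℂ)) (fun m => c - m) M hM]
    · congr 1
      refine sum_congr rfl fun m _ => ?_
      rw [Complex.norm_real, Real.norm_eq_abs, sq_abs]
    · intro i hi j hj hd
      obtain ⟨hi1, hi2⟩ := mem_Ioc.1 hi
      obtain ⟨hj1, hj2⟩ := mem_Ioc.1 hj
      have e5 : (c - i) - (c - j) = 0 := by
        refine Int.eq_zero_of_abs_lt_dvd hd ?_
        rw [abs_lt]
        constructor <;> linarith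
      linarith
  -- Bessel
  have p2 := V8N.bess (Ioo (-(A : ℤ)) A) M hM (by
    intro i hi j hj hd
    obtain ⟨hi1, hi2⟩ := mem_Ioo.1 hi
    obtain ⟨hj1, hj2⟩ := mem_Ioo.1 hj
    have e5 : i - j = 0 := by
      refine Int.eq_zero_of_abs_lt_dvd hd ?_
      rw [abs_lt]
      constructor <;> linarith
    linarith) (fun t => U t * V t)
  have p3 : ∑ h ∈ Ioo (-(A : ℤ)) A,
      ‖∑ t ∈ range M, (fun t => U t * V t) t * ee ((t : ℝ) * ((h : ℝ) / M))‖ ^ 2 =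
      (M : ℝ) ^ 2 * ∑ h ∈ Ioo (-(A : ℤ)) A,
        ‖∑ l ∈ Icc 1 L, ((g (c + l) * g (c + l + h) : ℝ) : ℂ) * ee ((l : ℝ) * α)‖ ^ 2 := by
    rw [mul_sum]
    refine sum_congr rfl fun h hh => ?_
    obtain ⟨h1, h2⟩ := mem_Ioo.1 hh
    rw [hU, hV]
    beta_reduce
    rw [V8N.four g A L M c α hM hLM h h1 h2, norm_mul, Complex.norm_natCast, mul_pow]
  rw [p3] at p2
  have p4 : ∑ t ∈ range M, ‖(fun t => U t * V t) t‖ ^ 2 ≤ ‖U t₀‖ ^ 2 * ∑ t ∈ range M, ‖V t‖ ^ 2 := by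
    rw [mul_sum]
    refine sum_le_sum fun t ht => ?_
    beta_reduce
    rw [norm_mul, mul_pow]
    have h1 : ‖U t‖ ^ 2 ≤ ‖U t₀‖ ^ 2 := pow_le_pow_left₀ (norm_nonneg _) (hmax t ht) 2
    exact mul_le_mul_of_nonneg_right h1 (by positivity)
  rw [p1] at p4
  have p5 : (M : ℝ) ^ 2 * ∑ h ∈ Ioo (-(A : ℤ)) A,
        ‖∑ l ∈ Icc 1 L, ((g (c + l) * g (c + l + h) : ℝ) : ℂ) * ee ((l : ℝ) * α)‖ ^ 2 ≤
      (M : ℝ) ^ 2 * (‖U t₀‖ ^ 2 * ∑ m ∈ Ioc (c - A) (c + L + A), g m ^ 2) := by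
    refine p2.trans ((mul_le_mul_of_nonneg_left p4 hMp.le).trans (le_of_eq ?_))
    ring
  have p6 := le_of_mul_le_mul_left p5 (by positivity)
  rw [hU] at p6
  exact p6

end Pool.Agent.H544.VB
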