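import Mathlib
import Pool.Agent.H544.VB.C6
import Pool.Agent.H544.VB.V1
import Pool.Agent.H544.VB.V2
import Pool.Agent.H544.VB.V3
import Pool.Agent.H544.VB.V4
import Pool.Agent.H544.VB.V5
import Pool.Agent.H544.VB.V6
import Pool.Agent.H544.VB.V7
import Pool.Agent.H544.VB.V7a
import Pool.Agent.H544.VB.V8
import Pool.Agent.H544.VB.V12
import Pool.Agent.H561.Q4.Ch4
import Pool.Agent.H561.SW.Ch

/-!
The unconditional theorem.
-/

set_option autoImplicit false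

namespace Pool.Agent.H544.VB
open Finset Polynomial
open Pool.Agent.H373R2.T7 (ev_L' lamI lamzI lamP lamI_nonneg lamzI_nonneg lamP_nonneg lamP_le)
open Pool.Agent.H544.LD (Cz cls va Hp Bx)
open Pool.Agent.H544.SR (Cs xver)

theorem t_SUP : S_SUP := sup_of (v5 (v4 (v2 v1) v3)) (v7 v6 v7a) Pool.Agent.H561.Q4.t_SI4

variable {k : ℕ}

/-- the conclusion for one box -/
def Con (F : Fin k → ℤ[X]) (x U z : ℕ) (A a0 : Fin k → ℕ) (w : ℕ → ℝ) : Prop :=
  ∃ Bad ⊆ Bx A, (#Bad : ℝ) ≤ (∏ i, (A i : ℝ)) / Real.log x ^ U ∧ ∀ a ∈ Bx A, a ∉ Bad → ∀ y : ℕ, y ≤ x →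
    |∑ n ∈ Icc 1 y, ∏ i, lamP (va F (a + a0) i n) - Cz F (a + a0) z * y| ≤ x / Real.log x ^ U ∧
    |∑ n ∈ Icc 1 y, w n * ∏ i, lamP (va F (a + a0) i n) - ∑ n ∈ Icc 1 y, w n * ∏ i, lamzI z (va F (a + a0) i n)| ≤
      x / Real.log x ^ U

/-- one polynomial, no weights -/
theorem one_pol (F : Fin 1 → ℤ[X]) (hd : ∀ i, 2 ≤ (F i).natDegree) (hl : ∀ i, 0 < (F i).leadingCoeff) (U G : ℕ) :
    ∃ C0 E0 : ℕ, ∀ E1 : ℕ, ∃ n1 : ℕ, ∀ x : ℕ, n1 ≤ x → ∀ A a0 : Fin 1 → ℕ,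
      (∀ i, (x : ℝ) ^ ((F i).natDegree - 1) * Real.log x ^ C0 ≤ A i) →
      (∀ i, (A i : ℝ) + a0 i ≤ (x : ℝ) ^ (F i).natDegree * Real.log x ^ G) →
      ∀ z : ℕ, Real.log x ^ E0 ≤ z → (z : ℝ) ≤ Real.log x ^ E1 → Con F x U z A a0 (fun _ => 1) := by
  classical
  obtain ⟨e, he⟩ : ∃ e : ℕ, (F 0).natDegree = e + 1 := ⟨(F 0).natDegree - 1, by have := hd 0; omega⟩
  obtain ⟨C0, E0, h0⟩ := xver Pool.Agent.H561.SW.t_SI3 (F 0) e (by have := hd 0; omega) he (hl 0) (U + 1) G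
  refine ⟨C0, E0 + 1, fun E1 => ?_⟩
  obtain ⟨n1, h1⟩ := h0 E1
  obtain ⟨n2, h2⟩ := modelk F hl (U + 1) E1
  obtain ⟨n3, h3⟩ := ev_L' 2
  refine ⟨n1 + n2 + n3 + 3, fun x hx A a0 hA1 hA2 z hz1 hz2 => ?_⟩
  have hL := h3 x (by omega)
  have hl1 : 1 ≤ Real.log x := by linarith
  have hl0 : 0 < Real.log x := by linarith
  have hx0 : (0 : ℝ) < x := by exact_mod_cast (by omega : 0 < x)
  obtain ⟨Bad, b1, b2, b3⟩ := h1 x (by omega) (A 0) (a0 0) (by have := hA1 0; rwa [he, Nat.add_sub_cancel] at this)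
    (by have := hA2 0; rwa [he] at this) z (le_trans (pow_le_pow_right₀ hl1 (by omega)) hz1) hz2
  have hmod := h2 x (by omega) z (le_trans (le_self_pow₀ hl1 (by omega)) hz1) hz2
  have hlU : (x : ℝ) / Real.log x ^ (U + 1) + x / Real.log x ^ (U + 1) ≤ x / Real.log x ^ U := by
    have e1 : (x : ℝ) / Real.log x ^ (U + 1) + x / Real.log x ^ (U + 1) = (2 / Real.log x) * (x / Real.log x ^ U) := by
      rw [pow_succ]; field_simp; ring
    rw [e1]
    calc (2 / Real.log x) * ((x : ℝ) / Real.log x ^ U) ≤ 1 * (x / Real.log x ^ U) := by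
          apply mul_le_mul_of_nonneg_right _ (by positivity)
          rw [div_le_one hl0]; exact hL
      _ = _ := one_mul _
  have hxU : 0 ≤ (x : ℝ) / Real.log x ^ (U + 1) := by positivity
  refine ⟨(Bx A).filter (fun a => a 0 ∈ Bad), filter_subset _ _, ?_, ?_⟩
  · have h4 : #((Bx A).filter (fun a => a 0 ∈ Bad)) ≤ #Bad := by
      apply card_le_card_of_injOn (fun a => a 0)
      · intro a ha
        rw [mem_coe, mem_filter] at ha
        exact ha.2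
      · intro a _ b _ hab
        funext i
        rw [Subsingleton.elim i 0]
        exact hab
    have h5 : (#((Bx A).filter (fun a => a 0 ∈ Bad)) : ℝ) ≤ #Bad := by exact_mod_cast h4
    refine (h5.trans b2).trans ?_
    rw [Fin.prod_univ_one]
    exact div_le_div_of_nonneg_left (Nat.cast_nonneg _) (by positivity) (pow_le_pow_right₀ hl1 (by omega))
  · intro a ha hab y hy
    have ha' := Fintype.mem_piFinset.1 ha
    have hnb : a 0 ∉ Bad := fun h => hab (mem_filter.2 ⟨ha, h⟩)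
    have h4 := b3 (a 0) (ha' 0) hnb y hy
    have hF : F = fun _ : Fin 1 => F 0 := by
      funext i
      rw [Subsingleton.elim i 0]
    have haa : (a + a0) = fun _ : Fin 1 => a 0 + a0 0 := by
      funext i
      rw [Subsingleton.elim i 0]
      rfl
    have e1 : Cs (F 0) (a 0 + a0 0) z = Cz F (a + a0) z := by
      unfold Cs
      rw [← hF, ← haa]
    have e2 : ∀ n : ℕ, ∏ i : Fin 1, lamP (va F (a + a0) i n) = lamP (((a 0 + a0 0 : ℕ) : ℤ) + (F 0).eval (n : ℤ)) := by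
      intro n
      rw [Fin.prod_univ_one]
      rfl
    rw [e1] at h4
    have e3 : ∑ n ∈ Icc 1 y, ∏ i : Fin 1, lamP (va F (a + a0) i n) = ∑ n ∈ Icc 1 y, lamP (((a 0 + a0 0 : ℕ) : ℤ) + (F 0).eval (n : ℤ)) :=
      sum_congr rfl fun n _ => e2 n
    have h5 := (hmod (a + a0) (by
      intro i
      have := (mem_Icc.1 (ha' i)).1
      rw [Pi.add_apply]
      omega)).2 y hy
    simp only [one_mul]
    rw [e3]
    refine ⟨by linarith, ?_⟩
    rw [abs_le] at h4 h5 ⊢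
    constructor <;> linarith [h4.1, h4.2, h5.1, h5.2]

theorem kfin (F : Fin k → ℤ[X]) (hd : ∀ i, 2 ≤ (F i).natDegree) (hl : ∀ i, 0 < (F i).leadingCoeff) (U G : ℕ) :
    ∃ C0 E0 : ℕ, ∀ E1 : ℕ, ∃ n1 : ℕ, ∀ x : ℕ, n1 ≤ x → ∀ A a0 : Fin k → ℕ,
      (∀ i, (x : ℝ) ^ ((F i).natDegree - 1) * Real.log x ^ C0 ≤ A i) →
      (∀ i, (A i : ℝ) + a0 i ≤ (x : ℝ) ^ (F i).natDegree * Real.log x ^ G) →
      ∀ z : ℕ, Real.log x ^ E0 ≤ z → (z : ℝ) ≤ Real.log x ^ E1 → ∀ w : ℕ → ℝ, (∀ n, |w n| ≤ 1) →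
      (∀ i, (F i).natDegree = 2 → (x : ℝ) ^ 4 * Real.log x ^ C0 ≤ (A i : ℝ) ^ 3 ∨ (k = 1 ∧ ∀ n, w n = 1)) →
      Con F x U z A a0 w := by
  classical
  obtain ⟨C1, E1', h1⟩ := xverk t_SUP v8 v12 F hd hl U G
  by_cases hk : k = 1
  · subst hk
    obtain ⟨C2, E2', h2⟩ := one_pol F hd hl U G
    refine ⟨C1 + C2, E1' + E2', fun E1 => ?_⟩
    obtain ⟨n1, h3⟩ := h1 E1
    obtain ⟨n2, h4⟩ := h2 E1
    obtain ⟨n3, h5⟩ := ev_L' 2
    refine ⟨n1 + n2 + n3 + 3, fun x hx A a0 hA1 hA2 z hz1 hz2 w hw hc => ?_⟩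
    have hL := h5 x (by omega)
    have hl1 : 1 ≤ Real.log x := by linarith
    have pm : ∀ i j : ℕ, i ≤ j → Real.log x ^ i ≤ Real.log x ^ j := fun i j h => pow_le_pow_right₀ hl1 h
    have hx1 : (1 : ℝ) ≤ x := by exact_mod_cast (by omega : 1 ≤ x)
    by_cases hw1 : ∀ n, w n = 1
    · have e1 : w = fun _ => 1 := funext hw1
      rw [e1]
      exact h4 x (by omega) A a0 (fun i => le_trans (mul_le_mul_of_nonneg_left (pm _ _ (by omega)) (by positivity)) (hA1 i)) hA2 z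
        ((pm _ _ (by omega)).trans hz1) hz2
    · apply h3 x (by omega) A a0 _ z ((pm _ _ (by omega)).trans hz1) hz2 w hw
      intro i
      have hA := le_trans (mul_le_mul_of_nonneg_left (pm C1 _ (by omega)) (by positivity)) (hA1 i)
      refine ⟨hA, ?_, hA2 i⟩
      by_cases h2d : (F i).natDegree = 2
      · rcases hc i h2d with h6 | h6
        · rw [h2d]
          exact le_trans (mul_le_mul_of_nonneg_left (pm _ _ (by omega)) (by positivity)) h6
        · exact absurd h6.2 hw1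
      · have h3d : 3 ≤ (F i).natDegree := by have := hd i; omega
        calc (x : ℝ) ^ (2 * (F i).natDegree) * Real.log x ^ C1 ≤ (x : ℝ) ^ (((F i).natDegree - 1) * 3) * Real.log x ^ (C1 * 3) := by
              have h7 : (x : ℝ) ^ (2 * (F i).natDegree) ≤ (x : ℝ) ^ (((F i).natDegree - 1) * 3) := pow_le_pow_right₀ hx1 (by omega)
              have h8 := pm C1 (C1 * 3) (by omega)
              gcongr
          _ = ((x : ℝ) ^ ((F i).natDegree - 1) * Real.log x ^ C1) ^ 3 := by rw [mul_pow, ← pow_mul, ← pow_mul]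
          _ ≤ (A i : ℝ) ^ 3 := by gcongr
  · refine ⟨C1, E1', fun E1 => ?_⟩
    obtain ⟨n1, h3⟩ := h1 E1
    obtain ⟨n3, h5⟩ := ev_L' 2
    refine ⟨n1 + n3 + 3, fun x hx A a0 hA1 hA2 z hz1 hz2 w hw hc => ?_⟩
    have hL := h5 x (by omega)
    have hl1 : 1 ≤ Real.log x := by linarith
    have pm : ∀ i j : ℕ, i ≤ j → Real.log x ^ i ≤ Real.log x ^ j := fun i j h => pow_le_pow_right₀ hl1 h
    have hx1 : (1 : ℝ) ≤ x := by exact_mod_cast (by omega : 1 ≤ x)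
    apply h3 x (by omega) A a0 _ z hz1 hz2 w hw
    intro i
    refine ⟨hA1 i, ?_, hA2 i⟩
    by_cases h2d : (F i).natDegree = 2
    · rcases hc i h2d with h6 | h6
      · rw [h2d]
        exact h6
      · exact absurd h6.1 hk
    · have h3d : 3 ≤ (F i).natDegree := by have := hd i; omega
      have hA := hA1 i
      calc (x : ℝ) ^ (2 * (F i).natDegree) * Real.log x ^ C1 ≤ (x : ℝ) ^ (((F i).natDegree - 1) * 3) * Real.log x ^ (C1 * 3) := by
            have h7 : (x : ℝ) ^ (2 * (F i).natDegree) ≤ (x : ℝ) ^ (((F i).natDegree - 1) * 3) := pow_le_pow_right₀ hx1 (by omega)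
            have h8 := pm C1 (C1 * 3) (by omega)
            gcongr
        _ = ((x : ℝ) ^ ((F i).natDegree - 1) * Real.log x ^ C1) ^ 3 := by rw [mul_pow, ← pow_mul, ← pow_mul]
        _ ≤ (A i : ℝ) ^ 3 := by gcongr

end Pool.Agent.H544.VB
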