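import Mathlib
import Pool.Agent.H544.VB.M1

/-!
Arbitrary weights, for general functions.
-/

set_option autoImplicit false

namespace Pool.Agent.H544.VB
open Finset Polynomial
open Pool.Agent.H807R2.Dav
open Pool.Agent.helper24_UT (Ed)
open Pool.Agent.H373R2.T7 (ev_L' ev_log' Vz_inv_small Vz lamI lamzI lamI_nonneg lamzI_nonneg lamI_le lamzI_le cf abs_eval_le)
open Pool.Agent.H544.SR (fl ed_vals smooth_cmp)

theorem fm2G (h8 : S_V8) (f : ℤ[X]) (e : ℕ) (he : 1 ≤ e) (hd : f.natDegree = e + 1) (hl : 0 < f.leadingCoeff) (U G : ℕ) :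
    ∃ U' : ℕ, ∀ C1 : ℕ, ∃ C0 n1 : ℕ, ∀ x : ℕ, n1 ≤ x → ∀ A a0 : ℕ, (x : ℝ) ^ e * Real.log x ^ C0 ≤ A →
      (x : ℝ) ^ (2 * (e + 1)) * Real.log x ^ C0 ≤ (A : ℝ) ^ 3 →
      (A : ℝ) + a0 ≤ (x : ℝ) ^ (e + 1) * Real.log x ^ G → ∀ X : ℕ, X = ⌈(x : ℝ) ^ (e + 1) * Real.log x ^ (G + 1)⌉₊ →
      ∀ (E : ℤ → ℝ) (Y : ℕ), (∀ m : ℤ, (m : ℝ) ≤ (x : ℝ) ^ (e + 2) → |E m| ≤ Real.log x ^ 2) → Sup E X Y U' C1 →
      ∀ y : ℕ, y ≤ x → (∀ n : ℕ, 1 ≤ n → n ≤ y → (f + C (a0 : ℤ)).eval (n : ℤ) + (2 * A : ℕ) < Y) →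
      ∑ p ∈ Ioo (-(A : ℤ)) A ×ˢ Icc 1 A, |∑ n ∈ Icc 1 y, Eh E p.1 ((p.2 : ℤ) + (f + C (a0 : ℤ)).eval (n : ℤ))| ≤
          A ^ 2 * x / Real.log x ^ U := by
  obtain ⟨U', h0⟩ := paramG h8 f e he hd hl (U + 1) G (U + 6)
  refine ⟨U', fun C1 => ?_⟩
  obtain ⟨C0, n2, h2⟩ := h0 C1
  obtain ⟨n6, h6⟩ := val_le f e hd (G + 1)
  obtain ⟨n4, h4⟩ := ev_L' 20
  obtain ⟨n5, h5⟩ := ev_log' (U + 6) 1
  refine ⟨C0, n2 + n4 + n5 + n6 + 3, fun x hx A a0 hA1 hA3 hA2 X hX E Y hEdl hsup y hy hyY => ?_⟩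
  have hl20 := h4 x (by omega)
  have hbig := h5 x (by omega)
  obtain ⟨Δ, hΔ1, hΔ2, hpar⟩ := h2 x (by omega) A a0 hA1 hA3 hA2 X hX E Y hEdl hsup
  have hval := h6 x (by omega) (2 * A) a0
  set l := Real.log x with hld
  have hx1 : (1 : ℝ) ≤ x := by exact_mod_cast (by omega : 1 ≤ x)
  have hx0 : (0 : ℝ) < x := by linarith
  have hl1 : 1 ≤ l := by linarith
  have hl0 : 0 < l := by linarith
  have p0 : ∀ i : ℕ, 0 < l ^ i := fun i => by positivity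
  have p1 : ∀ i : ℕ, 1 ≤ l ^ i := fun i => one_le_pow₀ hl1
  have hsx : Real.sqrt x ≤ x := by
    rw [Real.sqrt_le_left (by linarith)]
    nlinarith
  have hA0 : (0 : ℝ) < A := lt_of_lt_of_le (by positivity) hA1
  have hAn : 1 ≤ A := by exact_mod_cast hA0
  have ha0 : (0 : ℝ) ≤ a0 := Nat.cast_nonneg _
  have hval' := hval (by omega) (by
    push_cast
    have e1 : (x : ℝ) ^ (e + 1) * l ^ (G + 1) = l * ((x : ℝ) ^ (e + 1) * l ^ G) := by ring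
    rw [e1]
    have e2 : 2 * ((x : ℝ) ^ (e + 1) * l ^ G) ≤ l * ((x : ℝ) ^ (e + 1) * l ^ G) := mul_le_mul_of_nonneg_right (by linarith) (by positivity)
    linarith)
  have hEd2 : ∀ p ∈ Ioo (-(A : ℤ)) A ×ˢ Icc 1 A, ∀ n ∈ Icc 1 (3 * x),
      |Eh E p.1 ((p.2 : ℤ) + (f + C (a0 : ℤ)).eval (n : ℤ))| ≤ l ^ 4 := by
    intro p hp n hn
    rw [mem_product, mem_Ioo, mem_Icc] at hp
    have g1 := hval' n hn
    unfold Eh
    rw [abs_mul, show l ^ 4 = l ^ 2 * l ^ 2 by ring]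
    apply mul_le_mul _ _ (abs_nonneg _) (by positivity)
    · apply hEdl
      refine le_trans ?_ g1
      exact_mod_cast (by push_cast; omega)
    · apply hEdl
      refine le_trans ?_ g1
      exact_mod_cast (by push_cast; omega)
  have hyy : 1 ≤ (x : ℝ) / l ^ (U + 6) := by
    rw [one_le_div (p0 _)]
    linarith
  obtain ⟨x1, hx1d⟩ : ∃ x1 : ℕ, x1 = ⌈(x : ℝ) / l ^ (U + 6)⌉₊ := ⟨_, rfl⟩
  have hx1a : (x : ℝ) ≤ x1 * l ^ (U + 6) := by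
    rw [← div_le_iff₀ (p0 _), hx1d]
    exact Nat.le_ceil _
  have hx1b : (x1 : ℝ) ≤ 2 * ((x : ℝ) / l ^ (U + 6)) := by
    have := Nat.ceil_lt_add_one (by positivity : 0 ≤ (x : ℝ) / l ^ (U + 6))
    rw [hx1d]
    linarith
  have hx1d' : (x1 : ℝ) * l ^ 4 ≤ x / l ^ (U + 1) := by
    calc (x1 : ℝ) * l ^ 4 ≤ 2 * ((x : ℝ) / l ^ (U + 6)) * l ^ 4 := mul_le_mul_of_nonneg_right hx1b (by positivity)
      _ = (2 / l) * (x / l ^ (U + 1)) := by rw [show U + 6 = (U + 1) + 5 by ring, pow_add]; field_simp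
      _ ≤ 1 * (x / l ^ (U + 1)) := by
          apply mul_le_mul_of_nonneg_right _ (by positivity)
          rw [div_le_one hl0]; linarith
      _ = _ := one_mul _
  have hx1x : x1 ≤ x := by
    have h7 : (x1 : ℝ) ≤ x := by
      calc (x1 : ℝ) = x1 * 1 := (mul_one _).symm
        _ ≤ x1 * l ^ 4 := by gcongr; exact p1 4
        _ ≤ x / l ^ (U + 1) := hx1d'
        _ ≤ x := div_le_self hx0.le (p1 _)
    exact_mod_cast h7
  have hΔx : (Δ : ℝ) ≤ x := hΔ2.trans (div_le_self hx0.le (p1 _))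
  have hΔxn : Δ ≤ x := by exact_mod_cast hΔx
  have hΔ4 : (Δ : ℝ) * l ^ 4 ≤ x / l ^ (U + 1) := by
    calc (Δ : ℝ) * l ^ 4 ≤ x / l ^ (U + 1 + 4) * l ^ 4 := mul_le_mul_of_nonneg_right hΔ2 (by positivity)
      _ = _ := by rw [pow_add l (U + 1) 4]; field_simp
  have hre := reas (Ioo (-(A : ℤ)) A ×ˢ Icc 1 A) (fun p n => Eh E p.1 ((p.2 : ℤ) + (f + C (a0 : ℤ)).eval (n : ℤ))) x y x1 Δ
    (l ^ 4) (A ^ 2 * x / l ^ (U + 1)) (by positivity) (by positivity) hx1x hy hΔ1 hΔxn hEd2 (by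
      intro N hN hx1N
      have h7 := hpar x1 N hx1x hx1a (by omega) (by
        refine hx1a.trans ?_
        apply mul_le_mul_of_nonneg_right _ (p0 _).le
        exact_mod_cast hx1N) (by
        intro n hn
        rw [mem_range] at hn
        have hx1n : 1 ≤ x1 := by
          rcases Nat.eq_zero_or_pos x1 with h0 | h0
          · rw [h0, Nat.cast_zero, zero_mul] at hx1a
            linarith
          · exact h0
        exact hyY (x1 + n) (by omega) (by omega))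
      rw [sum_product]
      refine h7.trans (le_of_eq ?_)
      ring)
  refine hre.trans ?_
  have hcard : ((#(Ioo (-(A : ℤ)) A ×ˢ Icc 1 A) : ℕ) : ℝ) ≤ 2 * A ^ 2 := by
    rw [card_product, Int.card_Ioo, Nat.card_Icc]
    have h7 : ((A : ℤ) - -(A : ℤ) - 1).toNat ≤ 2 * A := by omega
    have h8' : ((A : ℤ) - -(A : ℤ) - 1).toNat * (A + 1 - 1) ≤ 2 * A * A := by
      rw [Nat.add_sub_cancel]
      exact Nat.mul_le_mul_right _ h7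
    calc _ ≤ ((2 * A * A : ℕ) : ℝ) := by exact_mod_cast h8'
      _ = _ := by push_cast; ring
  have h9 : (2 : ℝ) * x1 * l ^ 4 + 2 * Δ * l ^ 4 ≤ 4 * (x / l ^ (U + 1)) := by linarith
  calc (A : ℝ) ^ 2 * x / l ^ (U + 1) + (#(Ioo (-(A : ℤ)) A ×ˢ Icc 1 A) : ℝ) * (2 * x1 * l ^ 4 + 2 * Δ * l ^ 4) ≤
        A ^ 2 * x / l ^ (U + 1) + 2 * A ^ 2 * (4 * (x / l ^ (U + 1))) := by gcongr
    _ = (9 / l) * (A ^ 2 * x / l ^ U) := by rw [pow_succ]; field_simp; ring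
    _ ≤ 1 * (A ^ 2 * x / l ^ U) := by
        apply mul_le_mul_of_nonneg_right _ (by positivity)
        rw [div_le_one hl0]; linarith
    _ = _ := one_mul _

theorem fwG (h8 : S_V8) (h12 : S_V12) (f : ℤ[X]) (e : ℕ) (he : 1 ≤ e) (hd : f.natDegree = e + 1)
    (hl : 0 < f.leadingCoeff) (U G : ℕ) :
    ∃ U' : ℕ, ∀ C1 : ℕ, ∃ C0 n1 : ℕ, ∀ x : ℕ, n1 ≤ x → ∀ A a0 : ℕ, (x : ℝ) ^ e * Real.log x ^ C0 ≤ A →
      (x : ℝ) ^ (2 * (e + 1)) * Real.log x ^ C0 ≤ (A : ℝ) ^ 3 →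
      (A : ℝ) + a0 ≤ (x : ℝ) ^ (e + 1) * Real.log x ^ G → ∀ X : ℕ, X = ⌈(x : ℝ) ^ (e + 1) * Real.log x ^ (G + 1)⌉₊ →
      ∀ (E : ℤ → ℝ) (Y : ℕ), (∀ m : ℤ, (m : ℝ) ≤ (x : ℝ) ^ (e + 2) → |E m| ≤ Real.log x ^ 2) → Sup E X Y U' C1 →
      ∀ y : ℕ, y ≤ x → (∀ n : ℕ, 1 ≤ n → n ≤ y → (f + C (a0 : ℤ)).eval (n : ℤ) + (2 * A : ℕ) < Y) →
      ∀ w : ℕ → ℝ, (∀ n, |w n| ≤ 1) →
        ∑ a ∈ Icc 1 A, |∑ n ∈ Icc 1 y, w n * E ((a : ℤ) + (f + C (a0 : ℤ)).eval (n : ℤ))| ≤ A * x / Real.log x ^ U := by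
  obtain ⟨U', h0⟩ := fm2G h8 f e he hd hl (4 * U + 4) G
  refine ⟨U', fun C1 => ?_⟩
  obtain ⟨C0, n2, h2⟩ := h0 C1
  obtain ⟨n4, h4⟩ := ev_L' 20
  obtain ⟨n6, h6⟩ := val_le f e hd G
  refine ⟨C0, n2 + n4 + n6 + 3, fun x hx A a0 hA1 hA3 hA2 X hX E Y hEdl hsup y hy hyY w hw => ?_⟩
  have hm := h2 x (by omega) A a0 hA1 hA3 hA2 X hX E Y hEdl hsup y hy hyY
  have hL := h4 x (by omega)
  have hval := h6 x (by omega) A a0
  set l := Real.log x with hld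
  have hx1 : (1 : ℝ) ≤ x := by exact_mod_cast (by omega : 1 ≤ x)
  have hx0 : (0 : ℝ) < x := by linarith
  have hl1 : 1 ≤ l := by linarith
  have hl0 : 0 < l := by linarith
  have p1 : ∀ i : ℕ, 1 ≤ l ^ i := fun i => one_le_pow₀ hl1
  have hA0 : (0 : ℝ) < A := lt_of_lt_of_le (by positivity) hA1
  have hAn : 1 ≤ A := by exact_mod_cast hA0
  have hval' := hval hAn hA2
  set g : ℕ → ℕ → ℝ := fun a n => E ((a : ℤ) + (f + C (a0 : ℤ)).eval (n : ℤ)) with hg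
  have hb : ∀ a ∈ Icc 1 A, ∀ n ∈ Icc 1 y, |g a n| ≤ l ^ 2 := by
    intro a ha n hn
    rw [mem_Icc] at ha hn
    apply hEdl
    refine le_trans ?_ (hval' n (mem_Icc.2 (by omega)))
    exact_mod_cast (by push_cast; omega)
  have hT : ∑ a ∈ Icc 1 A, ∑ b ∈ Icc 1 A, |∑ n ∈ Icc 1 y, g a n * g b n| ≤ A ^ 2 * x / l ^ (4 * U + 4) := by
    refine le_trans ?_ hm
    rw [sum_product_right]
    apply sum_le_sum
    intro a ha
    rw [mem_Icc] at ha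
    have e1 : ∀ b ∈ Icc 1 A, |∑ n ∈ Icc 1 y, g a n * g b n| =
        |∑ n ∈ Icc 1 y, Eh E ((b : ℤ) - a) ((a : ℤ) + (f + C (a0 : ℤ)).eval (n : ℤ))| := by
      intro b _
      congr 1
      apply sum_congr rfl
      intro n _
      simp only [hg]
      unfold Eh
      congr 2
      ring
    rw [sum_congr rfl e1]
    have hinj : Set.InjOn (fun b : ℕ => (b : ℤ) - a) (Icc 1 A : Finset ℕ) := by
      intro b _ b' _ h
      have : (b : ℤ) - a = (b' : ℤ) - a := h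
      omega
    rw [← sum_image (f := fun h : ℤ => |∑ n ∈ Icc 1 y, Eh E h ((a : ℤ) + (f + C (a0 : ℤ)).eval (n : ℤ))|) hinj]
    apply sum_le_sum_of_subset_of_nonneg
    · intro h hh
      rw [mem_image] at hh
      obtain ⟨b, hb1, rfl⟩ := hh
      rw [mem_Icc] at hb1
      rw [mem_Ioo]
      omega
    · intro _ _ _
      exact abs_nonneg _
  have h7 := h12 g A y (l ^ 2) _ (by positivity) hb hT w hw
  have h8' : (∑ a ∈ Icc 1 A, |∑ n ∈ Icc 1 y, w n * g a n|) ^ 4 ≤ (A * x / l ^ U) ^ 4 := by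
    refine h7.trans ?_
    have hyr : (y : ℝ) ≤ x := by exact_mod_cast hy
    calc (A : ℝ) ^ 2 * (y : ℝ) ^ 3 * (l ^ 2) ^ 2 * (A ^ 2 * x / l ^ (4 * U + 4)) ≤
          (A : ℝ) ^ 2 * (x : ℝ) ^ 3 * (l ^ 2) ^ 2 * (A ^ 2 * x / l ^ (4 * U + 4)) := by gcongr
      _ = _ := by
          have e2 : l ^ (4 * U + 4) = (l ^ U) ^ 4 * l ^ 4 := by rw [← pow_mul, ← pow_add, mul_comm U 4]
          rw [e2]
          field_simp
  exact le_of_pow_le_pow_left₀ (by norm_num) (by positivity) h8'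

end Pool.Agent.H544.VB
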