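import Mathlib
import Pool.Agent.H544.VB.M2
import Pool.Agent.H544.VB.C5

/-!
The mirrored problem: values `N - f(n)`.
-/

set_option autoImplicit false

namespace Pool.Agent.H544.VB
open Finset Polynomial
open Pool.Agent.H807R2.Dav
open Pool.Agent.helper24_UT (Ed)
open Pool.Agent.H373R2.T7 (ev_L' ev_log' Vz_inv_small Vz lamI lamzI lamP lamI_nonneg lamzI_nonneg lamP_nonneg lamP_le lamI_le lamzI_le cf abs_eval_le pp_sum)
open Pool.Agent.H544.LD (teleF va Bx)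

/-- the reflected error function -/
noncomputable def Er (z M X : ℕ) (m : ℤ) : ℝ := if -(X : ℤ) ≤ m then Ed z ((M : ℤ) - m) else 0

lemma rev_sum (z M X L : ℕ) (c : ℤ) (hc : 0 ≤ c) (θ : ℝ) :
    ∑ l ∈ Icc 1 L, (Er z M X (c + l) : ℂ) * ee ((l : ℝ) * θ) =
      ee (((L + 1 : ℕ) : ℝ) * θ) * ∑ l ∈ Icc 1 L, (Ed z ((M : ℤ) - c - L - 1 + l) : ℂ) * ee ((l : ℝ) * (-θ)) := by
  rw [mul_sum]
  apply sum_nbij' (fun l => L + 1 - l) (fun l => L + 1 - l)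
  · intro l hl
    rw [mem_Icc] at hl ⊢
    omega
  · intro l hl
    rw [mem_Icc] at hl ⊢
    omega
  · intro l hl
    rw [mem_Icc] at hl
    omega
  · intro l hl
    rw [mem_Icc] at hl
    omega
  · intro l hl
    rw [mem_Icc] at hl
    have e1 : Er z M X (c + l) = Ed z ((M : ℤ) - c - L - 1 + ((L + 1 - l : ℕ) : ℤ)) := by
      unfold Er
      rw [if_pos (by omega)]
      congr 1
      push_cast [Nat.cast_sub (show l ≤ L + 1 by omega)]
      ring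
    have e2 : ee ((l : ℝ) * θ) = ee (((L + 1 : ℕ) : ℝ) * θ) * ee (((L + 1 - l : ℕ) : ℝ) * (-θ)) := by
      rw [← ee_add]
      congr 1
      push_cast [Nat.cast_sub (show l ≤ L + 1 by omega)]
      ring
    rw [e1, e2]
    ring

lemma sup_rev (hSU : S_SUP) (U : ℕ) : ∃ C1 E0 : ℕ, ∀ E1 : ℕ, ∃ X₀ : ℕ, ∀ X : ℕ, X₀ ≤ X → ∀ z : ℕ, Real.log X ^ E0 ≤ z →
    (z : ℝ) ≤ Real.log X ^ E1 → ∀ M : ℕ, 2 * M ≤ X → Sup (Er z M X) X M U C1 := by
  obtain ⟨C1, E0, h0⟩ := hSU U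
  refine ⟨C1, E0, fun E1 => ?_⟩
  obtain ⟨X₀, h1⟩ := h0 E1
  refine ⟨X₀, fun X hX z hz1 hz2 M hM L N s c hLX hs hsL hc0 hcX hcM h2L hsp θ => ?_⟩
  have key := h1 X hX z hz1 hz2 L N s (fun n => (M : ℤ) - c (N - 1 - n) - L - 1) hLX hs hsL
    (by
      intro n hn
      rw [mem_range] at hn
      have := hcM (N - 1 - n) (mem_range.2 (by omega))
      omega)
    (by
      intro n hn
      rw [mem_range] at hn
      have h2 := hcM (N - 1 - n) (mem_range.2 (by omega))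
      have h3 := hc0 (N - 1 - n) (mem_range.2 (by omega))
      push_cast
      omega) h2L
    (by
      intro n hn n' hn' hnn
      rw [mem_range] at hn hn'
      have := hsp (N - 1 - n') (mem_range.2 (by omega)) (N - 1 - n) (mem_range.2 (by omega)) (by omega)
      omega) (fun n => -θ (N - 1 - n))
  rw [← sum_range_reflect]
  refine le_trans (le_of_eq ?_) key
  apply sum_congr rfl
  intro n hn
  rw [mem_range] at hn
  rw [rev_sum z M X L _ (hc0 (N - 1 - n) (mem_range.2 (by omega))), norm_mul, norm_ee, one_mul]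

lemma er_le (e E1 : ℕ) : ∃ n1 : ℕ, ∀ x : ℕ, n1 ≤ x → ∀ z : ℕ, 1 ≤ z → (z : ℝ) ≤ Real.log x ^ E1 → ∀ M X : ℕ,
    ((M : ℝ) + X) ≤ (x : ℝ) ^ (e + 2) → ∀ m : ℤ, |Er z M X m| ≤ Real.log x ^ 2 := by
  obtain ⟨n1, h1⟩ := ed_le e E1
  refine ⟨n1, fun x hx z hz1 hz2 M X hMX m => ?_⟩
  unfold Er
  split_ifs with h
  · apply h1 x hx z hz1 hz2
    refine le_trans ?_ hMX
    have h2 : (M : ℤ) - m ≤ M + X := by omega
    have h3 : (((M : ℤ) - m : ℤ) : ℝ) ≤ (((M : ℤ) + X : ℤ) : ℝ) := by exact_mod_cast h2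
    refine h3.trans (le_of_eq ?_)
    push_cast
    ring
  · rw [abs_zero]
    positivity

theorem fwR (hSU : S_SUP) (h8 : S_V8) (h12 : S_V12) (f : ℤ[X]) (e : ℕ) (he : 1 ≤ e) (hd : f.natDegree = e + 1)
    (hl : 0 < f.leadingCoeff) (U G : ℕ) :
    ∃ C0 E0 : ℕ, ∀ E1 : ℕ, ∃ n1 : ℕ, ∀ x : ℕ, n1 ≤ x → ∀ A a0 : ℕ, (x : ℝ) ^ e * Real.log x ^ C0 ≤ A →
      (x : ℝ) ^ (2 * (e + 1)) * Real.log x ^ C0 ≤ (A : ℝ) ^ 3 →
      (A : ℝ) + a0 ≤ (x : ℝ) ^ (e + 1) * Real.log x ^ G → (∀ n : ℕ, 1 ≤ n → n ≤ x → f.eval (n : ℤ) + A ≤ a0) →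
      ∀ z : ℕ, Real.log x ^ E0 ≤ z → (z : ℝ) ≤ Real.log x ^ E1 →
      ∀ y : ℕ, y ≤ x → ∀ w : ℕ → ℝ, (∀ n, |w n| ≤ 1) →
        ∑ v ∈ Icc 1 A, |∑ n ∈ Icc 1 y, w n * Ed z (((v + a0 : ℕ) : ℤ) - f.eval (n : ℤ))| ≤ A * x / Real.log x ^ U := by
  obtain ⟨U', h0⟩ := fwG h8 h12 f e he hd hl U G
  obtain ⟨C1, E0, h1⟩ := sup_rev hSU U'
  obtain ⟨C0, n1, h2⟩ := h0 C1
  refine ⟨C0, 2 * E0, fun E1 => ?_⟩
  obtain ⟨X0, h3⟩ := h1 E1
  obtain ⟨n2, h4⟩ := er_le e E1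
  obtain ⟨n3, h5⟩ := ev_L' ((e : ℝ) + cf f + 10)
  obtain ⟨n4, h6⟩ := ev_log' (G + 1) 4
  refine ⟨n1 + X0 + n2 + n3 + n4 + 3, fun x hx A a0 hA1 hA3 hA2 hpos z hz1 hz2 y hy w hw => ?_⟩
  have hL := h5 x (by omega)
  have hbig := h6 x (by omega)
  have hx1 : (1 : ℝ) ≤ x := by exact_mod_cast (by omega : 1 ≤ x)
  have hx0 : (0 : ℝ) < x := by linarith
  have hsx : Real.sqrt x ≤ x := by
    rw [Real.sqrt_le_left (by linarith)]
    nlinarith
  have he0 : (0 : ℝ) ≤ e := Nat.cast_nonneg _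
  have hcf0 : (0 : ℝ) ≤ cf f := Nat.cast_nonneg _
  obtain ⟨l, hl'⟩ : ∃ l : ℝ, l = Real.log x := ⟨_, rfl⟩
  rw [← hl'] at hL hbig hA1 hA3 hA2 hz1 hz2 ⊢
  have hl1 : 1 ≤ l := by linarith
  have hl0 : 0 < l := by linarith
  have p1 : ∀ i : ℕ, 1 ≤ l ^ i := fun i => one_le_pow₀ hl1
  obtain ⟨X, hX⟩ : ∃ X : ℕ, X = ⌈(x : ℝ) ^ (e + 1) * l ^ (G + 1)⌉₊ := ⟨_, rfl⟩
  obtain ⟨M, hM⟩ : ∃ M : ℕ, M = a0 + A + 1 := ⟨_, rfl⟩
  have hxe1 : (1 : ℝ) ≤ (x : ℝ) ^ (e + 1) := one_le_pow₀ hx1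
  have hX1 : (x : ℝ) ^ (e + 1) * l ^ (G + 1) ≤ X := by rw [hX]; exact Nat.le_ceil _
  have hX2 : (X : ℝ) ≤ 2 * ((x : ℝ) ^ (e + 1) * l ^ (G + 1)) := by
    have h1 := Nat.ceil_lt_add_one (by positivity : 0 ≤ (x : ℝ) ^ (e + 1) * l ^ (G + 1))
    rw [← hX] at h1
    have h2 : 1 ≤ (x : ℝ) ^ (e + 1) * l ^ (G + 1) := one_le_mul_of_one_le_of_one_le hxe1 (p1 _)
    linarith
  have hxX : (x : ℝ) ≤ X := by
    refine le_trans ?_ hX1
    calc (x : ℝ) ≤ (x : ℝ) ^ (e + 1) := le_self_pow₀ hx1 (by omega)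
      _ ≤ _ := le_mul_of_one_le_right (by positivity) (p1 _)
  have h4X : 4 * ((x : ℝ) ^ (e + 1) * l ^ G) ≤ X := by
    refine le_trans ?_ hX1
    have e1 : (x : ℝ) ^ (e + 1) * l ^ (G + 1) = l * ((x : ℝ) ^ (e + 1) * l ^ G) := by ring
    rw [e1]
    exact mul_le_mul_of_nonneg_right (by linarith) (by positivity)
  have h1G : 1 ≤ (x : ℝ) ^ (e + 1) * l ^ G := one_le_mul_of_one_le_of_one_le hxe1 (p1 _)
  have h2M : 2 * M ≤ X := by
    have h7 : ((2 * M : ℕ) : ℝ) ≤ X := by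
      rw [hM]
      push_cast
      linarith
    exact_mod_cast h7
  have hMX : ((M : ℝ) + X) ≤ (x : ℝ) ^ (e + 2) := by
    have h7 : (2 : ℝ) * M ≤ X := by exact_mod_cast h2M
    calc (M : ℝ) + X ≤ 2 * X := by linarith [(Nat.cast_nonneg M : (0 : ℝ) ≤ M)]
      _ ≤ (x : ℝ) ^ (e + 1) * (4 * l ^ (G + 1)) := by linarith
      _ ≤ (x : ℝ) ^ (e + 1) * x := mul_le_mul_of_nonneg_left (hbig.trans hsx) (by positivity)
      _ = _ := by ring
  have hlX1 : l ≤ Real.log X := by rw [hl']; exact Real.log_le_log hx0 hxX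
  have hlX3 : Real.log X ≤ l ^ 2 := by
    have h7 : (X : ℝ) ≤ (x : ℝ) ^ (e + 2) := by linarith [(Nat.cast_nonneg M : (0 : ℝ) ≤ M)]
    have h8 := Real.log_le_log (by linarith : (0 : ℝ) < X) h7
    rw [Real.log_pow, ← hl'] at h8
    push_cast at h8
    refine h8.trans ?_
    rw [sq]
    exact mul_le_mul_of_nonneg_right (by linarith) hl0.le
  have hz1' : 1 ≤ z := by
    have : (1 : ℝ) ≤ z := (p1 _).trans hz1
    exact_mod_cast this
  have hlX0 : 0 < Real.log X := by linarith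
  have hSup := h3 X (by
      have : X0 ≤ x := by omega
      exact_mod_cast (le_trans (by exact_mod_cast this : (X0 : ℝ) ≤ x) hxX)) z
    (by
      refine le_trans ?_ hz1
      calc Real.log X ^ E0 ≤ (l ^ 2) ^ E0 := by gcongr
        _ = _ := by rw [← pow_mul])
    (hz2.trans (by gcongr)) M h2M
  have hbd := h4 x (by omega) z hz1' (by rw [← hl']; exact hz2) M X hMX
  have hfv : ∀ n : ℕ, 1 ≤ n → n ≤ x → -(X : ℤ) ≤ f.eval (n : ℤ) := by
    intro n hn1 hn2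
    have h7 := abs_eval_le f n hn1
    rw [hd] at h7
    have h8 : ((cf f : ℤ) * (n : ℤ) ^ (e + 1)) ≤ X := by
      have h9 : (cf f : ℝ) * (n : ℝ) ^ (e + 1) ≤ X := by
        have hnx : (n : ℝ) ≤ x := by exact_mod_cast hn2
        calc (cf f : ℝ) * (n : ℝ) ^ (e + 1) ≤ cf f * (x : ℝ) ^ (e + 1) := by gcongr
          _ ≤ l * (x : ℝ) ^ (e + 1) := by gcongr; linarith
          _ ≤ l ^ (G + 1) * (x : ℝ) ^ (e + 1) := by
              gcongr
              exact le_self_pow₀ hl1 (by omega)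
          _ = (x : ℝ) ^ (e + 1) * l ^ (G + 1) := mul_comm _ _
          _ ≤ X := hX1
      exact_mod_cast h9
    have h10 := (abs_le.1 h7).1
    linarith
  have hmain := h2 x (by omega) A 0 (by rw [← hl']; exact hA1) (by rw [← hl']; exact hA3) (by
      rw [← hl']
      push_cast
      linarith [(Nat.cast_nonneg a0 : (0 : ℝ) ≤ a0)]) X (by rw [hX, hl']) (Er z M X) M (fun m _ => hbd m) hSup y hy (by
      intro n hn1 hn2
      have h7 := hpos n hn1 (by omega)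
      rw [eval_add, eval_C, hM]
      push_cast
      omega) w hw
  rw [← hl'] at hmain
  refine le_trans (le_of_eq ?_) hmain
  apply sum_nbij' (fun v => A + 1 - v) (fun v => A + 1 - v)
  · intro l hl
    rw [mem_Icc] at hl ⊢
    omega
  · intro l hl
    rw [mem_Icc] at hl ⊢
    omega
  · intro l hl
    rw [mem_Icc] at hl
    omega
  · intro l hl
    rw [mem_Icc] at hl
    omega
  · intro v hv
    rw [mem_Icc] at hv
    congr 1
    apply sum_congr rfl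
    intro n hn
    rw [mem_Icc] at hn
    congr 1
    have h7 := hfv n hn.1 (by omega)
    unfold Er
    have e1 : (f + C ((0 : ℕ) : ℤ)).eval (n : ℤ) = f.eval (n : ℤ) := by
      rw [eval_add, eval_C]
      push_cast
      ring
    rw [e1, if_pos (by omega)]
    congr 1
    rw [hM]
    push_cast [Nat.cast_sub (show v ≤ A + 1 by omega)]
    ring

end Pool.Agent.H544.VB
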