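import Mathlib
import Pool.Agent.H544.VB.M3
import Pool.Agent.H544.LD.Fin

/-!
The mirrored problem: systems.
-/

set_option autoImplicit false

namespace Pool.Agent.H544.VB
open Finset Polynomial
open Pool.Agent.helper24_UT (Ed)
open Pool.Agent.H373R2.T7 (ev_L' ev_log' Vz_inv_small Vz lamI lamzI lamP lamI_nonneg lamzI_nonneg lamP_nonneg lamP_le lamI_le lamzI_le cf abs_eval_le pp_sum)
open Pool.Agent.H544.LD (teleF va Bx)

variable {k : ℕ}

/-- the conditions for the box of the mirrored problem -/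
def BoxR (F : Fin k → ℤ[X]) (x C G : ℕ) (A a0 : Fin k → ℕ) : Prop := ∀ i,
  (x : ℝ) ^ ((F i).natDegree - 1) * Real.log x ^ C ≤ A i ∧
  (x : ℝ) ^ (2 * (F i).natDegree) * Real.log x ^ C ≤ (A i : ℝ) ^ 3 ∧
  (A i : ℝ) + a0 i ≤ (x : ℝ) ^ (F i).natDegree * Real.log x ^ G ∧
  ∀ n : ℕ, 1 ≤ n → n ≤ x → (F i).eval (n : ℤ) + A i ≤ a0 i

lemma BoxR.mono {F : Fin k → ℤ[X]} {x C C' G : ℕ} {A a0 : Fin k → ℕ} (h : BoxR F x C G A a0) (hC : C' ≤ C) (hl : 1 ≤ Real.log x) :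
    BoxR F x C' G A a0 := by
  intro i
  obtain ⟨h1, h2, h3⟩ := h i
  refine ⟨le_trans ?_ h1, le_trans ?_ h2, h3⟩
  · exact mul_le_mul_of_nonneg_left (pow_le_pow_right₀ hl hC) (by positivity)
  · exact mul_le_mul_of_nonneg_left (pow_le_pow_right₀ hl hC) (by positivity)

lemma va_addR (F : Fin k → ℤ[X]) (a a0 : Fin k → ℕ) (i : Fin k) (n : ℕ) :
    va (fun i => -F i) (a + a0) i n = ((a i + a0 i : ℕ) : ℤ) - (F i).eval (n : ℤ) := by
  unfold va
  rw [eval_neg, Pi.add_apply]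
  ring

lemma valR (f : ℤ[X]) (e : ℕ) (hd : f.natDegree = e + 1) (G : ℕ) : ∃ n1 : ℕ, ∀ x : ℕ, n1 ≤ x → ∀ A a0 : ℕ,
    (A : ℝ) + a0 ≤ (x : ℝ) ^ (e + 1) * Real.log x ^ G →
    (∀ v ∈ Icc 1 A, ∀ n ∈ Icc 1 x, ((((v + a0 : ℕ) : ℤ) - f.eval (n : ℤ) : ℤ) : ℝ) ≤ (1 + cf f) * ((x : ℝ) ^ (e + 1) * Real.log x ^ G)) ∧
    ∀ v ∈ Icc 1 A, ∀ n ∈ Icc 1 x, ((((v + a0 : ℕ) : ℤ) - f.eval (n : ℤ) : ℤ) : ℝ) ≤ (x : ℝ) ^ (e + 2) := by
  obtain ⟨n2, hn2⟩ := ev_L' 1
  obtain ⟨n3, hn3⟩ := ev_log' G (1 + cf f)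
  refine ⟨n2 + n3 + 3, fun x hx A a0 hA2 => ?_⟩
  have hl1 := hn2 x (by omega)
  have hbig := hn3 x (by omega)
  have hx1 : (1 : ℝ) ≤ x := by exact_mod_cast (by omega : 1 ≤ x)
  have hsx : Real.sqrt x ≤ x := by
    rw [Real.sqrt_le_left (by linarith)]
    nlinarith
  have key : ∀ v ∈ Icc 1 A, ∀ n ∈ Icc 1 x, ((((v + a0 : ℕ) : ℤ) - f.eval (n : ℤ) : ℤ) : ℝ) ≤ (1 + cf f) * ((x : ℝ) ^ (e + 1) * Real.log x ^ G) := by
    intro v hv n hn
    rw [mem_Icc] at hv hn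
    have h1 := (abs_le.1 (abs_eval_le f n hn.1)).1
    rw [hd] at h1
    have h2 : (-((cf f : ℝ) * (n : ℝ) ^ (e + 1))) ≤ ((f.eval (n : ℤ) : ℤ) : ℝ) := by exact_mod_cast h1
    have hnx : (n : ℝ) ≤ x := by exact_mod_cast hn.2
    have h3 : (cf f : ℝ) * (n : ℝ) ^ (e + 1) ≤ cf f * ((x : ℝ) ^ (e + 1) * Real.log x ^ G) := by
      apply mul_le_mul_of_nonneg_left _ (Nat.cast_nonneg _)
      calc (n : ℝ) ^ (e + 1) ≤ (x : ℝ) ^ (e + 1) := pow_le_pow_left₀ (Nat.cast_nonneg _) hnx _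
        _ ≤ _ := le_mul_of_one_le_right (by positivity) (one_le_pow₀ hl1)
    have h4 : (v : ℝ) ≤ A := by exact_mod_cast hv.2
    push_cast
    linarith
  refine ⟨key, fun v hv n hn => (key v hv n hn).trans ?_⟩
  calc (1 + (cf f : ℝ)) * ((x : ℝ) ^ (e + 1) * Real.log x ^ G) = (x : ℝ) ^ (e + 1) * ((1 + cf f) * Real.log x ^ G) := by ring
    _ ≤ (x : ℝ) ^ (e + 1) * x := mul_le_mul_of_nonneg_left (hbig.trans hsx) (by positivity)
    _ = _ := by ring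

/-- prime powers -/
theorem ppsR (f : ℤ[X]) (e : ℕ) (he : 1 ≤ e) (hd : f.natDegree = e + 1) (U G : ℕ) : ∃ n1 : ℕ, ∀ x : ℕ, n1 ≤ x → ∀ A a0 : ℕ,
    (x : ℝ) ^ e * Real.log x ^ (G + U + 4) ≤ A → (A : ℝ) + a0 ≤ (x : ℝ) ^ (e + 1) * Real.log x ^ G →
      ∑ a ∈ Icc 1 A, ∑ n ∈ Icc 1 x, (lamI (((a + a0 : ℕ) : ℤ) - f.eval (n : ℤ)) - lamP (((a + a0 : ℕ) : ℤ) - f.eval (n : ℤ))) ≤
        A * x / Real.log x ^ U := by
  obtain ⟨n2, h2⟩ := valR f e hd G
  obtain ⟨n3, h3⟩ := ev_L' (2 * (1 + cf f) + e + 10)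
  obtain ⟨n4, h4⟩ := ev_log' (G + 1) 1
  refine ⟨n2 + n3 + n4 + 3, fun x hx A a0 hA1 hA2 => ?_⟩
  have hL := h3 x (by omega)
  have hbig := h4 x (by omega)
  have hx1 : (1 : ℝ) ≤ x := by exact_mod_cast (by omega : 1 ≤ x)
  have hx0 : (0 : ℝ) < x := by linarith
  have hvals := (h2 x (by omega) A a0 hA2).1
  set l := Real.log x with hld
  have he0 : (0 : ℝ) ≤ e := Nat.cast_nonneg _
  have hc0 : (0 : ℝ) ≤ 1 + cf f := by positivity
  obtain ⟨κ, hκ⟩ : ∃ κ : ℝ, κ = 1 + cf f := ⟨_, rfl⟩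
  rw [← hκ] at hL hc0
  simp only [← hκ] at hvals
  have hl1 : 1 ≤ l := by linarith
  have hl0 : 0 < l := by linarith
  obtain ⟨X, hX⟩ : ∃ X : ℕ, X = ⌈κ * ((x : ℝ) ^ (e + 1) * l ^ G)⌉₊ + 1 := ⟨_, rfl⟩
  have hX1 : 1 ≤ X := by omega
  have hXa : κ * ((x : ℝ) ^ (e + 1) * l ^ G) ≤ X := by
    have := Nat.le_ceil (κ * ((x : ℝ) ^ (e + 1) * l ^ G))
    rw [hX]
    push_cast
    linarith
  have hXb : (X : ℝ) ≤ l * ((x : ℝ) ^ (e + 1) * l ^ G) := by
    have h5 := Nat.ceil_lt_add_one (by positivity : 0 ≤ κ * ((x : ℝ) ^ (e + 1) * l ^ G))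
    have h6 : 1 ≤ (x : ℝ) ^ (e + 1) * l ^ G := one_le_mul_of_one_le_of_one_le (one_le_pow₀ hx1) (one_le_pow₀ hl1)
    have h7 : (κ + 2) * ((x : ℝ) ^ (e + 1) * l ^ G) ≤ l * ((x : ℝ) ^ (e + 1) * l ^ G) := by
      apply mul_le_mul_of_nonneg_right _ (by positivity)
      linarith
    rw [hX]
    push_cast
    linarith
  have hsq : Real.sqrt X ≤ (x : ℝ) ^ e * l ^ (G + 1) := by
    rw [Real.sqrt_le_left (by positivity)]
    calc (X : ℝ) ≤ l * ((x : ℝ) ^ (e + 1) * l ^ G) := hXb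
      _ = (x : ℝ) ^ (e + 1) * l ^ (G + 1) := by ring
      _ ≤ (x : ℝ) ^ (2 * e) * l ^ (2 * (G + 1)) := by
          have h5 : (x : ℝ) ^ (e + 1) ≤ (x : ℝ) ^ (2 * e) := pow_le_pow_right₀ hx1 (by omega)
          have h6 : l ^ (G + 1) ≤ l ^ (2 * (G + 1)) := pow_le_pow_right₀ hl1 (by omega)
          gcongr
      _ = _ := by rw [pow_mul, pow_mul]; ring
  have hlog : Real.log X ≤ l ^ 2 := by
    have hsx : Real.sqrt x ≤ x := by
      rw [Real.sqrt_le_left (by linarith)]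
      nlinarith
    have h5 : (X : ℝ) ≤ (x : ℝ) ^ (e + 2) := by
      refine hXb.trans ?_
      calc l * ((x : ℝ) ^ (e + 1) * l ^ G) = (x : ℝ) ^ (e + 1) * (1 * l ^ (G + 1)) := by ring
        _ ≤ (x : ℝ) ^ (e + 1) * x := mul_le_mul_of_nonneg_left (hbig.trans hsx) (by positivity)
        _ = _ := by ring
    have h6 := Real.log_le_log (by exact_mod_cast hX1) h5
    rw [Real.log_pow] at h6
    refine h6.trans ?_
    rw [sq]
    apply mul_le_mul_of_nonneg_right _ hl0.le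
    push_cast
    linarith
  have hlog0 : 0 ≤ Real.log X := Real.log_nonneg (by exact_mod_cast hX1)
  rw [sum_comm]
  have h5 : ∀ n ∈ Icc 1 x, ∑ a ∈ Icc 1 A, (lamI (((a + a0 : ℕ) : ℤ) - f.eval (n : ℤ)) - lamP (((a + a0 : ℕ) : ℤ) - f.eval (n : ℤ))) ≤
      A / l ^ U := by
    intro n hn
    rw [mem_Icc] at hn
    have e0 : ∀ a : ℕ, ((a + a0 : ℕ) : ℤ) - f.eval (n : ℤ) = (a : ℤ) + ((a0 : ℤ) - f.eval (n : ℤ)) := by
      intro a
      push_cast
      ring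
    simp only [e0]
    refine (pp_sum A X _ hX1 ?_).trans ?_
    · intro a ha
      have h6 := (hvals a ha n (mem_Icc.2 (by omega))).trans hXa
      rw [e0] at h6
      exact_mod_cast h6
    · rw [le_div_iff₀ (by positivity)]
      refine le_trans ?_ hA1
      calc 2 * Real.sqrt X * Real.log X * l ^ U ≤ l * ((x : ℝ) ^ e * l ^ (G + 1)) * l ^ 2 * l ^ U := by
            gcongr
            linarith
        _ = (x : ℝ) ^ e * l ^ (G + U + 4) := by
            rw [show G + U + 4 = (G + 1) + 2 + U + 1 by ring, pow_add, pow_add, pow_add]; ring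
  refine (sum_le_sum h5).trans (le_of_eq ?_)
  rw [sum_const, Nat.card_Icc, nsmul_eq_mul, Nat.add_sub_cancel]
  ring

theorem fkR (hSU : S_SUP) (h8 : S_V8) (h12 : S_V12) (F : Fin k → ℤ[X]) (hd : ∀ i, 2 ≤ (F i).natDegree)
    (hl : ∀ i, 0 < (F i).leadingCoeff) (U G : ℕ) :
    ∃ C0 E0 : ℕ, ∀ E1 : ℕ, ∃ n1 : ℕ, ∀ x : ℕ, n1 ≤ x → ∀ A a0 : Fin k → ℕ, BoxR F x C0 G A a0 →
      ∀ z : ℕ, Real.log x ^ E0 ≤ z → (z : ℝ) ≤ Real.log x ^ E1 → ∀ y : ℕ, y ≤ x → ∀ w : ℕ → ℝ, (∀ n, |w n| ≤ 1) →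
        ∑ a ∈ Bx A, |∑ n ∈ Icc 1 y, w n * (∏ i, lamI (va (fun i => -F i) (a + a0) i n) - ∏ i, lamzI z (va (fun i => -F i) (a + a0) i n))| ≤
          (∏ i, (A i : ℝ)) * x / Real.log x ^ U := by
  obtain ⟨U', hU'⟩ : ∃ U' : ℕ, U' = U + 2 * k + 1 := ⟨_, rfl⟩
  have h0 := fun i => fwR hSU h8 h12 (F i) ((F i).natDegree - 1) (by have := hd i; omega) (by have := hd i; omega) (hl i) U' G
  choose C0 E0 h0 using h0
  refine ⟨univ.sup C0, univ.sup E0, fun E1 => ?_⟩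
  have h1 := fun i => h0 i E1
  choose n1 h1 using h1
  have h2 := fun i => lam_le2 ((F i).natDegree - 1) E1
  choose n2 h2 using h2
  have h3 := fun i => valR (F i) ((F i).natDegree - 1) (by have := hd i; omega) G
  choose n3 h3 using h3
  obtain ⟨n4, h4⟩ := ev_L' ((k : ℝ) + 2)
  refine ⟨univ.sup n1 + univ.sup n2 + univ.sup n3 + n4 + 3, fun x hx A a0 hA z hz1 hz2 y hy w hw => ?_⟩
  have hL := h4 x (by omega)
  have g1 : ∀ i, n1 i ≤ x := fun i => by have := le_sup (f := n1) (mem_univ i); omega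
  have g2 : ∀ i, n2 i ≤ x := fun i => by have := le_sup (f := n2) (mem_univ i); omega
  have g3 : ∀ i, n3 i ≤ x := fun i => by have := le_sup (f := n3) (mem_univ i); omega
  set l := Real.log x with hld
  have hx1 : (1 : ℝ) ≤ x := by exact_mod_cast (by omega : 1 ≤ x)
  have hx0 : (0 : ℝ) < x := by linarith
  have hk0 : (0 : ℝ) ≤ k := Nat.cast_nonneg _
  have hl1 : 1 ≤ l := by linarith
  have hl0 : 0 < l := by linarith
  have pm : ∀ i j : ℕ, i ≤ j → l ^ i ≤ l ^ j := fun i j h => pow_le_pow_right₀ hl1 h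
  have p1 : ∀ i : ℕ, 1 ≤ l ^ i := fun i => one_le_pow₀ hl1
  have hz1' : 1 ≤ z := by
    have : (1 : ℝ) ≤ z := (p1 _).trans hz1
    exact_mod_cast this
  have hA0 : ∀ i, (0 : ℝ) < A i := fun i => lt_of_lt_of_le (by positivity) (hA i).1
  have hAn : ∀ i, 1 ≤ A i := fun i => by exact_mod_cast hA0 i
  have hde : ∀ i, (F i).natDegree - 1 + 1 = (F i).natDegree := fun i => by have := hd i; omega
  have hvals : ∀ i, ∀ n ∈ Icc 1 x, ∀ v ∈ Icc 1 (A i), |lamI (((v + a0 i : ℕ) : ℤ) - (F i).eval (n : ℤ))| ≤ l ^ 2 ∧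
      |lamzI z (((v + a0 i : ℕ) : ℤ) - (F i).eval (n : ℤ))| ≤ l ^ 2 := by
    intro i n hn v hv
    rw [mem_Icc] at hn hv
    have q1 := (h3 i x (g3 i) (A i) (a0 i) (by rw [hde]; exact (hA i).2.2.1)).2 v (mem_Icc.2 hv) n (mem_Icc.2 hn)
    exact h2 i x (g2 i) z hz1' hz2 _ q1
  have key := teleF x A hAn (fun i n v => lamI (((v + a0 i : ℕ) : ℤ) - (F i).eval (n : ℤ)))
    (fun i n v => lamzI z (((v + a0 i : ℕ) : ℤ) - (F i).eval (n : ℤ))) (fun h => |∑ n ∈ Icc 1 y, h n|) (l ^ 2) (x / l ^ U')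
    (p1 2) (by positivity) (by simp) (by
      intro g h
      simp only
      rw [sum_add_distrib]
      exact abs_add_le _ _) (by
      intro g h hgh
      congr 1
      apply sum_congr rfl
      intro n hn
      rw [mem_Icc] at hn
      exact hgh n (mem_Icc.2 (by omega)))
    (fun i n hn v hv => (hvals i n hn v hv).1) (fun i n hn v hv => (hvals i n hn v hv).2) (by
      intro i K hK G' hG'
      have q1 := h1 i x (g1 i) (A i) (a0 i)
        (le_trans (mul_le_mul_of_nonneg_left (pm _ _ (le_sup (f := C0) (mem_univ i))) (by positivity)) (hA i).1)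
        (by
          rw [hde]
          exact le_trans (mul_le_mul_of_nonneg_left (pm _ _ (le_sup (f := C0) (mem_univ i))) (by positivity)) (hA i).2.1)
        (by rw [hde]; exact (hA i).2.2.1) (hA i).2.2.2 z (le_trans (pm _ _ (le_sup (f := E0) (mem_univ i))) hz1) hz2 y hy
        (fun n => if n ∈ Icc 1 x then G' n / K else 0) (by
          intro n
          split_ifs with hn
          · rw [abs_div, abs_of_pos hK, div_le_one hK]
            exact hG' n hn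
          · simp)
      have e1 : ∀ v ∈ Icc 1 (A i), |∑ n ∈ Icc 1 y, G' n * (lamI (((v + a0 i : ℕ) : ℤ) - (F i).eval (n : ℤ)) -
          lamzI z (((v + a0 i : ℕ) : ℤ) - (F i).eval (n : ℤ)))| =
          K * |∑ n ∈ Icc 1 y, (if n ∈ Icc 1 x then G' n / K else 0) * Ed z (((v + a0 i : ℕ) : ℤ) - (F i).eval (n : ℤ))| := by
        intro v _
        rw [← abs_of_pos hK, ← abs_mul, abs_of_pos hK, mul_sum]
        congr 1
        apply sum_congr rfl
        intro n hn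
        rw [mem_Icc] at hn
        rw [if_pos (mem_Icc.2 (by omega))]
        unfold Ed
        field_simp
      rw [sum_congr rfl e1, ← mul_sum]
      apply mul_le_mul_of_nonneg_left _ hK.le
      refine q1.trans (le_of_eq ?_)
      ring)
    univ 1 one_pos (fun n _ => w n) (by
      intro n _ m _
      exact hw n) (by
      intro n m v i _; rfl)
  have e2 : ∀ a ∈ Bx A, |∑ n ∈ Icc 1 y, w n * (∏ i, lamI (va (fun i => -F i) (a + a0) i n) - ∏ i, lamzI z (va (fun i => -F i) (a + a0) i n))| =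
      |∑ n ∈ Icc 1 y, w n * (∏ i, lamI (((a i + a0 i : ℕ) : ℤ) - (F i).eval (n : ℤ)) -
        ∏ i, lamzI z (((a i + a0 i : ℕ) : ℤ) - (F i).eval (n : ℤ)))| := by
    intro a _
    simp only [va_addR]
  rw [sum_congr rfl e2]
  refine key.trans ?_
  rw [card_univ, Fintype.card_fin]
  have hprod : 0 ≤ ∏ i, (A i : ℝ) := prod_nonneg fun _ _ => Nat.cast_nonneg _
  calc (k : ℝ) * (1 * (l ^ 2) ^ k * (x / l ^ U')) * ∏ i, (A i : ℝ) = (k / l) * ((∏ i, (A i : ℝ)) * x / l ^ U) := by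
        have e4 : l ^ U' = l ^ U * (l ^ 2) ^ k * l := by rw [hU', pow_succ l (U + 2 * k), pow_add, pow_mul]
        rw [e4]
        field_simp
    _ ≤ 1 * ((∏ i, (A i : ℝ)) * x / l ^ U) := by
        apply mul_le_mul_of_nonneg_right _ (by positivity)
        rw [div_le_one hl0]
        linarith
    _ = _ := one_mul _

theorem ppkR (F : Fin k → ℤ[X]) (hd : ∀ i, 2 ≤ (F i).natDegree) (U G : ℕ) :
    ∃ C0 n1 : ℕ, ∀ x : ℕ, n1 ≤ x → ∀ A a0 : Fin k → ℕ, BoxR F x C0 G A a0 →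
        ∑ a ∈ Bx A, ∑ n ∈ Icc 1 x, |∏ i, lamI (va (fun i => -F i) (a + a0) i n) - ∏ i, lamP (va (fun i => -F i) (a + a0) i n)| ≤
          (∏ i, (A i : ℝ)) * x / Real.log x ^ U := by
  obtain ⟨U', hU'⟩ : ∃ U' : ℕ, U' = U + 2 * k + 1 := ⟨_, rfl⟩
  have h1 := fun i => ppsR (F i) ((F i).natDegree - 1) (by have := hd i; omega) (by have := hd i; omega) U' G
  choose n1 h1 using h1
  have h2 := fun i => lam_le2 ((F i).natDegree - 1) 0
  choose n2 h2 using h2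
  have h3 := fun i => valR (F i) ((F i).natDegree - 1) (by have := hd i; omega) G
  choose n3 h3 using h3
  obtain ⟨n4, h4⟩ := ev_L' ((k : ℝ) + 2)
  refine ⟨G + U' + 4, univ.sup n1 + univ.sup n2 + univ.sup n3 + n4 + 3, fun x hx A a0 hA => ?_⟩
  have hL := h4 x (by omega)
  have g1 : ∀ i, n1 i ≤ x := fun i => by have := le_sup (f := n1) (mem_univ i); omega
  have g2 : ∀ i, n2 i ≤ x := fun i => by have := le_sup (f := n2) (mem_univ i); omega
  have g3 : ∀ i, n3 i ≤ x := fun i => by have := le_sup (f := n3) (mem_univ i); omega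
  set l := Real.log x with hld
  have hx1 : (1 : ℝ) ≤ x := by exact_mod_cast (by omega : 1 ≤ x)
  have hx0 : (0 : ℝ) < x := by linarith
  have hk0 : (0 : ℝ) ≤ k := Nat.cast_nonneg _
  have hl1 : 1 ≤ l := by linarith
  have hl0 : 0 < l := by linarith
  have p1 : ∀ i : ℕ, 1 ≤ l ^ i := fun i => one_le_pow₀ hl1
  have hA0 : ∀ i, (0 : ℝ) < A i := fun i => lt_of_lt_of_le (by positivity) (hA i).1
  have hAn : ∀ i, 1 ≤ A i := fun i => by exact_mod_cast hA0 i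
  have hde : ∀ i, (F i).natDegree - 1 + 1 = (F i).natDegree := fun i => by have := hd i; omega
  have hvals : ∀ i, ∀ n ∈ Icc 1 x, ∀ v ∈ Icc 1 (A i), |lamI (((v + a0 i : ℕ) : ℤ) - (F i).eval (n : ℤ))| ≤ l ^ 2 ∧
      |lamP (((v + a0 i : ℕ) : ℤ) - (F i).eval (n : ℤ))| ≤ l ^ 2 := by
    intro i n hn v hv
    rw [mem_Icc] at hn hv
    have q1 := (h3 i x (g3 i) (A i) (a0 i) (by rw [hde]; exact (hA i).2.2.1)).2 v (mem_Icc.2 hv) n (mem_Icc.2 hn)
    have q2 := (h2 i x (g2 i) 1 le_rfl (by simp) (((v + a0 i : ℕ) : ℤ) - (F i).eval (n : ℤ)) q1).1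
    refine ⟨q2, ?_⟩
    rw [abs_of_nonneg (lamP_nonneg _)]
    exact (lamP_le _).trans ((le_abs_self _).trans q2)
  have key := teleF x A hAn (fun i n v => lamI (((v + a0 i : ℕ) : ℤ) - (F i).eval (n : ℤ)))
    (fun i n v => lamP (((v + a0 i : ℕ) : ℤ) - (F i).eval (n : ℤ))) (fun h => ∑ n ∈ Icc 1 x, |h n|) (l ^ 2) (x / l ^ U')
    (p1 2) (by positivity) (by simp) (by
      intro g h
      simp only
      rw [← sum_add_distrib]
      exact sum_le_sum fun n _ => abs_add_le _ _) (by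
      intro g h hgh
      apply sum_congr rfl
      intro n hn
      rw [hgh n hn])
    (fun i n hn v hv => (hvals i n hn v hv).1) (fun i n hn v hv => (hvals i n hn v hv).2) (by
      intro i K hK G' hG'
      have q1 := h1 i x (g1 i) (A i) (a0 i) (hA i).1 (by rw [hde]; exact (hA i).2.2.1)
      have e1 : ∀ v ∈ Icc 1 (A i), ∑ n ∈ Icc 1 x, |G' n * (lamI (((v + a0 i : ℕ) : ℤ) - (F i).eval (n : ℤ)) -
          lamP (((v + a0 i : ℕ) : ℤ) - (F i).eval (n : ℤ)))| ≤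
          K * ∑ n ∈ Icc 1 x, (lamI (((v + a0 i : ℕ) : ℤ) - (F i).eval (n : ℤ)) - lamP (((v + a0 i : ℕ) : ℤ) - (F i).eval (n : ℤ))) := by
        intro v _
        rw [mul_sum]
        apply sum_le_sum
        intro n hn
        have q2 := lamP_le (((v + a0 i : ℕ) : ℤ) - (F i).eval (n : ℤ))
        rw [abs_mul, abs_of_nonneg (sub_nonneg.2 q2)]
        exact mul_le_mul_of_nonneg_right (hG' n hn) (sub_nonneg.2 q2)
      refine (sum_le_sum e1).trans ?_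
      rw [← mul_sum]
      apply mul_le_mul_of_nonneg_left _ hK.le
      refine q1.trans (le_of_eq ?_)
      ring)
    univ 1 one_pos (fun _ _ => 1) (by
      intro n _ m _
      simp) (by
      intro n m v i _; rfl)
  have e2 : ∀ a ∈ Bx A, ∑ n ∈ Icc 1 x, |∏ i, lamI (va (fun i => -F i) (a + a0) i n) - ∏ i, lamP (va (fun i => -F i) (a + a0) i n)| =
      ∑ n ∈ Icc 1 x, |1 * (∏ i, lamI (((a i + a0 i : ℕ) : ℤ) - (F i).eval (n : ℤ)) -
        ∏ i, lamP (((a i + a0 i : ℕ) : ℤ) - (F i).eval (n : ℤ)))| := by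
    intro a _
    simp only [va_addR, one_mul]
  rw [sum_congr rfl e2]
  refine key.trans ?_
  rw [card_univ, Fintype.card_fin]
  have hprod : 0 ≤ ∏ i, (A i : ℝ) := prod_nonneg fun _ _ => Nat.cast_nonneg _
  calc (k : ℝ) * (1 * (l ^ 2) ^ k * (x / l ^ U')) * ∏ i, (A i : ℝ) = (k / l) * ((∏ i, (A i : ℝ)) * x / l ^ U) := by
        have e4 : l ^ U' = l ^ U * (l ^ 2) ^ k * l := by rw [hU', pow_succ l (U + 2 * k), pow_add, pow_mul]
        rw [e4]
        field_simp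
    _ ≤ 1 * ((∏ i, (A i : ℝ)) * x / l ^ U) := by
        apply mul_le_mul_of_nonneg_right _ (by positivity)
        rw [div_le_one hl0]
        linarith
    _ = _ := one_mul _

end Pool.Agent.H544.VB
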