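import Mathlib
import Pool.Agent.H544.VB.M4
import Pool.Agent.H544.VB.C6

/-!
The mirrored problem: all lengths, for almost all vectors.
-/

set_option autoImplicit false

namespace Pool.Agent.H544.VB
open Finset Polynomial
open Pool.Agent.H373R2.T7 (ev_L' ev_log' Vz_inv_small Vz Vz_pos pz lamI lamzI lamP lamI_nonneg lamzI_nonneg lamP_nonneg lamP_le lamI_le lamzI_le)
open Pool.Agent.H544.LD (Cz flcS prod_lamz Gz Gz_nonneg Gz_le_one Cz_eq cls va Hp Hp_deg grid markov om Bx)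
open Pool.Agent.H544.SR (ev_loglog)

variable {k : ℕ}

theorem modelR (F : Fin k → ℤ[X]) (U E1 : ℕ) : ∃ n1 : ℕ, ∀ x : ℕ, n1 ≤ x → ∀ z : ℕ,
    Real.log x ≤ z → (z : ℝ) ≤ Real.log x ^ E1 → ∀ b : Fin k → ℕ, (∀ n : ℕ, 1 ≤ n → n ≤ x → ∀ i, 1 ≤ va F b i n) →
      (0 ≤ Cz F b z ∧ Cz F b z ≤ Real.log x ^ k) ∧ ∀ y : ℕ, y ≤ x →
      |∑ n ∈ Icc 1 y, ∏ i, lamzI z (va F b i n) - Cz F b z * y| ≤ x / Real.log x ^ U := by
  obtain ⟨C1, z0, hC1, hz0, hmod⟩ := flcS (∑ i, (F i).natDegree)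
  obtain ⟨n0, hn0e⟩ : ∃ n0 : ℕ, n0 = 0 := ⟨0, rfl⟩
  obtain ⟨n2, h2⟩ := Vz_inv_small E1
  obtain ⟨n3, h3⟩ := ev_L' ((z0 : ℝ) + 10 + n0)
  set Wd : ℕ := U + k + 1 with hWd
  obtain ⟨n4, h4⟩ := ev_loglog ((E1 * C1 * (C1 + 2 * Wd + 1) + Wd : ℕ) : ℝ)
  obtain ⟨n5, h5⟩ := ev_log' (Wd + 1) 1
  refine ⟨n2 + n3 + n4 + n5 + 3, fun x hx z hz1 hz2 b hb => ?_⟩
  have hL := h3 x (by omega)
  have hLL := h4 x (by omega)
  have hbig := h5 x (by omega)
  have hx1 : (1 : ℝ) ≤ x := by exact_mod_cast (by omega : 1 ≤ x)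
  have hx0 : (0 : ℝ) < x := by linarith
  have hz0r : (0 : ℝ) ≤ z0 := Nat.cast_nonneg _
  have hn0r : (0 : ℝ) ≤ n0 := Nat.cast_nonneg _
  have hV := h2 x (by omega) z (by
    have : (1 : ℝ) ≤ z := by linarith
    exact_mod_cast this) hz2
  set L := Real.log x with hLd
  have hL1 : 1 ≤ L := by linarith
  have hL0 : 0 < L := by linarith
  have hz0z : z0 ≤ z := by
    have : (z0 : ℝ) ≤ z := by linarith
    exact_mod_cast this
  have hVp : 0 < (Vz z)⁻¹ := by have := Vz_pos z; positivity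
  have hVk : (Vz z)⁻¹ ^ k ≤ L ^ k := pow_le_pow_left₀ hVp.le hV k
  have hG0 := Gz_nonneg (Hp F b) z 1
  have hG1 := Gz_le_one (Hp F b) z 1
  refine ⟨⟨?_, ?_⟩, fun y hy => ?_⟩
  · rw [Cz_Gz]; positivity
  · rw [Cz_Gz, Nat.cast_one, div_one]
    calc (Vz z)⁻¹ ^ k * Gz (Hp F b) z 1 ≤ (Vz z)⁻¹ ^ k * 1 := mul_le_mul_of_nonneg_left hG1 (by positivity)
      _ ≤ _ := by rw [mul_one]; exact hVk
  set ℓ := Real.log L with hℓ
  have hℓ1 : 1 ≤ ℓ := by
    rw [hℓ, Real.le_log_iff_exp_le hL0]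
    have := Real.exp_one_lt_d9
    linarith
  have hℓ0 : 0 < ℓ := by linarith
  have hℓ2 : ℓ ≤ ℓ ^ 2 := by nlinarith
  have hLe : ∀ n : ℕ, L ^ n = Real.exp (n * ℓ) := by
    intro n
    rw [hℓ, mul_comm, Real.exp_mul, Real.exp_log hL0, Real.rpow_natCast]
  obtain ⟨b', hb'⟩ : ∃ b' : ℕ, b' = C1 + ⌈2 * Wd * ℓ⌉₊ := ⟨_, rfl⟩
  have hb1 : (b' : ℝ) ≤ (C1 + 2 * Wd + 1) * ℓ := by
    have h6 := Nat.ceil_lt_add_one (by positivity : 0 ≤ 2 * (Wd : ℝ) * ℓ)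
    rw [hb']
    push_cast
    have h7 : (C1 : ℝ) ≤ C1 * ℓ := le_mul_of_one_le_right (Nat.cast_nonneg _) hℓ1
    nlinarith
  have hb2 : 2 * Wd * ℓ ≤ b' := by
    have h6 := Nat.le_ceil (2 * (Wd : ℝ) * ℓ)
    rw [hb']
    push_cast
    have : (0 : ℝ) ≤ C1 := Nat.cast_nonneg _
    linarith
  have hhalf : (1 / 2 : ℝ) ^ b' ≤ 1 / L ^ Wd := by
    rw [one_div_pow]
    apply one_div_le_one_div_of_le (by positivity)
    rw [hLe]
    have e1 : (2 : ℝ) ^ b' = Real.exp (b' * Real.log 2) := by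
      rw [mul_comm, Real.exp_mul, Real.exp_log (by norm_num), Real.rpow_natCast]
    rw [e1]
    apply Real.exp_le_exp.2
    have h6 := Real.log_two_gt_d9
    have h7 : 0 ≤ 2 * (Wd : ℝ) * ℓ := by positivity
    nlinarith
  have hzb : (z : ℝ) ^ (C1 * b') ≤ x / L ^ Wd := by
    rw [le_div_iff₀ (by positivity)]
    have h9 : (z : ℝ) ^ (C1 * b') * L ^ Wd ≤ Real.exp ((E1 * C1 * (C1 + 2 * Wd + 1) + Wd : ℕ) * ℓ ^ 2) := by
      calc (z : ℝ) ^ (C1 * b') * L ^ Wd ≤ (L ^ E1) ^ (C1 * b') * L ^ Wd := by gcongr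
        _ = Real.exp ((E1 * (C1 * b') + Wd : ℕ) * ℓ) := by rw [← pow_mul, ← pow_add, hLe]
        _ ≤ Real.exp ((E1 * C1 * (C1 + 2 * Wd + 1) + Wd : ℕ) * ℓ ^ 2) := by
            apply Real.exp_le_exp.2
            push_cast
            have h6 : (E1 : ℝ) * (C1 * b') * ℓ ≤ E1 * C1 * (C1 + 2 * Wd + 1) * ℓ ^ 2 := by
              have h7 : (E1 : ℝ) * C1 * ℓ * b' ≤ E1 * C1 * ℓ * ((C1 + 2 * Wd + 1) * ℓ) := mul_le_mul_of_nonneg_left hb1 (by positivity)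
              calc (E1 : ℝ) * (C1 * b') * ℓ = E1 * C1 * ℓ * b' := by ring
                _ ≤ _ := h7
                _ = _ := by ring
            have h8 : (Wd : ℝ) * ℓ ≤ Wd * ℓ ^ 2 := mul_le_mul_of_nonneg_left hℓ2 (Nat.cast_nonneg _)
            linarith
    refine h9.trans ?_
    have h10 : (x : ℝ) = Real.exp L := by rw [hLd, Real.exp_log hx0]
    rw [h10]
    apply Real.exp_le_exp.2
    linarith
  have hm0 := hmod b' (by omega) z hz0z (Hp F b) 1 0 y (Hp_deg F b) le_rfl (by norm_num) (by simp)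
  have ec : cls y 1 0 = Icc 1 y := by
    unfold cls
    rw [filter_true_of_mem (by intro n _; exact Nat.mod_one n)]
  rw [ec] at hm0
  have e1 : ∑ n ∈ Icc 1 y, ∏ i, lamzI z (va F b i n) =
      (Vz z)⁻¹ ^ k * ((#((Icc 1 y).filter (fun n : ℕ => ∀ p ∈ pz z, ¬ (p : ℤ) ∣ (Hp F b).eval (n : ℤ))) : ℕ) : ℝ) := by
    have e2 : ∀ n ∈ Icc 1 y, ∏ i, lamzI z (va F b i n) =
        if (∀ p ∈ pz z, ¬ (p : ℤ) ∣ (Hp F b).eval (n : ℤ)) then (Vz z)⁻¹ ^ k else 0 := by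
      intro n hn
      rw [mem_Icc] at hn
      exact prod_lamz F b z n (hb n hn.1 (by omega))
    rw [sum_congr rfl e2, ← sum_filter, sum_const, nsmul_eq_mul, mul_comm]
  have hm : |∑ n ∈ Icc 1 y, ∏ i, lamzI z (va F b i n) - Cz F b z * y| ≤
      (Vz z)⁻¹ ^ k * ((1 / 2 : ℝ) ^ b' * ((y : ℝ) / (1 : ℕ)) + (z : ℝ) ^ (C1 * b') + n0) := by
    rw [e1, Cz_Gz]
    have e3 : (Vz z)⁻¹ ^ k * ((#((Icc 1 y).filter (fun n : ℕ => ∀ p ∈ pz z, ¬ (p : ℤ) ∣ (Hp F b).eval (n : ℤ))) : ℕ) : ℝ) -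
        (Vz z)⁻¹ ^ k * (Gz (Hp F b) z 1 / (1 : ℕ)) * y = (Vz z)⁻¹ ^ k *
        ((#((Icc 1 y).filter (fun n : ℕ => ∀ p ∈ pz z, ¬ (p : ℤ) ∣ (Hp F b).eval (n : ℤ))) : ℝ) - (y : ℝ) / (1 : ℕ) * Gz (Hp F b) z 1) := by
      rw [Nat.cast_one]; ring
    rw [e3, abs_mul, abs_of_pos (by positivity)]
    apply mul_le_mul_of_nonneg_left _ (by positivity)
    rw [hn0e, Nat.cast_zero, add_zero]
    exact hm0
  refine hm.trans ?_
  rw [Nat.cast_one, div_one]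
  have hyx : (y : ℝ) ≤ x := by exact_mod_cast hy
  have g1 : (1 / 2 : ℝ) ^ b' * y ≤ x / L ^ Wd := by
    calc (1 / 2 : ℝ) ^ b' * y ≤ 1 / L ^ Wd * x := mul_le_mul hhalf hyx (Nat.cast_nonneg _) (by positivity)
      _ = _ := by ring
  have g2 : (n0 : ℝ) ≤ x / L ^ Wd := by
    rw [le_div_iff₀ (by positivity)]
    have hsx : Real.sqrt x ≤ x := by
      rw [Real.sqrt_le_left (by linarith)]
      nlinarith
    calc (n0 : ℝ) * L ^ Wd ≤ L * L ^ Wd := by gcongr; linarith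
      _ = 1 * L ^ (Wd + 1) := by ring
      _ ≤ _ := hbig.trans hsx
  calc (Vz z)⁻¹ ^ k * ((1 / 2 : ℝ) ^ b' * y + (z : ℝ) ^ (C1 * b') + n0) ≤ L ^ k * (x / L ^ Wd + x / L ^ Wd + x / L ^ Wd) := by
        apply mul_le_mul hVk _ (by positivity) (by positivity)
        linarith
    _ = (3 / L) * (x / L ^ U) := by
        have e2 : L ^ Wd = L ^ U * L ^ k * L := by rw [hWd, pow_succ L (U + k), pow_add]
        rw [e2]; field_simp; ring
    _ ≤ 1 * (x / L ^ U) := by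
        apply mul_le_mul_of_nonneg_right _ (by positivity)
        rw [div_le_one hL0]; linarith
    _ = _ := one_mul _

open Classical in
theorem xverR (hSU : S_SUP) (h8 : S_V8) (h12 : S_V12) (F : Fin k → ℤ[X]) (hd : ∀ i, 2 ≤ (F i).natDegree)
    (hl : ∀ i, 0 < (F i).leadingCoeff) (U G : ℕ) :
    ∃ C0 E0 : ℕ, ∀ E1 : ℕ, ∃ n1 : ℕ, ∀ x : ℕ, n1 ≤ x → ∀ A a0 : Fin k → ℕ, BoxR F x C0 G A a0 →
      ∀ z : ℕ, Real.log x ^ E0 ≤ z → (z : ℝ) ≤ Real.log x ^ E1 → ∀ w : ℕ → ℝ, (∀ n, |w n| ≤ 1) →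
      ∃ Bad ⊆ Bx A, (#Bad : ℝ) ≤ (∏ i, (A i : ℝ)) / Real.log x ^ U ∧ ∀ a ∈ Bx A, a ∉ Bad → ∀ y : ℕ, y ≤ x →
        |∑ n ∈ Icc 1 y, ∏ i, lamP (va (fun i => -F i) (a + a0) i n) - Cz (fun i => -F i) (a + a0) z * y| ≤ x / Real.log x ^ U ∧
        |∑ n ∈ Icc 1 y, w n * ∏ i, lamP (va (fun i => -F i) (a + a0) i n) - ∑ n ∈ Icc 1 y, w n * ∏ i, lamzI z (va (fun i => -F i) (a + a0) i n)| ≤
          x / Real.log x ^ U := by
  obtain ⟨H, hH⟩ : ∃ H : ℕ, H = U + k + 3 := ⟨_, rfl⟩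
  obtain ⟨U2, hU2⟩ : ∃ U2 : ℕ, U2 = 2 * U + H + 4 := ⟨_, rfl⟩
  obtain ⟨C0, E0, h0⟩ := fkR hSU h8 h12 F hd hl U2 G
  obtain ⟨C1, n3, h3⟩ := ppkR F hd U2 G
  refine ⟨C0 + C1, E0 + 1, fun E1 => ?_⟩
  obtain ⟨n2, h2⟩ := h0 E1
  obtain ⟨n4, h4⟩ := modelR (fun i => -F i) (U + 3) E1
  obtain ⟨n5, h5⟩ := ev_L' 20
  obtain ⟨n6, h6⟩ := ev_log' H 2
  refine ⟨n2 + n3 + n4 + n5 + n6 + 3, fun x hx A a0 hA z hz1 hz2 w hw => ?_⟩
  have hL := h5 x (by omega)
  have hbig := h6 x (by omega)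
  have hx1 : (1 : ℝ) ≤ x := by exact_mod_cast (by omega : 1 ≤ x)
  have hx0 : (0 : ℝ) < x := by linarith
  have hl1' : 1 ≤ Real.log x := by linarith
  have hfm := h2 x (by omega) A a0 (hA.mono (by omega) hl1') z (le_trans (pow_le_pow_right₀ hl1' (by omega)) hz1) hz2
  have hpp := h3 x (by omega) A a0 (hA.mono (by omega) hl1')
  have hmod := h4 x (by omega) z (le_trans (le_self_pow₀ hl1' (by omega)) hz1) hz2
  have hA0 : ∀ i, (0 : ℝ) < A i := fun i => lt_of_lt_of_le (by positivity) (hA i).1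
  set l := Real.log x with hld
  have hl1 : 1 ≤ l := hl1'
  have hl0 : 0 < l := by linarith
  have p0 : ∀ i : ℕ, 0 < l ^ i := fun i => by positivity
  have p1 : ∀ i : ℕ, 1 ≤ l ^ i := fun i => one_le_pow₀ hl1
  have hsx : Real.sqrt x ≤ x := by
    rw [Real.sqrt_le_left (by linarith)]
    nlinarith
  have hAp : 0 < ∏ i, (A i : ℝ) := prod_pos fun i _ => hA0 i
  set PA := ∏ i, (A i : ℝ) with hPA
  obtain ⟨Gd, hGd⟩ : ∃ Gd : ℕ, Gd = ⌈l ^ H⌉₊ := ⟨_, rfl⟩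
  have hG1 : l ^ H ≤ Gd := by rw [hGd]; exact Nat.le_ceil _
  have hG2 : (Gd : ℝ) ≤ 2 * l ^ H := by
    have := Nat.ceil_lt_add_one (p0 H).le
    rw [hGd]
    linarith [p1 H]
  have hGn : 1 ≤ Gd := by
    have : (1 : ℝ) ≤ Gd := (p1 _).trans hG1
    exact_mod_cast this
  have hG0 : (0 : ℝ) < Gd := by exact_mod_cast hGn
  -- abbreviations
  set PL : (Fin k → ℕ) → ℕ → ℝ := fun a n => ∏ i, lamI (va (fun i => -F i) (a + a0) i n) with hPL
  set PP : (Fin k → ℕ) → ℕ → ℝ := fun a n => ∏ i, lamP (va (fun i => -F i) (a + a0) i n) with hPP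
  set PZ : (Fin k → ℕ) → ℕ → ℝ := fun a n => ∏ i, lamzI z (va (fun i => -F i) (a + a0) i n) with hPZ
  set Tpp : (Fin k → ℕ) → ℝ := fun a => ∑ n ∈ Icc 1 x, |PL a n - PP a n| with hTpp
  set Tj : ℕ → (Fin k → ℕ) → ℝ := fun j a => |∑ n ∈ Icc 1 (j * x / Gd), (1 : ℝ) * (PL a n - PZ a n)| with hTj
  set Tw : ℕ → (Fin k → ℕ) → ℝ := fun j a => |∑ n ∈ Icc 1 (j * x / Gd), w n * (PL a n - PZ a n)| with hTw
  have hTpp0 : ∀ a, 0 ≤ Tpp a := fun a => sum_nonneg fun n _ => abs_nonneg _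
  have hgrid : ∀ j ∈ range (Gd + 1), j * x / Gd ≤ x := by
    intro j hj
    rw [mem_range] at hj
    apply Nat.div_le_of_le_mul
    exact Nat.mul_le_mul_right x (by omega)
  set T : (Fin k → ℕ) → ℝ := fun a => ∑ j ∈ range (Gd + 1), (Tj j a + Tw j a) + Tpp a with hT
  have hT0 : ∀ a, 0 ≤ T a := by
    intro a
    simp only [hT]
    have h7 : 0 ≤ ∑ j ∈ range (Gd + 1), (Tj j a + Tw j a) := sum_nonneg fun j _ => add_nonneg (abs_nonneg _) (abs_nonneg _)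
    linarith [hTpp0 a]
  have hTs : ∑ a ∈ Bx A, T a ≤ 8 * l ^ H * (PA * x / l ^ U2) := by
    have h7 : ∑ a ∈ Bx A, T a = ∑ j ∈ range (Gd + 1), (∑ a ∈ Bx A, Tj j a + ∑ a ∈ Bx A, Tw j a) + ∑ a ∈ Bx A, Tpp a := by
      simp only [hT]
      rw [sum_add_distrib, sum_comm]
      congr 1
      apply sum_congr rfl
      intro j _
      rw [sum_add_distrib]
    rw [h7]
    have h8' : ∀ j ∈ range (Gd + 1), ∑ a ∈ Bx A, Tj j a + ∑ a ∈ Bx A, Tw j a ≤ PA * x / l ^ U2 + PA * x / l ^ U2 := fun j hj =>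
      add_le_add (hfm _ (hgrid j hj) (fun _ => 1) (by simp)) (hfm _ (hgrid j hj) w hw)
    have h9 := sum_le_sum h8'
    rw [sum_const, card_range, nsmul_eq_mul] at h9
    push_cast at h9
    have h10 : 0 ≤ PA * x / l ^ U2 := by positivity
    have h11 : (2 * ((Gd : ℝ) + 1) + 1) * (PA * x / l ^ U2) ≤ 8 * l ^ H * (PA * x / l ^ U2) := by
      apply mul_le_mul_of_nonneg_right _ h10
      linarith [p1 H]
    linarith
  refine ⟨(Bx A).filter (fun a => x / l ^ (U + 2) < T a), filter_subset _ _, ?_, ?_⟩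
  · refine (markov (Bx A) T hT0 _ _ (by positivity) hTs).trans ?_
    have e1 : l ^ U2 = l ^ H * l ^ (U + 2) * l ^ 2 * l ^ U := by rw [← pow_add, ← pow_add, ← pow_add, hU2]; congr 1; ring
    calc 8 * l ^ H * (PA * x / l ^ U2) / (x / l ^ (U + 2)) = (8 / l ^ 2) * (PA / l ^ U) := by
          rw [e1]
          field_simp
      _ ≤ 1 * (PA / l ^ U) := by
          apply mul_le_mul_of_nonneg_right _ (by positivity)
          rw [div_le_one (by positivity)]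
          have : l ≤ l ^ 2 := le_self_pow₀ hl1 (by norm_num)
          linarith
      _ = _ := one_mul _
  · intro a ha hab
    have hTa : T a ≤ x / l ^ (U + 2) := by
      by_contra hc
      push Not at hc
      exact hab (mem_filter.2 ⟨ha, hc⟩)
    have ha' := Fintype.mem_piFinset.1 ha
    obtain ⟨⟨m1, m2⟩, m3⟩ := hmod (a + a0) (by
      intro n hn1 hn2 i
      have h7 := (mem_Icc.1 (ha' i)).1
      have h8' := (hA i).2.2.2 n hn1 hn2
      rw [va_addR]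
      push_cast
      omega)
    set cc := Cz (fun i => -F i) (a + a0) z with hcc
    set θ : ℕ → ℝ := fun y => ∑ n ∈ Icc 1 y, PP a n with hθ
    have hPP0 : ∀ n, 0 ≤ PP a n := fun n => prod_nonneg fun i _ => lamP_nonneg _
    have hPZ0 : ∀ n, 0 ≤ PZ a n := fun n => prod_nonneg fun i _ => lamzI_nonneg _ _
    have hθm : ∀ y y', y ≤ y' → θ y ≤ θ y' := by
      intro y y' h
      simp only [hθ]
      apply sum_le_sum_of_subset_of_nonneg (Icc_subset_Icc le_rfl h)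
      intro n _ _
      exact hPP0 n
    have hx4 : ∀ i j : ℕ, i ≤ j → (x : ℝ) / l ^ j ≤ x / l ^ i := fun i j h =>
      div_le_div_of_nonneg_left hx0.le (p0 _) (pow_le_pow_right₀ hl1 h)
    -- the error of the grid
    have g3 : cc * ((x : ℝ) / Gd + 1) ≤ 2 * (x / l ^ (U + 3)) := by
      have e1 : (x : ℝ) / Gd ≤ x / l ^ H := div_le_div_of_nonneg_left hx0.le (p0 _) hG1
      have e2 : (1 : ℝ) ≤ x / l ^ H := by
        rw [one_le_div (p0 _)]
        have := p0 H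
        linarith
      calc cc * ((x : ℝ) / Gd + 1) ≤ l ^ k * (x / l ^ H + x / l ^ H) := by
            apply mul_le_mul m2 _ (by positivity) (p0 k).le
            linarith
        _ = _ := by
            have e3 : l ^ H = l ^ (U + 3) * l ^ k := by rw [← pow_add, hH]; congr 1; ring
            rw [e3]; field_simp; ring
    have hTjT : ∀ j ∈ range (Gd + 1), Tj j a + Tw j a + Tpp a ≤ T a := by
      intro j hj
      simp only [hT]
      have := single_le_sum (f := fun j => Tj j a + Tw j a) (fun _ _ => add_nonneg (abs_nonneg _) (abs_nonneg _)) hj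
      linarith
    have hTj0 : ∀ j, 0 ≤ Tj j a := fun j => abs_nonneg _
    have hTw0 : ∀ j, 0 ≤ Tw j a := fun j => abs_nonneg _
    have hppw : ∀ w' : ℕ → ℝ, (∀ n, |w' n| ≤ 1) → ∀ y, y ≤ x → |∑ n ∈ Icc 1 y, w' n * (PL a n - PP a n)| ≤ Tpp a := by
      intro w' hw' y hy
      refine (abs_sum_le_sum_abs _ _).trans ?_
      simp only [hTpp]
      refine le_trans (sum_le_sum fun n _ => ?_) (sum_le_sum_of_subset_of_nonneg (Icc_subset_Icc le_rfl hy) fun _ _ _ => abs_nonneg _)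
      rw [abs_mul]
      exact mul_le_of_le_one_left (abs_nonneg _) (hw' n)
    -- part 1 at all points
    have part1 : ∀ y, y ≤ x → |θ y - cc * y| ≤ 4 * (x / l ^ (U + 2)) := by
      intro y hy
      obtain ⟨j, hj, hgr⟩ := grid θ hθm x Gd y cc (by omega) hGn m1 hy
      have hjx := hgrid j hj
      have g1 := m3 _ hjx
      have g2 : |θ (j * x / Gd) - cc * ((j * x / Gd : ℕ) : ℝ)| ≤ Tj j a + Tpp a + x / l ^ (U + 3) := by
        have e1 : θ (j * x / Gd) - cc * ((j * x / Gd : ℕ) : ℝ) =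
            ∑ n ∈ Icc 1 (j * x / Gd), (1 : ℝ) * (PL a n - PZ a n) - ∑ n ∈ Icc 1 (j * x / Gd), (1 : ℝ) * (PL a n - PP a n) +
            (∑ n ∈ Icc 1 (j * x / Gd), PZ a n - cc * ((j * x / Gd : ℕ) : ℝ)) := by
          simp only [hθ, one_mul]
          rw [sum_sub_distrib, sum_sub_distrib]
          ring
        rw [e1]
        refine (abs_add_le _ _).trans (add_le_add ?_ g1)
        refine (abs_sub _ _).trans (add_le_add le_rfl ?_)
        exact hppw (fun _ => 1) (by simp) _ hjx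
      have g4 := hTjT j hj
      have g5 := hTw0 j
      have g6 := hx4 (U + 2) (U + 3) (by omega)
      have g7 : 0 ≤ (x : ℝ) / l ^ (U + 2) := by positivity
      have g8 : (3 : ℝ) * (x / l ^ (U + 3)) ≤ x / l ^ (U + 2) := by
        calc (3 : ℝ) * (x / l ^ (U + 3)) = (3 / l) * (x / l ^ (U + 2)) := by rw [show U + 3 = (U + 2) + 1 by ring, pow_succ]; field_simp
          _ ≤ 1 * (x / l ^ (U + 2)) := by
              apply mul_le_mul_of_nonneg_right _ g7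
              rw [div_le_one hl0]; linarith
          _ = _ := one_mul _
      linarith
    have hfin : ∀ c : ℝ, c ≤ 20 → c * ((x : ℝ) / l ^ (U + 2)) ≤ x / l ^ U := by
      intro c hc
      have h7 : 0 ≤ (x : ℝ) / l ^ U := by positivity
      have e2 : c * ((x : ℝ) / l ^ (U + 2)) = (c / l ^ 2) * (x / l ^ U) := by rw [pow_add]; field_simp
      rw [e2]
      calc (c / l ^ 2) * ((x : ℝ) / l ^ U) ≤ 1 * (x / l ^ U) := by
            apply mul_le_mul_of_nonneg_right _ h7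
            rw [div_le_one (by positivity)]
            have : l ≤ l ^ 2 := le_self_pow₀ hl1 (by norm_num)
            linarith
        _ = _ := one_mul _
    intro y hy
    refine ⟨(part1 y hy).trans (hfin 4 (by norm_num)), ?_⟩
    -- weights
    obtain ⟨j, hj, hj1, hj2⟩ := grid0 x Gd y (by omega) hGn hy
    obtain ⟨y0, hy0⟩ : ∃ y0, y0 = j * x / Gd := ⟨_, rfl⟩
    have hy0x : y0 ≤ x := by rw [hy0]; exact hgrid j hj
    rw [← hy0] at hj1 hj2
    have hsplit : ∀ g : ℕ → ℝ, ∑ n ∈ Icc 1 y, g n = ∑ n ∈ Icc 1 y0, g n + ∑ n ∈ Ioc y0 y, g n := by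
      intro g
      have e : ∀ n : ℕ, Icc 1 n = Ioc 0 n := by
        intro n
        ext x
        simp only [mem_Icc, mem_Ioc]
        omega
      rw [e, e]
      exact (sum_Ioc_consecutive g (Nat.zero_le y0) hj1).symm
    have q1 := part1 y hy
    have q2 := part1 y0 hy0x
    have q3 := m3 y hy
    have q4 := m3 y0 hy0x
    have hI1 : ∑ n ∈ Ioc y0 y, PP a n = θ y - θ y0 := by
      simp only [hθ]
      rw [hsplit]
      ring
    have hI2 : ∑ n ∈ Ioc y0 y, PZ a n = ∑ n ∈ Icc 1 y, PZ a n - ∑ n ∈ Icc 1 y0, PZ a n := by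
      rw [hsplit]
      ring
    have hcy : cc * ((y : ℝ) - y0) ≤ 2 * (x / l ^ (U + 3)) := (mul_le_mul_of_nonneg_left hj2 m1).trans g3
    have q5 : ∑ n ∈ Ioc y0 y, PP a n ≤ 8 * (x / l ^ (U + 2)) + 2 * (x / l ^ (U + 3)) := by
      rw [hI1]
      rw [abs_le] at q1 q2
      have : θ y - θ y0 = (θ y - cc * y) - (θ y0 - cc * y0) + cc * ((y : ℝ) - y0) := by ring
      rw [this]
      linarith [q1.2, q2.1]
    have q6 : ∑ n ∈ Ioc y0 y, PZ a n ≤ 2 * (x / l ^ (U + 3)) + 2 * (x / l ^ (U + 3)) := by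
      rw [hI2]
      have q3' := (abs_le.1 q3).2
      have q4' := (abs_le.1 q4).1
      simp only [hPZ] at hI2 ⊢
      have e9 : cc * ((y : ℝ) - y0) = cc * y - cc * y0 := by ring
      rw [e9] at hcy
      linarith
    have e1 : ∑ n ∈ Icc 1 y, w n * PP a n - ∑ n ∈ Icc 1 y, w n * PZ a n =
        (∑ n ∈ Icc 1 y0, w n * (PL a n - PZ a n) - ∑ n ∈ Icc 1 y0, w n * (PL a n - PP a n)) +
        (∑ n ∈ Ioc y0 y, w n * PP a n - ∑ n ∈ Ioc y0 y, w n * PZ a n) := by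
      rw [hsplit, hsplit]
      simp only [mul_sub]
      rw [sum_sub_distrib, sum_sub_distrib]
      ring
    have q7 : |∑ n ∈ Ioc y0 y, w n * PP a n| ≤ ∑ n ∈ Ioc y0 y, PP a n := by
      refine (abs_sum_le_sum_abs _ _).trans (sum_le_sum fun n _ => ?_)
      rw [abs_mul, abs_of_nonneg (hPP0 n)]
      exact mul_le_of_le_one_left (hPP0 n) (hw n)
    have q8 : |∑ n ∈ Ioc y0 y, w n * PZ a n| ≤ ∑ n ∈ Ioc y0 y, PZ a n := by
      refine (abs_sum_le_sum_abs _ _).trans (sum_le_sum fun n _ => ?_)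
      rw [abs_mul, abs_of_nonneg (hPZ0 n)]
      exact mul_le_of_le_one_left (hPZ0 n) (hw n)
    have q9 : |∑ n ∈ Icc 1 y0, w n * (PL a n - PZ a n)| ≤ T a := by
      have := hTjT j hj
      have h7 := hTj0 j
      have h8' := hTpp0 a
      have e3 : Tw j a = |∑ n ∈ Icc 1 y0, w n * (PL a n - PZ a n)| := by simp only [hTw, hy0]
      rw [← e3]
      linarith
    have q10 : |∑ n ∈ Icc 1 y0, w n * (PL a n - PP a n)| ≤ T a := by
      refine (hppw w hw y0 hy0x).trans ?_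
      have := hTjT j hj
      have h7 := hTj0 j
      have h8' := hTw0 j
      linarith
    have q11 := hx4 (U + 2) (U + 3) (by omega)
    show |∑ n ∈ Icc 1 y, w n * PP a n - ∑ n ∈ Icc 1 y, w n * PZ a n| ≤ x / l ^ U
    rw [e1]
    have q12 := abs_add_le (∑ n ∈ Icc 1 y0, w n * (PL a n - PZ a n) - ∑ n ∈ Icc 1 y0, w n * (PL a n - PP a n))
      (∑ n ∈ Ioc y0 y, w n * PP a n - ∑ n ∈ Ioc y0 y, w n * PZ a n)
    have q13 := abs_sub (∑ n ∈ Icc 1 y0, w n * (PL a n - PZ a n)) (∑ n ∈ Icc 1 y0, w n * (PL a n - PP a n))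
    have q14 := abs_sub (∑ n ∈ Ioc y0 y, w n * PP a n) (∑ n ∈ Ioc y0 y, w n * PZ a n)
    have q15 := hfin 16 (by norm_num)
    linarith

end Pool.Agent.H544.VB
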