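import Mathlib
import Pool.Agent.H544.VB.M5
import Pool.Agent.H544.VB.C7

/-!
The mirrored problem: the unconditional theorem.
-/

set_option autoImplicit false

namespace Pool.Agent.H544.VB
open Finset Polynomial
open Pool.Agent.H373R2.T7 (ev_L' lamI lamzI lamP)
open Pool.Agent.H544.LD (Cz va Hp Bx)

variable {k : ℕ}

theorem kfinR (F : Fin k → ℤ[X]) (hd : ∀ i, 2 ≤ (F i).natDegree) (hl : ∀ i, 0 < (F i).leadingCoeff) (U G : ℕ) :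
    ∃ C0 E0 : ℕ, ∀ E1 : ℕ, ∃ n1 : ℕ, ∀ x : ℕ, n1 ≤ x → ∀ A a0 : Fin k → ℕ,
      (∀ i, (x : ℝ) ^ ((F i).natDegree - 1) * Real.log x ^ C0 ≤ A i) →
      (∀ i, (F i).natDegree = 2 → (x : ℝ) ^ 4 * Real.log x ^ C0 ≤ (A i : ℝ) ^ 3) →
      (∀ i, (A i : ℝ) + a0 i ≤ (x : ℝ) ^ (F i).natDegree * Real.log x ^ G) →
      (∀ i, ∀ n : ℕ, 1 ≤ n → n ≤ x → (F i).eval (n : ℤ) + A i ≤ a0 i) →
      ∀ z : ℕ, Real.log x ^ E0 ≤ z → (z : ℝ) ≤ Real.log x ^ E1 → ∀ w : ℕ → ℝ, (∀ n, |w n| ≤ 1) →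
      ∃ Bad ⊆ Bx A, (#Bad : ℝ) ≤ (∏ i, (A i : ℝ)) / Real.log x ^ U ∧ ∀ a ∈ Bx A, a ∉ Bad → ∀ y : ℕ, y ≤ x →
        |∑ n ∈ Icc 1 y, ∏ i, lamP (va (fun i => -F i) (a + a0) i n) - Cz (fun i => -F i) (a + a0) z * y| ≤ x / Real.log x ^ U ∧
        |∑ n ∈ Icc 1 y, w n * ∏ i, lamP (va (fun i => -F i) (a + a0) i n) -
          ∑ n ∈ Icc 1 y, w n * ∏ i, lamzI z (va (fun i => -F i) (a + a0) i n)| ≤ x / Real.log x ^ U := by
  obtain ⟨C1, E1', h1⟩ := xverR t_SUP v8 v12 F hd hl U G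
  refine ⟨C1, E1', fun E1 => ?_⟩
  obtain ⟨n1, h3⟩ := h1 E1
  obtain ⟨n3, h5⟩ := ev_L' 2
  refine ⟨n1 + n3 + 3, fun x hx A a0 hA1 hc hA2 hpos z hz1 hz2 w hw => ?_⟩
  have hL := h5 x (by omega)
  have hl1 : 1 ≤ Real.log x := by linarith
  have pm : ∀ i j : ℕ, i ≤ j → Real.log x ^ i ≤ Real.log x ^ j := fun i j h => pow_le_pow_right₀ hl1 h
  have hx1 : (1 : ℝ) ≤ x := by exact_mod_cast (by omega : 1 ≤ x)
  apply h3 x (by omega) A a0 _ z hz1 hz2 w hw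
  intro i
  refine ⟨hA1 i, ?_, hA2 i, hpos i⟩
  by_cases h2d : (F i).natDegree = 2
  · rw [h2d]
    exact hc i h2d
  · have h3d : 3 ≤ (F i).natDegree := by have := hd i; omega
    have hA := hA1 i
    calc (x : ℝ) ^ (2 * (F i).natDegree) * Real.log x ^ C1 ≤ (x : ℝ) ^ (((F i).natDegree - 1) * 3) * Real.log x ^ (C1 * 3) := by
          have h7 : (x : ℝ) ^ (2 * (F i).natDegree) ≤ (x : ℝ) ^ (((F i).natDegree - 1) * 3) := pow_le_pow_right₀ hx1 (by omega)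
          have h8 := pm C1 (C1 * 3) (by omega)
          gcongr
      _ = ((x : ℝ) ^ ((F i).natDegree - 1) * Real.log x ^ C1) ^ 3 := by rw [mul_pow, ← pow_mul, ← pow_mul]
      _ ≤ (A i : ℝ) ^ 3 := by gcongr

end Pool.Agent.H544.VB
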